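import Pool.Agent.H2.SPH.Frc
import Pool.Agent.H75.INF.Lia
import Mathlib

/-!
# [H19 LK] The Lawrence-Krammer representation: definitions

Blueprint: think notes 1431 and the one named `LK chapter` of helper19. `M` is a simply laced Coxeter matrix (`SLa`, labels `2` and `3`) without
triangles (`NoT`). `cm` is the Cartan matrix, `pa M i v` the pairing `(α_i, v)` for `v` in the root lattice `B →₀ ℤ`, `rf M i v = s_i v`, `Rt M v`: `v` is
a root (real root), `Ps M`: the positive roots, `sp M i = α_i`, `rp M i β = s_i β` (and `β` if `s_i β` is not positive, that is for `β = α_i`), `ht` the height.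

For a commutative `ℚ`-algebra `R`: `tau M R k : V → V`, `V = Ps M →₀ R`, is the Hecke part at `q = 1/2`:
`e_β ↦ 0` (`β = α_k`), `e_(s_k β)` (`(α_k, β) > 0`), `e_β` (`= 0`), `(e_β + e_(s_k β)) / 2` (`< 0`). `fl M g R k` is the functional `e_β ↦ g k β - 1`, and
`op M g R θ k = tau M R k + θ • e_k ⊗ fl M g R k` the Lawrence-Krammer operator. `GOk M g` collects the properties of the integers `g k β` which give the
braid relations.

`VT M R T`: the span of the `e_β`, `supp β ⊆ T`.
-/

set_option autoImplicit false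

namespace Pool.Agent.H19.LK

open Pool.H8.CDW Pool.Agent.H52.PAG Pool.Agent.H75.INF Pool.Agent.H2.SPH

variable {B : Type} (M : CoxeterMatrix B)

/-- simply laced -/
def SLa : Prop := ∀ i j, i ≠ j → M i j = 2 ∨ M i j = 3

/-- no triangles in the Coxeter graph -/
def NoT : Prop := ∀ i j k, M i j = 3 → M j k = 3 → M i k ≠ 3

/-- the Cartan matrix -/
def cm (i j : B) : ℤ := if M i j = 1 then 2 else if M i j = 3 then -1 else 0

/-- the pairing `(α_i, v)` -/
noncomputable def pa (i : B) (v : B →₀ ℤ) : ℤ := v.sum fun j n => n * cm M i j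

/-- the reflection `s_i` -/
noncomputable def rf (i : B) (v : B →₀ ℤ) : B →₀ ℤ := v - Finsupp.single i (pa M i v)

/-- the (real) roots -/
def Rt (v : B →₀ ℤ) : Prop := ∃ (l : List B) (i : B), v = l.foldr (rf M) (Finsupp.single i 1)

/-- the positive roots -/
abbrev Ps : Type := {v : B →₀ ℤ // Rt M v ∧ 0 ≤ v}

/-- the height -/
noncomputable def ht (v : B →₀ ℤ) : ℤ := v.sum fun _ n => n

/-- the symmetric bilinear form -/
noncomputable def pr (u v : B →₀ ℤ) : ℤ := u.sum fun i n => n * pa M i v

/-- the simple root `α_i` -/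
noncomputable def sp (i : B) : Ps M := ⟨Finsupp.single i 1, ⟨[], i, rfl⟩, Finsupp.single_nonneg.2 zero_le_one⟩

open Classical in
/-- the reflection on the positive roots -/
noncomputable def rp (i : B) (β : Ps M) : Ps M :=
  if h : Rt M (rf M i β.1) ∧ 0 ≤ rf M i β.1 then ⟨rf M i β.1, h⟩ else β

/-- one half -/
noncomputable def hf (R : Type) [CommRing R] [Algebra ℚ R] : R := algebraMap ℚ R (1 / 2)

section ops

variable (R : Type) [CommRing R] [Algebra ℚ R]

open Classical in
/-- the values of `tau` -/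
noncomputable def tv (k : B) (β : Ps M) : Ps M →₀ R :=
  if β = sp M k then 0 else if 0 < pa M k β.1 then Finsupp.single (rp M k β) 1
    else if pa M k β.1 = 0 then Finsupp.single β 1
    else Finsupp.single β (hf R) + Finsupp.single (rp M k β) (hf R)

/-- the Hecke part -/
noncomputable def tau (k : B) : Module.End R (Ps M →₀ R) := Finsupp.linearCombination R (tv M R k)

/-- the functional -/
noncomputable def fl (g : B → Ps M → ℤ) (k : B) : (Ps M →₀ R) →ₗ[R] R :=
  Finsupp.linearCombination R fun β => (((g k β - 1 : ℤ)) : R)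

/-- the Lawrence-Krammer operators -/
noncomputable def op (g : B → Ps M → ℤ) (θ : R) (k : B) : Module.End R (Ps M →₀ R) :=
  tau M R k + θ • (fl M R g k).smulRight (Finsupp.single (sp M k) (1 : R))

/-- the span of the `e_β`, `supp β ⊆ T` -/
def VT (T : Set B) : Submodule R (Ps M →₀ R) := Finsupp.supported R R {β : Ps M | (β.1.support : Set B) ⊆ T}

end ops

/-- `2 g_i(τ_j β)` -/
noncomputable def gt (g : B → Ps M → ℤ) (i j : B) (β : Ps M) : ℤ :=
  if 0 < pa M j β.1 then 2 * g i (rp M j β) else if pa M j β.1 = 0 then 2 * g i β else g i β + g i (rp M j β)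

/-- the properties of the coefficients -/
structure GOk (g : B → Ps M → ℤ) : Prop where
  self : ∀ i, g i (sp M i) = 2
  oth : ∀ i j, i ≠ j → g i (sp M j) = 1
  pos : ∀ i β, 0 < pa M i β.1 → β ≠ sp M i → g i β = 0
  c1 : ∀ i j β, M i j = 2 → β ≠ sp M j → g i (rp M j β) = g i β
  c3 : ∀ i j β, M i j = 3 → β ≠ sp M i → β ≠ sp M j → gt M g i j β = gt M g j i β
  van : ∀ i (β : Ps M), β.1 i = 0 → -1 ≤ pa M i β.1 → g i β = 1

/-- the rational functions -/
abbrev KK : Type := FractionRing (Polynomial ℚ)

/-- the variable -/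
noncomputable def tt : KK := algebraMap (Polynomial ℚ) KK Polynomial.X

variable {M}

theorem cm_self (i : B) : cm M i i = 2 := by
  unfold cm
  rw [M.diagonal, if_pos rfl]

theorem cm_two {i j : B} (h : M i j = 2) : cm M i j = 0 := by
  unfold cm
  rw [h]
  norm_num

theorem cm_three {i j : B} (h : M i j = 3) : cm M i j = -1 := by
  unfold cm
  rw [h]
  norm_num

theorem cm_symm (i j : B) : cm M i j = cm M j i := by
  unfold cm
  rw [M.symmetric i j]

theorem pa_add (i : B) (u v : B →₀ ℤ) : pa M i (u + v) = pa M i u + pa M i v := by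
  classical
  unfold pa
  rw [Finsupp.sum_add_index' (fun _ => zero_mul _) (fun _ _ _ => add_mul _ _ _)]

theorem pa_single (i j : B) (n : ℤ) : pa M i (Finsupp.single j n) = n * cm M i j := by
  unfold pa
  rw [Finsupp.sum_single_index (zero_mul _)]

theorem pa_zero (i : B) : pa M i 0 = 0 := Finsupp.sum_zero_index

theorem pa_neg (i : B) (v : B →₀ ℤ) : pa M i (-v) = - pa M i v := by
  have h := pa_add (M := M) i v (-v)
  rw [add_neg_cancel, pa_zero] at h
  omega

theorem pa_sub (i : B) (u v : B →₀ ℤ) : pa M i (u - v) = pa M i u - pa M i v := by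
  rw [sub_eq_add_neg, pa_add, pa_neg, sub_eq_add_neg]

theorem pa_smul (i : B) (n : ℤ) (v : B →₀ ℤ) : pa M i (n • v) = n * pa M i v := by
  induction v using Finsupp.induction_linear with
  | zero => rw [smul_zero, pa_zero, mul_zero]
  | add u v hu hv => rw [smul_add, pa_add, pa_add, hu, hv, mul_add]
  | single j m => rw [Finsupp.smul_single, pa_single, pa_single, smul_eq_mul, mul_assoc]

theorem pa_rf (i j : B) (v : B →₀ ℤ) : pa M i (rf M j v) = pa M i v - pa M j v * cm M i j := by
  unfold rf
  rw [pa_sub, pa_single]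

theorem rf_rf (i : B) (v : B →₀ ℤ) : rf M i (rf M i v) = v := by
  have h : pa M i (rf M i v) = - pa M i v := by
    rw [pa_rf, cm_self]
    omega
  have h2 : rf M i (rf M i v) = rf M i v - Finsupp.single i (pa M i (rf M i v)) := rfl
  rw [h2, h, Finsupp.single_neg, sub_neg_eq_add]
  unfold rf
  rw [sub_add_cancel]

theorem rf_comm {i j : B} (h : M i j = 2) (v : B →₀ ℤ) : rf M i (rf M j v) = rf M j (rf M i v) := by
  have h1 : pa M i (rf M j v) = pa M i v := by
    rw [pa_rf, cm_two h, mul_zero, sub_zero]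
  have h2 : pa M j (rf M i v) = pa M j v := by
    rw [pa_rf, cm_symm, cm_two h, mul_zero, sub_zero]
  have e1 : rf M i (rf M j v) = rf M j v - Finsupp.single i (pa M i (rf M j v)) := rfl
  have e2 : rf M j (rf M i v) = rf M i v - Finsupp.single j (pa M j (rf M i v)) := rfl
  rw [e1, e2, h1, h2]
  unfold rf
  abel

theorem rf_braid {i j : B} (h : M i j = 3) (v : B →₀ ℤ) :
    rf M i (rf M j (rf M i v)) = rf M j (rf M i (rf M j v)) := by
  have hij : cm M i j = -1 := cm_three h
  have hji : cm M j i = -1 := by rw [cm_symm, hij]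
  have e : ∀ (k : B) (w : B →₀ ℤ), rf M k w = w - Finsupp.single k (pa M k w) := fun _ _ => rfl
  have h1 : pa M j (rf M i v) = pa M j v + pa M i v := by rw [pa_rf, hji]; ring
  have h2 : pa M i (rf M j (rf M i v)) = pa M j v := by
    rw [pa_rf, pa_rf, h1, hij, cm_self]; ring
  have h3 : pa M i (rf M j v) = pa M i v + pa M j v := by rw [pa_rf, hij]; ring
  have h4 : pa M j (rf M i (rf M j v)) = pa M i v := by
    rw [pa_rf, pa_rf, h3, hji, cm_self]; ring
  rw [e i (rf M j (rf M i v)), h2, e j (rf M i v), h1, e i v, e j (rf M i (rf M j v)), h4, e i (rf M j v), h3, e j v,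
    Finsupp.single_add, Finsupp.single_add]
  abel

theorem rf_apply_ne {i j : B} (h : j ≠ i) (v : B →₀ ℤ) : rf M i v j = v j := by
  unfold rf
  rw [Finsupp.sub_apply, Finsupp.single_eq_of_ne h, sub_zero]

theorem rf_apply_self (i : B) (v : B →₀ ℤ) : rf M i v i = v i - pa M i v := by
  unfold rf
  rw [Finsupp.sub_apply, Finsupp.single_eq_same]

theorem Rt.rf {v : B →₀ ℤ} (h : Rt M v) (i : B) : Rt M (rf M i v) := by
  obtain ⟨l, j, rfl⟩ := h
  exact ⟨i :: l, j, rfl⟩

theorem ht_add (u v : B →₀ ℤ) : ht (u + v) = ht u + ht v := by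
  classical
  unfold ht
  rw [Finsupp.sum_add_index' (fun _ => rfl) (fun _ _ _ => rfl)]

theorem ht_single (j : B) (n : ℤ) : ht (Finsupp.single j n) = n := by
  unfold ht
  rw [Finsupp.sum_single_index rfl]

theorem ht_rf (i : B) (v : B →₀ ℤ) : ht (LK.rf M i v) = ht v - pa M i v := by
  have h : ht (LK.rf M i v + Finsupp.single i (pa M i v)) = ht v := by
    unfold LK.rf
    rw [sub_add_cancel]
  rw [ht_add, ht_single] at h
  omega

theorem sp_val (i : B) : (sp M i).1 = Finsupp.single i 1 := rfl

theorem Ps.ext {β γ : Ps M} (h : β.1 = γ.1) : β = γ := Subtype.ext h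

theorem hf_add (R : Type) [CommRing R] [Algebra ℚ R] : hf R + hf R = 1 := by
  unfold hf
  rw [← map_add]
  norm_num

theorem tau_single (R : Type) [CommRing R] [Algebra ℚ R] (k : B) (β : Ps M) (a : R) :
    tau M R k (Finsupp.single β a) = a • tv M R k β := Finsupp.linearCombination_single _ _ _

theorem fl_single (R : Type) [CommRing R] [Algebra ℚ R] (g : B → Ps M → ℤ) (k : B) (β : Ps M) (a : R) :
    fl M R g k (Finsupp.single β a) = a * ((g k β - 1 : ℤ) : R) := Finsupp.linearCombination_single _ _ _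

theorem op_apply (R : Type) [CommRing R] [Algebra ℚ R] (g : B → Ps M → ℤ) (θ : R) (k : B) (v : Ps M →₀ R) :
    op M R g θ k v = tau M R k v + (θ * fl M R g k v) • Finsupp.single (sp M k) 1 := by
  unfold op
  rw [LinearMap.add_apply, LinearMap.smul_apply, LinearMap.smulRight_apply, smul_smul]

end Pool.Agent.H19.LK
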