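import Pool.Agent.H19.LK.Def
import Pool.Agent.H8.CDW.D3

/-!
# [H19 LK FR] Fractions in parabolic subgroups of finite type

Let `N = resM M X`, `cs = N.toCoxeterSystem`, `Finite N.Group`. `amap : AM N →* AM M`, `ag N k ↦ ag M k.1` (`alift`, `ag_rel`: `N i j = M i.1 j.1`), `InX X (amap p)` (`am_ind`, `inX_ag`).
`ι : Art N →* Art M`, `gen k ↦ gen k.1` (`lift`, `gen_rel`, or `exists_inc`), `ι (inc N p) = inc M (amap p)` (`am_ind`). Every `x ∈ ap M X` is `ι x'` (`ap_induction`).
`frac_right`, `frac_left` (H2/SPH/Frc) for `N`, `X = Set.univ` (`x' ∈ ap N Set.univ`, `ap_univ`).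

`exists_D`: `D = amap (dl cs * dl cs)`. For `k : X`: `ag_mul_dl cs k`: `ag k * dl = dl * ag j`, where `j` is given by `cs.simple k * w0 = w0 * cs.simple j` (`exists_conj`; the proof of `ag_mul_dl` gives this `j`; or: from
`ag k * dl = dl * ag j` and `ag j * dl = dl * ag l` the images in the Coxeter group give `s_l = w0 s_j w0 = s_k` (`w0_sq`), `l = k` because the simple reflections are different:
`simple_injective` (H8/CDW/C2) needs `N i j ≠ 0`, which is `label_ne_zero` (H2/SPH/Del)). So `ag k * (dl * dl) = (dl * dl) * ag k`. Right divisor: `dl = tau (s_k w0) * ag j` as in the proof of `ag_mul_dl`; or `rev`: `rev (dl)`, or from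
`ag_dvd_dl`: `dl = ag k * z`, `ag k * dl = dl * ag j = ag k * z * ag j`, left cancellation (`am_left_cancel`): `dl = z * ag j`; every `j` occurs (the map `k ↦ j` is an involution).

`fin_mono`: `card_res cs hM J : Nat.card (resM M J).Group = Nat.card (par cs J)` (H8/CDW/D3), `par` is monotone (compare `fin_iff` in H54/BS/Red: `Finite (resM M T).Group ↔ Finite (par cs T)`).
-/

set_option autoImplicit false

namespace Pool.Agent.H19.LK

open CoxeterSystem Pool.H8.CDW Pool.Agent.H52.PAG Pool.Agent.H75.INF Pool.Agent.H2.SPH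

variable {B : Type} {M : CoxeterMatrix B}

private theorem fin_iff (hM : ∀ i j, M i j ≠ 0) (T : Set B) :
    Finite (resM M T).Group ↔ Finite (par M.toCoxeterSystem T) := by
  have h := card_res M.toCoxeterSystem hM T
  constructor
  · intro h1
    apply Nat.finite_of_card_ne_zero
    rw [← h]
    exact Nat.card_ne_zero.2 ⟨⟨1⟩, h1⟩
  · intro h1
    apply Nat.finite_of_card_ne_zero
    rw [h]
    exact Nat.card_ne_zero.2 ⟨⟨1⟩, h1⟩

/-- the inclusion of the monoids -/
private def amap (M : CoxeterMatrix B) (X : Set B) : AM (resM M X) →* AM M :=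
  alift (fun k => ag M k.1) fun _ _ h => ag_rel (M := M) h

private theorem amap_ag {X : Set B} (k : X) : amap M X (ag (resM M X) k) = ag M k.1 := rfl

private theorem inX_amap {X : Set B} (p : AM (resM M X)) : InX X (amap M X p) := by
  induction p using am_ind with
  | h1 =>
    rw [map_one]
    exact inX_one X
  | h i x ih =>
    rw [map_mul, inX_mul]
    exact ⟨inX_ag.2 i.2, ih⟩

/-- the homomorphism of the groups -/
private def iota (M : CoxeterMatrix B) (X : Set B) : Art (resM M X) →* Art M :=
  lift (fun k => gen M k.1) fun _ _ h => gen_rel (M := M) h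

private theorem iota_gen {X : Set B} (k : X) : iota M X (gen (resM M X) k) = gen M k.1 := lift_gen _ _ k

private theorem iota_inc {X : Set B} (p : AM (resM M X)) :
    iota M X (inc (resM M X) p) = inc M (amap M X p) := by
  induction p using am_ind with
  | h1 => rw [map_one, map_one, map_one, map_one]
  | h i x ih => rw [map_mul, map_mul, map_mul, map_mul, ih, inc_ag, iota_gen, amap_ag, inc_ag]

private theorem exists_iota {X : Set B} {x : Art M} (hx : x ∈ ap M X) : ∃ y, iota M X y = x := by
  refine ap_induction (P := fun x => ∃ y, iota M X y = x) ⟨1, map_one _⟩ ?_ ?_ hx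
  · rintro _ - k hk ⟨y, rfl⟩
    exact ⟨y * gen (resM M X) ⟨k, hk⟩, by rw [map_mul, iota_gen]⟩
  · rintro _ - k hk ⟨y, rfl⟩
    exact ⟨y * (gen (resM M X) ⟨k, hk⟩)⁻¹, by rw [map_mul, map_inv, iota_gen]⟩

private theorem conj_dl {A : Type} {N : CoxeterMatrix A} {W : Type} [Group W] [Finite W] (cs : CoxeterSystem N W)
    {i j : A} (hj : cs.simple i * w0 cs = w0 cs * cs.simple j) :
    ag N i * dl cs = dl cs * ag N j ∧ ∃ z, dl cs = z * ag N j := by
  have h1 := len_mul_w0 cs (cs.simple i)
  rw [cs.length_simple] at h1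
  have e1 : cs.simple i * (cs.simple i * w0 cs) = w0 cs := cs.simple_mul_simple_cancel_left i
  have e2 : cs.simple i * w0 cs * cs.simple j = w0 cs := by
    rw [hj, cs.simple_mul_simple_cancel_right]
  have h2 : dl cs = ag N i * Pool.Agent.H2.SPH.tau cs (cs.simple i * w0 cs) := by
    have h3 := tau_mul (cs := cs) (u := cs.simple i) (v := cs.simple i * w0 cs)
      (by rw [e1, cs.length_simple]; omega)
    rw [e1, tau_simple] at h3
    exact h3
  have h4 : dl cs = Pool.Agent.H2.SPH.tau cs (cs.simple i * w0 cs) * ag N j := by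
    have h3 := tau_mul (cs := cs) (u := cs.simple i * w0 cs) (v := cs.simple j)
      (by rw [e2, cs.length_simple]; omega)
    rw [e2, tau_simple] at h3
    exact h3
  refine ⟨?_, _, h4⟩
  calc ag N i * dl cs = ag N i * (Pool.Agent.H2.SPH.tau cs (cs.simple i * w0 cs) * ag N j) := by rw [← h4]
    _ = dl cs * ag N j := by rw [← mul_assoc, ← h2]

theorem fin_mono (hM : SLa M) {X Y : Set B} (h : X ⊆ Y) (hY : Finite (resM M Y).Group) :
    Finite (resM M X).Group := by
  have hM0 : ∀ i j, M i j ≠ 0 := by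
    intro i j
    by_cases hij : i = j
    · subst hij
      rw [M.diagonal]
      exact one_ne_zero
    · rcases hM i j hij with h1 | h1
      · rw [h1]; norm_num
      · rw [h1]; norm_num
  rw [fin_iff hM0] at hY ⊢
  exact Finite.of_injective (Subgroup.inclusion (par_mono M.toCoxeterSystem h))
    (Subgroup.inclusion_injective _)

theorem frac_r {X : Set B} (hf : Finite (resM M X).Group) {x : Art M} (hx : x ∈ ap M X) :
    ∃ u v, InX X u ∧ InX X v ∧ x = inc M u * (inc M v)⁻¹ := by
  have := hf
  obtain ⟨y, rfl⟩ := exists_iota hx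
  obtain ⟨u, v, -, -, h⟩ := frac_right (resM M X).toCoxeterSystem (X := Set.univ) (x := y)
    (by rw [ap_univ]; exact Subgroup.mem_top y)
  refine ⟨amap M X u, amap M X v, inX_amap u, inX_amap v, ?_⟩
  rw [h, map_mul, map_inv, iota_inc, iota_inc]

theorem frac_l {X : Set B} (hf : Finite (resM M X).Group) {x : Art M} (hx : x ∈ ap M X) :
    ∃ u v, InX X u ∧ InX X v ∧ x = (inc M u)⁻¹ * inc M v := by
  have := hf
  obtain ⟨y, rfl⟩ := exists_iota hx
  obtain ⟨u, v, -, -, h⟩ := frac_left (resM M X).toCoxeterSystem (X := Set.univ) (x := y)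
    (by rw [ap_univ]; exact Subgroup.mem_top y)
  refine ⟨amap M X u, amap M X v, inX_amap u, inX_amap v, ?_⟩
  rw [h, map_mul, map_inv, iota_inc, iota_inc]

theorem exists_D {X : Set B} (hf : Finite (resM M X).Group) :
    ∃ D : AM M, InX X D ∧ (∀ k ∈ X, D * ag M k = ag M k * D) ∧ ∀ k ∈ X, ∃ z, D = z * ag M k := by
  have := hf
  set N := resM M X with hN
  set cs := N.toCoxeterSystem with hcs
  have key : ∀ k : X, (dl cs * dl cs) * ag N k = ag N k * (dl cs * dl cs) ∧ ∃ z, dl cs * dl cs = z * ag N k := by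
    intro k
    obtain ⟨j, hj⟩ := exists_conj cs k
    have hj' : cs.simple j * w0 cs = w0 cs * cs.simple k := by
      have h1 : w0 cs * (cs.simple k * w0 cs) * w0 cs = w0 cs * (w0 cs * cs.simple j) * w0 cs := by rw [hj]
      have h2 : w0 cs * (cs.simple k * w0 cs) * w0 cs = w0 cs * cs.simple k := by
        rw [mul_assoc, mul_assoc, w0_sq, mul_one]
      have h3 : w0 cs * (w0 cs * cs.simple j) * w0 cs = cs.simple j * w0 cs := by
        rw [← mul_assoc, w0_sq, one_mul]
      rw [← h3, ← h1, h2]
    obtain ⟨h1, -⟩ := conj_dl cs hj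
    obtain ⟨h2, z, hz⟩ := conj_dl cs hj'
    refine ⟨?_, dl cs * z, ?_⟩
    · rw [← mul_assoc (ag N k), h1, mul_assoc (dl cs) (ag N j), h2, mul_assoc]
    · rw [mul_assoc, ← hz]
  refine ⟨amap M X (dl cs * dl cs), inX_amap _, fun k hk => ?_, fun k hk => ?_⟩
  · have h1 := congrArg (amap M X) (key ⟨k, hk⟩).1
    rw [map_mul, map_mul _ (ag N ⟨k, hk⟩)] at h1
    exact h1
  · obtain ⟨z, hz⟩ := (key ⟨k, hk⟩).2
    refine ⟨amap M X z, ?_⟩
    have h1 := congrArg (amap M X) hz
    rw [map_mul _ z] at h1
    exact h1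

/-- the central element commutes with all elements of the parabolic subgroup -/
theorem D_comm {X : Set B} {D : AM M} (hD : ∀ k ∈ X, D * ag M k = ag M k * D) {x : Art M} (hx : x ∈ ap M X) :
    inc M D * x = x * inc M D := by
  have key : ∀ k ∈ X, Commute (inc M D) (gen M k) := by
    intro k hk
    have h1 := congrArg (inc M) (hD k hk)
    rw [map_mul, map_mul, inc_ag] at h1
    exact h1
  show Commute (inc M D) x
  refine ap_induction (P := fun x => Commute (inc M D) x) (Commute.one_right _) ?_ ?_ hx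
  · intro x _ k hk h
    exact h.mul_right (key k hk)
  · intro x _ k hk h
    exact h.mul_right (key k hk).inv_right

end Pool.Agent.H19.LK
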