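import Pool.Agent.H19.LK.RtB

/-!
# [H19 LK GXA] The rules for the coefficients

`Rul M g i k β`: the value of `g i β` computed with the descent `k` of `β`. `Ok M g β`: `g` satisfies all rules at `β`. `Okb M g N`: at all roots of height
less than `N`.

`ok_c1`: if `pa j β = 0` use `rp_zero`. `rp_rp` makes the statement symmetric in `β`, `rp j β`, so let `pa j β < 0` (otherwise exchange; `rp_ne`, `pa_rp_self`).
Then `γ = rp j β` has `pa j γ > 0`, `γ ≠ sp j` (`rp_ne`); `γ` is not simple: `γ = sp m` has `pa j γ = cm j m > 0` only for `m = j`. `pa i γ = pa i β`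
(`pa_rp_two`). If `pa i γ ≤ 0`: `Ok.rul` at `γ` with `k = j`, `Rul = g i (rp j γ) = g i β` (`M i j = 2 ≠ 3`). If `pa i γ > 0`: `γ ≠ sp i` and `β ≠ sp i` because
`pa j (sp i) = 0`; both sides are `0` by `Ok.pos`.

`ok_rp`, `ok_r0`, `ok_rm`: `γ = rp j β` has `pa j γ = - pa j β > 0` and `pa i γ = pa i β + pa j β ≤ 0`; `γ` is not simple (`γ = sp m`, `pa j γ > 0` gives
`m = j`, excluded by `rp_ne`; `β ≠ sp j` because `pa j β < 0`). `Ok.rul` with `k = j` at `γ`, `rp j γ = β` (`rp_rp`), `if_pos` for `M i j = 3` and the sign of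
`pa i β`.
-/

set_option autoImplicit false

namespace Pool.Agent.H19.LK

open Pool.H8.CDW Pool.Agent.H52.PAG Pool.Agent.H75.INF Pool.Agent.H2.SPH

variable {B : Type} (M : CoxeterMatrix B)

/-- the rule for `g i β` with the descent `k` -/
noncomputable def Rul (g : B → Ps M → ℤ) (i k : B) (β : Ps M) : ℤ :=
  if M i k = 3 then
    if 0 < pa M i (rp M k β).1 then 2 * g k (rp M i (rp M k β))
    else if pa M i (rp M k β).1 = 0 then 2 * g k (rp M k β) - g i (rp M k β)
    else g i (rp M k β) + 2 * g k (rp M k β)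
  else g i (rp M k β)

/-- all rules at `β` -/
structure Ok (g : B → Ps M → ℤ) (β : Ps M) : Prop where
  self : ∀ i, β = sp M i → g i β = 2
  oth : ∀ i j, i ≠ j → β = sp M j → g i β = 1
  pos : ∀ i, β ≠ sp M i → 0 < pa M i β.1 → g i β = 0
  rul : ∀ i k, (∀ j, β ≠ sp M j) → pa M i β.1 ≤ 0 → 0 < pa M k β.1 → g i β = Rul M g i k β

/-- all rules for the roots of height less than `N` -/
def Okb (g : B → Ps M → ℤ) (N : ℤ) : Prop := ∀ γ : Ps M, ht γ.1 < N → Ok M g γ

variable {M}

/-- a root with two different positive pairings is not simple, and similar facts -/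
theorem eq_sp_of_pa {j m : B} {γ : Ps M} (h : γ = sp M m) (hp : 0 < pa M j γ.1) : m = j := by
  by_contra hne
  rw [h, simple_pa] at hp
  unfold cm at hp
  rw [if_neg (M.off_diagonal j m (Ne.symm hne))] at hp
  split_ifs at hp <;> omega

private theorem gxa_ns {j : B} {γ : Ps M} (h : γ ≠ sp M j) (hp : 0 < pa M j γ.1) (m : B) :
    γ ≠ sp M m := by
  intro hm
  have h1 := eq_sp_of_pa hm hp
  subst h1
  exact h hm

private theorem gxa_c1 (hM : SLa M) {g : B → Ps M → ℤ} {i j : B} (hij : M i j = 2) {γ : Ps M}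
    (hj : γ ≠ sp M j) (hp : 0 < pa M j γ.1) (h1 : Ok M g γ) (h2 : Ok M g (rp M j γ)) :
    g i γ = g i (rp M j γ) := by
  have hns := gxa_ns hj hp
  by_cases hi : 0 < pa M i γ.1
  · rw [h1.pos i (hns i) hi, h2.pos i]
    · intro h3
      have h4 := pa_rp_self hM hj
      have hji : M j i = 2 := by rw [M.symmetric j i, hij]
      rw [h3, simple_pa, cm_two hji] at h4
      omega
    · rw [pa_rp_two hM hj hij]
      exact hi
  · rw [h1.rul i j hns (by omega) hp]
    unfold Rul
    rw [if_neg (by rw [hij]; norm_num)]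

theorem ok_c1 (hM : SLa M) {g : B → Ps M → ℤ} {i j : B} (hij : M i j = 2) {β : Ps M} (hj : β ≠ sp M j)
    (h1 : Ok M g β) (h2 : Ok M g (rp M j β)) : g i (rp M j β) = g i β := by
  rcases lt_trichotomy (pa M j β.1) 0 with h | h | h
  · have h3 : 0 < pa M j (rp M j β).1 := by
      rw [pa_rp_self hM hj]
      omega
    have h4 := gxa_c1 hM hij (rp_ne hM hj) h3 h2 (by rw [rp_rp hM]; exact h1)
    rw [rp_rp hM] at h4
    exact h4
  · rw [rp_zero h]
  · exact (gxa_c1 hM hij hj h h1 h2).symm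

private theorem gxa_rul (hM : SLa M) {g : B → Ps M → ℤ} {i j : B} (hij : M i j = 3) {β : Ps M}
    (hb : pa M j β.1 < 0) (hab : pa M i β.1 + pa M j β.1 ≤ 0) (h : Ok M g (rp M j β)) :
    g i (rp M j β) = if 0 < pa M i β.1 then 2 * g j (rp M i β)
      else if pa M i β.1 = 0 then 2 * g j β - g i β else g i β + 2 * g j β := by
  have hj : β ≠ sp M j := by
    rintro rfl
    rw [simple_self] at hb
    omega
  have h1 : 0 < pa M j (rp M j β).1 := by
    rw [pa_rp_self hM hj]
    omega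
  have h2 : pa M i (rp M j β).1 ≤ 0 := by
    rw [pa_rp_three hM hj hij]
    exact hab
  rw [h.rul i j (gxa_ns (rp_ne hM hj) h1) h2 h1]
  unfold Rul
  rw [if_pos hij, rp_rp hM]

theorem ok_rp (hM : SLa M) {g : B → Ps M → ℤ} {i j : B} (hij : M i j = 3) {β : Ps M} (ha : 0 < pa M i β.1)
    (hb : pa M j β.1 < 0) (hab : pa M i β.1 + pa M j β.1 ≤ 0) (h : Ok M g (rp M j β)) :
    g i (rp M j β) = 2 * g j (rp M i β) := by
  rw [gxa_rul hM hij hb hab h, if_pos ha]

theorem ok_r0 (hM : SLa M) {g : B → Ps M → ℤ} {i j : B} (hij : M i j = 3) {β : Ps M} (ha : pa M i β.1 = 0)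
    (hb : pa M j β.1 < 0) (h : Ok M g (rp M j β)) : g i (rp M j β) = 2 * g j β - g i β := by
  rw [gxa_rul hM hij hb (by omega) h, if_neg (by omega), if_pos ha]

theorem ok_rm (hM : SLa M) {g : B → Ps M → ℤ} {i j : B} (hij : M i j = 3) {β : Ps M} (ha : pa M i β.1 < 0)
    (hb : pa M j β.1 < 0) (h : Ok M g (rp M j β)) : g i (rp M j β) = g i β + 2 * g j β := by
  rw [gxa_rul hM hij hb (by omega) h, if_neg (by omega), if_neg (by omega)]

end Pool.Agent.H19.LK
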