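import Pool.Agent.H19.LK.GxA

/-!
# [H19 LK GXB] Independence of the descent: the path k - i - l

`β` is not simple, `k`, `l` are descents, `M k l = 2`, `M i k = M i l = 3`, `a = pa i β ≤ 0`, `p = pa k β > 0`, `r = pa l β > 0`. Notation: `s_j = rp j`, `[x, y, z]` the
values of `pa i`, `pa k`, `pa l`. All roots below have height less than `ht β` (`ht_rp`), so `Ok` holds there; a root is different from `sp j` if its
pairings are not those of `sp j` (`simple_pa`: `sp i = [2, -1, -1]`, `sp k = [-1, 2, 0]`, `sp l = [-1, 0, 2]`), which is used for each application of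
`pa_rp`, `rp_rp`, `rp_comm`, `rp_braid`. We have `β ≠ sp i, sp k, sp l`.

`γ = s_k β = [a + p, -p, r]`, `γ' = s_l β = [a + r, p, -r]`, `δ = s_l γ = s_k γ' = [d, -p, -r]`, `d = a + p + r` (`rp_comm`). `γ = s_l δ`, `γ' = s_k δ` (`rp_rp`).
Put `c = a + p = pa i γ`, `c' = a + r = pa i γ'`. `Rul g i k β` is `2 g_k (s_i γ)` (`c > 0`), `2 g_k γ - g_i γ` (`c = 0`), `g_i γ + 2 g_k γ` (`c < 0`), and the same with
`l`, `γ'`, `c'`. By `ok_c1`: `g_k γ = g_k (s_l δ) = g_k δ`, `g_l γ' = g_l δ`. If `c ≤ 0`: `g_i γ = g_i (s_l δ)` is `2 g_l (s_i δ)` (`d > 0`, `ok_rp`), `2 g_l δ - g_i δ`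
(`d = 0`, `ok_r0`), `g_i δ + 2 g_l δ` (`d < 0`, `ok_rm`); in the same way, if `c' ≤ 0`, `g_i γ' = g_i (s_k δ)` is `2 g_k (s_i δ)`, `2 g_k δ - g_i δ`, `g_i δ + 2 g_k δ`.
Let `μ = s_i δ = [-d, c', c]` for `d > 0`, `δ ≠ sp i` (`pa k μ = -p + d = c'`, `pa l μ = -r + d = c`), `δ = s_i μ`.

(i) `c < 0`, `c' < 0`. `d < 0`: both sides are `g_i δ + 2 g_k δ + 2 g_l δ`. `d = 0`: `2 g_k δ + 2 g_l δ - g_i δ`. `d > 0`: the sides are `2 g_l μ + 2 g_k δ` and
`2 g_k μ + 2 g_l δ`, and `g_k δ = g_k (s_i μ) = g_k μ + 2 g_i μ`, `g_l δ = g_l μ + 2 g_i μ` (`ok_rm`, `pa i μ = -d < 0`).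
(ii) `c = 0`, `c' < 0` (`d = r > 0`). left `2 g_k δ - 2 g_l μ`, right `2 g_k μ + 2 g_l δ`; `g_k δ = g_k μ + 2 g_i μ` (`ok_rm`), `g_l δ = 2 g_i μ - g_l μ` (`ok_r0`).
(iii) `c = 0`, `c' = 0`. left `2 g_k δ - 2 g_l μ`, right `2 g_l δ - 2 g_k μ`; `g_k δ = 2 g_i μ - g_k μ`, `g_l δ = 2 g_i μ - g_l μ` (`ok_r0`).
(iv) `c > 0`, `c' < 0`. `ν = s_l μ = [-r, c', -c]` (`μ ≠ sp l` because `pa k μ = c' ≠ 0`). right: `g_i γ' + 2 g_l δ = 2 g_k μ + 4 g_i ν`
(`g_l δ = g_l (s_i μ) = 2 g_i (s_l μ)`, `ok_rp`: `pa l μ = c > 0`, `pa i μ = -d`, sum `-r`). left: `2 g_k (s_i γ)`, `s_i γ = s_i s_l s_i μ = s_l s_i s_l μ = s_l (s_i ν)` (`rp_braid`),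
`g_k (s_l (s_i ν)) = g_k (s_i ν)` (`ok_c1`) `= g_k ν + 2 g_i ν` (`ok_rm`: `pa k ν = c' < 0`, `pa i ν = -r < 0`), `g_k ν = g_k (s_l μ) = g_k μ`.
(v) `c > 0`, `c' = 0`. left: `2 g_k (s_i ν) = 2 (2 g_i ν - g_k ν) = 4 g_i ν - 2 g_k μ` (`ok_r0`). right: `2 g_l δ - g_i γ' = 4 g_i ν - 2 g_k μ`. (`μ = sp l` would give
`a = c - p = 2 - d = 1`, `pa i μ = -1 = -d`.)
(vi) `c > 0`, `c' > 0`. If `δ = sp i`: `p = r = 1`, `γ = s_l δ`, `s_i γ = s_i s_l (sp i) = sp l`, the left side is `2 g_k (sp l) = 2`, and the right side is `2 g_l (sp k) = 2`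
(`rp_val`, `Ps.ext`). Otherwise `μ ≠ sp k, sp l` (pairing `c'`, `c > 0`), `ν = s_l μ = [-r, c', -c]`, `ν ≠ sp k` (`pa l`), left `2 g_k (s_i ν) = 4 g_i (s_k ν)` (`ok_rp`: `pa k ν = c' > 0`,
`pa i ν = -r < 0`, sum `a ≤ 0`); the right side is `4 g_i (s_l (s_k μ))` by the symmetric computation, and `s_k s_l μ = s_l s_k μ` (`rp_comm`).
The cases with `k`, `l` exchanged follow by symmetry (state the lemma for `c ≥ c'`, i.e. `r ≤ p`, first).
-/

set_option autoImplicit false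

namespace Pool.Agent.H19.LK

open Pool.H8.CDW Pool.Agent.H52.PAG Pool.Agent.H75.INF Pool.Agent.H2.SPH

variable {B : Type} {M : CoxeterMatrix B}

private theorem gxb_e {a b : B} (hab : M a b = 3) :
    rf M a (rf M b (Finsupp.single a 1)) = Finsupp.single b 1 := by
  have hba : M b a = 3 := by rw [M.symmetric b a, hab]
  have e1 : rf M b (Finsupp.single a 1) = Finsupp.single a 1 + Finsupp.single b 1 := by
    unfold rf
    rw [pa_single, cm_three hba, one_mul, Finsupp.single_neg, sub_neg_eq_add]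
  have e2 : pa M a (Finsupp.single a 1 + Finsupp.single b 1) = 1 := by
    rw [pa_add, pa_single, pa_single, cm_self, cm_three hab]
    norm_num
  rw [e1]
  unfold rf
  rw [e2, add_sub_cancel_left]

/-- the rule with the descent `k` in terms of `δ = s_l s_k β`, `μ = s_i δ` -/
private theorem gxb_half (hM : SLa M) {g : B → Ps M → ℤ} {β : Ps M} (hg : Okb M g (ht β.1))
    {i k l : B} (hkl : M k l = 2) (hik : M i k = 3) (hil : M i l = 3) (hβ : ∀ j, β ≠ sp M j)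
    (ha : pa M i β.1 ≤ 0) (hp : 0 < pa M k β.1) (hr : 0 < pa M l β.1) {δ μ : Ps M}
    (hδ : δ = rp M l (rp M k β)) (hμ : μ = rp M i δ) {c c' d : ℤ}
    (hc : c = pa M i β.1 + pa M k β.1) (hc' : c' = pa M i β.1 + pa M l β.1)
    (hd : d = pa M i β.1 + pa M k β.1 + pa M l β.1) :
    (d < 0 → Rul M g i k β = g i δ + 2 * g l δ + 2 * g k δ) ∧
    (d = 0 → Rul M g i k β = 2 * g l δ + 2 * g k δ - g i δ) ∧
    (δ = sp M i → Rul M g i k β = 2) ∧
    (0 < d → δ ≠ sp M i → μ ≠ sp M l ∧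
      (c < 0 → c' < 0 → Rul M g i k β = 2 * g l μ + 2 * g k μ + 4 * g i μ) ∧
      (c < 0 → c' = 0 → Rul M g i k β = 2 * g l μ + 4 * g i μ - 2 * g k μ) ∧
      (c < 0 → 0 < c' → Rul M g i k β = 2 * g l μ + 4 * g i (rp M k μ)) ∧
      (c = 0 → c' < 0 → Rul M g i k β = 2 * g k μ + 4 * g i μ - 2 * g l μ) ∧
      (c = 0 → c' = 0 → Rul M g i k β = 4 * g i μ - 2 * g k μ - 2 * g l μ) ∧
      (c = 0 → 0 < c' → Rul M g i k β = 4 * g i (rp M k μ) - 2 * g l μ) ∧
      (0 < c → c' < 0 → Rul M g i k β = 2 * g k μ + 4 * g i (rp M l μ)) ∧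
      (0 < c → c' = 0 → Rul M g i k β = 4 * g i (rp M l μ) - 2 * g k μ) ∧
      (0 < c → 0 < c' → Rul M g i k β = 4 * g i (rp M k (rp M l μ)))) := by
  have hlk : M l k = 2 := by rw [M.symmetric l k, hkl]
  have hki : M k i = 3 := by rw [M.symmetric k i, hik]
  have hli : M l i = 3 := by rw [M.symmetric l i, hil]
  obtain ⟨γ, hγ⟩ : ∃ γ, γ = rp M k β := ⟨_, rfl⟩
  rw [← hγ] at hδ
  have γi : pa M i γ.1 = pa M i β.1 + pa M k β.1 := by rw [hγ, pa_rp_three hM (hβ k) hik]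
  have γk : pa M k γ.1 = - pa M k β.1 := by rw [hγ, pa_rp_self hM (hβ k)]
  have γl : pa M l γ.1 = pa M l β.1 := by rw [hγ, pa_rp_two hM (hβ k) hlk]
  have hγl : γ ≠ sp M l := by
    intro h
    rw [h, simple_pa, cm_two hkl] at γk
    omega
  have hγi : γ ≠ sp M i := by
    intro h
    rw [h, simple_pa, cm_three hli] at γl
    omega
  have δi : pa M i δ.1 = pa M i γ.1 + pa M l γ.1 := by rw [hδ, pa_rp_three hM hγl hil]
  have δk : pa M k δ.1 = pa M k γ.1 := by rw [hδ, pa_rp_two hM hγl hkl]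
  have δl : pa M l δ.1 = - pa M l γ.1 := by rw [hδ, pa_rp_self hM hγl]
  have hδl : δ ≠ sp M l := by
    intro h
    rw [h, simple_self] at δl
    omega
  have hδγ : rp M l δ = γ := by rw [hδ, rp_rp hM]
  have hγh : ht γ.1 = ht β.1 - pa M k β.1 := by rw [hγ, ht_rp hM (hβ k)]
  have hδh : ht δ.1 = ht γ.1 - pa M l γ.1 := by rw [hδ, ht_rp hM hγl]
  have okγ : Ok M g γ := hg γ (by omega)
  have okδ : Ok M g δ := hg δ (by omega)
  have okγ' : Ok M g (rp M l δ) := by rw [hδγ]; exact okγ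
  have gkγ : g k γ = g k δ := by
    have h := ok_c1 hM hkl hδl okδ okγ'
    rwa [hδγ] at h
  have giγ1 : 0 < pa M i δ.1 → pa M i γ.1 ≤ 0 → g i γ = 2 * g l μ := by
    intro h1 h2
    have h := ok_rp hM hil (β := δ) h1 (by omega) (by omega) okγ'
    rwa [hδγ, ← hμ] at h
  have giγ0 : pa M i δ.1 = 0 → g i γ = 2 * g l δ - g i δ := by
    intro h1
    have h := ok_r0 hM hil (β := δ) h1 (by omega) okγ'
    rwa [hδγ] at h
  have giγm : pa M i δ.1 < 0 → g i γ = g i δ + 2 * g l δ := by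
    intro h1
    have h := ok_rm hM hil (β := δ) h1 (by omega) okγ'
    rwa [hδγ] at h
  have hR : Rul M g i k β = if 0 < pa M i γ.1 then 2 * g k (rp M i γ)
      else if pa M i γ.1 = 0 then 2 * g k γ - g i γ else g i γ + 2 * g k γ := by
    unfold Rul
    rw [if_pos hik, ← hγ]
  have hRp : 0 < c → Rul M g i k β = 2 * g k (rp M i γ) := by
    intro h
    rw [hR, if_pos (by omega)]
  have hR0 : c = 0 → Rul M g i k β = 2 * g k δ - g i γ := by
    intro h
    rw [hR, if_neg (by omega), if_pos (by omega), gkγ]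
  have hRm : c < 0 → Rul M g i k β = g i γ + 2 * g k δ := by
    intro h
    rw [hR, if_neg (by omega), if_neg (by omega), gkγ]
  have okiγ : 0 < c → Ok M g (rp M i γ) := by
    intro h
    refine hg _ ?_
    rw [ht_rp hM hγi]
    omega
  refine ⟨?_, ?_, ?_, ?_⟩
  · intro h
    rw [hRm (by omega), giγm (by omega)]
  · intro h
    rw [hRm (by omega), giγ0 (by omega)]
    ring
  · intro h
    rw [h, simple_pa, cm_three hki] at δk
    rw [h, simple_pa, cm_three hli] at δl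
    rw [h, simple_self] at δi
    have hc1 : 0 < c := by omega
    have h1 : rp M i γ = sp M l := by
      apply Ps.ext
      have h2 : sp M i ≠ sp M l := by
        intro h3
        apply hδl
        rw [h, h3]
      rw [rp_val hM hγi, ← hδγ, h, rp_val hM h2, sp_val, sp_val, gxb_e hil]
    have hkl' : k ≠ l := by
      rintro rfl
      rw [M.diagonal] at hkl
      exact absurd hkl (by norm_num)
    rw [hRp hc1, (okiγ hc1).oth k l hkl' h1]
    rfl
  · intro h0 hδi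
    have μi : pa M i μ.1 = - pa M i δ.1 := by rw [hμ, pa_rp_self hM hδi]
    have μk : pa M k μ.1 = pa M k δ.1 + pa M i δ.1 := by rw [hμ, pa_rp_three hM hδi hki]
    have μl : pa M l μ.1 = pa M l δ.1 + pa M i δ.1 := by rw [hμ, pa_rp_three hM hδi hli]
    have hμδ : rp M i μ = δ := by rw [hμ, rp_rp hM]
    have hμh : ht μ.1 = ht δ.1 - pa M i δ.1 := by rw [hμ, ht_rp hM hδi]
    have okμ : Ok M g μ := hg μ (by omega)
    have okδ' : Ok M g (rp M i μ) := by rw [hμδ]; exact okδ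
    have gkm : c' < 0 → g k δ = g k μ + 2 * g i μ := by
      intro h
      have h1 := ok_rm hM hki (β := μ) (by omega) (by omega) okδ'
      rwa [hμδ] at h1
    have gk0 : c' = 0 → g k δ = 2 * g i μ - g k μ := by
      intro h
      have h1 := ok_r0 hM hki (β := μ) (by omega) (by omega) okδ'
      rwa [hμδ] at h1
    have gkp : 0 < c' → g k δ = 2 * g i (rp M k μ) := by
      intro h
      have h1 := ok_rp hM hki (β := μ) (by omega) (by omega) (by omega) okδ'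
      rwa [hμδ] at h1
    have hμi : μ ≠ sp M i := by
      rw [hμ]
      exact rp_ne hM hδi
    have hμl : μ ≠ sp M l := by
      intro h
      rw [h, simple_pa, cm_three hil] at μi
      rw [h, simple_self] at μl
      omega
    obtain ⟨ν, hν⟩ : ∃ ν, ν = rp M l μ := ⟨_, rfl⟩
    have νi : pa M i ν.1 = pa M i μ.1 + pa M l μ.1 := by rw [hν, pa_rp_three hM hμl hil]
    have νk : pa M k ν.1 = pa M k μ.1 := by rw [hν, pa_rp_two hM hμl hkl]
    have νl : pa M l ν.1 = - pa M l μ.1 := by rw [hν, pa_rp_self hM hμl]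
    have hνi : ν ≠ sp M i := by
      intro h
      rw [h, simple_self] at νi
      omega
    obtain ⟨ρ, hρ⟩ : ∃ ρ, ρ = rp M i ν := ⟨_, rfl⟩
    have ρi : pa M i ρ.1 = - pa M i ν.1 := by rw [hρ, pa_rp_self hM hνi]
    have hρl : ρ ≠ sp M l := by
      intro h
      rw [h, simple_pa, cm_three hil] at ρi
      omega
    have hνh : ht ν.1 = ht μ.1 - pa M l μ.1 := by rw [hν, ht_rp hM hμl]
    have hρh : ht ρ.1 = ht ν.1 - pa M i ν.1 := by rw [hρ, ht_rp hM hνi]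
    have hbr : rp M i γ = rp M l ρ := by
      have h := rp_braid hM hil hμi hμl (by rw [hμδ]; exact hδl)
      rw [hμδ, hδγ, ← hν, ← hρ] at h
      exact h
    have hgρ : 0 < c → g k (rp M i γ) = g k ρ := by
      intro h
      rw [hbr]
      exact ok_c1 hM hkl hρl (hg ρ (by omega)) (by rw [← hbr]; exact okiγ h)
    have hgν : 0 < c → g k ν = g k μ := by
      intro h
      rw [hν]
      exact ok_c1 hM hkl hμl okμ (by rw [← hν]; exact hg ν (by omega))
    have okρ : 0 < c → Ok M g (rp M i ν) := by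
      intro h
      rw [← hρ]
      exact hg ρ (by omega)
    refine ⟨hμl, ?_, ?_, ?_, ?_, ?_, ?_, ?_, ?_, ?_⟩
    · intro h1 h2
      rw [hRm h1, giγ1 (by omega) (by omega), gkm h2]
      ring
    · intro h1 h2
      rw [hRm h1, giγ1 (by omega) (by omega), gk0 h2]
      ring
    · intro h1 h2
      rw [hRm h1, giγ1 (by omega) (by omega), gkp h2]
      ring
    · intro h1 h2
      rw [hR0 h1, giγ1 (by omega) (by omega), gkm h2]
      ring
    · intro h1 h2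
      rw [hR0 h1, giγ1 (by omega) (by omega), gk0 h2]
      ring
    · intro h1 h2
      rw [hR0 h1, giγ1 (by omega) (by omega), gkp h2]
      ring
    · intro h1 h2
      have h3 := ok_rm hM hki (β := ν) (by omega) (by omega) (okρ h1)
      rw [← hρ, hgν h1] at h3
      rw [hRp h1, hgρ h1, h3, hν]
      ring
    · intro h1 h2
      have h3 := ok_r0 hM hki (β := ν) (by omega) (by omega) (okρ h1)
      rw [← hρ, hgν h1] at h3
      rw [hRp h1, hgρ h1, h3, hν]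
      ring
    · intro h1 h2
      have h3 := ok_rp hM hki (β := ν) (by omega) (by omega) (by omega) (okρ h1)
      rw [← hρ] at h3
      rw [hRp h1, hgρ h1, h3, hν]
      ring

theorem ind_kil (hM : SLa M) {g : B → Ps M → ℤ} {β : Ps M} (hg : Okb M g (ht β.1)) {i k l : B} (hkl : M k l = 2)
    (hik : M i k = 3) (hil : M i l = 3) (hβ : ∀ j, β ≠ sp M j) (ha : pa M i β.1 ≤ 0) (hp : 0 < pa M k β.1)
    (hr : 0 < pa M l β.1) : Rul M g i k β = Rul M g i l β := by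
  have hlk : M l k = 2 := by rw [M.symmetric l k, hkl]
  obtain ⟨δ, hδ⟩ : ∃ δ, δ = rp M l (rp M k β) := ⟨_, rfl⟩
  obtain ⟨μ, hμ⟩ : ∃ μ, μ = rp M i δ := ⟨_, rfl⟩
  have hδ' : δ = rp M k (rp M l β) := by
    rw [hδ]
    exact rp_comm hM hlk (hβ l) (hβ k)
  obtain ⟨c, hc⟩ : ∃ c, c = pa M i β.1 + pa M k β.1 := ⟨_, rfl⟩
  obtain ⟨c', hc'⟩ : ∃ c', c' = pa M i β.1 + pa M l β.1 := ⟨_, rfl⟩
  obtain ⟨d, hd⟩ : ∃ d, d = pa M i β.1 + pa M k β.1 + pa M l β.1 := ⟨_, rfl⟩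
  have hd' : d = pa M i β.1 + pa M l β.1 + pa M k β.1 := by omega
  obtain ⟨a1, a2, a3, a4⟩ := gxb_half hM hg hkl hik hil hβ ha hp hr hδ hμ hc hc' hd
  obtain ⟨b1, b2, b3, b4⟩ := gxb_half hM hg hlk hil hik hβ ha hr hp hδ' hμ hc' hc hd'
  by_cases hδi : δ = sp M i
  · rw [a3 hδi, b3 hδi]
  rcases lt_trichotomy d 0 with h | h | h
  · rw [a1 h, b1 h]
    ring
  · rw [a2 h, b2 h]
    ring
  · obtain ⟨x0, x1, x2, x3, x4, x5, x6, x7, x8, x9⟩ := a4 h hδi
    obtain ⟨y0, y1, y2, y3, y4, y5, y6, y7, y8, y9⟩ := b4 h hδi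
    rcases lt_trichotomy c 0 with h1 | h1 | h1 <;> rcases lt_trichotomy c' 0 with h2 | h2 | h2
    · rw [x1 h1 h2, y1 h2 h1]
      ring
    · rw [x2 h1 h2, y4 h2 h1]
    · rw [x3 h1 h2, y7 h2 h1]
    · rw [x4 h1 h2, y2 h2 h1]
    · rw [x5 h1 h2, y5 h2 h1]
      ring
    · rw [x6 h1 h2, y8 h2 h1]
    · rw [x7 h1 h2, y3 h2 h1]
    · rw [x8 h1 h2, y6 h2 h1]
    · rw [x9 h1 h2, y9 h2 h1, rp_comm hM hkl y0 x0]

end Pool.Agent.H19.LK
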