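import Pool.Agent.H19.LK.GxA

/-!
# [H19 LK GXC] Independence of the descent: the path i - k - l

`β` is not simple, `k`, `l` are descents, `M k l = 3`, `M i k = 3`, `M i l = 2`, `a = pa i β ≤ 0`, `p = pa k β > 0`, `r = pa l β > 0`. Notation: `s_j = rp j`, `[x, y, z]` the
values of `pa i`, `pa k`, `pa l`. All roots below have height less than `ht β`. `sp i = [2, -1, 0]`, `sp k = [-1, 2, -1]`, `sp l = [0, -1, 2]`; a root is different
from `sp j` if its pairings are different, which is used for each application of `pa_rp`, `rp_rp`, `rp_comm`, `rp_braid`.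

`γ = s_k β = [a + p, -p, p + r]`. EXCEPTION `γ = sp l`: then `a + p = 0`, `p = 1`, `r = 1`, `β = s_k (sp l)`, `s_l β = sp k` (`rp_val`, `Ps.ext`);
`Rul g i k β = 2 g_k (sp l) - g_i (sp l) = 2 - 1 = 1` and `Rul g i l β = g_i (sp k) = 1`.
Let `γ ≠ sp l`. Then `ε = s_l γ = [a + p, r, -p-r]`, `ε ≠ sp k`, `δ = s_k ε = [c', -r, -p]`, `c' = a + p + r`, and (`rp_braid`) `δ = s_l s_k s_l β`:
`s_l β = [a, p + r, -r]`, `β' = s_k (s_l β) = [c', -p-r, p]`, `δ = s_l β'`. So `β' = s_l δ`, `ε = s_k δ`, `γ = s_l ε`. Put `c = a + p`.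
left side `Rul g i k β`: `2 g_k (s_i γ)` (`c > 0`), `2 g_k γ - g_i γ` (`c = 0`), `g_i γ + 2 g_k γ` (`c < 0`).
right side `Rul g i l β = g_i (s_l β) = Rul g i k (s_l β)` (`Ok.rul` at `s_l β`, `pa i = a ≤ 0`, descent `k`; `s_l β` is not simple because `pa k > 0` and it is not `sp k`):
`2 g_k (s_i β')` (`c' > 0`), `2 g_k β' - g_i β'` (`c' = 0`), `g_i β' + 2 g_k β'` (`c' < 0`).
`g_i β' = g_i (s_l δ) = g_i δ` (`ok_c1`), `g_k β' = g_k (s_l δ) = g_k δ + 2 g_l δ` (`ok_rm`: `pa k δ = -r`, `pa l δ = -p`), `g_i γ = g_i (s_l ε) = g_i ε` (`ok_c1`),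
`g_k γ = g_k (s_l ε) = 2 g_l (s_k ε) = 2 g_l δ` (`ok_rp`: `pa k ε = r > 0`, `pa l ε = -p-r`, sum `-p`). If `c ≤ 0`: `g_i ε = g_i (s_k δ)` is `2 g_k (s_i δ)` (`c' > 0`), `2 g_k δ - g_i δ`
(`c' = 0`), `g_i δ + 2 g_k δ` (`c' < 0`). Let `μ = s_i δ = [-c', c, -p]` for `c' > 0` (`δ ≠ sp i` because `pa l δ = -p`).
(a) `c' < 0`: both sides `g_i δ + 2 g_k δ + 4 g_l δ`. (b) `c' = 0` (`c < 0`): both sides `2 g_k δ + 4 g_l δ - g_i δ`.
(c) `c' > 0`, `c < 0`: right `2 g_k (s_i s_l δ) = 2 g_k (s_l μ) = 2 g_k μ + 4 g_l μ` (`rp_comm`, `ok_rm`: `pa k μ = c`, `pa l μ = -p`); left `2 g_k μ + 4 g_l δ`,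
`g_l δ = g_l (s_i μ) = g_l μ` (`ok_c1`).
(d) `c' > 0`, `c = 0`: right `2 g_k (s_l μ) = 2 (2 g_l μ - g_k μ)` (`ok_r0`), left `4 g_l δ - g_i ε = 4 g_l μ - 2 g_k μ`.
(e) `c' > 0`, `c > 0`: right `2 g_k (s_l μ) = 4 g_l (s_k μ)` (`ok_rp`: `pa k μ = c > 0`, `pa l μ = -p`, sum `a ≤ 0`; `μ ≠ sp k`). Let `ν = s_k μ = [-r, -c, a]`. left: `2 g_k (s_i γ)`,
`s_i γ = s_i s_l ε = s_l s_i ε`, `s_i ε = s_i s_k s_i μ = s_k s_i s_k μ = s_k (s_i ν)`, so `s_i ε = [-c, c', -p-r]`, `2 g_k (s_l (s_i ε)) = 4 g_l (s_k (s_i ε)) = 4 g_l (s_i ν) = 4 g_l ν`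
(`ok_rp`: `pa k = c' > 0`, `pa l = -p-r`, sum `a ≤ 0`; `rp_rp`; `ok_c1`).
-/

set_option autoImplicit false

namespace Pool.Agent.H19.LK

open Pool.H8.CDW Pool.Agent.H52.PAG Pool.Agent.H75.INF Pool.Agent.H2.SPH

variable {B : Type} {M : CoxeterMatrix B}

set_option maxHeartbeats 1000000

private theorem ne_self {j : B} {x : Ps M} (h : pa M j x.1 ≠ 2) : x ≠ sp M j := by
  rintro rfl
  exact h (simple_self j)

private theorem ne_cm {j m : B} {x : Ps M} (h : pa M m x.1 ≠ cm M m j) : x ≠ sp M j := by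
  rintro rfl
  exact h (simple_pa m j)

private theorem lab_ne {i j : B} {n : ℕ} (h : M i j = n) (hn : n ≠ 1) : i ≠ j := by
  rintro rfl
  rw [M.diagonal] at h
  exact hn h.symm

/-- `s_k s_l`: if `s_k β = α_l` then `s_l β = α_k` -/
private theorem exch (hM : SLa M) {k l : B} (hkl : M k l = 3) {β : Ps M} (hk : β ≠ sp M k) (hl : β ≠ sp M l)
    (h : rp M k β = sp M l) : rp M l β = sp M k := by
  have hlk : M l k = 3 := by rw [M.symmetric, hkl]
  apply Ps.ext
  have h1 := congrArg Subtype.val h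
  rw [rp_val hM hk, sp_val] at h1
  have h2 : β.1 = rf M k (Finsupp.single l 1) := by rw [← h1, rf_rf]
  have h3 : rf M k (Finsupp.single l 1) = rf M l (Finsupp.single k 1) := by
    unfold rf
    rw [pa_single, pa_single, cm_three hkl, cm_three hlk, one_mul, Finsupp.single_neg, Finsupp.single_neg,
      sub_neg_eq_add, sub_neg_eq_add, add_comm]
  rw [rp_val hM hl, h2, h3, rf_rf, sp_val]

theorem ind_ikl (hM : SLa M) {g : B → Ps M → ℤ} {β : Ps M} (hg : Okb M g (ht β.1)) {i k l : B} (hkl : M k l = 3)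
    (hik : M i k = 3) (hil : M i l = 2) (hβ : ∀ j, β ≠ sp M j) (ha : pa M i β.1 ≤ 0) (hp : 0 < pa M k β.1)
    (hr : 0 < pa M l β.1) : Rul M g i k β = Rul M g i l β := by
  have hki : M k i = 3 := by rw [M.symmetric, hik]
  have hli : M l i = 2 := by rw [M.symmetric, hil]
  have hlk : M l k = 3 := by rw [M.symmetric, hkl]
  have hil3 : M i l ≠ 3 := by rw [hil]; norm_num
  -- `γ`
  obtain ⟨γ, eγ⟩ : ∃ γ, γ = rp M k β := ⟨_, rfl⟩
  have γi : pa M i γ.1 = pa M i β.1 + pa M k β.1 := by rw [eγ]; exact pa_rp_three hM (hβ k) hik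
  have γk : pa M k γ.1 = - pa M k β.1 := by rw [eγ]; exact pa_rp_self hM (hβ k)
  have γl : pa M l γ.1 = pa M l β.1 + pa M k β.1 := by rw [eγ]; exact pa_rp_three hM (hβ k) hlk
  have γh : ht γ.1 = ht β.1 - pa M k β.1 := by rw [eγ]; exact ht_rp hM (hβ k)
  -- `β1`
  obtain ⟨β1, eβ1⟩ : ∃ β1, β1 = rp M l β := ⟨_, rfl⟩
  have β1i : pa M i β1.1 = pa M i β.1 := by rw [eβ1]; exact pa_rp_two hM (hβ l) hil
  have β1k : pa M k β1.1 = pa M k β.1 + pa M l β.1 := by rw [eβ1]; exact pa_rp_three hM (hβ l) hkl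
  have β1l : pa M l β1.1 = - pa M l β.1 := by rw [eβ1]; exact pa_rp_self hM (hβ l)
  have β1h : ht β1.1 = ht β.1 - pa M l β.1 := by rw [eβ1]; exact ht_rp hM (hβ l)
  have hL : Rul M g i k β = if 0 < pa M i γ.1 then 2 * g k (rp M i γ)
      else if pa M i γ.1 = 0 then 2 * g k γ - g i γ else g i γ + 2 * g k γ := by
    unfold Rul
    rw [if_pos hik, ← eγ]
  have hR : Rul M g i l β = g i β1 := by
    unfold Rul
    rw [if_neg hil3, ← eβ1]
  by_cases hex : γ = sp M l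
  · have h1 : pa M i γ.1 = 0 := by rw [hex, simple_pa, cm_two hil]
    have h2 : β1 = sp M k := by
      rw [eβ1]
      exact exch hM hkl (hβ k) (hβ l) (by rw [← eγ, hex])
    rw [hL, hR, h1, if_neg (lt_irrefl _), if_pos rfl]
    have e1 := (hg γ (by omega)).oth k l (lab_ne hkl (by norm_num)) hex
    have e2 := (hg γ (by omega)).oth i l (lab_ne hil (by norm_num)) hex
    have e3 := (hg β1 (by omega)).oth i k (lab_ne hik (by norm_num)) h2
    omega
  have hβ1k : β1 ≠ sp M k := by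
    intro h
    apply hex
    rw [eγ]
    exact exch hM hlk (hβ l) (hβ k) (by rw [← eβ1, h])
  have hβ1 : ∀ j, β1 ≠ sp M j := by
    intro j hj
    have h1 := eq_sp_of_pa hj (j := k) (by omega)
    rw [h1] at hj
    exact hβ1k hj
  have hγl : γ ≠ sp M l := hex
  -- `ε`
  obtain ⟨ε, eε⟩ : ∃ ε, ε = rp M l γ := ⟨_, rfl⟩
  have εi : pa M i ε.1 = pa M i γ.1 := by rw [eε]; exact pa_rp_two hM hγl hil
  have εk : pa M k ε.1 = pa M k γ.1 + pa M l γ.1 := by rw [eε]; exact pa_rp_three hM hγl hkl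
  have εl : pa M l ε.1 = - pa M l γ.1 := by rw [eε]; exact pa_rp_self hM hγl
  have εh : ht ε.1 = ht γ.1 - pa M l γ.1 := by rw [eε]; exact ht_rp hM hγl
  have hεk : ε ≠ sp M k := ne_cm (m := l) (by rw [cm_three hlk]; omega)
  have hεi : ε ≠ sp M i := ne_cm (m := l) (by rw [cm_two hli]; omega)
  have hεl : ε ≠ sp M l := ne_self (by omega)
  -- `δ`
  obtain ⟨δ, eδ⟩ : ∃ δ, δ = rp M k ε := ⟨_, rfl⟩
  have δi : pa M i δ.1 = pa M i ε.1 + pa M k ε.1 := by rw [eδ]; exact pa_rp_three hM hεk hik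
  have δk : pa M k δ.1 = - pa M k ε.1 := by rw [eδ]; exact pa_rp_self hM hεk
  have δl : pa M l δ.1 = pa M l ε.1 + pa M k ε.1 := by rw [eδ]; exact pa_rp_three hM hεk hlk
  have δh : ht δ.1 = ht ε.1 - pa M k ε.1 := by rw [eδ]; exact ht_rp hM hεk
  have hδi : δ ≠ sp M i := ne_cm (m := l) (by rw [cm_two hli]; omega)
  have hδk : δ ≠ sp M k := ne_self (by omega)
  have hδl : δ ≠ sp M l := ne_self (by omega)
  -- `β'`
  obtain ⟨β', eβ'⟩ : ∃ β', β' = rp M k β1 := ⟨_, rfl⟩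
  have β'i : pa M i β'.1 = pa M i β1.1 + pa M k β1.1 := by rw [eβ']; exact pa_rp_three hM hβ1k hik
  have β'h : ht β'.1 = ht β1.1 - pa M k β1.1 := by rw [eβ']; exact ht_rp hM hβ1k
  have hbr : δ = rp M l β' := by
    rw [eδ, eε, eγ, eβ', eβ1]
    exact rp_braid hM hkl (hβ k) (hβ l) (by rw [← eγ]; exact hex)
  have eβ'δ : rp M l δ = β' := by rw [hbr, rp_rp hM]
  have eεδ : rp M k δ = ε := by rw [eδ, rp_rp hM]
  have eγε : rp M l ε = γ := by rw [eε, rp_rp hM]
  have oβ1 := hg β1 (by omega)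
  have oβ' := hg β' (by omega)
  have oγ := hg γ (by omega)
  have oε := hg ε (by omega)
  have oδ := hg δ (by omega)
  have hR2 : g i β1 = if 0 < pa M i β'.1 then 2 * g k (rp M i β')
      else if pa M i β'.1 = 0 then 2 * g k β' - g i β' else g i β' + 2 * g k β' := by
    rw [oβ1.rul i k hβ1 (by omega) (by omega)]
    unfold Rul
    rw [if_pos hik, ← eβ']
  have f1 : g i β' = g i δ := by
    rw [← eβ'δ]
    exact ok_c1 hM hil hδl oδ (by rw [eβ'δ]; exact oβ')
  have f2 : g k β' = g k δ + 2 * g l δ := by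
    rw [← eβ'δ]
    exact ok_rm hM hkl (by omega) (by omega) (by rw [eβ'δ]; exact oβ')
  have f3 : g i γ = g i ε := by
    rw [← eγε]
    exact ok_c1 hM hil hεl oε (by rw [eγε]; exact oγ)
  have f4 : g k γ = 2 * g l δ := by
    rw [← eγε, eδ]
    exact ok_rp hM hkl (by omega) (by omega) (by omega) (by rw [eγε]; exact oγ)
  rw [hL, hR, hR2]
  rcases lt_trichotomy (pa M i β'.1) 0 with hc' | hc' | hc'
  · -- (a)
    have f5 : g i ε = g i δ + 2 * g k δ := by
      rw [← eεδ]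
      exact ok_rm hM hik (by omega) (by omega) (by rw [eεδ]; exact oε)
    rw [if_neg (by omega), if_neg (by omega), if_neg (by omega), if_neg (by omega), f1, f2, f3, f4, f5]
    ring
  · -- (b)
    have f5 : g i ε = 2 * g k δ - g i δ := by
      rw [← eεδ]
      exact ok_r0 hM hik (by omega) (by omega) (by rw [eεδ]; exact oε)
    rw [if_neg (by omega), if_neg (by omega), if_neg (by omega), if_pos (by omega), f1, f2, f3, f4, f5]
    ring
  · -- `c' > 0`
    obtain ⟨μ, eμ⟩ : ∃ μ, μ = rp M i δ := ⟨_, rfl⟩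
    have μi : pa M i μ.1 = - pa M i δ.1 := by rw [eμ]; exact pa_rp_self hM hδi
    have μk : pa M k μ.1 = pa M k δ.1 + pa M i δ.1 := by rw [eμ]; exact pa_rp_three hM hδi hki
    have μl : pa M l μ.1 = pa M l δ.1 := by rw [eμ]; exact pa_rp_two hM hδi hli
    have μh : ht μ.1 = ht δ.1 - pa M i δ.1 := by rw [eμ]; exact ht_rp hM hδi
    have eδμ : rp M i μ = δ := by rw [eμ, rp_rp hM]
    have hμi : μ ≠ sp M i := ne_self (by omega)
    have hμl : μ ≠ sp M l := ne_self (by omega)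
    have ek : rp M i β' = rp M l μ := by
      rw [← eβ'δ, eμ]
      exact rp_comm hM hil hδi hδl
    have lμh : ht (rp M l μ).1 = ht μ.1 - pa M l μ.1 := ht_rp hM hμl
    have oμ := hg μ (by omega)
    have olμ := hg (rp M l μ) (by omega)
    have f6 : g l δ = g l μ := by
      rw [← eδμ]
      exact ok_c1 hM hli hμi oμ (by rw [eδμ]; exact oδ)
    rw [if_pos hc', ek]
    rcases lt_trichotomy (pa M i γ.1) 0 with hc | hc | hc
    · -- (c)
      have f5 : g i ε = 2 * g k μ := by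
        rw [← eεδ, eμ]
        exact ok_rp hM hik (by omega) (by omega) (by omega) (by rw [eεδ]; exact oε)
      have f7 : g k (rp M l μ) = g k μ + 2 * g l μ := ok_rm hM hkl (by omega) (by omega) olμ
      rw [if_neg (by omega), if_neg (by omega), f3, f4, f5, f6, f7]
      ring
    · -- (d)
      have f5 : g i ε = 2 * g k μ := by
        rw [← eεδ, eμ]
        exact ok_rp hM hik (by omega) (by omega) (by omega) (by rw [eεδ]; exact oε)
      have f7 : g k (rp M l μ) = 2 * g l μ - g k μ := ok_r0 hM hkl (by omega) (by omega) olμ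
      rw [if_neg (by omega), if_pos hc, f3, f4, f5, f6, f7]
      ring
    · -- (e)
      have hμk : μ ≠ sp M k := by
        intro h
        have h1 : pa M k μ.1 = 2 := by rw [h]; exact simple_self k
        have h2 : pa M l μ.1 = -1 := by rw [h, simple_pa, cm_three hlk]
        omega
      obtain ⟨ν, eν⟩ : ∃ ν, ν = rp M k μ := ⟨_, rfl⟩
      have νi : pa M i ν.1 = pa M i μ.1 + pa M k μ.1 := by rw [eν]; exact pa_rp_three hM hμk hik
      have νh : ht ν.1 = ht μ.1 - pa M k μ.1 := by rw [eν]; exact ht_rp hM hμk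
      have hνi : ν ≠ sp M i := ne_self (by omega)
      have iνh : ht (rp M i ν).1 = ht ν.1 - pa M i ν.1 := ht_rp hM hνi
      have f7 : g k (rp M l μ) = 2 * g l ν := by
        rw [eν]
        exact ok_rp hM hkl (by omega) (by omega) (by omega) olμ
      -- `ω`
      obtain ⟨ω, eω⟩ : ∃ ω, ω = rp M i ε := ⟨_, rfl⟩
      have ωk : pa M k ω.1 = pa M k ε.1 + pa M i ε.1 := by rw [eω]; exact pa_rp_three hM hεi hki
      have ωl : pa M l ω.1 = pa M l ε.1 := by rw [eω]; exact pa_rp_two hM hεi hli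
      have ωh : ht ω.1 = ht ε.1 - pa M i ε.1 := by rw [eω]; exact ht_rp hM hεi
      have hωl : ω ≠ sp M l := ne_self (by omega)
      have lωh : ht (rp M l ω).1 = ht ω.1 - pa M l ω.1 := ht_rp hM hωl
      have ek2 : rp M i γ = rp M l ω := by
        rw [← eγε, eω]
        exact rp_comm hM hil hεi hεl
      have ebr : ω = rp M k (rp M i ν) := by
        rw [eω, ← eεδ, ← eδμ, eν]
        exact rp_braid hM hik hμi hμk (by rw [eδμ]; exact hδk)
      have ekω : rp M k ω = rp M i ν := by rw [ebr, rp_rp hM]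
      have f8 : g k (rp M l ω) = 2 * g l (rp M k ω) :=
        ok_rp hM hkl (by omega) (by omega) (by omega) (hg _ (by omega))
      have f9 : g l (rp M i ν) = g l ν := ok_c1 hM hli hνi (hg _ (by omega)) (hg _ (by omega))
      rw [if_pos hc, ek2, f8, ekω, f9, f7]

end Pool.Agent.H19.LK
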