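import Pool.Agent.H19.LK.GxB
import Pool.Agent.H19.LK.GxC

/-!
# [H19 LK GXD] Existence of the coefficients

`ind`: `β` not simple, descents `k`, `l`, `pa i β ≤ 0` (so `i ≠ k, l`). `k = l` trivial. By `SLa` and `NoT`:
`M k l = 2`: (1) `M i k = M i l = 2`: `Rul g i k β = g_i (s_k β) = g_i (s_l s_k β)` (`ok_c1` at the roots `s_k β`, `s_l s_k β`, which are lower: `pa l (s_k β) = pa l β > 0`)
and symmetric, `rp_comm`. (2) `M i k = 3`, `M i l = 2` (or exchanged): let `γ = s_k β`, `c = pa i γ`; `s_l β` is not simple and `pa i (s_l β) = pa i β ≤ 0`, `pa k (s_l β) = pa k β > 0`, so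
`Rul g i l β = g_i (s_l β) = Rul g i k (s_l β)` (`Ok.rul`), `s_k s_l β = s_l γ`, `pa i (s_l γ) = c`, and in each of the three cases of `Rul` the terms agree by `ok_c1` for `l`:
`g_k (s_l γ) = g_k γ`, `g_i (s_l γ) = g_i γ`, `s_i s_l γ = s_l s_i γ`, `g_k (s_l (s_i γ)) = g_k (s_i γ)`. (3) `M i k = M i l = 3`: `ind_kil`.
`M k l = 3`: not both `M i k = 3`, `M i l = 3`. `M i k = 3`, `M i l = 2`: `ind_ikl`; exchanged: the same. `M i k = M i l = 2`: if `s_k β = sp l` then
`s_l β = sp k` and both sides are `1` (`i ≠ k, l`); otherwise `g_i (s_k β) = g_i (s_l s_k β) = g_i (s_k s_l s_k β)` and the same for the other side (`ok_c1` with `M i l = M i k = 2`,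
the heights decrease: pairings `pa l (s_k β) = p + r`, `pa k (s_l s_k β) = r`), `rp_braid`.

`exists_ok`: define `G : Ps M → B → ℤ` by well-founded recursion on `ht` (`ht_pos`, measure `(ht β.1).toNat`): `G β i = 2` if `β = sp i`, `1` if `β = sp j` for some `j ≠ i`, `0` if
`0 < pa i β`, and otherwise `Rul M g i k β` for a chosen `k` with `0 < pa k β` (`desc`), where only values at roots of smaller height occur
(`ht (rp k β) < ht β`; if `0 < pa i (rp k β)` then `ht (rp i (rp k β)) < ht β`). Convenient: show by induction on `N : ℕ` that there is `g` with `Okb M g N`, unique below height `N`, or use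
`WellFounded.fix` for the function `(γ with smaller height) → B → ℤ` extended by `0`. Then `Ok M g β` for all `β` by `ps_ind`: the rule for every descent from the rule for the chosen one
by `ind`.
-/

set_option autoImplicit false

namespace Pool.Agent.H19.LK

open Pool.H8.CDW Pool.Agent.H52.PAG Pool.Agent.H75.INF Pool.Agent.H2.SPH

variable {B : Type} {M : CoxeterMatrix B}

private theorem rul2 {g : B → Ps M → ℤ} {i k : B} (h : M i k = 2) (β : Ps M) :
    Rul M g i k β = g i (rp M k β) := by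
  unfold Rul
  rw [if_neg (by rw [h]; norm_num)]

private theorem ne_sp2 (hM : SLa M) {k l : B} (hkl : M k l = 2) {β : Ps M} (hβ : ∀ j, β ≠ sp M j) :
    rp M k β ≠ sp M l := by
  intro h
  have h1 : β = rp M k (sp M l) := by rw [← h, rp_rp hM]
  rw [rp_zero (by rw [simple_pa, cm_two hkl])] at h1
  exact hβ l h1

private theorem sp_ne {k l : B} (h : k ≠ l) : sp M k ≠ sp M l := by
  intro e
  have h1 : Finsupp.single k (1 : ℤ) = Finsupp.single l 1 := congrArg Subtype.val e
  rw [Finsupp.single_left_inj one_ne_zero] at h1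
  exact h h1

private theorem swp (hM : SLa M) {k l : B} (hkl : M k l = 3) {β : Ps M} (hβ : ∀ j, β ≠ sp M j)
    (h : rp M k β = sp M l) : rp M l β = sp M k := by
  have hne : k ≠ l := by
    rintro rfl
    rw [M.diagonal] at hkl
    norm_num at hkl
  have hlk : M l k = 3 := by rw [M.symmetric, hkl]
  have h1 : β.1 = Finsupp.single l 1 + Finsupp.single k 1 := by
    have h2 : β = rp M k (sp M l) := by rw [← h, rp_rp hM]
    rw [h2, rp_val hM (sp_ne hne.symm), sp_val]
    unfold rf
    rw [pa_single, cm_three hkl, one_mul, Finsupp.single_neg, sub_neg_eq_add]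
  apply Ps.ext
  rw [rp_val hM (hβ l), h1, sp_val]
  unfold rf
  rw [pa_add, pa_single, pa_single, cm_self, cm_three hlk]
  norm_num

/-- `M k l = 2`, `M i k = 3`, `M i l = 2` -/
private theorem ind2 (hM : SLa M) {g : B → Ps M → ℤ} {β : Ps M} (hg : Okb M g (ht β.1)) {i k l : B}
    (hkl : M k l = 2) (hik : M i k = 3) (hil : M i l = 2)
    (hβ : ∀ j, β ≠ sp M j) (ha : pa M i β.1 ≤ 0) (hp : 0 < pa M k β.1) (hr : 0 < pa M l β.1) :
    Rul M g i k β = Rul M g i l β := by
  have hlk : M l k = 2 := by rw [M.symmetric, hkl]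
  have hli : M l i = 2 := by rw [M.symmetric, hil]
  obtain ⟨γ, hγ⟩ : ∃ γ, γ = rp M k β := ⟨_, rfl⟩
  have hγl : γ ≠ sp M l := by rw [hγ]; exact ne_sp2 hM hkl hβ
  have hγh : ht γ.1 = ht β.1 - pa M k β.1 := by rw [hγ]; exact ht_rp hM (hβ k)
  have hγpl : pa M l γ.1 = pa M l β.1 := by rw [hγ]; exact pa_rp_two hM (hβ k) hlk
  have hlh : ht (rp M l γ).1 = ht γ.1 - pa M l γ.1 := ht_rp hM hγl
  have hγi : γ ≠ sp M i := by
    intro h
    rw [h, simple_pa, cm_two hli] at hγpl
    omega
  -- the other side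
  have h1 : pa M k (rp M l β).1 = pa M k β.1 := pa_rp_two hM (hβ l) hkl
  have h2 : pa M i (rp M l β).1 = pa M i β.1 := pa_rp_two hM (hβ l) hil
  have h3 : pa M l (rp M l β).1 = - pa M l β.1 := pa_rp_self hM (hβ l)
  have h4 : ∀ j, rp M l β ≠ sp M j := by
    intro j h
    have hj : j = k := eq_sp_of_pa h (by rw [h1]; exact hp)
    rw [h, hj, simple_pa, cm_two hlk] at h3
    omega
  have h5 : ht (rp M l β).1 = ht β.1 - pa M l β.1 := ht_rp hM (hβ l)
  rw [rul2 hil, (hg _ (by omega)).rul i k h4 (by omega) (by omega)]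
  have h6 : rp M k (rp M l β) = rp M l γ := by rw [hγ]; exact rp_comm hM hkl (hβ k) (hβ l)
  have h7 : pa M i (rp M l γ).1 = pa M i γ.1 := pa_rp_two hM hγl hil
  have okγ : Ok M g γ := hg _ (by omega)
  have oklγ : Ok M g (rp M l γ) := hg _ (by omega)
  have h8 : g k (rp M l γ) = g k γ := ok_c1 hM hkl hγl okγ oklγ
  have h9 : g i (rp M l γ) = g i γ := ok_c1 hM hil hγl okγ oklγ
  unfold Rul
  rw [if_pos hik, if_pos hik, h6, h7, ← hγ, h8, h9]
  by_cases hc : 0 < pa M i γ.1
  · rw [if_pos hc, if_pos hc]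
    have e1 : rp M i (rp M l γ) = rp M l (rp M i γ) := rp_comm hM hil hγi hγl
    have e2 : pa M i (rp M i γ).1 = - pa M i γ.1 := pa_rp_self hM hγi
    have e3 : rp M i γ ≠ sp M l := by
      intro h
      rw [h, simple_pa, cm_two hil] at e2
      omega
    have e4 : ht (rp M i γ).1 = ht γ.1 - pa M i γ.1 := ht_rp hM hγi
    have e5 : pa M l (rp M i γ).1 = pa M l γ.1 := pa_rp_two hM hγi hli
    have e6 : ht (rp M l (rp M i γ)).1 = ht (rp M i γ).1 - pa M l (rp M i γ).1 := ht_rp hM e3
    rw [e1, ok_c1 hM hkl e3 (hg _ (by omega)) (hg _ (by omega))]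
  · rw [if_neg hc, if_neg hc]

/-- `M k l = 3`, `M i k = M i l = 2` -/
private theorem ind3 (hM : SLa M) {g : B → Ps M → ℤ} {β : Ps M} (hg : Okb M g (ht β.1)) {i k l : B}
    (hkl : M k l = 3) (hik : M i k = 2) (hil : M i l = 2)
    (hβ : ∀ j, β ≠ sp M j) (hp : 0 < pa M k β.1) (hr : 0 < pa M l β.1) (hne : rp M k β ≠ sp M l) :
    g i (rp M k β) = g i (rp M k (rp M l (rp M k β))) := by
  have hlk : M l k = 3 := by rw [M.symmetric, hkl]
  have h1 : ht (rp M k β).1 = ht β.1 - pa M k β.1 := ht_rp hM (hβ k)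
  have h2 : pa M l (rp M k β).1 = pa M l β.1 + pa M k β.1 := pa_rp_three hM (hβ k) hlk
  have h2' : pa M k (rp M k β).1 = - pa M k β.1 := pa_rp_self hM (hβ k)
  have h3 : ht (rp M l (rp M k β)).1 = ht (rp M k β).1 - pa M l (rp M k β).1 := ht_rp hM hne
  have h4 : pa M k (rp M l (rp M k β)).1 = pa M k (rp M k β).1 + pa M l (rp M k β).1 := pa_rp_three hM hne hkl
  have h5 : pa M l (rp M l (rp M k β)).1 = - pa M l (rp M k β).1 := pa_rp_self hM hne
  have h6 : rp M l (rp M k β) ≠ sp M k := by
    intro h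
    rw [h, simple_pa, cm_three hlk] at h5
    omega
  have h7 : ht (rp M k (rp M l (rp M k β))).1 = ht (rp M l (rp M k β)).1 - pa M k (rp M l (rp M k β)).1 :=
    ht_rp hM h6
  rw [ok_c1 hM hik h6 (hg _ (by omega)) (hg _ (by omega)), ok_c1 hM hil hne (hg _ (by omega)) (hg _ (by omega))]

theorem ind (hM : SLa M) (hT : NoT M) {g : B → Ps M → ℤ} {β : Ps M} (hg : Okb M g (ht β.1)) {i k l : B}
    (hβ : ∀ j, β ≠ sp M j) (ha : pa M i β.1 ≤ 0) (hp : 0 < pa M k β.1) (hr : 0 < pa M l β.1) :
    Rul M g i k β = Rul M g i l β := by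
  have hki : i ≠ k := by
    rintro rfl
    omega
  have hli : i ≠ l := by
    rintro rfl
    omega
  by_cases hkl : k = l
  · rw [hkl]
  rcases hM k l hkl with h2 | h3
  · have h2' : M l k = 2 := by rw [M.symmetric, h2]
    rcases hM i k hki with hik | hik
    · rcases hM i l hli with hil | hil
      · -- both commute
        rw [rul2 hik, rul2 hil]
        have e1 : rp M k β ≠ sp M l := ne_sp2 hM h2 hβ
        have e1' : rp M l β ≠ sp M k := ne_sp2 hM h2' hβ
        have e2 : ht (rp M k β).1 = ht β.1 - pa M k β.1 := ht_rp hM (hβ k)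
        have e2' : ht (rp M l β).1 = ht β.1 - pa M l β.1 := ht_rp hM (hβ l)
        have e3 : pa M l (rp M k β).1 = pa M l β.1 := pa_rp_two hM (hβ k) h2'
        have e3' : pa M k (rp M l β).1 = pa M k β.1 := pa_rp_two hM (hβ l) h2
        have e4 : ht (rp M l (rp M k β)).1 = ht (rp M k β).1 - pa M l (rp M k β).1 := ht_rp hM e1
        have e4' : ht (rp M k (rp M l β)).1 = ht (rp M l β).1 - pa M k (rp M l β).1 := ht_rp hM e1'
        rw [← ok_c1 hM hil e1 (hg _ (by omega)) (hg _ (by omega)),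
          ← ok_c1 hM hik e1' (hg _ (by omega)) (hg _ (by omega)), rp_comm hM h2 (hβ k) (hβ l)]
      · exact (ind2 hM hg h2' hil hik hβ ha hr hp).symm
    · rcases hM i l hli with hil | hil
      · exact ind2 hM hg h2 hik hil hβ ha hp hr
      · exact ind_kil hM hg h2 hik hil hβ ha hp hr
  · have h3' : M l k = 3 := by rw [M.symmetric, h3]
    rcases hM i k hki with hik | hik
    · rcases hM i l hli with hil | hil
      · rw [rul2 hik, rul2 hil]
        by_cases hs : rp M k β = sp M l
        · have hs' := swp hM h3 hβ hs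
          have e2 : ht (rp M k β).1 = ht β.1 - pa M k β.1 := ht_rp hM (hβ k)
          have e2' : ht (rp M l β).1 = ht β.1 - pa M l β.1 := ht_rp hM (hβ l)
          rw [(hg _ (by omega)).oth i l hli hs, (hg _ (by omega)).oth i k hki hs']
        · have hs' : rp M l β ≠ sp M k := fun h => hs (swp hM h3' hβ h)
          rw [ind3 hM hg h3 hik hil hβ hp hr hs, ind3 hM hg h3' hil hik hβ hr hp hs',
            rp_braid hM h3 (hβ k) (hβ l) hs]
      · exact (ind_ikl hM hg h3' hil hik hβ ha hr hp).symm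
    · rcases hM i l hli with hil | hil
      · exact ind_ikl hM hg h3 hik hil hβ ha hp hr
      · exact absurd hil (hT i k l hik h3)

/-- the values used in the rule have smaller height -/
private theorem rul_congr (hM : SLa M) {g h : B → Ps M → ℤ} {β : Ps M} (hβ : ∀ j, β ≠ sp M j) {i k : B}
    (hp : 0 < pa M k β.1) (hgh : ∀ j γ, ht γ.1 < ht β.1 → g j γ = h j γ) : Rul M g i k β = Rul M h i k β := by
  have e1 : ht (rp M k β).1 = ht β.1 - pa M k β.1 := ht_rp hM (hβ k)
  have e2 : ∀ j, g j (rp M k β) = h j (rp M k β) := fun j => hgh j _ (by omega)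
  unfold Rul
  rw [e2, e2]
  by_cases hc : 0 < pa M i (rp M k β).1
  · have e3 : g k (rp M i (rp M k β)) = h k (rp M i (rp M k β)) := by
      by_cases h4 : rp M k β = sp M i
      · rw [h4, rp_sp, ← h4]
        exact e2 k
      · have e5 : ht (rp M i (rp M k β)).1 = ht (rp M k β).1 - pa M i (rp M k β).1 := ht_rp hM h4
        exact hgh k _ (by omega)
    rw [e3]
  · rw [if_neg hc, if_neg hc]

open Classical in
/-- one step of the recursion -/
private noncomputable def stp (M : CoxeterMatrix B) (h : B → Ps M → ℤ) (β : Ps M) (i : B) : ℤ :=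
  if β = sp M i then 2 else if ∃ j, β = sp M j then 1 else if 0 < pa M i β.1 then 0
    else Rul M h i (Classical.choose (desc β)) β

open Classical in
private noncomputable def Gf (M : CoxeterMatrix B) : Ps M → B → ℤ :=
  WellFounded.fix (measure fun β : Ps M => (ht β.1).toNat).wf fun β rec =>
    stp M (fun j γ => if h : (ht γ.1).toNat < (ht β.1).toNat then rec γ h j else 0) β

open Classical in
private theorem Gf_eq (M : CoxeterMatrix B) (β : Ps M) :
    Gf M β = stp M (fun j γ => if (ht γ.1).toNat < (ht β.1).toNat then Gf M γ j else 0) β := by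
  unfold Gf
  rw [WellFounded.fix_eq]
  congr 1

theorem exists_ok (hM : SLa M) (hT : NoT M) : ∃ g : B → Ps M → ℤ, ∀ β, Ok M g β := by
  classical
  refine ⟨fun i β => Gf M β i, fun β => ?_⟩
  refine ps_ind (P := fun β => Ok M (fun i β => Gf M β i) β) (fun β ih => ?_) β
  have hok : Okb M (fun i β => Gf M β i) (ht β.1) := ih
  constructor
  · intro i h
    rw [Gf_eq]
    unfold stp
    rw [if_pos h]
  · intro i j hij h
    rw [Gf_eq]
    unfold stp
    rw [if_neg (fun h' => hij (by
      by_contra hne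
      exact sp_ne hne (h'.symm.trans h))), if_pos ⟨j, h⟩]
  · intro i h hpos
    rw [Gf_eq]
    unfold stp
    rw [if_neg h]
    by_cases h2 : ∃ j, β = sp M j
    · obtain ⟨j, hj⟩ := h2
      have h3 : j = i := eq_sp_of_pa hj hpos
      exact absurd (h3 ▸ hj) h
    · rw [if_neg h2, if_pos hpos]
  · intro i k hβ ha hp
    have h1 : Gf M β i = Rul M (fun i β => Gf M β i) i (Classical.choose (desc β)) β := by
      rw [Gf_eq]
      unfold stp
      rw [if_neg (hβ i), if_neg (fun h => hβ _ h.choose_spec), if_neg (by omega)]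
      refine rul_congr hM hβ (Classical.choose_spec (desc β)).2 fun j γ hγ => ?_
      have h2 := ht_pos γ
      rw [if_pos (by omega)]
    rw [h1]
    exact ind hM hT hok hβ ha (Classical.choose_spec (desc β)).2 hp

end Pool.Agent.H19.LK
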