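import Pool.Agent.H19.LK.GxD

/-!
# [H19 LK GXE] The properties of the coefficients

`ok_zero`: if `M i j = 3` and `pa i β = pa j β = 0` then `g i β = g j β`. `ps_ind`. If `β = sp m` then `m ≠ i, j` (pairing `2`) and both are `1`. Otherwise let `k` be a descent (`desc`), `k ≠ i, j`,
`p = pa k β`. By `NoT` not both `M i k = 3` and `M j k = 3`. If `M i k = M j k = 2`: `g i β = g i (s_k β)`, `g j β = g j (s_k β)` (`Ok.rul`), pairings `0`: induction. If `M i k = 3`, `M j k = 2`
(the other case is symmetric): `γ = s_k β`: `pa i γ = p > 0`, `pa j γ = 0`, `pa k γ = -p`; `g i β = 2 g k (s_i γ)`, `g j β = g j γ`. `γ ≠ sp m` for all `m` (`pa i γ > 0` gives `m = i`, but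
`pa j (sp i) = -1`), so `g j γ = 2 g i (s_j s_i γ)` (`Ok.rul` with the descent `i`: `pa j (s_i γ) = p > 0`). `μ = s_i γ`: `pa i μ = -p`, `pa j μ = p`, `pa k μ = 0`; `μ ≠ sp j` (`pa j μ = p = 2` and
`pa i μ = -p = -1`). `ν = s_j μ`: `pa i ν = 0`, `pa j ν = -p`, `pa k ν = 0`. `g k μ = g k ν` (`ok_c1`, `M k j = 2`), `g j γ = 2 g i ν`, and `g k ν = g i ν` by induction.

`gok`. `c1`: `ok_c1`. `c3`: let `a = pa i β`, `b = pa j β`, up to symmetry: `a > 0`, `b > 0`: `gt g i j β = 2 g i (s_j β)`, `pa i (s_j β) = a + b > 0`, it is `0` unless `s_j β = sp i`, then it is `4`, and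
`s_j β = sp i` iff `s_i β = sp j` (`rp_val`, `β.1 = single i 1 + single j 1`). `a > 0`, `b = 0`: `gt g i j β = 2 g i β = 0` (`Ok.pos`, `β ≠ sp i`), `gt g j i β = 2 g j (s_i β) = 0` because
`pa j (s_i β) = a > 0` and `s_i β ≠ sp j` (it would give `pa j β = 1`). `a > 0`, `b < 0`: `gt g i j β = g i β + g i (s_j β) = g i (s_j β)`, `gt g j i β = 2 g j (s_i β)`; if `a + b ≤ 0`: `ok_rp`; if
`a + b > 0` both are `0` (`s_j β ≠ sp i`, `s_i β ≠ sp j` because of the pairings `pa j (s_j β) = -b > 0`, `pa i (s_i β) = - a < 0` and `pa j (s_i β) = 2` would need `β.1 = single i 1 + single j 1`, `b = 1`).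
`a = b = 0`: `ok_zero`. `a = 0`, `b < 0`: `gt g i j β = g i β + g i (s_j β) = 2 g j β` (`ok_r0`) `= gt g j i β`. `a < 0`, `b < 0`: both are `2 g i β + 2 g j β` (`ok_rm`).

`van`: `ps_ind`, for all `i`. `β = sp m`: `m ≠ i`, value `1`. Otherwise `pa i β ≤ 0` (`pa_nonpos`); a descent `k`, `k ≠ i`. `M i k = 2`: `g i β = g i (s_k β)`, `(s_k β) i = 0`, same pairing: induction.
`M i k = 3`: `γ = s_k β`, `γ i = 0`, `pa i γ = pa i β + pa k β ≥ 0` and `≤ 0`, so `pa i γ = 0`, `pa k β = 1`, `g i β = 2 g k γ - g i γ`. `pa i γ = 0` and `γ i = 0` give `γ k = 0` (all terms of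
`pa i γ` are `≤ 0`), `pa k γ = -1`: by induction `g k γ = g i γ = 1`.
-/

set_option autoImplicit false

namespace Pool.Agent.H19.LK

open Pool.H8.CDW Pool.Agent.H52.PAG Pool.Agent.H75.INF Pool.Agent.H2.SPH

variable {B : Type} {M : CoxeterMatrix B}

private theorem rul2' {g : B → Ps M → ℤ} {i k : B} (h : M i k = 2) (β : Ps M) :
    Rul M g i k β = g i (rp M k β) := by
  unfold Rul
  rw [if_neg (by rw [h]; norm_num)]

private theorem ne_of3 {i j : B} (h : M i j = 3) : i ≠ j := by
  rintro rfl
  rw [M.diagonal] at h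
  norm_num at h

private theorem sp_ne' {k l : B} (h : k ≠ l) : sp M k ≠ sp M l := by
  intro e
  have h1 : Finsupp.single k (1 : ℤ) = Finsupp.single l 1 := congrArg Subtype.val e
  rw [Finsupp.single_left_inj one_ne_zero] at h1
  exact h h1

private theorem swp' (hM : SLa M) {k l : B} (hkl : M k l = 3) {β : Ps M} (hl : β ≠ sp M l)
    (h : rp M k β = sp M l) : rp M l β = sp M k := by
  have hne : k ≠ l := ne_of3 hkl
  have hlk : M l k = 3 := by rw [M.symmetric, hkl]
  have h1 : β.1 = Finsupp.single l 1 + Finsupp.single k 1 := by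
    have h2 : β = rp M k (sp M l) := by rw [← h, rp_rp hM]
    rw [h2, rp_val hM (sp_ne' hne.symm), sp_val]
    unfold rf
    rw [pa_single, cm_three hkl, one_mul, Finsupp.single_neg, sub_neg_eq_add]
  apply Ps.ext
  rw [rp_val hM hl, h1, sp_val]
  unfold rf
  rw [pa_add, pa_single, pa_single, cm_self, cm_three hlk]
  norm_num

private theorem zero_aux (hM : SLa M) {g : B → Ps M → ℤ} (hg : ∀ β, Ok M g β) {β : Ps M}
    (ih : ∀ γ : Ps M, ht γ.1 < ht β.1 → ∀ i j, M i j = 3 → pa M i γ.1 = 0 → pa M j γ.1 = 0 → g i γ = g j γ)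
    {i j k : B} (hij : M i j = 3) (hik : M i k = 3) (hjk : M j k = 2) (hi : pa M i β.1 = 0) (hj : pa M j β.1 = 0)
    (hk : 0 < pa M k β.1) (hβ : ∀ m, β ≠ sp M m) : g i β = g j β := by
  have hji : M j i = 3 := by rw [M.symmetric, hij]
  have hki : M k i = 3 := by rw [M.symmetric, hik]
  have hkj : M k j = 2 := by rw [M.symmetric, hjk]
  obtain ⟨γ, hγ⟩ : ∃ γ, γ = rp M k β := ⟨_, rfl⟩
  have γi : pa M i γ.1 = pa M i β.1 + pa M k β.1 := by rw [hγ]; exact pa_rp_three hM (hβ k) hik
  have γj : pa M j γ.1 = pa M j β.1 := by rw [hγ]; exact pa_rp_two hM (hβ k) hjk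
  have γk : pa M k γ.1 = - pa M k β.1 := by rw [hγ]; exact pa_rp_self hM (hβ k)
  have γh : ht γ.1 = ht β.1 - pa M k β.1 := by rw [hγ]; exact ht_rp hM (hβ k)
  have hγs : ∀ m, γ ≠ sp M m := by
    intro m h
    have h1 : m = i := eq_sp_of_pa h (by omega)
    rw [h, h1, simple_pa, cm_three hji] at γj
    omega
  have e1 : g i β = 2 * g k (rp M i γ) := by
    rw [(hg β).rul i k hβ (by omega) hk]
    unfold Rul
    rw [if_pos hik, ← hγ, if_pos (by omega)]
  have μi : pa M i (rp M i γ).1 = - pa M i γ.1 := pa_rp_self hM (hγs i)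
  have μj : pa M j (rp M i γ).1 = pa M j γ.1 + pa M i γ.1 := pa_rp_three hM (hγs i) hji
  have μk : pa M k (rp M i γ).1 = pa M k γ.1 + pa M i γ.1 := pa_rp_three hM (hγs i) hki
  have μh : ht (rp M i γ).1 = ht γ.1 - pa M i γ.1 := ht_rp hM (hγs i)
  have e2 : g j β = 2 * g i (rp M j (rp M i γ)) := by
    rw [(hg β).rul j k hβ (by omega) hk, rul2' hjk, ← hγ, (hg γ).rul j i hγs (by omega) (by omega)]
    unfold Rul
    rw [if_pos hji, if_pos (by omega)]
  have hμ : rp M i γ ≠ sp M j := by
    intro h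
    rw [h, simple_pa, cm_three hij] at μi
    rw [h, simple_pa, cm_self] at μj
    omega
  have νi : pa M i (rp M j (rp M i γ)).1 = pa M i (rp M i γ).1 + pa M j (rp M i γ).1 := pa_rp_three hM hμ hij
  have νk : pa M k (rp M j (rp M i γ)).1 = pa M k (rp M i γ).1 := pa_rp_two hM hμ hkj
  have νh : ht (rp M j (rp M i γ)).1 = ht (rp M i γ).1 - pa M j (rp M i γ).1 := ht_rp hM hμ
  have e3 : g k (rp M j (rp M i γ)) = g k (rp M i γ) := ok_c1 hM hkj hμ (hg _) (hg _)
  rw [e1, e2, ← e3, ih _ (by omega) k i hki (by omega) (by omega)]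

theorem ok_zero (hM : SLa M) (hT : NoT M) {g : B → Ps M → ℤ} (hg : ∀ β, Ok M g β) {i j : B} (hij : M i j = 3)
    (β : Ps M) (hi : pa M i β.1 = 0) (hj : pa M j β.1 = 0) : g i β = g j β := by
  have key : ∀ β : Ps M, ∀ i j, M i j = 3 → pa M i β.1 = 0 → pa M j β.1 = 0 → g i β = g j β := by
    intro β
    refine ps_ind (P := fun β => ∀ i j, M i j = 3 → pa M i β.1 = 0 → pa M j β.1 = 0 → g i β = g j β)
      (fun β ih => ?_) β
    intro i j hij hi hj
    have hji : M j i = 3 := by rw [M.symmetric, hij]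
    by_cases hs : ∃ m, β = sp M m
    · obtain ⟨m, hm⟩ := hs
      have h1 : i ≠ m := by
        rintro rfl
        rw [hm, simple_self] at hi
        omega
      have h2 : j ≠ m := by
        rintro rfl
        rw [hm, simple_self] at hj
        omega
      rw [(hg β).oth i m h1 hm, (hg β).oth j m h2 hm]
    · have hβ : ∀ m, β ≠ sp M m := fun m h => hs ⟨m, h⟩
      obtain ⟨k, -, hk⟩ := desc β
      have hik : i ≠ k := by
        rintro rfl
        omega
      have hjk : j ≠ k := by
        rintro rfl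
        omega
      rcases hM i k hik with h1 | h1
      · rcases hM j k hjk with h2 | h2
        · have γh : ht (rp M k β).1 = ht β.1 - pa M k β.1 := ht_rp hM (hβ k)
          have γi : pa M i (rp M k β).1 = pa M i β.1 := pa_rp_two hM (hβ k) h1
          have γj : pa M j (rp M k β).1 = pa M j β.1 := pa_rp_two hM (hβ k) h2
          rw [(hg β).rul i k hβ (by omega) hk, (hg β).rul j k hβ (by omega) hk, rul2' h1, rul2' h2]
          exact ih _ (by omega) i j hij (by omega) (by omega)
        · exact (zero_aux hM hg ih hji h2 h1 hj hi hk hβ).symm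
      · rcases hM j k hjk with h2 | h2
        · exact zero_aux hM hg ih hij h1 h2 hi hj hk hβ
        · exact absurd h1 (hT i j k hij h2)
  exact key β i j hij hi hj

private theorem c3_aux (hM : SLa M) (hT : NoT M) {g : B → Ps M → ℤ} (hg : ∀ β, Ok M g β) {i j : B} {β : Ps M}
    (hij : M i j = 3) (hi : β ≠ sp M i) (hj : β ≠ sp M j) (hs : 0 < pa M j β.1 → 0 < pa M i β.1)
    (hs' : pa M j β.1 = 0 → 0 ≤ pa M i β.1) : gt M g i j β = gt M g j i β := by
  have hji : M j i = 3 := by rw [M.symmetric, hij]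
  have ji : pa M i (rp M j β).1 = pa M i β.1 + pa M j β.1 := pa_rp_three hM hj hij
  have jj : pa M j (rp M j β).1 = - pa M j β.1 := pa_rp_self hM hj
  have ij : pa M j (rp M i β).1 = pa M j β.1 + pa M i β.1 := pa_rp_three hM hi hji
  have ii : pa M i (rp M i β).1 = - pa M i β.1 := pa_rp_self hM hi
  unfold gt
  rcases lt_trichotomy (pa M i β.1) 0 with ha | ha | ha
  · have hb : pa M j β.1 < 0 := by
      rcases lt_trichotomy (pa M j β.1) 0 with hb | hb | hb
      · exact hb
      · have := hs' hb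
        omega
      · have := hs hb
        omega
    rw [if_neg (by omega), if_neg (by omega), if_neg (by omega), if_neg (by omega),
      ok_rm hM hij ha hb (hg _), ok_rm hM hji hb ha (hg _)]
    ring
  · rcases lt_trichotomy (pa M j β.1) 0 with hb | hb | hb
    · rw [if_neg (by omega), if_neg (by omega), if_neg (by omega), if_pos ha, ok_r0 hM hij ha hb (hg _)]
      ring
    · rw [if_neg (by omega), if_pos hb, if_neg (by omega), if_pos ha, ok_zero hM hT hg hij β ha hb]
    · have := hs hb
      omega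
  · have g0 : g i β = 0 := (hg β).pos i hi ha
    rcases lt_trichotomy (pa M j β.1) 0 with hb | hb | hb
    · rw [if_neg (by omega), if_neg (by omega), if_pos ha, g0, zero_add]
      by_cases hab : pa M i β.1 + pa M j β.1 ≤ 0
      · exact ok_rp hM hij ha hb hab (hg _)
      · have h1 : rp M j β ≠ sp M i := by
          intro h
          rw [h, simple_pa, cm_three hji] at jj
          omega
        have h2 : rp M i β ≠ sp M j := by
          intro h
          rw [h, simple_pa, cm_three hij] at ii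
          rw [h, simple_pa, cm_self] at ij
          omega
        rw [(hg _).pos i h1 (by omega), (hg _).pos j h2 (by omega)]
        rfl
    · rw [if_neg (by omega), if_pos hb, if_pos ha, g0]
      have h2 : rp M i β ≠ sp M j := by
        intro h
        rw [h, simple_pa, cm_three hij] at ii
        rw [h, simple_pa, cm_self] at ij
        omega
      rw [(hg _).pos j h2 (by omega)]
    · rw [if_pos hb, if_pos ha]
      by_cases h1 : rp M j β = sp M i
      · have h2 := swp' hM hji hi h1
        rw [(hg _).self i h1, (hg _).self j h2]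
      · have h2 : rp M i β ≠ sp M j := fun h => h1 (swp' hM hij hj h)
        rw [(hg _).pos i h1 (by omega), (hg _).pos j h2 (by omega)]

private theorem pa_zero_ne {i k : B} (hik : M i k = 3) {γ : Ps M} (h0 : γ.1 i = 0) (h : pa M i γ.1 = 0) :
    γ.1 k = 0 := by
  classical
  by_contra hcon
  have hk : k ∈ γ.1.support := Finsupp.mem_support_iff.2 hcon
  have h1 : (0 : ℤ) < γ.1 k := lt_of_le_of_ne (γ.2.2 k) (Ne.symm hcon)
  have e : pa M i γ.1 = ∑ j ∈ γ.1.support, γ.1 j * cm M i j := rfl
  rw [e, ← Finset.add_sum_erase _ _ hk, cm_three hik] at h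
  have h2 : ∑ j ∈ γ.1.support.erase k, γ.1 j * cm M i j ≤ 0 := by
    refine Finset.sum_nonpos fun j hj => ?_
    have hji : j ≠ i := by
      rintro rfl
      exact (Finsupp.mem_support_iff.1 (Finset.mem_of_mem_erase hj)) h0
    have h3 : cm M i j ≤ 0 := by
      unfold cm
      rw [if_neg (M.off_diagonal i j hji.symm)]
      split_ifs <;> norm_num
    exact mul_nonpos_of_nonneg_of_nonpos (γ.2.2 j) h3
  omega

theorem gok (hM : SLa M) (hT : NoT M) {g : B → Ps M → ℤ} (hg : ∀ β, Ok M g β) : GOk M g := by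
  refine ⟨fun i => (hg _).self i rfl, fun i j hij => (hg _).oth i j hij rfl,
    fun i β h h' => (hg β).pos i h' h, fun i j β hij hj => ok_c1 hM hij hj (hg _) (hg _), ?_, ?_⟩
  · intro i j β hij hi hj
    have hji : M j i = 3 := by rw [M.symmetric, hij]
    by_cases hs : (0 < pa M j β.1 → 0 < pa M i β.1) ∧ (pa M j β.1 = 0 → 0 ≤ pa M i β.1)
    · exact c3_aux hM hT hg hij hi hj hs.1 hs.2
    · refine (c3_aux hM hT hg hji hj hi ?_ ?_).symm
      · intro h
        by_contra hcon
        apply hs
        constructor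
        · intro h'
          exact h
        · intro h'
          omega
      · intro h
        by_contra hcon
        apply hs
        constructor
        · intro h'
          omega
        · intro h'
          omega
  · intro i β
    refine ps_ind (P := fun β => ∀ i, β.1 i = 0 → -1 ≤ pa M i β.1 → g i β = 1) (fun β ih => ?_) β i
    intro i h0 h1
    by_cases hs : ∃ m, β = sp M m
    · obtain ⟨m, hm⟩ := hs
      refine (hg β).oth i m ?_ hm
      rintro rfl
      rw [hm, sp_val, Finsupp.single_eq_same] at h0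
      omega
    · have hβ : ∀ m, β ≠ sp M m := fun m h => hs ⟨m, h⟩
      obtain ⟨k, hk0, hk⟩ := desc β
      have hik : i ≠ k := by
        rintro rfl
        omega
      have hle := pa_nonpos h0
      have γh : ht (rp M k β).1 = ht β.1 - pa M k β.1 := ht_rp hM (hβ k)
      have γ0 : (rp M k β).1 i = 0 := by rw [rp_apply_ne hM (hβ k) hik, h0]
      rw [(hg β).rul i k hβ hle hk]
      rcases hM i k hik with h2 | h3
      · have γi : pa M i (rp M k β).1 = pa M i β.1 := pa_rp_two hM (hβ k) h2
        rw [rul2' h2]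
        exact ih _ (by omega) i γ0 (by omega)
      · have γi : pa M i (rp M k β).1 = pa M i β.1 + pa M k β.1 := pa_rp_three hM (hβ k) h3
        have γk : pa M k (rp M k β).1 = - pa M k β.1 := pa_rp_self hM (hβ k)
        have hle' := pa_nonpos γ0
        have h4 := pa_zero_ne h3 γ0 (by omega)
        unfold Rul
        rw [if_pos h3, if_neg (by omega), if_pos (by omega), ih _ (by omega) k h4 (by omega),
          ih _ (by omega) i γ0 (by omega)]
        norm_num

theorem exists_gok (hM : SLa M) (hT : NoT M) : ∃ g : B → Ps M → ℤ, GOk M g := by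
  obtain ⟨g, hg⟩ := exists_ok hM hT
  exact ⟨g, gok hM hT hg⟩

end Pool.Agent.H19.LK
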