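import Pool.Agent.H19.LK.RtA

/-!
# [H19 LK RTB] The positive roots

`β ≠ sp M i` iff `β.1 ≠ single i 1` (`Subtype.ext_iff`). `rp_val`: `dif_pos` with `Rt.rf` and `rf_pos`. `rp_sp`: `rf M i (single i 1) = - single i 1` is not
`≥ 0`, `dif_neg`. `rp_ne`: `rf M i β.1 = single i 1` would give `β.1 = rf M i (single i 1) = - single i 1` (`rf_rf`), but `0 ≤ β.1`. `rp_rp`: `Ps.ext`,
`rp_val` twice, `rf_rf`. `pa_rp`: `pa_rf`. `rp_zero`: `single i 0 = 0`. `rp_comm`: if `M i j = 2`, `β ≠ sp i, sp j`: `rp j β ≠ sp i` (otherwise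
`β.1 = rf j (single i 1) = single i 1`), so all values are given by `rp_val` and `rf_comm`. `rp_braid`: `rp i β ≠ sp j` is assumed; then `rp j β ≠ sp i` (otherwise
`β.1 = rf j (single i 1) = single i 1 + single j 1 = rf i (single j 1)`, so `rp i β = sp j`), `rp j (rp i β) ≠ sp i` (otherwise
`β.1 = rf i (rf j (single i 1)) = single j 1`) and `rp i (rp j β) ≠ sp j`; `rf_braid`. `ht_pos`: `0 ≤ v`, `v ≠ 0` (`ne_zero_rt`).
`simple_pa`: `pa_single`. `desc`: `exists_desc`; if `β ≠ sp k` for all `k`. `ps_ind`: strong induction on `(ht β.1).toNat`.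

`level` (a root with coefficient one at `b` has a descent different from `b` in its support unless it is `α_b`): assume `β.1 b = 1`, `β ≠ sp b` and
`pa k β ≤ 0` for all `k ≠ b` with `β.1 k > 0`. Then `2 = pr β β = ∑ β_k pa k β ≤ pa b β`, and `rp b β` has the coefficient `1 - pa b β < 0` at `b`.
-/

set_option autoImplicit false

namespace Pool.Agent.H19.LK

open Pool.H8.CDW Pool.Agent.H52.PAG Pool.Agent.H75.INF Pool.Agent.H2.SPH

variable {B : Type} {M : CoxeterMatrix B}

private theorem ne_iff {i : B} {β : Ps M} (h : β ≠ sp M i) : β.1 ≠ Finsupp.single i 1 := fun e => h (Ps.ext e)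

theorem rp_val (hM : SLa M) {i : B} {β : Ps M} (h : β ≠ sp M i) : (rp M i β).1 = rf M i β.1 := by
  classical
  have h1 : Rt M (rf M i β.1) ∧ 0 ≤ rf M i β.1 := ⟨β.2.1.rf i, rf_pos hM β.2.1 β.2.2 (ne_iff h)⟩
  unfold rp
  rw [dif_pos h1]

private theorem rf_single_self (i : B) : rf M i (Finsupp.single i 1) = - Finsupp.single i 1 := by
  unfold rf
  rw [pa_single, cm_self, one_mul, ← Finsupp.single_sub, ← Finsupp.single_neg]
  norm_num

theorem rp_sp (i : B) : rp M i (sp M i) = sp M i := by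
  classical
  unfold rp
  rw [dif_neg]
  rintro ⟨-, h⟩
  rw [sp_val, rf_single_self] at h
  have h1 := h i
  rw [Finsupp.neg_apply, Finsupp.single_eq_same, Finsupp.zero_apply] at h1
  omega

theorem rp_ne (hM : SLa M) {i : B} {β : Ps M} (h : β ≠ sp M i) : rp M i β ≠ sp M i := by
  intro e
  have h1 := congrArg Subtype.val e
  rw [rp_val hM h, sp_val] at h1
  have h2 := congrArg (rf M i) h1
  rw [rf_rf, rf_single_self] at h2
  have h3 := β.2.2 i
  rw [h2, Finsupp.neg_apply, Finsupp.single_eq_same, Finsupp.zero_apply] at h3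
  omega

theorem rp_rp (hM : SLa M) (i : B) (β : Ps M) : rp M i (rp M i β) = β := by
  by_cases h : β = sp M i
  · rw [h, rp_sp, rp_sp]
  · apply Ps.ext
    rw [rp_val hM (rp_ne hM h), rp_val hM h, rf_rf]

theorem pa_rp (hM : SLa M) {i : B} {β : Ps M} (h : β ≠ sp M i) (j : B) :
    pa M j (rp M i β).1 = pa M j β.1 - pa M i β.1 * cm M j i := by
  rw [rp_val hM h, pa_rf]

theorem pa_rp_self (hM : SLa M) {i : B} {β : Ps M} (h : β ≠ sp M i) : pa M i (rp M i β).1 = - pa M i β.1 := by
  rw [pa_rp hM h, cm_self]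
  omega

theorem pa_rp_two (hM : SLa M) {i j : B} {β : Ps M} (h : β ≠ sp M i) (hij : M j i = 2) :
    pa M j (rp M i β).1 = pa M j β.1 := by
  rw [pa_rp hM h, cm_two hij, mul_zero, sub_zero]

theorem pa_rp_three (hM : SLa M) {i j : B} {β : Ps M} (h : β ≠ sp M i) (hij : M j i = 3) :
    pa M j (rp M i β).1 = pa M j β.1 + pa M i β.1 := by
  rw [pa_rp hM h, cm_three hij]
  omega

theorem rp_apply_ne (hM : SLa M) {i j : B} {β : Ps M} (h : β ≠ sp M i) (hij : j ≠ i) : (rp M i β).1 j = β.1 j := by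
  rw [rp_val hM h, rf_apply_ne hij]

theorem rp_apply_self (hM : SLa M) {i : B} {β : Ps M} (h : β ≠ sp M i) : (rp M i β).1 i = β.1 i - pa M i β.1 := by
  rw [rp_val hM h, rf_apply_self]

theorem rp_zero {i : B} {β : Ps M} (h : pa M i β.1 = 0) : rp M i β = β := by
  classical
  unfold rp
  split_ifs with h1
  · apply Ps.ext
    show rf M i β.1 = β.1
    unfold rf
    rw [h, Finsupp.single_zero, sub_zero]
  · rfl

private theorem rf_single_two {i j : B} (hij : M j i = 2) : rf M j (Finsupp.single i 1) = Finsupp.single i 1 := by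
  unfold rf
  rw [pa_single, cm_two hij, mul_zero, Finsupp.single_zero, sub_zero]

private theorem rf_single_three {i j : B} (hij : M j i = 3) :
    rf M j (Finsupp.single i 1) = Finsupp.single i 1 + Finsupp.single j 1 := by
  unfold rf
  rw [pa_single, cm_three hij, one_mul, Finsupp.single_neg, sub_neg_eq_add]

/-- `rp j β = sp i` only for `β` the image of `sp i` -/
private theorem eq_of_rp (hM : SLa M) {i j : B} {β : Ps M} (hj : β ≠ sp M j) (h : rp M j β = sp M i) :
    β.1 = rf M j (Finsupp.single i 1) := by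
  have h1 := congrArg Subtype.val h
  rw [rp_val hM hj, sp_val] at h1
  rw [← h1, rf_rf]

theorem rp_comm (hM : SLa M) {i j : B} {β : Ps M} (hij : M i j = 2) (hi : β ≠ sp M i) (hj : β ≠ sp M j) :
    rp M i (rp M j β) = rp M j (rp M i β) := by
  have hji : M j i = 2 := by rw [M.symmetric, hij]
  have h1 : rp M j β ≠ sp M i := by
    intro h
    have h2 := eq_of_rp hM hj h
    rw [rf_single_two hji] at h2
    exact hi (Ps.ext h2)
  have h2 : rp M i β ≠ sp M j := by
    intro h
    have h2 := eq_of_rp hM hi h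
    rw [rf_single_two hij] at h2
    exact hj (Ps.ext h2)
  apply Ps.ext
  rw [rp_val hM h1, rp_val hM hj, rp_val hM h2, rp_val hM hi, rf_comm hij]

theorem rp_braid (hM : SLa M) {i j : B} {β : Ps M} (hij : M i j = 3) (hi : β ≠ sp M i) (hj : β ≠ sp M j)
    (h : rp M i β ≠ sp M j) : rp M i (rp M j (rp M i β)) = rp M j (rp M i (rp M j β)) := by
  have hji : M j i = 3 := by rw [M.symmetric, hij]
  have h1 : rp M j β ≠ sp M i := by
    intro h1
    have h2 := eq_of_rp hM hj h1
    apply h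
    apply Ps.ext
    rw [rp_val hM hi, h2, rf_single_three hji, sp_val, add_comm, ← rf_single_three hij, rf_rf]
  have h2 : rp M j (rp M i β) ≠ sp M i := by
    intro h2
    have h3 := eq_of_rp hM h h2
    rw [rp_val hM hi, rf_single_three hji] at h3
    have h4 := congrArg (rf M i) h3
    rw [rf_rf, add_comm, ← rf_single_three hij, rf_rf] at h4
    exact hj (Ps.ext h4)
  have h3 : rp M i (rp M j β) ≠ sp M j := by
    intro h2
    have h3 := eq_of_rp hM h1 h2
    rw [rp_val hM hj, rf_single_three hij] at h3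
    have h4 := congrArg (rf M j) h3
    rw [rf_rf, add_comm, ← rf_single_three hji, rf_rf] at h4
    exact hi (Ps.ext h4)
  apply Ps.ext
  rw [rp_val hM h2, rp_val hM h, rp_val hM hi, rp_val hM h3, rp_val hM h1, rp_val hM hj, rf_braid hij]

theorem simple_self (i : B) : pa M i (sp M i).1 = 2 := by
  rw [sp_val, pa_single, cm_self, one_mul]

theorem simple_pa (i j : B) : pa M i (sp M j).1 = cm M i j := by
  rw [sp_val, pa_single, one_mul]

theorem ht_pos (β : Ps M) : 0 < ht β.1 := by
  have h0 : 0 ≤ ht β.1 := Finset.sum_nonneg fun i _ => β.2.2 i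
  rcases h0.lt_or_eq with h | h
  · exact h
  · exfalso
    apply ne_zero_rt β.2.1
    ext i
    rw [Finsupp.zero_apply]
    by_contra hi
    have h1 : (0 : ℤ) < β.1 i := lt_of_le_of_ne (β.2.2 i) (Ne.symm hi)
    have h2 : β.1 i ≤ ht β.1 :=
      Finset.single_le_sum (f := fun j => β.1 j) (fun j _ => β.2.2 j) (Finsupp.mem_support_iff.2 hi)
    omega

theorem ht_rp (hM : SLa M) {i : B} {β : Ps M} (h : β ≠ sp M i) : ht (rp M i β).1 = ht β.1 - pa M i β.1 := by
  rw [rp_val hM h, ht_rf]

theorem desc (β : Ps M) : ∃ k, 0 < β.1 k ∧ 0 < pa M k β.1 := exists_desc β.2.1 β.2.2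

theorem ps_ind {P : Ps M → Prop} (h : ∀ β, (∀ γ : Ps M, ht γ.1 < ht β.1 → P γ) → P β) (β : Ps M) : P β := by
  have key : ∀ (n : ℕ) (β : Ps M), (ht β.1).toNat = n → P β := by
    intro n
    induction n using Nat.strong_induction_on with
    | _ n ih =>
      intro β hβ
      refine h β fun γ hγ => ih (ht γ.1).toNat ?_ γ rfl
      have h1 := ht_pos β
      have h2 := ht_pos γ
      omega
  exact key _ β rfl

theorem level (hM : SLa M) {b : B} {β : Ps M} (h1 : β.1 b = 1) (hb : β ≠ sp M b) :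
    ∃ k, k ≠ b ∧ 0 < β.1 k ∧ 0 < pa M k β.1 := by
  classical
  by_contra hcon
  push Not at hcon
  have h2 : pr M β.1 β.1 = 2 := norm_rt β.2.1
  have h3 : pr M β.1 β.1 ≤ pa M b β.1 := by
    have hbs : b ∈ β.1.support := by
      rw [Finsupp.mem_support_iff, h1]
      exact one_ne_zero
    have e : pr M β.1 β.1 = ∑ i ∈ β.1.support, β.1 i * pa M i β.1 := rfl
    rw [e, ← Finset.add_sum_erase _ _ hbs, h1, one_mul]
    have h4 : ∑ i ∈ β.1.support.erase b, β.1 i * pa M i β.1 ≤ 0 := by
      refine Finset.sum_nonpos fun i hi => ?_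
      rw [Finset.mem_erase, Finsupp.mem_support_iff] at hi
      have h5 : (0 : ℤ) < β.1 i := lt_of_le_of_ne (β.2.2 i) (Ne.symm hi.2)
      exact mul_nonpos_of_nonneg_of_nonpos h5.le (hcon i hi.1 h5)
    omega
  have h4 := (rp M b β).2.2 b
  rw [rp_apply_self hM hb, h1, Finsupp.zero_apply] at h4
  omega

/-- nonpositive pairing off the support -/
theorem pa_nonpos {i : B} {β : Ps M} (h : β.1 i = 0) : pa M i β.1 ≤ 0 := by
  unfold pa
  refine Finset.sum_nonpos fun j hj => ?_
  have hji : j ≠ i := by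
    rintro rfl
    exact (Finsupp.mem_support_iff.1 hj) h
  have h1 : cm M i j ≤ 0 := by
    unfold cm
    rw [if_neg (M.off_diagonal i j hji.symm)]
    split_ifs <;> norm_num
  exact mul_nonpos_of_nonneg_of_nonpos (β.2.2 j) h1

/-- the support of `rp k β`, `k ∈ T` -/
theorem supp_rp {T : Set B} {k : B} (hk : k ∈ T) {β : Ps M} (h : (β.1.support : Set B) ⊆ T) :
    ((rp M k β).1.support : Set B) ⊆ T := by
  classical
  unfold rp
  split_ifs with h1
  · intro j hj
    rw [Finset.mem_coe, Finsupp.mem_support_iff] at hj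
    by_cases hjk : j = k
    · rw [hjk]
      exact hk
    · have h2 : rf M k β.1 j ≠ 0 := hj
      rw [rf_apply_ne hjk] at h2
      exact h (Finsupp.mem_support_iff.2 h2)
  · exact h

end Pool.Agent.H19.LK
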