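import Pool.Agent.H19.LK.TwA
import Pool.Agent.H19.LK.RtB

/-!
# [H19 LK TWB] The coefficients of commuting elements

Setting `Cfg M b c Tb Tc`. `ec c k = -1` for `k = c` and `0` otherwise. `Ob M b Tc`: the set of the `v` with support in `Tc` such that `α_b + v` is a positive root.

`ob_stable`: for `v ∈ Ob`, `k ∈ Tc`: `bb (ec c) k v = pa k (α_b + v)` (`pa k (single b 1) = cm k b`, which is `-1` for `k = c` and `0` for the other `k ∈ Tc`), `α_b + sr (ec c) k v = rf k (α_b + v)`, a root, positive because `α_b + v ≠ single k 1` (coefficient `1` at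
`b ∉ Tc`; `rf_pos`). `ob_zero`: `0 ∈ Ob` (`sp b`). `ob_pos`: `0 ≤ v`: for `m ≠ b`, `v m = (α_b + v) m ≥ 0`, and `v b = 0` because `b ∉ Tc`. `ob_c`: if `v c = 0` then `v = 0`: by strong induction on `ht v` for the root `β = α_b + v`, `β ≠ sp b`: a descent `k` (`level` with `b`: `β b = 1`): `k ≠ b`, `β k > 0`, so
`k ∈ Tc`, `k ≠ c`; `rp k β = α_b + v'` with `v' ∈ Ob`, `v' c = 0`, smaller height, so `v' = 0`: `rp k β = sp b`, `β = rp k (sp b) = sp b` (`pa k (sp b) = 0`, `rp_zero`), a contradiction.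

`step0`: let `X = sg (ec c) x (single 0 1)`, `Y = sg (ec b) y (single 0 1)`, supported in `Ob b Tc` and `Ob c Tb` (`sg_supp`). Let `ε = ec b + ec c`. On `Tc`: `ε k = ec c k`, so `sg ε x (single 0 1) = X` (`sg_psi`, `n = 1`, `u₀ = 0`). For `v` in the support of `X`: on `k ∈ Tb`: `ε k + pa k v = ec b k - v c * [k = b]
= (1 + v c) * ec b k` (`v` has support in `Tc`, `pa k v = v c * cm k c`), so `sg ε y (single v 1) = psi (1 + v c) v Y` (`sg_psi`), and `sg ε (y * x) (single 0 1) = ∑ X v Y v' single (v + (1 + v c) v')`. In the same way `sg ε (x * y) (single 0 1) = ∑ X v Y v' single (v' + (1 + v' b) v)`. Suppose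
`X u ≠ 0`, `Y u' ≠ 0`, `u, u' ≠ 0`, and let `u'` have maximal height among these `u'`. Coefficient at `z = u + (1 + u c) u'`: on the left side `v + (1 + v c) v' = z` gives (parts in `Tc` and `Tb`) `v = u`, `v' = u'` (`1 + u c > 0`): the coefficient is `X u * Y u' ≠ 0`. On the right side `v' = (1 + u c) u'`, whose height
is larger than that of `u'` (`u c > 0` by `ob_c`, `ob_pos`; `ht u' > 0`), so `Y v' = 0`: the coefficient is `0`.
-/

set_option autoImplicit false

namespace Pool.Agent.H19.LK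

open Pool.H8.CDW Pool.Agent.H52.PAG Pool.Agent.H75.INF Pool.Agent.H2.SPH

variable {B : Type} (M : CoxeterMatrix B)

/-- the configuration: `Tb` and `Tc` are joined by the edge `b c` only -/
structure Cfg (b c : B) (Tb Tc : Set B) : Prop where
  hb : b ∈ Tb
  hc : c ∈ Tc
  dis : Disjoint Tb Tc
  bc : M b c = 3
  com : ∀ i ∈ Tb, ∀ j ∈ Tc, ¬ (i = b ∧ j = c) → M i j = 2

open Classical in
/-- `- ω_c` -/
noncomputable def ec (c : B) (k : B) : ℤ := if k = c then -1 else 0

/-- the `v` such that `α_b + v` is a positive root, `v` with support in `Tc` -/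
def Ob (b : B) (Tc : Set B) : Set (B →₀ ℤ) :=
  {v | (v.support : Set B) ⊆ Tc ∧ Rt M (Finsupp.single b 1 + v) ∧ 0 ≤ Finsupp.single b 1 + v}

variable {M}

theorem Cfg.symm {b c : B} {Tb Tc : Set B} (h : Cfg M b c Tb Tc) : Cfg M c b Tc Tb where
  hb := h.hc
  hc := h.hb
  dis := h.dis.symm
  bc := by rw [M.symmetric, h.bc]
  com := fun i hi j hj hij => by
    rw [M.symmetric, h.com j hj i hi fun h' => hij ⟨h'.2, h'.1⟩]

theorem ob_zero (b : B) (Tc : Set B) : (0 : B →₀ ℤ) ∈ Ob M b Tc := by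
  refine ⟨?_, ?_, ?_⟩
  · rw [Finsupp.support_zero, Finset.coe_empty]
    exact Set.empty_subset _
  · rw [add_zero]
    exact (sp M b).2.1
  · rw [add_zero]
    exact (sp M b).2.2

private theorem Cfg.bTc {b c : B} {Tb Tc : Set B} (h : Cfg M b c Tb Tc) : b ∉ Tc := fun hb =>
  Set.disjoint_left.1 h.dis h.hb hb

private theorem Cfg.cTb {b c : B} {Tb Tc : Set B} (h : Cfg M b c Tb Tc) : c ∉ Tb := fun hc =>
  Set.disjoint_left.1 h.dis hc h.hc

private theorem Cfg.cmb {b c : B} {Tb Tc : Set B} (h : Cfg M b c Tb Tc) {k : B} (hk : k ∈ Tc) :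
    cm M k b = ec c k := by
  unfold ec
  split_ifs with hkc
  · rw [hkc, cm_symm, cm_three h.bc]
  · rw [cm_symm, cm_two (h.com b h.hb k hk fun h' => hkc h'.2)]

private theorem add_rf (_hM : SLa M) {b c : B} {Tb Tc : Set B} (h : Cfg M b c Tb Tc) {k : B} (hk : k ∈ Tc)
    (v : B →₀ ℤ) : Finsupp.single b 1 + sr M (ec c) k v = rf M k (Finsupp.single b 1 + v) := by
  unfold sr rf bb
  rw [pa_add, pa_single, one_mul, h.cmb hk]
  abel

private theorem ob_ne {b : B} {Tc : Set B} (hb : b ∉ Tc) {v : B →₀ ℤ} (hv : (v.support : Set B) ⊆ Tc) : v b = 0 := by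
  by_contra h0
  exact hb (hv (Finsupp.mem_support_iff.2 h0))

theorem ob_stable (hM : SLa M) {b c : B} {Tb Tc : Set B} (h : Cfg M b c Tb Tc) {k : B} (hk : k ∈ Tc) {v : B →₀ ℤ}
    (hv : v ∈ Ob M b Tc) : sr M (ec c) k v ∈ Ob M b Tc := by
  obtain ⟨h1, h2, h3⟩ := hv
  have hkb : k ≠ b := by
    rintro rfl
    exact h.bTc hk
  have hne : Finsupp.single b 1 + v ≠ Finsupp.single k 1 := by
    intro e
    have e1 := DFunLike.congr_fun e b
    rw [Finsupp.add_apply, Finsupp.single_eq_same, ob_ne h.bTc h1, Finsupp.single_eq_of_ne (Ne.symm hkb)] at e1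
    omega
  refine ⟨?_, ?_, ?_⟩
  · intro j hj
    rw [Finset.mem_coe, Finsupp.mem_support_iff] at hj
    by_cases hjk : j = k
    · rw [hjk]
      exact hk
    · apply h1
      rw [Finset.mem_coe, Finsupp.mem_support_iff]
      intro h0
      apply hj
      unfold sr
      rw [Finsupp.sub_apply, Finsupp.single_eq_of_ne hjk, sub_zero, h0]
  · rw [add_rf hM h hk]
    exact h2.rf k
  · rw [add_rf hM h hk]
    exact rf_pos hM h2 h3 hne

theorem ob_pos {b c : B} {Tb Tc : Set B} (h : Cfg M b c Tb Tc) {v : B →₀ ℤ} (hv : v ∈ Ob M b Tc) : 0 ≤ v := by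
  obtain ⟨h1, h2, h3⟩ := hv
  intro m
  by_cases hm : m = b
  · rw [hm, ob_ne h.bTc h1]
    exact le_rfl
  · have h4 := h3 m
    rw [Finsupp.add_apply, Finsupp.single_eq_of_ne hm, zero_add] at h4
    exact h4

theorem ob_c (hM : SLa M) {b c : B} {Tb Tc : Set B} (h : Cfg M b c Tb Tc) {v : B →₀ ℤ} (hv : v ∈ Ob M b Tc)
    (hc : v c = 0) : v = 0 := by
  have key : ∀ β : Ps M, ∀ v : B →₀ ℤ, v ∈ Ob M b Tc → v c = 0 → β.1 = Finsupp.single b 1 + v → v = 0 := by
    intro β
    induction β using ps_ind with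
    | h β ih =>
      intro v hv hc hβ
      have hvb : v b = 0 := ob_ne h.bTc hv.1
      have h1 : β.1 b = 1 := by rw [hβ, Finsupp.add_apply, Finsupp.single_eq_same, hvb, add_zero]
      by_cases hs : β = sp M b
      · rw [hs, sp_val] at hβ
        exact (left_eq_add.1 hβ)
      · exfalso
        obtain ⟨k, hkb, hk0, hk⟩ := level hM h1 hs
        have hvk : β.1 k = v k := by rw [hβ, Finsupp.add_apply, Finsupp.single_eq_of_ne hkb, zero_add]
        have hkT : k ∈ Tc := hv.1 (Finsupp.mem_support_iff.2 (by omega))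
        have hkc : k ≠ c := by
          rintro rfl
          omega
        have hbk : β ≠ sp M k := by
          intro e
          rw [e, sp_val, Finsupp.single_eq_of_ne (Ne.symm hkb)] at h1
          omega
        have h2 : (rp M k β).1 = Finsupp.single b 1 + sr M (ec c) k v := by
          rw [rp_val hM hbk, hβ, add_rf hM h hkT]
        have h3 := ih (rp M k β) (by rw [ht_rp hM hbk]; omega) _ (ob_stable hM h hkT hv) (by
          unfold sr
          rw [Finsupp.sub_apply, Finsupp.single_eq_of_ne (Ne.symm hkc), sub_zero, hc]) h2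
        rw [h3, add_zero] at h2
        have h4 : rp M k β = sp M b := Ps.ext h2
        have h5 : β = rp M k (sp M b) := by rw [← h4, rp_rp hM]
        have h6 : rp M k (sp M b) = sp M b := by
          apply rp_zero
          rw [simple_pa, h.cmb hkT]
          unfold ec
          rw [if_neg hkc]
        exact hs (h5.trans h6)
  exact key ⟨_, hv.2.1, hv.2.2⟩ v hv hc rfl

private theorem lin_exp (L : ((B →₀ ℤ) →₀ KK) →ₗ[KK] ((B →₀ ℤ) →₀ KK)) (X : (B →₀ ℤ) →₀ KK) :
    L X = X.sum fun v a => a • L (Finsupp.single v 1) := by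
  conv_lhs => rw [← Finsupp.sum_single X]
  rw [map_finsuppSum]
  refine Finsupp.sum_congr fun v _ => ?_
  rw [← map_smul, Finsupp.smul_single, smul_eq_mul, mul_one]

private theorem psi_ne {n : ℤ} {u₀ z : B →₀ ℤ} {Y : (B →₀ ℤ) →₀ KK} (h : psi n u₀ Y z ≠ 0) :
    ∃ v, Y v ≠ 0 ∧ u₀ + n • v = z := by
  classical
  have h1 : z ∈ (Y.mapDomain fun u => u₀ + n • u).support := Finsupp.mem_support_iff.2 h
  have h2 := Finsupp.mapDomain_support h1
  obtain ⟨v, hv, hvz⟩ := Finset.mem_image.1 h2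
  exact ⟨v, Finsupp.mem_support_iff.1 hv, hvz⟩

private theorem psi_inj {n : ℤ} (hn : 0 < n) (u₀ : B →₀ ℤ) : Function.Injective fun u : B →₀ ℤ => u₀ + n • u := by
  intro u v huv
  have h1 : n • u = n • v := add_left_cancel huv
  ext m
  have h2 := DFunLike.congr_fun h1 m
  rw [Finsupp.smul_apply, Finsupp.smul_apply, smul_eq_mul, smul_eq_mul] at h2
  exact mul_left_cancel₀ hn.ne' h2

private theorem psi_val {n : ℤ} (hn : 0 < n) (u₀ v : B →₀ ℤ) (Y : (B →₀ ℤ) →₀ KK) :
    psi n u₀ Y (u₀ + n • v) = Y v :=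
  Finsupp.mapDomain_apply (psi_inj hn u₀) Y v

private theorem psi_zero {n : ℤ} (u₀ : B →₀ ℤ) : psi n u₀ (Finsupp.single 0 1) = Finsupp.single u₀ 1 := by
  unfold psi
  rw [Finsupp.lmapDomain_apply, Finsupp.mapDomain_single, smul_zero, add_zero]

private theorem psi_id (Y : (B →₀ ℤ) →₀ KK) : psi 1 0 Y = Y := by
  unfold psi
  rw [Finsupp.lmapDomain_apply]
  have h1 : (fun u : B →₀ ℤ => 0 + (1 : ℤ) • u) = id := by
    ext1 u
    rw [one_smul, zero_add, id]
  rw [h1, Finsupp.mapDomain_id]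

private theorem pa_tc {b c : B} {Tb Tc : Set B} (h : Cfg M b c Tb Tc) {k : B} (hk : k ∈ Tb) {v : B →₀ ℤ}
    (hv : (v.support : Set B) ⊆ Tc) : pa M k v = v c * ec b k := by
  by_cases hkb : k = b
  · subst hkb
    by_cases hc0 : v c = 0
    · rw [hc0, zero_mul]
      unfold pa
      refine Finset.sum_eq_zero fun j hj => ?_
      have hjc : j ≠ c := by
        rintro rfl
        exact (Finsupp.mem_support_iff.1 hj) hc0
      show v j * cm M k j = 0
      rw [cm_two (h.com k hk j (hv hj) fun h' => hjc h'.2), mul_zero]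
    · unfold pa
      rw [Finsupp.sum, Finset.sum_eq_single c]
      · rw [cm_three h.bc]
        unfold ec
        rw [if_pos rfl]
      · intro j hj hjc
        rw [cm_two (h.com k hk j (hv hj) fun h' => hjc h'.2), mul_zero]
      · intro h'
        exact absurd (Finsupp.mem_support_iff.2 hc0) h'
  · have h1 : ec b k = 0 := by
      unfold ec
      rw [if_neg hkb]
    rw [h1, mul_zero]
    unfold pa
    refine Finset.sum_eq_zero fun j hj => ?_
    show v j * cm M k j = 0
    rw [cm_two (h.com k hk j (hv hj) fun h' => hkb h'.1), mul_zero]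

/-- the action of `y x` on the class of `0` -/
private theorem yx (hM : SLa M) {b c : B} {Tb Tc : Set B} (h : Cfg M b c Tb Tc) {x y : Art M} (hx : x ∈ ap M Tc)
    (hy : y ∈ ap M Tb) {ε : B → ℤ} (hε : ∀ k, ε k = ec b k + ec c k)
    (hX : sg hM (ec c) x (Finsupp.single 0 1) ∈ Finsupp.supported KK KK (Ob M b Tc)) (z : B →₀ ℤ) :
    sg hM ε (y * x) (Finsupp.single 0 1) z =
      (sg hM (ec c) x (Finsupp.single 0 1)).sum fun v a =>
        a * psi (1 + v c) v (sg hM (ec b) y (Finsupp.single 0 1)) z := by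
  have h1 : sg hM ε x (Finsupp.single 0 1) = sg hM (ec c) x (Finsupp.single 0 1) := by
    have h2 := sg_psi hM (T := Tc) (ε := ε) (ε' := ec c) (n := 1) one_pos (u₀ := 0) (by
      intro k hk
      have hkb : k ≠ b := by
        rintro rfl
        exact h.bTc hk
      have hb0 : ec b k = 0 := by
        unfold ec
        rw [if_neg hkb]
      rw [hε, pa_zero, hb0, one_mul, zero_add, add_zero]) hx (Finsupp.single 0 1)
    rw [psi_id, psi_id] at h2
    exact h2.symm
  rw [sg_mul, h1, lin_exp, Finsupp.sum, Finsupp.finsetSum_apply]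
  refine Finset.sum_congr rfl fun v hv => ?_
  rw [Finsupp.smul_apply, smul_eq_mul]
  congr 1
  have hvO : v ∈ Ob M b Tc := (Finsupp.mem_supported _ _).1 hX hv
  have h3 := sg_psi hM (T := Tb) (ε := ε) (ε' := ec b) (n := 1 + v c) (by
      have := ob_pos h hvO c
      rw [Finsupp.zero_apply] at this
      omega) (u₀ := v) (by
      intro k hk
      have hkc : k ≠ c := by
        rintro rfl
        exact h.cTb hk
      have hc0 : ec c k = 0 := by
        unfold ec
        rw [if_neg hkc]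
      rw [hε, hc0, pa_tc h hk hvO.1]
      ring) hy (Finsupp.single 0 1)
  rw [psi_zero] at h3
  rw [h3]

theorem step0 (hM : SLa M) {b c : B} {Tb Tc : Set B} (h : Cfg M b c Tb Tc) {x y : Art M} (hx : x ∈ ap M Tc)
    (hy : y ∈ ap M Tb) (hxy : x * y = y * x) :
    (∀ u, u ≠ 0 → sg hM (ec c) x (Finsupp.single 0 1) u = 0) ∨
      ∀ u, u ≠ 0 → sg hM (ec b) y (Finsupp.single 0 1) u = 0 := by
  classical
  by_contra hcon
  push Not at hcon
  obtain ⟨⟨u, hu0, hu⟩, ⟨u₁, hu₁0, hu₁⟩⟩ := hcon
  have s0 : ∀ (d : B) (T : Set B), Finsupp.single (0 : B →₀ ℤ) (1 : KK) ∈ Finsupp.supported KK KK (Ob M d T) := by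
    intro d T
    refine (Finsupp.mem_supported _ _).2 fun w hw => ?_
    have hw' := Finsupp.support_single_subset hw
    rw [Finset.mem_singleton] at hw'
    rw [hw']
    exact ob_zero d T
  have hX := sg_supp hM (ε := ec c) (fun k hk w hw => ob_stable hM h hk hw) hx (s0 b Tc)
  have hY := sg_supp hM (ε := ec b) (fun k hk w hw => ob_stable hM h.symm hk hw) hy (s0 c Tb)
  have e1 := yx hM h hx hy (ε := fun k => ec b k + ec c k) (fun _ => rfl) hX
  have e2 := yx hM h.symm hy hx (ε := fun k => ec b k + ec c k) (fun k => add_comm _ _) hY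
  obtain ⟨X, hXd⟩ : ∃ X, X = sg hM (ec c) x (Finsupp.single 0 1) := ⟨_, rfl⟩
  obtain ⟨Y, hYd⟩ : ∃ Y, Y = sg hM (ec b) y (Finsupp.single 0 1) := ⟨_, rfl⟩
  rw [← hXd] at hX e1 e2 hu
  rw [← hYd] at hY e1 e2 hu₁
  rw [hxy] at e2
  obtain ⟨u', hu'm, hmax⟩ := Finset.exists_max_image (Y.support.filter (· ≠ 0)) ht
    ⟨u₁, Finset.mem_filter.2 ⟨Finsupp.mem_support_iff.2 hu₁, hu₁0⟩⟩
  rw [Finset.mem_filter, Finsupp.mem_support_iff] at hu'm
  obtain ⟨hu', hu'0⟩ := hu'm
  have oX : ∀ v, X v ≠ 0 → v ∈ Ob M b Tc := fun v hv =>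
    (Finsupp.mem_supported _ _).1 hX (Finsupp.mem_support_iff.2 hv)
  have oY : ∀ v, Y v ≠ 0 → v ∈ Ob M c Tb := fun v hv =>
    (Finsupp.mem_supported _ _).1 hY (Finsupp.mem_support_iff.2 hv)
  have hzc : ∀ {v v' : B →₀ ℤ}, (v.support : Set B) ⊆ Tc → (v'.support : Set B) ⊆ Tb → ∀ {m m' : ℤ} {w w' : B →₀ ℤ},
      (w.support : Set B) ⊆ Tc → (w'.support : Set B) ⊆ Tb →
      v + m • v' = m' • w + w' → v = m' • w ∧ m • v' = w' := by
    intro v v' hv hv' m m' w w' hw hw' e
    have off : ∀ {T T' : Set B} {a : B →₀ ℤ} {j : B}, Disjoint T T' → (a.support : Set B) ⊆ T → j ∈ T' → a j = 0 := by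
      intro T T' a j hd ha hj
      by_contra h0
      exact Set.disjoint_left.1 hd (ha (Finsupp.mem_support_iff.2 h0)) hj
    have hvw : v = m' • w := by
      ext j
      by_cases hj : j ∈ Tc
      · have e' := DFunLike.congr_fun e j
        rw [Finsupp.add_apply, Finsupp.add_apply, Finsupp.smul_apply, off h.dis hv' hj, off h.dis hw' hj, smul_zero,
          add_zero, add_zero] at e'
        exact e'
      · have z1 : v j = 0 := by
          by_contra h0
          exact hj (hv (Finsupp.mem_support_iff.2 h0))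
        have z2 : w j = 0 := by
          by_contra h0
          exact hj (hw (Finsupp.mem_support_iff.2 h0))
        rw [Finsupp.smul_apply, z1, z2, smul_zero]
    refine ⟨hvw, ?_⟩
    rw [hvw] at e
    exact add_left_cancel e
  have huO := oX u hu
  have hu'O := oY u' hu'
  have huc : 0 < u c := by
    have h1 := ob_pos h huO c
    rw [Finsupp.zero_apply] at h1
    rcases h1.lt_or_eq with h2 | h2
    · exact h2
    · exact absurd (ob_c hM h huO h2.symm) hu0
  have hht : 0 < ht u' := by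
    have h1 : 0 ≤ u' := ob_pos h.symm hu'O
    have h0 : 0 ≤ ht u' := Finset.sum_nonneg fun i _ => h1 i
    rcases h0.lt_or_eq with h2 | h2
    · exact h2
    · exfalso
      apply hu'0
      ext i
      rw [Finsupp.zero_apply]
      by_contra hi
      have h3 : u' i ≤ ht u' := Finset.single_le_sum (f := fun j => u' j) (fun j _ => h1 j) (Finsupp.mem_support_iff.2 hi)
      have h4 := h1 i
      rw [Finsupp.zero_apply] at h4
      omega
  have hn : 0 < 1 + u c := by omega
  have f1 := e1 (u + (1 + u c) • u')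
  have f2 := e2 (u + (1 + u c) • u')
  rw [Finsupp.sum, Finset.sum_eq_single u, psi_val hn] at f1
  · have g2 : (Y.sum fun v a => a * psi (1 + v b) v X (u + (1 + u c) • u')) = 0 := by
      refine Finset.sum_eq_zero fun v' hv' => ?_
      rw [Finsupp.mem_support_iff] at hv'
      show Y v' * psi (1 + v' b) v' X (u + (1 + u c) • u') = 0
      by_contra h0
      obtain ⟨v, hv, e⟩ := psi_ne (right_ne_zero_of_mul h0)
      have e' : u + (1 + u c) • u' = (1 + v' b) • v + v' := by rw [← e, add_comm]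
      have e3 := (hzc huO.1 hu'O.1 (oX v hv).1 (oY v' hv').1 e').2
      have h5 : ht v' = (1 + u c) * ht u' := by
        rw [← e3]
        unfold ht
        rw [Finsupp.sum_smul_index (fun _ => rfl), Finsupp.sum, Finsupp.sum, Finset.mul_sum]
      have h6 : v' ≠ 0 := by
        rintro rfl
        have : ht (0 : B →₀ ℤ) = 0 := Finsupp.sum_zero_index
        rw [this] at h5
        nlinarith
      have h7 := hmax v' (Finset.mem_filter.2 ⟨Finsupp.mem_support_iff.2 hv', h6⟩)
      nlinarith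
    rw [g2] at f2
    rw [f2] at f1
    exact (mul_ne_zero hu hu') f1.symm
  · intro v hv hvu
    rw [Finsupp.mem_support_iff] at hv
    by_contra h0
    obtain ⟨v', hv', e⟩ := psi_ne (right_ne_zero_of_mul h0)
    have e' : v + (1 + v c) • v' = (1 : ℤ) • u + (1 + u c) • u' := by rw [e, one_smul]
    have hsu : (((1 + u c) • u').support : Set B) ⊆ Tb := fun j hj => hu'O.1 (Finsupp.support_smul hj)
    have e3 := (hzc (oX v hv).1 (oY v' hv').1 huO.1 hsu e').1
    rw [one_smul] at e3
    exact hvu e3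
  · intro h0
    exact absurd (Finsupp.mem_support_iff.2 hu) h0

end Pool.Agent.H19.LK
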