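import Pool.Agent.H19.LK.SlF
import Pool.Agent.H19.LK.TwB

/-!
# [H19 LK INA] Inner edges: the functionals

`sb T u v`: the sum of the coefficients of `v` at the `β` whose part in `T` is `u`. `e β = single β 1`.

`sb_op`: `k ∉ T`, `u ≠ 0`: `sb T u (op k v) = sb T u v`: on `e β`: `rp k β` and `β` have the same part in `T` (`rp_apply_ne`), the coefficients of `tv` have the sum `1` for `β ≠ sp k`, and the part in `T` of `sp k` is `0 ≠ u`.

`sb_level`: `x ∈ ap M Tc`, `u ≠ 0`, `Tb ∩ Tc = ∅`; for `δ` with `supp δ ⊆ Tb`, `δ b = 1`: `sb Tc u (x e δ) = sb Tc u (x e (sp b))`. `ps_ind`: `δ ≠ sp b`: by `level` a descent `k ≠ b`, `k ∈ supp δ ⊆ Tb`; `γ = rp k δ` has support in `Tb` (`supp_rp`), `γ b = 1`, `pa k γ < 0`, `rp k γ = δ`. `gen k` commutes with `gen j`, `j ∈ Tc`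
(`M k j = 2`), so with `x` (`ap_induction`); `op k (e γ) = h e γ + h e δ + a e (sp k)` for some `a`; `rh x (e (sp k)) = e (sp k)` (`rh_fix`: `(sp k) j = 0`, `pa j (sp k) = cm j k = 0` for `j ∈ Tc`), `sb Tc u (e (sp k)) = 0`. So `sb (x (op k (e γ))) = h sb (x e γ) + h sb (x e δ)`, and
it is `sb (op k (x e γ)) = sb (x e γ)` (`sb_op`, `k ∉ Tc`). `h + h = 1` and `h` is a unit: `sb (x e δ) = sb (x e γ)`.

`in_case`: let `Z = sb Tc u (x e (sp b)) ≠ 0`. For `w ∈ VT Tb`: `sb Tc u (x w) = Z * sf b w` (on `e δ`: `δ b = 0`: `rh x (e δ) = e δ` (`rh_fix`: for `j ∈ Tc`, `δ j = 0` and `pa j δ = ∑ δ i cm j i = 0` because `δ b = 0`), `sb Tc u (e δ) = 0` (`u ≠ 0`, the part of `δ` in `Tc` is `0`); `δ b = 1`: `sb_level`; no other levels by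
`lev`). So for `w ∈ VT Tb`, `y w ∈ VT Tb` (`rh_VT`): `Z * sf b (y w) = sb Tc u (x (y w)) = sb Tc u (y (x w)) = sb Tc u (x w)` (`rh_inv_map`, `sb_op` for `k ∈ Tb`) `= Z * sf b w`. `sl_func`.
-/

set_option autoImplicit false

namespace Pool.Agent.H19.LK

open Pool.H8.CDW Pool.Agent.H52.PAG Pool.Agent.H75.INF Pool.Agent.H2.SPH

variable {B : Type} {M : CoxeterMatrix B} {g : B → Ps M → ℤ}

open Classical in
/-- the sum of the coefficients at the roots with part `u` in `T` -/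
noncomputable def sb (M : CoxeterMatrix B) (T : Set B) (u : B →₀ ℤ) : (Ps M →₀ KK) →ₗ[KK] KK :=
  Finsupp.linearCombination KK fun β : Ps M => if β.1.filter (· ∈ T) = u then (1 : KK) else 0

open Classical in
theorem sb_single (T : Set B) (u : B →₀ ℤ) (β : Ps M) (a : KK) :
    sb M T u (Finsupp.single β a) = if β.1.filter (· ∈ T) = u then a else 0 := by
  unfold sb
  rw [Finsupp.linearCombination_single]
  split_ifs with h
  · rw [smul_eq_mul, mul_one]
  · rw [smul_zero]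

open Classical in
private theorem filter_rp (hM : SLa M) {T : Set B} {k : B} (hk : k ∉ T) {β : Ps M} (h : β ≠ sp M k) :
    (rp M k β).1.filter (· ∈ T) = β.1.filter (· ∈ T) := by
  ext j
  by_cases hj : j ∈ T
  · rw [Finsupp.filter_apply_pos _ _ hj, Finsupp.filter_apply_pos _ _ hj,
      rp_apply_ne hM h (fun e => hk (e ▸ hj))]
  · rw [Finsupp.filter_apply_neg _ _ hj, Finsupp.filter_apply_neg _ _ hj]

open Classical in
private theorem filter_zero {T : Set B} {v : B →₀ ℤ} (h : ∀ j ∈ T, v j = 0) : v.filter (· ∈ T) = 0 := by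
  ext j
  by_cases hj : j ∈ T
  · rw [Finsupp.filter_apply_pos _ _ hj, h j hj, Finsupp.zero_apply]
  · rw [Finsupp.filter_apply_neg _ _ hj, Finsupp.zero_apply]

private theorem sb_zero {T : Set B} {u : B →₀ ℤ} (hu : u ≠ 0) {β : Ps M} (h : ∀ j ∈ T, β.1 j = 0) (a : KK) :
    sb M T u (Finsupp.single β a) = 0 := by
  classical
  rw [sb_single, filter_zero h, if_neg (Ne.symm hu)]

private theorem sp_apply_ne {k j : B} (h : j ≠ k) : (sp M k).1 j = 0 := by
  rw [sp_val, Finsupp.single_eq_of_ne h]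

private theorem sb_sp {T : Set B} {u : B →₀ ℤ} (hu : u ≠ 0) {k : B} (hk : k ∉ T) (a : KK) :
    sb M T u (Finsupp.single (sp M k) a) = 0 :=
  sb_zero hu (fun j hj => sp_apply_ne fun e : j = k => hk (e ▸ hj)) a

private theorem sb_tv (hM : SLa M) {T : Set B} {u : B →₀ ℤ} (hu : u ≠ 0) {k : B} (hk : k ∉ T) (β : Ps M) :
    sb M T u (tv M KK k β) = sb M T u (Finsupp.single β 1) := by
  classical
  unfold tv
  by_cases h : β = sp M k
  · rw [if_pos h, map_zero, h, sb_sp hu hk]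
  · rw [if_neg h]
    have h1 : (rp M k β).1.filter (· ∈ T) = β.1.filter (· ∈ T) := filter_rp hM hk h
    split_ifs
    · rw [sb_single, sb_single, h1]
    · rfl
    · rw [map_add, sb_single, sb_single, sb_single, h1]
      split_ifs
      · rw [hf_add]
      · rw [add_zero]

theorem sb_op (hM : SLa M) {T : Set B} {u : B →₀ ℤ} (hu : u ≠ 0) {k : B} (hk : k ∉ T) (v : Ps M →₀ KK) :
    sb M T u (op M KK g tt k v) = sb M T u v := by
  rw [op_apply, map_add, map_smul, sb_sp hu hk, smul_zero, add_zero]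
  induction v using Finsupp.induction_linear with
  | zero => rw [map_zero]
  | add u v hu hv => rw [map_add, map_add, map_add, hu, hv]
  | single β a =>
    have e : Finsupp.single β a = a • (Finsupp.single β 1 : Ps M →₀ KK) := by
      rw [Finsupp.smul_single, smul_eq_mul, mul_one]
    rw [tau_single, map_smul, sb_tv hM hu hk, e, map_smul]

private theorem gen_comm {i j : B} (h : M i j = 2) : gen M i * gen M j = gen M j * gen M i := by
  have h1 := gen_rel (M := M) (i := i) (j := j) (by rw [h]; norm_num)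
  rw [h] at h1
  simpa [alt] using h1

private theorem ap_comm {k : B} {T : Set B} (h : ∀ j ∈ T, M k j = 2) {x : Art M} (hx : x ∈ ap M T) :
    x * gen M k = gen M k * x := by
  refine ap_induction (P := fun x => x * gen M k = gen M k * x) ?_ ?_ ?_ hx
  · rw [one_mul, mul_one]
  · intro y _ j hj hy
    rw [mul_assoc, ← gen_comm (h j hj), ← mul_assoc, hy, mul_assoc]
  · intro y _ j hj hy
    have h1 : (gen M j)⁻¹ * gen M k = gen M k * (gen M j)⁻¹ := by
      rw [inv_mul_eq_iff_eq_mul, ← mul_assoc, ← gen_comm (h j hj), mul_inv_cancel_right]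
    rw [mul_assoc, h1, ← mul_assoc, hy, mul_assoc]

private theorem op_neg (hM : SLa M) {k : B} {γ : Ps M} (hγ : pa M k γ.1 < 0) :
    ∃ a : KK, op M KK g tt k (Finsupp.single γ 1) = hf KK • Finsupp.single γ 1 + hf KK • Finsupp.single (rp M k γ) 1
      + a • Finsupp.single (sp M k) 1 := by
  refine ⟨tt * fl M KK g k (Finsupp.single γ 1), ?_⟩
  have h1 : γ ≠ sp M k := by
    rintro rfl
    rw [simple_self] at hγ
    omega
  rw [op_apply, tau_single, one_smul]
  unfold tv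
  rw [if_neg h1, if_neg (not_lt.2 hγ.le), if_neg hγ.ne, Finsupp.smul_single (hf KK), Finsupp.smul_single (hf KK),
    smul_eq_mul, mul_one]

theorem sb_level (hM : SLa M) (hg : GOk M g) {b c : B} {Tb Tc : Set B} (h : Cfg M b c Tb Tc) {x : Art M}
    (hx : x ∈ ap M Tc) {u : B →₀ ℤ} (hu : u ≠ 0) (δ : Ps M) (hδ : (δ.1.support : Set B) ⊆ Tb) (h1 : δ.1 b = 1) :
    sb M Tc u (rh hM hg x (Finsupp.single δ 1)) = sb M Tc u (rh hM hg x (Finsupp.single (sp M b) 1)) := by
  revert hδ h1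
  refine ps_ind (P := fun δ => (δ.1.support : Set B) ⊆ Tb → δ.1 b = 1 →
    sb M Tc u (rh hM hg x (Finsupp.single δ 1)) = sb M Tc u (rh hM hg x (Finsupp.single (sp M b) 1))) ?_ δ
  intro δ ih hδ h1
  by_cases hb : δ = sp M b
  · rw [hb]
  obtain ⟨k, hkb, hk0, hkp⟩ := level hM h1 hb
  have hkT : k ∈ Tb := hδ (Finsupp.mem_support_iff.2 hk0.ne')
  have hkc : k ∉ Tc := fun h' => Set.disjoint_left.1 h.dis hkT h'
  have hne : δ ≠ sp M k := by
    rintro rfl
    rw [sp_apply_ne (Ne.symm hkb)] at h1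
    omega
  have hk2 : ∀ j ∈ Tc, M k j = 2 := fun j hj => h.com k hkT j hj fun h' => hkb h'.1
  have hγp : pa M k (rp M k δ).1 < 0 := by
    rw [pa_rp_self hM hne]
    omega
  have hγh : ht (rp M k δ).1 < ht δ.1 := by
    rw [ht_rp hM hne]
    omega
  have hγb : (rp M k δ).1 b = 1 := by
    rw [rp_apply_ne hM hne (Ne.symm hkb), h1]
  have hih := ih (rp M k δ) hγh (supp_rp hkT hδ) hγb
  obtain ⟨a, ha⟩ := op_neg (g := g) hM hγp
  rw [rp_rp hM] at ha
  have e1 : rh hM hg x (Finsupp.single (sp M k) 1) = Finsupp.single (sp M k) 1 := by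
    refine rh_fix hM hg (T := Tc) ?_ hx 1
    intro j hj
    have hjk : j ≠ k := fun e => hkc (e ▸ hj)
    refine ⟨sp_apply_ne hjk, ?_⟩
    rw [simple_pa, cm_symm, cm_two (hk2 j hj)]
  have e2 : rh hM hg x (op M KK g tt k (Finsupp.single (rp M k δ) 1)) =
      op M KK g tt k (rh hM hg x (Finsupp.single (rp M k δ) 1)) := by
    rw [← rh_gen hM hg, ← rh_mul_apply, ← rh_mul_apply, ap_comm hk2 hx]
  have e3 := congrArg (sb M Tc u) e2
  rw [sb_op hM hu hkc, ha] at e3
  simp only [map_add, map_smul, e1, sb_sp hu hkc, smul_zero, add_zero, smul_eq_mul] at e3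
  have e4 := hf_add KK
  have e5 : hf KK ≠ 0 := by
    intro h0
    rw [h0, add_zero] at e4
    exact zero_ne_one e4
  rw [← hih]
  apply mul_left_cancel₀ e5
  linear_combination e3 - (sb M Tc u (rh hM hg x (Finsupp.single (rp M k δ) 1))) * e4

private theorem pa_zero_of {b c : B} {Tb Tc : Set B} (h : Cfg M b c Tb Tc) {δ : Ps M}
    (hδ : (δ.1.support : Set B) ⊆ Tb) (h0 : δ.1 b = 0) {j : B} (hj : j ∈ Tc) : pa M j δ.1 = 0 := by
  unfold pa
  refine Finset.sum_eq_zero fun i hi => ?_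
  have hib : i ≠ b := by
    rintro rfl
    exact (Finsupp.mem_support_iff.1 hi) h0
  show δ.1 i * cm M j i = 0
  rw [cm_symm, cm_two (h.com i (hδ hi) j hj fun h' => hib h'.1), mul_zero]

private theorem key (hM : SLa M) (hg : GOk M g) {b c : B} {Tb Tc : Set B} (h : Cfg M b c Tb Tc)
    (lev : ∀ β : Ps M, (β.1.support : Set B) ⊆ Tb → β.1 b ≤ 1) {x : Art M}
    (hx : x ∈ ap M Tc) {u : B →₀ ℤ} (hu : u ≠ 0) {w : Ps M →₀ KK} (hw : w ∈ VT M KK Tb) :
    sb M Tc u (rh hM hg x w) = sb M Tc u (rh hM hg x (Finsupp.single (sp M b) 1)) * sf M KK b w := by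
  unfold VT at hw
  rw [Finsupp.supported_eq_span_single] at hw
  refine Submodule.span_induction (p := fun w _ => sb M Tc u (rh hM hg x w) =
    sb M Tc u (rh hM hg x (Finsupp.single (sp M b) 1)) * sf M KK b w) ?_ ?_ ?_ ?_ hw
  · rintro _ ⟨δ, hδ, rfl⟩
    have hδ' : (δ.1.support : Set B) ⊆ Tb := hδ
    have h1 := lev δ hδ'
    have h2 : 0 ≤ δ.1 b := δ.2.2 b
    have h3 : δ.1 b = 0 ∨ δ.1 b = 1 := by omega
    rcases h3 with h3 | h3
    · have h4 : ∀ j ∈ Tc, δ.1 j = 0 := by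
        intro j hj
        by_contra hne
        exact Set.disjoint_left.1 h.dis (hδ' (Finsupp.mem_support_iff.2 hne)) hj
      have h5 : rh hM hg x (Finsupp.single δ 1) = Finsupp.single δ 1 :=
        rh_fix hM hg (T := Tc) (fun j hj => ⟨h4 j hj, pa_zero_of h hδ' h3 hj⟩) hx 1
      show sb M Tc u (rh hM hg x (Finsupp.single δ 1)) = _ * sf M KK b (Finsupp.single δ 1)
      rw [h5, sb_zero hu h4, sf_single, if_neg (by omega), mul_zero]
    · show sb M Tc u (rh hM hg x (Finsupp.single δ 1)) = _ * sf M KK b (Finsupp.single δ 1)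
      rw [sb_level hM hg h hx hu δ hδ' h3, sf_single, if_pos (by omega), mul_one]
  · rw [map_zero, map_zero, map_zero, mul_zero]
  · intro w w' _ _ h1 h2
    rw [map_add, map_add, h1, h2, map_add, mul_add]
  · intro a w _ h1
    rw [map_smul, map_smul, h1, map_smul, smul_eq_mul, smul_eq_mul]
    ring

theorem in_case (hM : SLa M) (hg : GOk M g) {b c : B} {Tb Tc : Set B} (h : Cfg M b c Tb Tc)
    (hf : Finite (resM M Tb).Group) (lev : ∀ β : Ps M, (β.1.support : Set B) ⊆ Tb → β.1 b ≤ 1) {x y : Art M}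
    (hx : x ∈ ap M Tc) (hy : y ∈ ap M Tb) (hxy : x * y = y * x) {u : B →₀ ℤ} (hu : u ≠ 0)
    (hZ : sb M Tc u (rh hM hg x (Finsupp.single (sp M b) 1)) ≠ 0) : y ∈ ap M (Tb \ {b}) := by
  refine sl_func hM hg hf h.hb hy fun v hv => ?_
  have h1 : rh hM hg y v ∈ VT M KK Tb := rh_VT hM hg hy hv
  have h2 := key hM hg h lev hx hu h1
  rw [← rh_mul_apply, hxy, rh_mul_apply, rh_inv_map hM hg (sb M Tc u) (fun k hk w =>
    sb_op hM hu (fun h' => Set.disjoint_left.1 h.dis hk h') w) hy, key hM hg h lev hx hu hv] at h2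
  exact (mul_left_cancel₀ hZ h2).symm

end Pool.Agent.H19.LK
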