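import Pool.Agent.H19.LK.InA

/-!
# [H19 LK INB] Inner edges: the remaining case

`em b : ((B →₀ ℤ) →₀ KK) → (Ps M →₀ KK)` linear, `single v 1 ↦ single (α_b + v) 1` if `α_b + v` is a positive root, `0` otherwise.

`em_op`: for `v ∈ Ob M b Tc`, `k ∈ Tc`, `β = α_b + v ∈ Ps M`: `β ≠ sp k` (`β b = 1`), `bb M (ec c) k v = pa k β`, `rp k β = α_b + sr (ec c) k v` (see `ob_stable`), so `op k (em (single v 1)) = em (tw (ec c) k (single v 1)) + a • single (sp k) 1`.
`decomp`: `x ∈ ap M Tc`: `rh x (em w) - em (sg (ec c) x w) ∈ VT M KK Tc` for all `w ∈ supported (Ob M b Tc)`: `ap_induction` in the form: the set of the `x` in `ap M Tc` with this property for all `w` is stable under multiplication by `gen k` and `(gen k)⁻¹` on the right: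
`rh (x gen k) (em w) = rh x (em (tw k w)) + rh x (a single (sp k) 1)`, `rh_VT`, `sg_supp`. For `(gen k)⁻¹`: let `w' = sg (gen k)⁻¹ w ∈ supported Ob` (`sg_supp`), `w = tw k w'`: `rh (x (gen k)⁻¹) (em w) = rh x (rh (gen k)⁻¹ (rh (gen k) (em w') - z)) = rh x (em w') - rh x (rh (gen k)⁻¹ z)`, `z ∈ VT`.
For `w = single 0 1`: `em w = single (sp b) 1`.

`fixed`: assume `sb Tc u (x e (sp b)) = 0` and `X u = 0` for all `u ≠ 0`, `X = sg (ec c) x (single 0 1)`. By `sg_sum`: `∑ X u = 1`, so `X = single 0 1` and `rh x (e (sp b)) = e (sp b) + D`, `D ∈ VT M KK Tc`. For `γ` with `supp γ ⊆ Tc`: `u = γ.1 ≠ 0` (`ne_zero_rt`), the roots `β` with support in `Tc` and part `u` in `Tc` are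
`β = γ` only, and the part of `sp b` in `Tc` is `0`: `0 = sb Tc u (x e (sp b)) = D γ`. So `D = 0`.
-/

set_option autoImplicit false

namespace Pool.Agent.H19.LK

open Pool.H8.CDW Pool.Agent.H52.PAG Pool.Agent.H75.INF Pool.Agent.H2.SPH

variable {B : Type} {M : CoxeterMatrix B} {g : B → Ps M → ℤ}

open Classical in
/-- `single v 1 ↦ single (α_b + v) 1` -/
noncomputable def em (M : CoxeterMatrix B) (b : B) : ((B →₀ ℤ) →₀ KK) →ₗ[KK] (Ps M →₀ KK) :=
  Finsupp.linearCombination KK fun v =>
    if h : Rt M (Finsupp.single b 1 + v) ∧ 0 ≤ Finsupp.single b 1 + v then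
      Finsupp.single (⟨Finsupp.single b 1 + v, h⟩ : Ps M) (1 : KK) else 0

private theorem em_single {b : B} {v : B →₀ ℤ} {β : Ps M} (h : β.1 = Finsupp.single b 1 + v) (a : KK) :
    em M b (Finsupp.single v a) = Finsupp.single β a := by
  classical
  have h1 : Rt M (Finsupp.single b 1 + v) ∧ 0 ≤ Finsupp.single b 1 + v := by
    rw [← h]
    exact β.2
  have h2 : (⟨Finsupp.single b 1 + v, h1⟩ : Ps M) = β := Ps.ext h.symm
  unfold em
  rw [Finsupp.linearCombination_single, dif_pos h1, h2, Finsupp.smul_single, smul_eq_mul, mul_one]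

private theorem sp_mem_VT {T : Set B} {k : B} (hk : k ∈ T) (a : KK) :
    Finsupp.single (sp M k) a ∈ VT M KK T := by
  classical
  refine Finsupp.single_mem_supported KK a ?_
  show ((sp M k).1.support : Set B) ⊆ T
  rw [sp_val]
  intro j hj
  have h1 := Finsupp.support_single_subset hj
  rw [Finset.mem_singleton] at h1
  rw [h1]
  exact hk

theorem em_zero (b : B) : em M b (Finsupp.single 0 1) = Finsupp.single (sp M b) 1 := by
  refine em_single (β := sp M b) ?_ 1
  rw [sp_val, add_zero]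

theorem em_op (hM : SLa M) (hg : GOk M g) {b c : B} {Tb Tc : Set B} (h : Cfg M b c Tb Tc) {k : B} (hk : k ∈ Tc)
    {w : (B →₀ ℤ) →₀ KK} (hw : w ∈ Finsupp.supported KK KK (Ob M b Tc)) :
    op M KK g tt k (em M b w) - em M b (tw M (ec c) k w) ∈ VT M KK Tc := by
  classical
  have hkb : k ≠ b := by
    rintro rfl
    exact Set.disjoint_left.1 h.dis h.hb hk
  have hbT : b ∉ Tc := fun hb => Set.disjoint_left.1 h.dis h.hb hb
  have key : Finsupp.supported KK KK (Ob M b Tc) ≤
      (VT M KK Tc).comap ((op M KK g tt k) ∘ₗ em M b - em M b ∘ₗ (tw M (ec c) k)) := by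
    rw [Finsupp.supported_eq_span_single, Submodule.span_le]
    rintro _ ⟨v, hv, rfl⟩
    show op M KK g tt k (em M b (Finsupp.single v 1)) - em M b (tw M (ec c) k (Finsupp.single v 1)) ∈ VT M KK Tc
    obtain ⟨hv1, hv2⟩ := hv
    let β : Ps M := ⟨Finsupp.single b 1 + v, hv2⟩
    have hβ : β.1 = Finsupp.single b 1 + v := rfl
    have hvb : v b = 0 := by
      by_contra h0
      exact hbT (hv1 (Finsupp.mem_support_iff.2 h0))
    have hβb : β.1 b = 1 := by
      rw [hβ, Finsupp.add_apply, Finsupp.single_eq_same, hvb, add_zero]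
    have hne : β ≠ sp M k := by
      intro e
      rw [e, sp_val, Finsupp.single_eq_of_ne hkb.symm] at hβb
      exact zero_ne_one hβb
    have hcm : cm M k b = ec c k := by
      unfold ec
      by_cases hkc : k = c
      · rw [if_pos hkc, hkc, cm_symm, cm_three h.bc]
      · rw [if_neg hkc, cm_symm, cm_two (h.com b h.hb k hk fun e => hkc e.2)]
    have hpa : pa M k β.1 = bb M (ec c) k v := by
      unfold bb
      rw [hβ, pa_add, pa_single, one_mul, hcm]
    have hrp : (rp M k β).1 = Finsupp.single b 1 + sr M (ec c) k v := by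
      have h1 : rf M k β.1 = β.1 - Finsupp.single k (pa M k β.1) := rfl
      rw [rp_val hM hne, h1, hpa, hβ]
      unfold sr
      rw [add_sub_assoc]
    have htau : tau M KK k (Finsupp.single β 1) = em M b (tw M (ec c) k (Finsupp.single v 1)) := by
      rw [tau_single, one_smul, tw_single, one_smul]
      unfold tv twv
      rw [if_neg hne, hpa]
      split_ifs with h1 h2
      · rw [em_single hrp]
      · rw [em_single hβ]
      · rw [map_add, em_single hβ, em_single hrp]
    rw [em_single hβ, op_apply, htau, add_sub_cancel_left]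
    exact Submodule.smul_mem _ _ (sp_mem_VT hk 1)
  exact key hw

theorem decomp (hM : SLa M) (hg : GOk M g) {b c : B} {Tb Tc : Set B} (h : Cfg M b c Tb Tc) {x : Art M}
    (hx : x ∈ ap M Tc) {w : (B →₀ ℤ) →₀ KK} (hw : w ∈ Finsupp.supported KK KK (Ob M b Tc)) :
    rh hM hg x (em M b w) - em M b (sg hM (ec c) x w) ∈ VT M KK Tc := by
  have hst : ∀ k ∈ Tc, ∀ u ∈ Ob M b Tc, sr M (ec c) k u ∈ Ob M b Tc := fun k hk u hu => ob_stable hM h hk hu
  refine ap_induction (P := fun x => ∀ w ∈ Finsupp.supported KK KK (Ob M b Tc),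
    rh hM hg x (em M b w) - em M b (sg hM (ec c) x w) ∈ VT M KK Tc) ?_ ?_ ?_ hx w hw
  · intro w _
    rw [rh_one, sg_one, Module.End.one_apply, Module.End.one_apply, sub_self]
    exact zero_mem _
  · intro x hx k hk ih w hw
    have h1 := em_op hM hg h hk hw
    have h2 : tw M (ec c) k w ∈ Finsupp.supported KK KK (Ob M b Tc) := by
      have h3 := sg_supp hM hst (gen_mem_ap hk) hw
      rwa [sg_gen] at h3
    have h4 := ih _ h2
    have h5 := rh_VT hM hg hx h1
    have e : rh hM hg (x * gen M k) (em M b w) - em M b (sg hM (ec c) (x * gen M k) w) =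
        rh hM hg x (op M KK g tt k (em M b w) - em M b (tw M (ec c) k w)) +
          (rh hM hg x (em M b (tw M (ec c) k w)) - em M b (sg hM (ec c) x (tw M (ec c) k w))) := by
      rw [rh_mul_apply, sg_mul, rh_gen, sg_gen, map_sub]
      abel
    rw [e]
    exact add_mem h5 h4
  · intro x hx k hk ih w hw
    obtain ⟨w', ew'⟩ : ∃ w', w' = sg hM (ec c) (gen M k)⁻¹ w := ⟨_, rfl⟩
    have hw' : w' ∈ Finsupp.supported KK KK (Ob M b Tc) := by
      rw [ew']
      exact sg_supp hM hst (inv_mem (gen_mem_ap hk)) hw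
    have h0 : tw M (ec c) k w' = w := by
      rw [ew', ← sg_gen hM, ← sg_mul, mul_inv_cancel, sg_one, Module.End.one_apply]
    have h1 := em_op hM hg h hk hw'
    rw [h0] at h1
    have h4 := ih _ hw'
    have h5 := rh_VT hM hg hx (rh_VT hM hg (inv_mem (gen_mem_ap hk)) h1)
    have h6 : rh hM hg (gen M k)⁻¹ (op M KK g tt k (em M b w')) = em M b w' := by
      rw [← rh_gen hM hg, rh_inv]
    have e : rh hM hg (x * (gen M k)⁻¹) (em M b w) - em M b (sg hM (ec c) (x * (gen M k)⁻¹) w) =
        (rh hM hg x (em M b w') - em M b (sg hM (ec c) x w')) -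
          rh hM hg x (rh hM hg (gen M k)⁻¹ (op M KK g tt k (em M b w') - em M b w)) := by
      rw [rh_mul_apply, sg_mul, ← ew', map_sub, h6, map_sub]
      abel
    rw [e]
    exact sub_mem h4 h5

theorem fixed (hM : SLa M) (hg : GOk M g) {b c : B} {Tb Tc : Set B} (h : Cfg M b c Tb Tc) {x : Art M}
    (hx : x ∈ ap M Tc)
    (hZ : ∀ u, u ≠ 0 → sb M Tc u (rh hM hg x (Finsupp.single (sp M b) 1)) = 0)
    (hX : ∀ u, u ≠ 0 → sg hM (ec c) x (Finsupp.single 0 1) u = 0) :
    rh hM hg x (Finsupp.single (sp M b) 1) = Finsupp.single (sp M b) 1 := by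
  classical
  have hbT : b ∉ Tc := fun hb => Set.disjoint_left.1 h.dis h.hb hb
  obtain ⟨X, eX⟩ : ∃ X, X = sg hM (ec c) x (Finsupp.single 0 1) := ⟨_, rfl⟩
  have hX0 : X = Finsupp.single 0 1 := by
    have h1 : X = Finsupp.single 0 (X 0) := by
      ext u
      by_cases hu : u = 0
      · rw [hu, Finsupp.single_eq_same]
      · rw [Finsupp.single_eq_of_ne hu, eX]
        exact hX u hu
    have h2 := sg_sum hM (ec c) x (Finsupp.single 0 1)
    rw [← eX, h1, Finsupp.linearCombination_single, Finsupp.linearCombination_single, smul_eq_mul, smul_eq_mul,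
      mul_one, mul_one] at h2
    rw [h1, h2]
  have h3 := decomp hM hg h hx (w := Finsupp.single 0 1) (Finsupp.single_mem_supported KK 1 (ob_zero b Tc))
  rw [← eX, hX0, em_zero] at h3
  obtain ⟨D, eD⟩ : ∃ D, D = rh hM hg x (Finsupp.single (sp M b) 1) - Finsupp.single (sp M b) 1 := ⟨_, rfl⟩
  rw [← eD] at h3
  have hsup : ∀ β : Ps M, D β ≠ 0 → (β.1.support : Set B) ⊆ Tc := fun β hβ =>
    (Finsupp.mem_supported KK D).1 h3 (Finsupp.mem_support_iff.2 hβ)
  have hfil : ∀ β : Ps M, (β.1.support : Set B) ⊆ Tc → β.1.filter (· ∈ Tc) = β.1 := by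
    intro β hβ
    rw [Finsupp.filter_eq_self_iff]
    intro j hj
    exact hβ (Finsupp.mem_support_iff.2 hj)
  have hD : D = 0 := by
    ext γ
    rw [Finsupp.zero_apply]
    by_contra hγ
    have hγT := hsup γ hγ
    have hγ0 : γ.1 ≠ 0 := ne_zero_rt γ.2.1
    have h4 := hZ γ.1 hγ0
    have h5 : rh hM hg x (Finsupp.single (sp M b) 1) = Finsupp.single (sp M b) 1 + D := by
      rw [eD]
      abel
    rw [h5, map_add, sb_single] at h4
    have h6 : ¬ (sp M b).1.filter (· ∈ Tc) = γ.1 := by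
      rw [sp_val, Finsupp.filter_single_of_neg _ hbT]
      exact fun e => hγ0 e.symm
    rw [if_neg h6, zero_add] at h4
    apply hγ
    rw [← h4]
    unfold sb
    rw [Finsupp.linearCombination_apply, Finsupp.sum, Finset.sum_eq_single γ]
    · rw [if_pos (hfil γ hγT), smul_eq_mul, mul_one]
    · intro β hβ hne
      rw [if_neg, smul_zero]
      rw [hfil β (hsup β (Finsupp.mem_support_iff.1 hβ))]
      exact fun e => hne (Ps.ext e)
    · intro h7
      rw [Finsupp.notMem_support_iff.1 h7, zero_smul]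
  rw [hD] at eD
  exact (sub_eq_zero.1 eD.symm)

end Pool.Agent.H19.LK
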