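import Pool.Agent.H19.LK.RpC

/-!
# [H19 LK KCOL] Divisibility by letters at `X = 0`

`P p = rhoP hM hg ℚ 0 p`, `P (ag i) = op M ℚ g 0 i = tau M ℚ i` (`op_apply`, `zero_mul`), `e β = single β 1`.

`P_nonneg`: `am_ind`; `tau` maps nonnegative vectors to nonnegative vectors: `tau v = ∑ v β • tv β`, `0 ≤ tv β` (`hf ℚ = 1 / 2`).

`kcol`: by induction on `ln p`, for all `i`: if `p` is not of the form `p' * ag i` then `P p (e (sp i)) ≠ 0`. `p = 1`: `e (sp i) ≠ 0`. Otherwise `p = p' * ag j` (`exists_ag_of_ne'`), `j ≠ i`,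
`P p (e (sp i)) = P p' (tau j (e (sp i)))`. `M i j = 2`: `tau j (e (sp i)) = e (sp i)`; `p'` is not `p'' * ag i` (otherwise `p = p'' * ag i * ag j = p'' * ag j * ag i`, `ag_rel`). `M i j = 3`: `tau j (e (sp i)) = (e (sp i) + e β) / 2`,
`β = rp j (sp i)`, and both images are nonnegative, so it is enough that one of them is not `0`. If `p'` is not `p'' * ag i` then `P p' (e (sp i)) ≠ 0` by induction. If `p' = p'' * ag i` then `P p' (e β) = P p'' (tau i (e β)) = P p'' (e (sp j))`
(`pa i β = 1 > 0`, `rp i β = sp j`), and `p''` is not `p''' * ag j`, because otherwise `p = p''' * ag j * ag i * ag j = p''' * ag i * ag j * ag i` (`ag_rel`).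

`krow`: the rows. `(tau j v) (sp i)` is: `v (sp i)` if `M i j = 2`; `(v (sp i)) / 2 + v (rp j (sp i))` if `M i j = 3`; `0` if `i = j`. `(tau i v) (rp i (sp k)) = v (sp k) / 2` if `M i k = 3` (the only `γ` for which `tv i γ` has a coefficient at
`rp i (sp k) = α_i + α_k` is `γ = sp k`: for `pa i γ > 0`, `rp i γ = α_i + α_k` gives `γ = sp k`, whose pairing with `i` is `-1`; for `pa i γ = 0`: `γ = α_i + α_k` has the pairing `1`). `krow` by induction on `ln p`, for all `i`: there is `β` with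
`(P p (e β)) (sp i) ≠ 0` if `ag i` does not divide `p` on the left (`p = ag j * p'`, `j ≠ i`; `M i j = 2`: `ag i` does not divide `p'`; `M i j = 3`: the row is `(row_i P p') / 2 + row_(α_i + α_j) (P p')`, nonnegative; if `p' = ag i * p''`
the second one is `row_j (P p'') / 2` and `ag j` does not divide `p''`, otherwise `ag j * ag i * ag j = ag i * ag j * ag i` divides). The `β` can be taken in `X` if `InX X p`, `i ∈ X`: the span of the `e γ`, `supp γ` not in `X`, is stable
under `tau k`, `k ∈ X` (`(rp k γ) m = γ m` for `m ∉ X`), so `(P p (e β)) (sp i) = 0` for these `β`.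

`P_D`: `D` as in `exists_D`: `ps_ind` on `β`: `β = sp k`: `D = z * ag k`, `tau k (e (sp k)) = 0`. Otherwise a descent `k ∈ supp β ⊆ X` (`desc`), `γ = rp k β`, `pa k γ < 0`, `rp k γ = β`, so `tau k (e γ) = (e γ + e β) / 2`, `e β = 2 tau k (e γ) - e γ`,
`P D (tau k (e γ)) = P (D * ag k) (e γ) = P (ag k * D) (e γ) = 0` by induction (`supp_rp`).
-/

set_option autoImplicit false

namespace Pool.Agent.H19.LK

open Pool.H8.CDW Pool.Agent.H52.PAG Pool.Agent.H75.INF Pool.Agent.H2.SPH

variable {B : Type} {M : CoxeterMatrix B} {g : B → Ps M → ℤ}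

private theorem hfQ : hf ℚ = 1 / 2 := rfl

private theorem tauQ_p {k : B} {β : Ps M} (h : β ≠ sp M k) (hp : 0 < pa M k β.1) :
    tau M ℚ k (Finsupp.single β 1) = Finsupp.single (rp M k β) 1 := by
  rw [tau_single, one_smul]
  unfold tv
  rw [if_neg h, if_pos hp]

private theorem tauQ_z {k : B} {β : Ps M} (hp : pa M k β.1 = 0) :
    tau M ℚ k (Finsupp.single β 1) = Finsupp.single β 1 := by
  have h : β ≠ sp M k := by
    rintro rfl
    rw [simple_self] at hp
    omega
  rw [tau_single, one_smul]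
  unfold tv
  rw [if_neg h, if_neg (by omega), if_pos hp]

private theorem tauQ_n {k : B} {β : Ps M} (hp : pa M k β.1 < 0) :
    tau M ℚ k (Finsupp.single β 1) =
      (1 / 2 : ℚ) • (Finsupp.single β 1 : Ps M →₀ ℚ) + (1 / 2 : ℚ) • (Finsupp.single (rp M k β) 1 : Ps M →₀ ℚ) := by
  have h : β ≠ sp M k := by
    rintro rfl
    rw [simple_self] at hp
    omega
  rw [tau_single, one_smul]
  unfold tv
  rw [if_neg h, if_neg (by omega), if_neg (by omega), Finsupp.smul_single, Finsupp.smul_single, smul_eq_mul, mul_one,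
    hfQ]

private theorem P_ag (hM : SLa M) (hg : GOk M g) (i : B) (v : Ps M →₀ ℚ) :
    rhoP hM hg ℚ 0 (ag M i) v = tau M ℚ i v := by
  rw [rhoP_ag, op_apply, zero_mul, zero_smul, add_zero]

private theorem P_mul (hM : SLa M) (hg : GOk M g) (p q : AM M) (v : Ps M →₀ ℚ) :
    rhoP hM hg ℚ 0 (p * q) v = rhoP hM hg ℚ 0 p (rhoP hM hg ℚ 0 q v) := by
  rw [map_mul, Module.End.mul_apply]

private theorem P_one (hM : SLa M) (hg : GOk M g) (v : Ps M →₀ ℚ) : rhoP hM hg ℚ 0 1 v = v := by
  rw [map_one, Module.End.one_apply]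

private theorem tv_nonneg (k : B) (β γ : Ps M) : 0 ≤ tv M ℚ k β γ := by
  have h1 : ∀ (δ : Ps M) (a : ℚ), 0 ≤ a → 0 ≤ (Finsupp.single δ a : Ps M →₀ ℚ) γ := fun δ a ha =>
    Finsupp.single_nonneg.2 ha γ
  unfold tv
  split_ifs
  · exact le_rfl
  · exact h1 _ _ zero_le_one
  · exact h1 _ _ zero_le_one
  · rw [Finsupp.add_apply, hfQ]
    exact add_nonneg (h1 _ _ (by norm_num)) (h1 _ _ (by norm_num))

private theorem tau_nonneg (k : B) {v : Ps M →₀ ℚ} (hv : 0 ≤ v) : 0 ≤ tau M ℚ k v := by
  intro γ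
  have h1 : tau M ℚ k v = v.sum fun β a => a • tv M ℚ k β := Finsupp.linearCombination_apply _ _
  rw [h1, Finsupp.zero_apply, Finsupp.sum_apply]
  refine Finset.sum_nonneg fun β _ => ?_
  show 0 ≤ v β * tv M ℚ k β γ
  exact mul_nonneg (hv β) (tv_nonneg k β γ)

private theorem sp_ne {i j : B} (hij : M i j = 3) : sp M i ≠ sp M j := by
  have hji : M j i = 3 := by rw [M.symmetric, hij]
  intro e
  have h := simple_pa (M := M) j i
  rw [cm_three hji, e, simple_self] at h
  omega

private theorem twist (hM : SLa M) {i j : B} (hij : M i j = 3) : rp M i (rp M j (sp M i)) = sp M j := by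
  classical
  have hji : M j i = 3 := by rw [M.symmetric, hij]
  have hne : sp M i ≠ sp M j := sp_ne hij
  have h2 : pa M i (rp M j (sp M i)).1 = 1 := by
    rw [pa_rp_three hM hne hij, simple_self, simple_pa, cm_three hji]
    omega
  have h3 : rp M j (sp M i) ≠ sp M i := by
    intro e
    rw [e, simple_self] at h2
    omega
  apply Ps.ext
  rw [rp_val hM h3, rp_val hM hne, sp_val, sp_val]
  unfold rf
  rw [pa_single, cm_three hji, pa_sub, pa_single, pa_single, cm_self, cm_three hij]
  ext k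
  simp only [Finsupp.sub_apply, Finsupp.single_apply]
  split_ifs <;> norm_num

private theorem pa_tw (hM : SLa M) {i j : B} (hij : M i j = 3) : pa M i (rp M j (sp M i)).1 = 1 := by
  have hji : M j i = 3 := by rw [M.symmetric, hij]
  rw [pa_rp_three hM (sp_ne hij) hij, simple_self, simple_pa, cm_three hji]
  omega

private theorem tw_ne (hM : SLa M) {i j : B} (hij : M i j = 3) : rp M j (sp M i) ≠ sp M i := by
  intro e
  have h2 := pa_tw hM hij
  rw [e, simple_self] at h2
  omega

private theorem tw_symm (hM : SLa M) {i j : B} (hij : M i j = 3) : rp M j (sp M i) = rp M i (sp M j) := by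
  rw [← twist hM hij, rp_rp hM]

private theorem rel2 {i j : B} (h : M i j = 2) : ag M i * ag M j = ag M j * ag M i := by
  have h1 := ag_rel (M := M) (i := i) (j := j) (by rw [h]; norm_num)
  rw [h] at h1
  have e : ∀ a b : AM M, alt a b 2 = a * (b * 1) := fun _ _ => rfl
  rw [e, e, mul_one, mul_one] at h1
  exact h1

private theorem rel3 {i j : B} (h : M i j = 3) :
    ag M i * ag M j * ag M i = ag M j * ag M i * ag M j := by
  have h1 := ag_rel (M := M) (i := i) (j := j) (by rw [h]; norm_num)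
  rw [h] at h1
  have e : ∀ a b : AM M, alt a b 3 = a * (b * (a * 1)) := fun _ _ => rfl
  rw [e, e, mul_one, mul_one] at h1
  rw [mul_assoc, h1, mul_assoc]

private theorem add_zero_pos {v w : Ps M →₀ ℚ} (hv : 0 ≤ v) (hw : 0 ≤ w)
    (h : (1 / 2 : ℚ) • v + (1 / 2 : ℚ) • w = 0) : v = 0 ∧ w = 0 := by
  have key : ∀ γ, v γ = 0 ∧ w γ = 0 := by
    intro γ
    have h1 := DFunLike.congr_fun h γ
    rw [Finsupp.add_apply, Finsupp.smul_apply, Finsupp.smul_apply, Finsupp.zero_apply, smul_eq_mul, smul_eq_mul] at h1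
    have h2 : (0 : ℚ) ≤ v γ := hv γ
    have h3 : (0 : ℚ) ≤ w γ := hw γ
    constructor <;> linarith
  exact ⟨Finsupp.ext fun γ => (key γ).1, Finsupp.ext fun γ => (key γ).2⟩

theorem P_nonneg (hM : SLa M) (hg : GOk M g) (p : AM M) {v : Ps M →₀ ℚ} (hv : 0 ≤ v) : 0 ≤ rhoP hM hg ℚ 0 p v := by
  induction p using am_ind with
  | h1 =>
    rw [P_one]
    exact hv
  | h i x ih =>
    rw [P_mul, P_ag]
    exact tau_nonneg i ih

theorem kcol' (hM : SLa M) (hg : GOk M g) (p : AM M) (i : B) :
    rhoP hM hg ℚ 0 (p * ag M i) (Finsupp.single (sp M i) 1) = 0 := by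
  rw [P_mul, P_ag, tau_sp, map_zero]

theorem kcol (hM : SLa M) (hg : GOk M g) {p : AM M} {i : B} (h : ¬ ∃ p', p = p' * ag M i) :
    rhoP hM hg ℚ 0 p (Finsupp.single (sp M i) 1) ≠ 0 := by
  have main : ∀ (n : ℕ) (p : AM M) (i : B), ln p = n → (¬ ∃ p', p = p' * ag M i) →
      rhoP hM hg ℚ 0 p (Finsupp.single (sp M i) 1) ≠ 0 := by
    intro n
    induction n using Nat.strong_induction_on with
    | _ n ih =>
      intro p i hn h
      by_cases hp : p = 1
      · rw [hp, P_one]
        exact Finsupp.single_ne_zero.2 one_ne_zero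
      obtain ⟨j, p', rfl⟩ := exists_ag_of_ne' hp
      have hji : j ≠ i := by
        rintro rfl
        exact h ⟨p', rfl⟩
      have hln : ln p' < n := by
        rw [← hn, ln_mul, ln_ag]
        omega
      rw [P_mul, P_ag]
      rcases hM i j hji.symm with h2 | h3
      · have h2' : M j i = 2 := by rw [M.symmetric, h2]
        rw [tauQ_z (by rw [simple_pa, cm_two h2'])]
        refine ih _ hln p' i rfl ?_
        rintro ⟨p'', rfl⟩
        apply h
        exact ⟨p'' * ag M j, by rw [mul_assoc, rel2 h2, ← mul_assoc]⟩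
      · have h3' : M j i = 3 := by rw [M.symmetric, h3]
        rw [tauQ_n (by rw [simple_pa, cm_three h3']; omega), map_add, map_smul, map_smul]
        intro h0
        have hz := add_zero_pos (P_nonneg hM hg p' (Finsupp.single_nonneg.2 zero_le_one))
          (P_nonneg hM hg p' (Finsupp.single_nonneg.2 zero_le_one)) h0
        by_cases hp' : ∃ p'', p' = p'' * ag M i
        · obtain ⟨p'', rfl⟩ := hp'
          have h4 := hz.2
          rw [P_mul, P_ag, tauQ_p (tw_ne hM h3) (by rw [pa_tw hM h3]; omega), twist hM h3] at h4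
          refine ih (ln p'') ?_ p'' j rfl ?_ h4
          · rw [ln_mul] at hln
            omega
          · rintro ⟨q, rfl⟩
            apply h
            refine ⟨q * ag M i * ag M j, ?_⟩
            have e : q * ag M j * ag M i * ag M j = q * (ag M j * ag M i * ag M j) := by
              simp only [mul_assoc]
            rw [e, ← rel3 h3]
            simp only [mul_assoc]
        · exact ih _ hln p' i rfl hp' hz.1
  exact main (ln p) p i rfl h

private theorem tv_self (hM : SLa M) (i : B) (β : Ps M) : tv M ℚ i β (sp M i) = 0 := by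
  unfold tv
  split_ifs with h1 h2 h3
  · rfl
  · exact Finsupp.single_eq_of_ne (rp_ne hM h1).symm
  · exact Finsupp.single_eq_of_ne (Ne.symm h1)
  · rw [Finsupp.add_apply, Finsupp.single_eq_of_ne (Ne.symm h1), Finsupp.single_eq_of_ne (rp_ne hM h1).symm,
      add_zero]

/-- a linear identity can be checked on the basis -/
private theorem lin_ext (F G : (Ps M →₀ ℚ) →ₗ[ℚ] ℚ) (h : ∀ β, F (Finsupp.single β 1) = G (Finsupp.single β 1))
    (v : Ps M →₀ ℚ) : F v = G v := by
  have h1 : F = G := Finsupp.lhom_ext' fun β => LinearMap.ext_ring (h β)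
  rw [h1]

private theorem row_self (hM : SLa M) (i : B) (v : Ps M →₀ ℚ) : tau M ℚ i v (sp M i) = 0 := by
  refine lin_ext ((Finsupp.lapply (sp M i)).comp (tau M ℚ i)) 0 (fun β => ?_) v
  show tau M ℚ i (Finsupp.single β 1) (sp M i) = 0
  rw [tau_single, one_smul, tv_self hM]

theorem krow' (hM : SLa M) (hg : GOk M g) (p : AM M) (i : B) (v : Ps M →₀ ℚ) :
    rhoP hM hg ℚ 0 (ag M i * p) v (sp M i) = 0 := by
  rw [P_mul, P_ag]
  exact row_self hM i _

private theorem rp_eq_iff (hM : SLa M) (j : B) (β γ : Ps M) : rp M j β = γ ↔ β = rp M j γ := by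
  constructor
  · rintro rfl
    rw [rp_rp hM]
  · rintro rfl
    rw [rp_rp hM]

private theorem e_at (β γ : Ps M) (h : β ≠ γ) : (Finsupp.single β 1 : Ps M →₀ ℚ) γ = 0 :=
  Finsupp.single_eq_of_ne h.symm

private theorem row_two (hM : SLa M) {i j : B} (hij : M i j = 2) (hne : j ≠ i) (v : Ps M →₀ ℚ) :
    tau M ℚ j v (sp M i) = v (sp M i) := by
  have hji : M j i = 2 := by rw [M.symmetric, hij]
  have hp0 : pa M j (sp M i).1 = 0 := by rw [simple_pa, cm_two hji]
  refine lin_ext ((Finsupp.lapply (sp M i)).comp (tau M ℚ j)) (Finsupp.lapply (sp M i)) (fun β => ?_) v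
  show tau M ℚ j (Finsupp.single β 1) (sp M i) = (Finsupp.single β 1 : Ps M →₀ ℚ) (sp M i)
  by_cases hb : β = sp M j
  · subst hb
    rw [tau_sp, Finsupp.zero_apply, e_at]
    intro e
    rw [← e, simple_self] at hp0
    omega
  rcases lt_trichotomy (pa M j β.1) 0 with h | h | h
  · have h1 : β ≠ sp M i := by
      rintro rfl
      omega
    have h2 : rp M j β ≠ sp M i := by
      rw [Ne, rp_eq_iff hM, rp_zero hp0]
      exact h1
    rw [tauQ_n h, Finsupp.add_apply, Finsupp.smul_apply, Finsupp.smul_apply, e_at _ _ h1, e_at _ _ h2, smul_zero,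
      add_zero]
  · rw [tauQ_z h]
  · have h1 : β ≠ sp M i := by
      rintro rfl
      omega
    have h2 : rp M j β ≠ sp M i := by
      rw [Ne, rp_eq_iff hM, rp_zero hp0]
      exact h1
    rw [tauQ_p hb h, e_at _ _ h1, e_at _ _ h2]

private theorem row_three (hM : SLa M) {i j : B} (hij : M i j = 3) (v : Ps M →₀ ℚ) :
    tau M ℚ j v (sp M i) = 1 / 2 * v (sp M i) + v (rp M j (sp M i)) := by
  have hji : M j i = 3 := by rw [M.symmetric, hij]
  have hp0 : pa M j (sp M i).1 = -1 := by rw [simple_pa, cm_three hji]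
  have hp1 : pa M j (rp M j (sp M i)).1 = 1 := by
    rw [pa_rp_self hM (sp_ne hij), hp0]
    omega
  refine lin_ext ((Finsupp.lapply (sp M i)).comp (tau M ℚ j))
    ((1 / 2 : ℚ) • Finsupp.lapply (sp M i) + Finsupp.lapply (rp M j (sp M i))) (fun β => ?_) v
  show tau M ℚ j (Finsupp.single β 1) (sp M i) = 1 / 2 * (Finsupp.single β 1 : Ps M →₀ ℚ) (sp M i) +
    (Finsupp.single β 1 : Ps M →₀ ℚ) (rp M j (sp M i))
  by_cases hb : β = sp M j
  · subst hb
    rw [tau_sp, Finsupp.zero_apply, e_at _ _ (sp_ne hji), e_at _ _ (rp_ne hM (sp_ne hij)).symm, mul_zero, add_zero]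
  rcases lt_trichotomy (pa M j β.1) 0 with h | h | h
  · have h1 : β ≠ rp M j (sp M i) := by
      rintro rfl
      omega
    have h2 : rp M j β ≠ sp M i := by
      rw [Ne, rp_eq_iff hM]
      exact h1
    rw [tauQ_n h, Finsupp.add_apply, Finsupp.smul_apply, Finsupp.smul_apply, e_at _ _ h1, e_at _ _ h2, smul_zero,
      add_zero, add_zero, smul_eq_mul]
  · have h1 : β ≠ rp M j (sp M i) := by
      rintro rfl
      omega
    have h2 : β ≠ sp M i := by
      rintro rfl
      omega
    rw [tauQ_z h, e_at _ _ h1, e_at _ _ h2, mul_zero, add_zero]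
  · have h2 : β ≠ sp M i := by
      rintro rfl
      omega
    rw [tauQ_p hb h, e_at _ _ h2, mul_zero, zero_add]
    by_cases h1 : β = rp M j (sp M i)
    · rw [h1, rp_rp hM, Finsupp.single_eq_same, Finsupp.single_eq_same]
    · have h3 : rp M j β ≠ sp M i := by
        rw [Ne, rp_eq_iff hM]
        exact h1
      rw [e_at _ _ h1, e_at _ _ h3]

private theorem row_mix (hM : SLa M) {i k : B} (hik : M i k = 3) (v : Ps M →₀ ℚ) :
    tau M ℚ i v (rp M i (sp M k)) = 1 / 2 * v (sp M k) := by
  have hki : M k i = 3 := by rw [M.symmetric, hik]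
  have hp0 : pa M i (sp M k).1 = -1 := by rw [simple_pa, cm_three hik]
  have hp1 : pa M i (rp M i (sp M k)).1 = 1 := by
    rw [pa_rp_self hM (sp_ne hki), hp0]
    omega
  refine lin_ext ((Finsupp.lapply (rp M i (sp M k))).comp (tau M ℚ i))
    ((1 / 2 : ℚ) • Finsupp.lapply (sp M k)) (fun β => ?_) v
  show tau M ℚ i (Finsupp.single β 1) (rp M i (sp M k)) = 1 / 2 * (Finsupp.single β 1 : Ps M →₀ ℚ) (sp M k)
  by_cases hb : β = sp M i
  · subst hb
    rw [tau_sp, Finsupp.zero_apply, e_at _ _ (sp_ne hik), mul_zero]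
  have h4 : rp M i β = rp M i (sp M k) ↔ β = sp M k := by
    rw [rp_eq_iff hM, rp_rp hM]
  rcases lt_trichotomy (pa M i β.1) 0 with h | h | h
  · have h1 : β ≠ rp M i (sp M k) := by
      rintro rfl
      omega
    rw [tauQ_n h, Finsupp.add_apply, Finsupp.smul_apply, Finsupp.smul_apply, e_at _ _ h1, smul_zero, zero_add,
      smul_eq_mul]
    congr 1
    by_cases h2 : β = sp M k
    · rw [h2, Finsupp.single_eq_same, Finsupp.single_eq_same]
    · rw [e_at _ _ h2, e_at _ _ (fun e => h2 (h4.1 e))]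
  · have h1 : β ≠ rp M i (sp M k) := by
      rintro rfl
      omega
    have h2 : β ≠ sp M k := by
      rintro rfl
      omega
    rw [tauQ_z h, e_at _ _ h1, e_at _ _ h2, mul_zero]
  · have h2 : β ≠ sp M k := by
      rintro rfl
      omega
    rw [tauQ_p hb h, e_at _ _ h2, e_at _ _ (fun e => h2 (h4.1 e)), mul_zero]

theorem krow (hM : SLa M) (hg : GOk M g) {X : Set B} {p : AM M} (hp : InX X p) {i : B} (hi : i ∈ X)
    (h : ¬ ag M i ∣ p) : ∃ β : Ps M, (β.1.support : Set B) ⊆ X ∧
      rhoP hM hg ℚ 0 p (Finsupp.single β 1) (sp M i) ≠ 0 := by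
  have main : ∀ (n : ℕ) (p : AM M) (i : B), ln p = n → InX X p → i ∈ X → ¬ ag M i ∣ p →
      ∃ β : Ps M, (β.1.support : Set B) ⊆ X ∧ rhoP hM hg ℚ 0 p (Finsupp.single β 1) (sp M i) ≠ 0 := by
    intro n
    induction n using Nat.strong_induction_on with
    | _ n ih =>
      intro p i hn hp hi h
      by_cases hp1 : p = 1
      · refine ⟨sp M i, ?_, ?_⟩
        · intro k hk
          rw [sp_val, Finset.mem_coe] at hk
          have h1 := Finsupp.support_single_subset hk
          rw [Finset.mem_singleton] at h1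
          rw [h1]
          exact hi
        · rw [hp1, P_one, Finsupp.single_eq_same]
          exact one_ne_zero
      obtain ⟨j, p', rfl⟩ := exists_ag_of_ne hp1
      rw [inX_mul, inX_ag] at hp
      have hji : j ≠ i := by
        rintro rfl
        exact h ⟨p', rfl⟩
      have hln : ln p' < n := by
        rw [← hn, ln_mul, ln_ag]
        omega
      rcases hM i j hji.symm with h2 | h3
      · obtain ⟨β, hβ, h1⟩ := ih _ hln p' i rfl hp.2 hi (by
          rintro ⟨q, rfl⟩
          apply h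
          exact ⟨ag M j * q, by rw [← mul_assoc, ← mul_assoc, rel2 h2]⟩)
        refine ⟨β, hβ, ?_⟩
        rw [P_mul, P_ag, row_two hM h2 hji]
        exact h1
      · have h3' : M j i = 3 := by rw [M.symmetric, h3]
        by_cases hd : ag M i ∣ p'
        · obtain ⟨q, rfl⟩ := hd
          rw [inX_mul] at hp
          obtain ⟨β, hβ, h1⟩ := ih (ln q) (by
            rw [ln_mul] at hln
            omega) q j rfl hp.2.2 hp.1 (by
            rintro ⟨q', rfl⟩
            apply h
            refine ⟨ag M j * (ag M i * q'), ?_⟩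
            have e : ag M j * (ag M i * (ag M j * q')) = (ag M j * ag M i * ag M j) * q' := by
              simp only [mul_assoc]
            rw [e, ← rel3 h3]
            simp only [mul_assoc])
          refine ⟨β, hβ, ?_⟩
          have h0 : 0 ≤ rhoP hM hg ℚ 0 q (Finsupp.single β 1) :=
            P_nonneg hM hg q (Finsupp.single_nonneg.2 zero_le_one)
          have h0' : 0 ≤ tau M ℚ i (rhoP hM hg ℚ 0 q (Finsupp.single β 1)) := tau_nonneg i h0
          rw [P_mul, P_ag, P_mul, P_ag, row_three hM h3, tw_symm hM h3, row_mix hM h3]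
          have a1 : (0 : ℚ) ≤ rhoP hM hg ℚ 0 q (Finsupp.single β 1) (sp M j) := h0 _
          have a2 : (0 : ℚ) ≤ tau M ℚ i (rhoP hM hg ℚ 0 q (Finsupp.single β 1)) (sp M i) := h0' _
          have a3 : (0 : ℚ) < rhoP hM hg ℚ 0 q (Finsupp.single β 1) (sp M j) := lt_of_le_of_ne a1 (Ne.symm h1)
          apply ne_of_gt
          linarith
        · obtain ⟨β, hβ, h1⟩ := ih _ hln p' i rfl hp.2 hi hd
          refine ⟨β, hβ, ?_⟩
          have h0 : 0 ≤ rhoP hM hg ℚ 0 p' (Finsupp.single β 1) :=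
            P_nonneg hM hg p' (Finsupp.single_nonneg.2 zero_le_one)
          rw [P_mul, P_ag, row_three hM h3]
          have a1 : (0 : ℚ) ≤ rhoP hM hg ℚ 0 p' (Finsupp.single β 1) (sp M i) := h0 _
          have a2 : (0 : ℚ) ≤ rhoP hM hg ℚ 0 p' (Finsupp.single β 1) (rp M j (sp M i)) := h0 _
          have a3 : (0 : ℚ) < rhoP hM hg ℚ 0 p' (Finsupp.single β 1) (sp M i) := lt_of_le_of_ne a1 (Ne.symm h1)
          apply ne_of_gt
          linarith
  exact main (ln p) p i rfl hp hi h

theorem P_D (hM : SLa M) (hg : GOk M g) {X : Set B} {D : AM M} (hD : ∀ k ∈ X, D * ag M k = ag M k * D)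
    (hD' : ∀ k ∈ X, ∃ z, D = z * ag M k) {v : Ps M →₀ ℚ} (hv : v ∈ VT M ℚ X) : rhoP hM hg ℚ 0 D v = 0 := by
  have main : ∀ β : Ps M, (β.1.support : Set B) ⊆ X → rhoP hM hg ℚ 0 D (Finsupp.single β 1) = 0 := by
    intro β
    refine ps_ind (P := fun β => (β.1.support : Set B) ⊆ X → rhoP hM hg ℚ 0 D (Finsupp.single β 1) = 0) ?_ β
    intro β ih hβ
    obtain ⟨k, hk1, hk2⟩ := desc β
    have hkX : k ∈ X := hβ (Finsupp.mem_support_iff.2 hk1.ne')
    by_cases hb : β = sp M k
    · obtain ⟨z, hz⟩ := hD' k hkX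
      rw [hb, hz]
      exact kcol' hM hg z k
    · have h1 : pa M k (rp M k β).1 < 0 := by
        rw [pa_rp_self hM hb]
        omega
      have h2 : rhoP hM hg ℚ 0 D (Finsupp.single (rp M k β) 1) = 0 := by
        refine ih _ ?_ (supp_rp hkX hβ)
        rw [ht_rp hM hb]
        omega
      have h3 : rhoP hM hg ℚ 0 D (tau M ℚ k (Finsupp.single (rp M k β) 1)) = 0 := by
        rw [← P_ag hM hg, ← P_mul, hD k hkX, P_mul, h2, map_zero]
      rw [tauQ_n h1, rp_rp hM, map_add, map_smul, map_smul, h2, smul_zero, zero_add] at h3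
      exact (smul_eq_zero.1 h3).resolve_left (by norm_num)
  have hv' : ((v.support : Finset (Ps M)) : Set (Ps M)) ⊆ {β : Ps M | (β.1.support : Set B) ⊆ X} :=
    (Finsupp.mem_supported ℚ v).1 hv
  rw [← Finsupp.sum_single v, Finsupp.sum, map_sum]
  refine Finset.sum_eq_zero fun β hβ => ?_
  have h1 : (Finsupp.single β (v β) : Ps M →₀ ℚ) = v β • Finsupp.single β 1 := by
    rw [Finsupp.smul_single, smul_eq_mul, mul_one]
  rw [h1, map_smul, main β (hv' hβ), smul_zero]

end Pool.Agent.H19.LK
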