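import Pool.Agent.H19.LK.SlF

/-!
# [H19 LK LF] Leaves

`c ∉ T`, `b ∈ T`, `M b c = 3`, `M k c = 2` for `k ∈ T`, `k ≠ b`, `T` of finite type, `y ∈ ap M T` commutes with `(gen c) ^ m`, `m > 0`. Let `f = op M KK g tt c = rh (gen c)`, `h = hf KK`, `e β = single β 1`.

(1) `rh y` commutes with `f`: `f` is a polynomial in `f ^ m`. `(f - tt)(f - 1)(f + h) = 0` (`op_quad`, `op_self`) and `tt ^ m`, `1`, `(-h) ^ m` are different, so with the interpolation polynomial `L` (`L (a ^ m) = a` for the three roots `a`)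
`L (Z ^ m) - Z` is divisible by `(Z - tt)(Z - 1)(Z + h)`, and `L (f ^ m) = f`.
(2) `rh y (e (sp c)) = e (sp c)`: `v = rh y (e (sp c))` has `f v = tt v`, by `op_quad` `(tt^2 - h tt - h) v` is a multiple of `e (sp c)`, `tt^2 - h tt - h = (tt - 1)(tt + h) ≠ 0`, so `v = a e (sp c)`. The functional `sf c` gives `a = 1`.
(3) For `w ∈ VT T`: `sf c (f w) = h sf b w + tt fl w` and `(f w) (sp c) = tt fl w`. Since `sf c (y v) = sf c v`, it is enough to show `fl (y (e δ)) = fl (e δ)` for all `δ` in `T`. If `δ b ≠ 1`: project to the `e β`, `β c = 1`. If `δ b = 1`: project to the `e β`, `β c ≥ 2`: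
the coefficients of `y (e δ)` at `δ'`, `δ' b ≥ 2`, vanish, and both sides are `0` (`GOk.van`). Then `sl_func` gives the claim.
-/

set_option autoImplicit false

namespace Pool.Agent.H19.LK

open Pool.H8.CDW Pool.Agent.H52.PAG Pool.Agent.H75.INF Pool.Agent.H2.SPH

variable {B : Type} {M : CoxeterMatrix B} {g : B → Ps M → ℤ}

private theorem tt_pow_ne {m : ℕ} (hm : 0 < m) (q : ℚ) : tt ^ m ≠ algebraMap ℚ KK q := by
  intro h
  have h1 : algebraMap (Polynomial ℚ) KK (Polynomial.X ^ m) = algebraMap (Polynomial ℚ) KK (Polynomial.C q) := by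
    rw [map_pow]
    have e : algebraMap (Polynomial ℚ) KK (Polynomial.C q) = algebraMap ℚ KK q := by
      rw [← Polynomial.algebraMap_eq, ← RingHom.comp_apply, eq_ratCast, eq_ratCast]
    rw [e]
    exact h
  have h2 := IsFractionRing.injective (Polynomial ℚ) KK h1
  have h3 := congrArg Polynomial.natDegree h2
  rw [Polynomial.natDegree_X_pow, Polynomial.natDegree_C] at h3
  omega

private theorem hf_eq : hf KK = algebraMap ℚ KK (1 / 2) := rfl

private theorem hf_pow_ne {m : ℕ} (hm : 0 < m) : (- hf KK) ^ m ≠ 1 := by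
  intro h
  rw [hf_eq, ← map_neg, ← map_pow, ← map_one (algebraMap ℚ KK)] at h
  have h1 := (algebraMap ℚ KK).injective h
  have h2 := congrArg abs h1
  rw [abs_pow, abs_one] at h2
  have h3 : |(-(1 / 2) : ℚ)| = 1 / 2 := by
    rw [abs_neg]
    norm_num
  rw [h3] at h2
  have h4 : ((1 : ℚ) / 2) ^ m < 1 := pow_lt_one₀ (by norm_num) (by norm_num) (by omega)
  linarith

private theorem op_root (hM : SLa M) (hg : GOk M g) (c : B) (v : Ps M →₀ KK) :
    ∃ a : KK, op M KK g tt c (op M KK g tt c v) - hf KK • op M KK g tt c v - hf KK • v = Finsupp.single (sp M c) a := by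
  obtain ⟨a, ha⟩ := op_quad KK hM hg tt c v
  refine ⟨a, ?_⟩
  rw [ha]
  abel

private theorem op_cubic (hM : SLa M) (hg : GOk M g) (c : B) :
    Polynomial.aeval (op M KK g tt c) ((Polynomial.X - Polynomial.C tt) * ((Polynomial.X - Polynomial.C 1) *
      (Polynomial.X - Polynomial.C (- hf KK)))) = 0 := by
  refine LinearMap.ext fun v => ?_
  rw [map_mul, map_mul, map_sub, map_sub, map_sub, Polynomial.aeval_X, Polynomial.aeval_C, Polynomial.aeval_C,
    Polynomial.aeval_C, Module.End.mul_apply, Module.End.mul_apply, LinearMap.sub_apply, LinearMap.sub_apply,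
    LinearMap.sub_apply, Module.algebraMap_end_apply, Module.algebraMap_end_apply, Module.algebraMap_end_apply,
    LinearMap.zero_apply]
  obtain ⟨a, ha⟩ := op_root hM hg c v
  have e : op M KK g tt c (op M KK g tt c v - -hf KK • v) - (1 : KK) • (op M KK g tt c v - -hf KK • v) =
      Finsupp.single (sp M c) a := by
    have e1 : op M KK g tt c v = hf KK • op M KK g tt c v + hf KK • op M KK g tt c v := by
      rw [← add_smul, hf_add, one_smul]
    rw [← ha, one_smul, neg_smul, sub_neg_eq_add, map_add, map_smul]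
    generalize op M KK g tt c (op M KK g tt c v) = A
    generalize op M KK g tt c v = C at e1 ⊢
    calc A + hf KK • C - (C + hf KK • v) = A + hf KK • C - ((hf KK • C + hf KK • C) + hf KK • v) := by rw [← e1]
      _ = A - hf KK • C - hf KK • v := by abel
  rw [e, op_self KK hg, Finsupp.smul_single, smul_eq_mul, sub_self]

/-- (1) -/
theorem comm_of_pow (hM : SLa M) (hg : GOk M g) {c : B} {y : Art M} {m : ℕ} (hm : 0 < m)
    (h : gen M c ^ m * y = y * gen M c ^ m) (v : Ps M →₀ KK) :
    rh hM hg y (op M KK g tt c v) = op M KK g tt c (rh hM hg y v) := by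
  classical
  have hpow : ∀ n : ℕ, rh hM hg (gen M c ^ n) = op M KK g tt c ^ n := by
    intro n
    induction n with
    | zero => rw [pow_zero, pow_zero, rh_one]
    | succ n ih => rw [pow_succ, pow_succ, rh_mul, ih, rh_gen]
  have hY : Commute (rh hM hg y) (op M KK g tt c ^ m) := by
    have h1 := congrArg (rh hM hg) h
    rw [rh_mul, rh_mul, hpow] at h1
    exact h1.symm
  have ne1 : tt ^ m ≠ 1 := by
    have h1 := tt_pow_ne hm 1
    rwa [map_one] at h1
  have ne2 : tt ^ m ≠ (- hf KK) ^ m := by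
    rw [hf_eq, ← map_neg, ← map_pow]
    exact tt_pow_ne hm _
  have ne3 := hf_pow_ne hm
  -- the interpolation polynomial
  let s : Finset KK := {tt, 1, - hf KK}
  have hinj : Set.InjOn (fun a : KK => a ^ m) (s : Set KK) := by
    intro a ha a' ha' haa
    simp only [s, Finset.coe_insert, Finset.coe_singleton, Set.mem_insert_iff, Set.mem_singleton_iff] at ha ha'
    simp only at haa
    rcases ha with rfl | rfl | rfl <;> rcases ha' with rfl | rfl | rfl
    · rfl
    · rw [one_pow] at haa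
      exact absurd haa ne1
    · exact absurd haa ne2
    · rw [one_pow] at haa
      exact absurd haa.symm ne1
    · rfl
    · rw [one_pow] at haa
      exact absurd haa.symm ne3
    · exact absurd haa.symm ne2
    · rw [one_pow] at haa
      exact absurd haa ne3
    · rfl
  obtain ⟨L, hL⟩ : ∃ L : Polynomial KK, ∀ a ∈ s, L.eval (a ^ m) = a := by
    refine ⟨Lagrange.interpolate s (fun a : KK => a ^ m) (fun a => a), fun a ha => ?_⟩
    exact Lagrange.eval_interpolate_at_node _ hinj ha
  have hroot : ∀ a ∈ s, (Polynomial.X - Polynomial.C a) ∣ (L.comp (Polynomial.X ^ m) - Polynomial.X) := by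
    intro a ha
    rw [Polynomial.dvd_iff_isRoot, Polynomial.IsRoot.def, Polynomial.eval_sub, Polynomial.eval_comp,
      Polynomial.eval_pow, Polynomial.eval_X, hL a ha, sub_self]
  have d1 : tt - 1 ≠ 0 := by
    intro e
    apply ne1
    rw [sub_eq_zero.1 e, one_pow]
  have d2 : tt - - hf KK ≠ 0 := by
    intro e
    apply ne2
    rw [sub_eq_zero.1 e]
  have d3 : (1 : KK) - - hf KK ≠ 0 := by
    intro e
    apply ne3
    rw [← sub_eq_zero.1 e, one_pow]
  have hdvd : ((Polynomial.X - Polynomial.C tt) * ((Polynomial.X - Polynomial.C 1) *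
      (Polynomial.X - Polynomial.C (- hf KK)))) ∣ (L.comp (Polynomial.X ^ m) - Polynomial.X) := by
    have c1 : IsCoprime (Polynomial.X - Polynomial.C tt : Polynomial KK) (Polynomial.X - Polynomial.C 1) :=
      Polynomial.isCoprime_X_sub_C_of_isUnit_sub (isUnit_iff_ne_zero.2 d1)
    have c2 : IsCoprime (Polynomial.X - Polynomial.C tt : Polynomial KK) (Polynomial.X - Polynomial.C (- hf KK)) :=
      Polynomial.isCoprime_X_sub_C_of_isUnit_sub (isUnit_iff_ne_zero.2 d2)
    have c3 : IsCoprime (Polynomial.X - Polynomial.C 1 : Polynomial KK) (Polynomial.X - Polynomial.C (- hf KK)) :=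
      Polynomial.isCoprime_X_sub_C_of_isUnit_sub (isUnit_iff_ne_zero.2 d3)
    refine (c1.mul_right c2).mul_dvd (hroot _ (by simp [s])) (c3.mul_dvd (hroot _ (by simp [s])) (hroot _ (by simp [s])))
  have hz : Polynomial.aeval (op M KK g tt c) (L.comp (Polynomial.X ^ m) - Polynomial.X) = 0 := by
    obtain ⟨Q, hQ⟩ := hdvd
    rw [hQ, map_mul, op_cubic hM hg, zero_mul]
  rw [map_sub, Polynomial.aeval_X, Polynomial.aeval_comp, map_pow, Polynomial.aeval_X, sub_eq_zero] at hz
  have hc : Commute (rh hM hg y) (Polynomial.aeval (op M KK g tt c ^ m) L) := by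
    rw [Polynomial.aeval_eq_sum_range]
    refine Commute.sum_right _ _ _ fun i _ => ?_
    exact (hY.pow_right i).smul_right _
  rw [hz] at hc
  exact LinearMap.congr_fun hc.eq v

/-- (2) -/
theorem fix_c (hM : SLa M) (hg : GOk M g) {c : B} {T : Set B} (hc : c ∉ T) {y : Art M} (hy : y ∈ ap M T)
    (h : ∀ v, rh hM hg y (op M KK g tt c v) = op M KK g tt c (rh hM hg y v)) :
    rh hM hg y (Finsupp.single (sp M c) 1) = Finsupp.single (sp M c) 1 := by
  obtain ⟨v, hv⟩ : ∃ v, v = rh hM hg y (Finsupp.single (sp M c) 1) := ⟨_, rfl⟩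
  have h1 : op M KK g tt c v = tt • v := by
    rw [hv, ← h, op_self KK hg, ← map_smul, Finsupp.smul_single, smul_eq_mul]
  obtain ⟨a, ha⟩ := op_root hM hg c v
  rw [h1, map_smul, h1] at ha
  have h2 : ((tt - 1) * (tt + hf KK)) • v = Finsupp.single (sp M c) a := by
    rw [← ha]
    have e : (tt - 1) * (tt + hf KK) = tt * tt - hf KK * tt - hf KK := by
      have e2 := hf_add KK
      linear_combination tt * e2
    rw [e, sub_smul, sub_smul, mul_smul, mul_smul]
  have d1 : tt - 1 ≠ 0 := by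
    intro e
    have h3 := tt_pow_ne (m := 1) one_pos 1
    rw [map_one, pow_one] at h3
    exact h3 (sub_eq_zero.1 e)
  have d2 : tt + hf KK ≠ 0 := by
    intro e
    have h3 := tt_pow_ne (m := 1) one_pos (-(1 / 2))
    rw [map_neg, pow_one, ← hf_eq] at h3
    exact h3 (eq_neg_of_add_eq_zero_left e)
  have d3 : (tt - 1) * (tt + hf KK) ≠ 0 := mul_ne_zero d1 d2
  have h3 : v = Finsupp.single (sp M c) (((tt - 1) * (tt + hf KK))⁻¹ * a) := by
    rw [← smul_eq_mul, ← Finsupp.smul_single, ← h2, smul_smul, inv_mul_cancel₀ d3, one_smul]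
  have h4 : sf M KK c v = 1 := by
    rw [hv, rh_inv_map hM hg (sf M KK c) (fun k hk v => sf_op hM KK tt (fun e => hc (by rw [← e]; exact hk)) v) hy, sf_single,
      if_pos]
    rw [sp_val, Finsupp.single_eq_same]
    norm_num
  have h5 : 0 < (sp M c).1 c := by
    rw [sp_val, Finsupp.single_eq_same]
    norm_num
  rw [h3, sf_single, if_pos h5] at h4
  rw [← hv, h3, h4]

private theorem T_c {c : B} {T : Set B} (hc : c ∉ T) {γ : Ps M} (hγ : (γ.1.support : Set B) ⊆ T) : γ.1 c = 0 := by
  by_contra h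
  exact hc (hγ (Finsupp.mem_support_iff.2 h))

private theorem pa_T {b c : B} {T : Set B} (hbc : M b c = 3) (hcom : ∀ k ∈ T, k ≠ b → M k c = 2) {γ : Ps M}
    (hγ : (γ.1.support : Set B) ⊆ T) : pa M c γ.1 = - γ.1 b := by
  have hcb : M c b = 3 := by rw [M.symmetric, hbc]
  unfold pa Finsupp.sum
  rw [Finset.sum_eq_single b]
  · show γ.1 b * cm M c b = _
    rw [cm_three hcb]
    ring
  · intro k hk hkb
    have h1 : M c k = 2 := by rw [M.symmetric, hcom k (hγ hk) hkb]
    show γ.1 k * cm M c k = _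
    rw [cm_two h1, mul_zero]
  · intro hb
    show γ.1 b * cm M c b = _
    rw [Finsupp.notMem_support_iff.1 hb, zero_mul]

/-- a projection which is compatible with the generators -/
private theorem rh_q (hM : SLa M) (hg : GOk M g) {T : Set B} (q : (Ps M →₀ KK) →ₗ[KK] (Ps M →₀ KK))
    (hq : ∀ v, q (q v) = q v) (h0 : ∀ k ∈ T, ∀ a, q (Finsupp.single (sp M k) a) = 0)
    (h1 : ∀ k ∈ T, ∀ v, q (op M KK g tt k v) = q (op M KK g tt k (q v))) {y : Art M} (hy : y ∈ ap M T)
    (v : Ps M →₀ KK) : q (rh hM hg y v) = q (rh hM hg y (q v)) := by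
  revert v
  refine ap_induction (K := T) (P := fun y => ∀ v, q (rh hM hg y v) = q (rh hM hg y (q v))) ?_ ?_ ?_ hy
  · intro v
    rw [rh_one, Module.End.one_apply, Module.End.one_apply, hq]
  · intro y _ k hk ih v
    rw [rh_mul_apply, rh_mul_apply, rh_gen, ih, h1 k hk, ← ih]
  · intro y _ k hk ih v
    have key : ∀ v, q (rh hM hg (gen M k)⁻¹ v) = (hf KK)⁻¹ • (q (op M KK g tt k v) - hf KK • q v) := by
      intro v
      obtain ⟨a, ha⟩ := op_quad KK hM hg tt k (rh hM hg (gen M k)⁻¹ v)
      rw [← rh_gen hM hg k, rh_inv'] at ha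
      have h2 : hf KK • q (rh hM hg (gen M k)⁻¹ v) = q (rh hM hg (gen M k) v) - hf KK • q v := by
        rw [ha, map_add, map_add, h0 k hk, map_smul, map_smul]
        abel
      rw [← rh_gen hM hg k, ← h2, smul_smul, inv_mul_cancel₀, one_smul]
      intro h3
      have h4 := hf_add KK
      rw [h3, add_zero] at h4
      exact zero_ne_one h4
    rw [rh_mul_apply, rh_mul_apply, ih, ih (rh hM hg (gen M k)⁻¹ (q v)), key, key, h1 k hk, hq]

private theorem VT_ext {T : Set B} {E : Type} [AddCommGroup E] [Module KK E] (φ ψ : (Ps M →₀ KK) →ₗ[KK] E)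
    (h : ∀ γ : Ps M, (γ.1.support : Set B) ⊆ T → φ (Finsupp.single γ 1) = ψ (Finsupp.single γ 1)) {w : Ps M →₀ KK}
    (hw : w ∈ VT M KK T) : φ w = ψ w := by
  unfold VT at hw
  rw [Finsupp.supported_eq_span_single] at hw
  refine LinearMap.eqOn_span' ?_ hw
  rintro _ ⟨γ, hγ, rfl⟩
  exact h γ hγ

open Classical in
private noncomputable def qp (M : CoxeterMatrix B) (p : ℤ → Prop) (c : B) : (Ps M →₀ KK) →ₗ[KK] (Ps M →₀ KK) :=
  Finsupp.linearCombination KK fun β : Ps M => if p (β.1 c) then Finsupp.single β (1 : KK) else 0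

private theorem qp_t {p : ℤ → Prop} {c : B} {β : Ps M} (h : p (β.1 c)) (a : KK) :
    qp M p c (Finsupp.single β a) = Finsupp.single β a := by
  unfold qp
  rw [Finsupp.linearCombination_single, if_pos h, Finsupp.smul_single, smul_eq_mul, mul_one]

private theorem qp_f {p : ℤ → Prop} {c : B} {β : Ps M} (h : ¬ p (β.1 c)) (a : KK) :
    qp M p c (Finsupp.single β a) = 0 := by
  unfold qp
  rw [Finsupp.linearCombination_single, if_neg h, smul_zero]

private theorem qp_apply {p : ℤ → Prop} {c : B} (v : Ps M →₀ KK) {γ : Ps M} (h : p (γ.1 c)) :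
    qp M p c v γ = v γ := by
  classical
  induction v using Finsupp.induction_linear with
  | zero => rw [map_zero]
  | add u w hu hw => rw [map_add, Finsupp.add_apply, Finsupp.add_apply, hu, hw]
  | single β a =>
    by_cases hβ : p (β.1 c)
    · rw [qp_t hβ]
    · rw [qp_f hβ, Finsupp.zero_apply, Finsupp.single_eq_of_ne]
      rintro rfl
      exact hβ h

private theorem qp_idem {p : ℤ → Prop} {c : B} (v : Ps M →₀ KK) : qp M p c (qp M p c v) = qp M p c v := by
  induction v using Finsupp.induction_linear with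
  | zero => rw [map_zero, map_zero]
  | add u w hu hw => rw [map_add, map_add, hu, hw]
  | single β a =>
    by_cases hβ : p (β.1 c)
    · rw [qp_t hβ, qp_t hβ]
    · rw [qp_f hβ, map_zero]

private theorem qp_tau (hM : SLa M) {p : ℤ → Prop} {c k : B} (hk : k ≠ c) {β : Ps M}
    (h : ¬ p (β.1 c)) (a : KK) : qp M p c (tau M KK k (Finsupp.single β a)) = 0 := by
  rw [tau_single, map_smul]
  have e : qp M p c (tv M KK k β) = 0 := by
    unfold tv
    split_ifs with h1 h2 h3
    · exact map_zero _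
    · refine qp_f ?_ _
      rw [rp_apply_ne hM h1 hk.symm]
      exact h
    · exact qp_f h _
    · rw [map_add, qp_f h, qp_f, add_zero]
      rw [rp_apply_ne hM h1 hk.symm]
      exact h
  rw [e, smul_zero]

private theorem qp_op (hM : SLa M) {p : ℤ → Prop} (p0 : ¬ p 0) {c k : B} (hk : k ≠ c) (v : Ps M →₀ KK) :
    qp M p c (op M KK g tt k v) = qp M p c (op M KK g tt k (qp M p c v)) := by
  have h0 : (sp M k).1 c = 0 := by
    rw [sp_val, Finsupp.single_eq_of_ne hk.symm]
  have h1 : ∀ a : KK, qp M p c (a • Finsupp.single (sp M k) 1) = 0 := by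
    intro a
    rw [map_smul, qp_f, smul_zero]
    rw [h0]
    exact p0
  induction v using Finsupp.induction_linear with
  | zero => rw [map_zero, map_zero, map_zero, map_zero]
  | add u w hu hw => rw [map_add, map_add, map_add, map_add, map_add, hu, hw]
  | single β a =>
    by_cases hβ : p (β.1 c)
    · rw [qp_t hβ]
    · rw [qp_f hβ, map_zero, map_zero, op_apply, map_add, h1, add_zero, qp_tau hM hk hβ]

section main

variable {b c : B} {T : Set B}

private theorem van_T (hg : GOk M g) (hc : c ∉ T) (hbc : M b c = 3) (hcom : ∀ k ∈ T, k ≠ b → M k c = 2) {γ : Ps M}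
    (hγ : (γ.1.support : Set B) ⊆ T) (h : γ.1 b ≤ 1) : g c γ = 1 := by
  refine hg.van c γ (T_c hc hγ) ?_
  rw [pa_T hbc hcom hγ]
  omega

private theorem ne_T (hc : c ∉ T) {γ : Ps M} (hγ : (γ.1.support : Set B) ⊆ T) : γ ≠ sp M c := by
  rintro rfl
  have h := T_c hc hγ
  rw [sp_val, Finsupp.single_eq_same] at h
  exact one_ne_zero h

private theorem f_zero (hg : GOk M g) (hc : c ∉ T) (hbc : M b c = 3) (hcom : ∀ k ∈ T, k ≠ b → M k c = 2) {γ : Ps M}
    (hγ : (γ.1.support : Set B) ⊆ T) (h : γ.1 b = 0) :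
    op M KK g tt c (Finsupp.single γ 1) = Finsupp.single γ 1 := by
  refine op_fix hg KK tt (T_c hc hγ) ?_ 1
  rw [pa_T hbc hcom hγ, h, neg_zero]

private theorem f_pos (hc : c ∉ T) (hbc : M b c = 3) (hcom : ∀ k ∈ T, k ≠ b → M k c = 2) {γ : Ps M}
    (hγ : (γ.1.support : Set B) ⊆ T) (h : 0 < γ.1 b) :
    op M KK g tt c (Finsupp.single γ 1) = Finsupp.single γ (hf KK) + Finsupp.single (rp M c γ) (hf KK) +
      Finsupp.single (sp M c) (tt * fl M KK g c (Finsupp.single γ 1)) := by
  have hp := pa_T hbc hcom hγ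
  rw [op_apply, tau_single, one_smul, Finsupp.smul_single, smul_eq_mul, mul_one]
  unfold tv
  rw [if_neg (ne_T hc hγ), if_neg (by omega), if_neg (by omega)]

private theorem rp_c (hM : SLa M) (hc : c ∉ T) (hbc : M b c = 3) (hcom : ∀ k ∈ T, k ≠ b → M k c = 2) {γ : Ps M}
    (hγ : (γ.1.support : Set B) ⊆ T) : (rp M c γ).1 c = γ.1 b := by
  rw [rp_apply_self hM (ne_T hc hγ), T_c hc hγ, pa_T hbc hcom hγ]
  ring

private theorem fl_T (hg : GOk M g) (hc : c ∉ T) (hbc : M b c = 3) (hcom : ∀ k ∈ T, k ≠ b → M k c = 2) {γ : Ps M}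
    (hγ : (γ.1.support : Set B) ⊆ T) (h : γ.1 b ≤ 1) (a : KK) : fl M KK g c (Finsupp.single γ a) = 0 := by
  rw [fl_single, van_T hg hc hbc hcom hγ h]
  norm_num

/-- (A1) -/
private theorem a1 (hM : SLa M) (hg : GOk M g) (hc : c ∉ T) (hbc : M b c = 3) (hcom : ∀ k ∈ T, k ≠ b → M k c = 2)
    {w : Ps M →₀ KK} (hw : w ∈ VT M KK T) :
    sf M KK c (op M KK g tt c w) = hf KK * sf M KK b w + tt * fl M KK g c w := by
  refine VT_ext ((sf M KK c).comp (op M KK g tt c)) (hf KK • sf M KK b + tt • fl M KK g c) (fun γ hγ => ?_) hw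
  rw [LinearMap.comp_apply, LinearMap.add_apply, LinearMap.smul_apply, LinearMap.smul_apply, smul_eq_mul, smul_eq_mul]
  rcases (γ.2.2 b).lt_or_eq with h | h
  · have h' : 0 < γ.1 b := h
    rw [f_pos hc hbc hcom hγ h', map_add, map_add, sf_single, sf_single, sf_single, sf_single, if_neg, if_pos, if_pos,
      if_pos h', zero_add, mul_one]
    · rw [sp_val, Finsupp.single_eq_same]
      norm_num
    · rw [rp_c hM hc hbc hcom hγ]
      exact h'
    · rw [T_c hc hγ]
      norm_num
  · have h' : γ.1 b = 0 := h.symm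
    rw [f_zero hg hc hbc hcom hγ h', sf_single, sf_single, if_neg, if_neg, fl_T hg hc hbc hcom hγ (by omega)]
    · ring
    · rw [h']
      norm_num
    · rw [T_c hc hγ]
      norm_num

/-- (A2) -/
private theorem a2 (hM : SLa M) (hg : GOk M g) (hc : c ∉ T) (hbc : M b c = 3) (hcom : ∀ k ∈ T, k ≠ b → M k c = 2)
    {w : Ps M →₀ KK} (hw : w ∈ VT M KK T) : op M KK g tt c w (sp M c) = tt * fl M KK g c w := by
  refine VT_ext ((Finsupp.lapply (sp M c)).comp (op M KK g tt c)) (tt • fl M KK g c) (fun γ hγ => ?_) hw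
  rw [LinearMap.comp_apply, LinearMap.smul_apply, smul_eq_mul, Finsupp.lapply_apply]
  rcases (γ.2.2 b).lt_or_eq with h | h
  · have h' : 0 < γ.1 b := h
    rw [f_pos hc hbc hcom hγ h', Finsupp.add_apply, Finsupp.add_apply, Finsupp.single_eq_of_ne (ne_T hc hγ).symm,
      Finsupp.single_eq_of_ne (rp_ne hM (ne_T hc hγ)).symm, Finsupp.single_eq_same, zero_add, zero_add]
  · have h' : γ.1 b = 0 := h.symm
    rw [f_zero hg hc hbc hcom hγ h', fl_T hg hc hbc hcom hγ (by omega), mul_zero,
      Finsupp.single_eq_of_ne (ne_T hc hγ).symm]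

/-- (A3) -/
private theorem a3 (hM : SLa M) (hg : GOk M g) (hc : c ∉ T) (hbc : M b c = 3) (hcom : ∀ k ∈ T, k ≠ b → M k c = 2)
    {w : Ps M →₀ KK} (hw : w ∈ VT M KK T) {δ : Ps M} (hδ : (δ.1.support : Set B) ⊆ T) (hδb : 0 < δ.1 b) :
    op M KK g tt c w (rp M c δ) = hf KK * w δ := by
  refine VT_ext ((Finsupp.lapply (rp M c δ)).comp (op M KK g tt c)) (hf KK • Finsupp.lapply δ) (fun γ hγ => ?_) hw
  rw [LinearMap.comp_apply, LinearMap.smul_apply, smul_eq_mul, Finsupp.lapply_apply, Finsupp.lapply_apply]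
  have hne : γ ≠ rp M c δ := by
    intro e
    have h1 : γ.1 c = (rp M c δ).1 c := by rw [← e]
    rw [T_c hc hγ, rp_c hM hc hbc hcom hδ] at h1
    omega
  rcases (γ.2.2 b).lt_or_eq with h | h
  · have h' : 0 < γ.1 b := h
    rw [f_pos hc hbc hcom hγ h', Finsupp.add_apply, Finsupp.add_apply, Finsupp.single_eq_of_ne hne.symm,
      Finsupp.single_eq_of_ne (rp_ne hM (ne_T hc hδ)), zero_add, add_zero]
    by_cases e : γ = δ
    · rw [e, Finsupp.single_eq_same, Finsupp.single_eq_same, mul_one]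
    · rw [Finsupp.single_eq_of_ne, Finsupp.single_eq_of_ne (Ne.symm e), mul_zero]
      intro e'
      have h1 := congrArg (rp M c) e'
      rw [rp_rp hM, rp_rp hM] at h1
      exact e h1.symm
  · have h' : γ.1 b = 0 := h.symm
    rw [f_zero hg hc hbc hcom hγ h', Finsupp.single_eq_of_ne hne.symm, Finsupp.single_eq_of_ne, mul_zero]
    rintro rfl
    omega

end main

theorem leaf (hM : SLa M) (hg : GOk M g) {b c : B} {T : Set B} (hb : b ∈ T) (hc : c ∉ T) (hbc : M b c = 3)
    (hcom : ∀ k ∈ T, k ≠ b → M k c = 2) (hf : Finite (resM M T).Group) {y : Art M} (hy : y ∈ ap M T) {m : ℕ}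
    (hm : 0 < m) (h : gen M c ^ m * y = y * gen M c ^ m) : y ∈ ap M (T \ {b}) := by
  classical
  have hcomm := comm_of_pow hM hg hm h
  have hfix := fix_c hM hg hc hy hcomm
  have hkc : ∀ k ∈ T, k ≠ c := by
    rintro k hk rfl
    exact hc hk
  have hmem : ∀ δ : Ps M, (δ.1.support : Set B) ⊆ T → (Finsupp.single δ 1 : Ps M →₀ KK) ∈ VT M KK T := by
    intro δ hδ
    exact Finsupp.single_mem_supported KK 1 hδ
  have hfn : LK.hf KK ≠ 0 := by
    intro h3
    have h4 := hf_add KK
    rw [h3, add_zero] at h4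
    exact zero_ne_one h4
  -- the projections
  have hproj : ∀ (p : ℤ → Prop), ¬ p 0 → ∀ v, qp M p c (rh hM hg y v) = qp M p c (rh hM hg y (qp M p c v)) := by
    intro p p0 v
    refine rh_q hM hg (qp M p c) qp_idem ?_ (fun k hk v => qp_op hM p0 (hkc k hk) v) hy v
    intro k hk a
    refine qp_f ?_ a
    rw [sp_val, Finsupp.single_eq_of_ne (hkc k hk).symm]
    exact p0
  have key : ∀ δ : Ps M, (δ.1.support : Set B) ⊆ T →
      fl M KK g c (rh hM hg y (Finsupp.single δ 1)) = fl M KK g c (Finsupp.single δ 1) := by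
    intro δ hδ
    have hw : rh hM hg y (Finsupp.single δ 1) ∈ VT M KK T := rh_VT hM hg hy (hmem δ hδ)
    by_cases h1 : δ.1 b = 1
    · rw [fl_T hg hc hbc hcom hδ (by omega)]
      -- the projection to the levels at least `2`
      have e1 : qp M (fun n => 2 ≤ n) c (op M KK g tt c (Finsupp.single δ 1)) = 0 := by
        rw [f_pos hc hbc hcom hδ (by omega), map_add, map_add, qp_f, qp_f, qp_f, add_zero, add_zero]
        · rw [sp_val, Finsupp.single_eq_same]
          norm_num
        · rw [rp_c hM hc hbc hcom hδ]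
          omega
        · rw [T_c hc hδ]
          norm_num
      have e2 : qp M (fun n => 2 ≤ n) c (op M KK g tt c (rh hM hg y (Finsupp.single δ 1))) = 0 := by
        rw [← hcomm, hproj _ (by norm_num), e1, map_zero, map_zero]
      have e3 : ∀ γ : Ps M, (γ.1.support : Set B) ⊆ T → 2 ≤ γ.1 b → rh hM hg y (Finsupp.single δ 1) γ = 0 := by
        intro γ hγ h2
        have e4 := a3 hM hg hc hbc hcom hw hγ (by omega)
        rw [← qp_apply (p := fun n => 2 ≤ n) (c := c) _ (by rw [rp_c hM hc hbc hcom hγ]; exact h2), e2,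
          Finsupp.zero_apply] at e4
        exact (mul_eq_zero.1 e4.symm).resolve_left hfn
      have e5 : fl M KK g c (rh hM hg y (Finsupp.single δ 1)) =
          (rh hM hg y (Finsupp.single δ 1)).sum fun γ a => a • (((g c γ - 1 : ℤ)) : KK) := rfl
      rw [e5]
      refine Finset.sum_eq_zero fun γ hγ => ?_
      have hγT : (γ.1.support : Set B) ⊆ T := (Finsupp.mem_supported KK _).1 hw hγ
      have h3 : γ.1 b ≤ 1 := by
        by_contra h4
        exact (Finsupp.mem_support_iff.1 hγ) (e3 γ hγT (by omega))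
      show _ • (((g c γ - 1 : ℤ)) : KK) = 0
      rw [van_T hg hc hbc hcom hγT h3]
      norm_num
    · have e1 : qp M (fun n => n = 1) c (op M KK g tt c (Finsupp.single δ 1)) =
          Finsupp.single (sp M c) (tt * fl M KK g c (Finsupp.single δ 1)) := by
        rcases (δ.2.2 b).lt_or_eq with h2 | h2
        · have h2' : 0 < δ.1 b := h2
          rw [f_pos hc hbc hcom hδ h2', map_add, map_add, qp_f, qp_f, qp_t, zero_add, zero_add]
          · rw [sp_val, Finsupp.single_eq_same]
          · rw [rp_c hM hc hbc hcom hδ]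
            exact h1
          · rw [T_c hc hδ]
            norm_num
        · have h2' : δ.1 b = 0 := h2.symm
          rw [f_zero hg hc hbc hcom hδ h2', fl_T hg hc hbc hcom hδ (by omega), mul_zero, Finsupp.single_zero, qp_f]
          rw [T_c hc hδ]
          norm_num
      have hsp : (sp M c).1 c = 1 := by rw [sp_val, Finsupp.single_eq_same]
      have e2 := a2 hM hg hc hbc hcom hw
      rw [← qp_apply (p := fun n => n = 1) (c := c) _ hsp, ← hcomm, hproj _ (by norm_num), e1] at e2
      have e3 : rh hM hg y (Finsupp.single (sp M c) (tt * fl M KK g c (Finsupp.single δ 1))) =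
          Finsupp.single (sp M c) (tt * fl M KK g c (Finsupp.single δ 1)) := by
        have e4 : (Finsupp.single (sp M c) (tt * fl M KK g c (Finsupp.single δ 1)) : Ps M →₀ KK) =
            (tt * fl M KK g c (Finsupp.single δ 1)) • Finsupp.single (sp M c) 1 := by
          rw [Finsupp.smul_single, smul_eq_mul, mul_one]
        rw [e4, map_smul, hfix]
      rw [e3, qp_t hsp, Finsupp.single_eq_same] at e2
      exact (mul_left_cancel₀ tt_ne e2).symm
  refine sl_func hM hg hf hb hy fun v hv => ?_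
  refine VT_ext ((sf M KK b).comp (rh hM hg y)) (sf M KK b) (fun δ hδ => ?_) hv
  rw [LinearMap.comp_apply]
  have hw : rh hM hg y (Finsupp.single δ 1) ∈ VT M KK T := rh_VT hM hg hy (hmem δ hδ)
  have e1 := a1 hM hg hc hbc hcom hw
  have e2 := a1 hM hg hc hbc hcom (hmem δ hδ)
  rw [← hcomm, rh_inv_map hM hg (sf M KK c) (fun k hk v => sf_op hM KK tt (hkc k hk) v) hy, e2, key δ hδ] at e1
  exact (mul_left_cancel₀ hfn (add_right_cancel e1)).symm

end Pool.Agent.H19.LK
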