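import Pool.Agent.H19.LK.RtB

/-!
# [H19 LK MN] Pairings in finite type

`fin_orbit`: the group `(resM M X).Group` acts on `B →₀ ℤ` by the `rf M k`, `k ∈ X` (`(resM M X).toCoxeterSystem.lift` to `Equiv.Perm (B →₀ ℤ)`; the relations `(rf i ∘ rf j)^m = id`: `rf_rf` for `i = j`, `rf_comm` for the label `2`, `rf_braid` for `3`; the label of
`resM M X` is that of `M`). The set is the range of a finite set.

`pair_ge`: `X` of finite type, `β` a positive root with support in `X`, `k ∈ X`, `β ≠ sp k`: `-1 ≤ pa k β`. Let `n = - pa k β ≥ 2`, `σ = β.1 + single k 1 ≥ 0`, `σ ≠ 0`; `pr σ σ = 2 + 2 - 2 n ≤ 0` (`norm_rt`, `pr_symm`). The orbit of `σ` under the `rf j`, `j ∈ X`, is finite; let `σ'` be an element of maximal height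
among those elements of the orbit which are `≥ 0` (`σ` is one). For `j ∈ X`: `pa j σ' ≥ 0`, because otherwise `rf j σ' = σ' - single j (pa j σ')` is `≥ 0` and higher. `pr σ' σ' = pr σ σ ≤ 0` (`pr_rf`) and `pr σ' σ' = ∑ σ'_j pa j σ' ≥ 0` (`supp σ' ⊆ X`), so all `σ'_j pa j σ'` are `0`, `n = 2`.
For `j ∈ X`: `pa j σ' = 0`: if `σ'_j > 0` clear; if `σ'_j = 0` then `pa j σ' ≤ 0` (all terms), so `= 0`. So `rf j σ' = σ'` for all `j ∈ X`, `σ` is in the orbit of `σ'`, so `σ = σ'`, `pa j σ = 0` for all `j ∈ X`. Then (translations) the vectors `single k 1 - 2 m σ`, `m : ℕ`, are all in the orbit of `single k 1` under the `rf j`, `j ∈ X`,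
which contradicts finiteness: `β = l.foldr (rf M) (single i 1)` with `l`, `i` in `X` (`desc`, `supp_rp`, induction on the height), so the reflection `t v = v - (pr v β) β` is a product of the `rf j`, `j ∈ X` (`t = w rf_i w⁻¹`), and `t (rf k v) = v - (pa k v) σ` for all `v` with support in `X`
(`pr v β = pr v σ - pa k v = - pa k v`; `rf k v = v - (pa k v) α_k`, `pr (rf k v) β = pa k v`, so `t (rf k v) = v - (pa k v) α_k - (pa k v) β`), `pa k (α_k - 2 m σ) = 2`.

`lev_le`: `c ∉ T`, `insert c T` of finite type, `c` is joined to `T` only by the edge `b c`: for `δ` with support in `T`: `pa c δ = - δ b`, `δ ≠ sp c`, so `δ b ≤ 1`.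
-/

set_option autoImplicit false

namespace Pool.Agent.H19.LK

open Pool.H8.CDW Pool.Agent.H52.PAG Pool.Agent.H75.INF Pool.Agent.H2.SPH

variable {B : Type} {M : CoxeterMatrix B}

/-- the reflection as a permutation -/
private noncomputable def rfP (M : CoxeterMatrix B) (k : B) : Equiv.Perm (B →₀ ℤ) :=
  ⟨rf M k, rf M k, rf_rf k, rf_rf k⟩

private theorem rfP_sq (k : B) : rfP M k * rfP M k = 1 := by
  ext1 v
  exact rf_rf k v

private theorem rfP_lift (hM : SLa M) (X : Set B) :
    (resM M X).IsLiftable fun k : X => rfP M k := by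
  intro i j
  have hl : resM M X i j = M (i : B) (j : B) := rfl
  show (rfP M i * rfP M j) ^ (resM M X i j) = 1
  rw [hl]
  by_cases hij : (i : B) = j
  · rw [hij, M.diagonal, pow_one, rfP_sq]
  · rcases hM _ _ hij with h | h
    · rw [h, pow_two]
      have hc : rfP M i * rfP M j = rfP M j * rfP M i := by
        ext1 v
        exact rf_comm h v
      calc rfP M i * rfP M j * (rfP M i * rfP M j) = rfP M i * rfP M j * (rfP M j * rfP M i) := by rw [← hc]
        _ = rfP M i * (rfP M j * rfP M j) * rfP M i := by group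
        _ = 1 := by rw [rfP_sq, mul_one, rfP_sq]
    · rw [h]
      have hb : rfP M i * rfP M j * rfP M i = rfP M j * rfP M i * rfP M j := by
        ext1 v
        exact rf_braid h v
      calc (rfP M i * rfP M j) ^ 3 = (rfP M i * rfP M j * rfP M i) * (rfP M j * rfP M i * rfP M j) := by
            rw [pow_succ, pow_two]
            simp only [mul_assoc]
        _ = (rfP M i * rfP M j * rfP M i) * (rfP M i * rfP M j * rfP M i) := by rw [← hb]
        _ = rfP M i * rfP M j * (rfP M i * rfP M i) * rfP M j * rfP M i := by group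
        _ = rfP M i * (rfP M j * rfP M j) * rfP M i := by rw [rfP_sq, mul_one]; group
        _ = 1 := by rw [rfP_sq, mul_one, rfP_sq]

theorem fin_orbit (hM : SLa M) {X : Set B} (hf : Finite (resM M X).Group) (v : B →₀ ℤ) :
    {w | ∃ l : List B, (∀ k ∈ l, k ∈ X) ∧ w = l.foldr (rf M) v}.Finite := by
  let φ : (resM M X).Group →* Equiv.Perm (B →₀ ℤ) :=
    (resM M X).toCoxeterSystem.lift ⟨fun k : X => rfP M k, rfP_lift hM X⟩
  have hφ : ∀ k : X, φ ((resM M X).toCoxeterSystem.simple k) = rfP M k := fun k =>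
    (resM M X).toCoxeterSystem.lift_apply_simple (rfP_lift hM X) k
  refine (Set.finite_range fun g : (resM M X).Group => φ g v).subset ?_
  rintro w ⟨l, hl, rfl⟩
  induction l with
  | nil => exact ⟨1, by simp⟩
  | cons k l ih =>
    obtain ⟨g, hg⟩ := ih fun j hj => hl j (List.mem_cons_of_mem _ hj)
    refine ⟨(resM M X).toCoxeterSystem.simple ⟨k, hl k List.mem_cons_self⟩ * g, ?_⟩
    have hg' : φ g v = l.foldr (rf M) v := hg
    show φ ((resM M X).toCoxeterSystem.simple ⟨k, hl k List.mem_cons_self⟩ * g) v = _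
    rw [map_mul, hφ, Equiv.Perm.mul_apply, hg']
    rfl

/-- the orbit relation -/
private def Ob' (M : CoxeterMatrix B) (X : Set B) (v w : B →₀ ℤ) : Prop :=
  ∃ l : List B, (∀ k ∈ l, k ∈ X) ∧ w = l.foldr (rf M) v

private theorem Ob'.refl {X : Set B} (v : B →₀ ℤ) : Ob' M X v v := ⟨[], by simp, rfl⟩

private theorem Ob'.step {X : Set B} {v w : B →₀ ℤ} (h : Ob' M X v w) {k : B} (hk : k ∈ X) :
    Ob' M X v (rf M k w) := by
  obtain ⟨l, hl, rfl⟩ := h
  refine ⟨k :: l, ?_, rfl⟩
  intro j hj
  rcases List.mem_cons.1 hj with rfl | hj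
  · exact hk
  · exact hl j hj

private theorem pr_single (i : B) (m : ℤ) (v : B →₀ ℤ) : pr M (Finsupp.single i m) v = m * pa M i v := by
  unfold pr
  rw [Finsupp.sum_single_index (zero_mul _)]

private theorem pr_add (u u' v : B →₀ ℤ) : pr M (u + u') v = pr M u v + pr M u' v := by
  classical
  unfold pr
  rw [Finsupp.sum_add_index' (fun _ => zero_mul _) (fun _ _ _ => add_mul _ _ _)]

private theorem pr_smul (n : ℤ) (u v : B →₀ ℤ) : pr M (n • u) v = n * pr M u v := by
  induction u using Finsupp.induction_linear with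
  | zero =>
    rw [smul_zero]
    have : pr M 0 v = 0 := Finsupp.sum_zero_index
    rw [this, mul_zero]
  | add u u' hu hu' => rw [smul_add, pr_add, pr_add, hu, hu', mul_add]
  | single j m => rw [Finsupp.smul_single, pr_single, pr_single, smul_eq_mul, mul_assoc]

private theorem rf_sub (k : B) (u v : B →₀ ℤ) : rf M k (u - v) = rf M k u - rf M k v := by
  unfold rf
  rw [pa_sub, Finsupp.single_sub]
  abel

private theorem rf_smul (k : B) (n : ℤ) (v : B →₀ ℤ) : rf M k (n • v) = n • rf M k v := by
  unfold rf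
  rw [pa_smul, smul_sub, Finsupp.smul_single, smul_eq_mul]

/-- the reflection in a positive root with support in `X` -/
private theorem Ob'.tr (hM : SLa M) {X : Set B} (β : Ps M) :
    (β.1.support : Set B) ⊆ X → ∀ {v w : B →₀ ℤ}, Ob' M X v w → Ob' M X v (w - pr M w β.1 • β.1) := by
  induction β using ps_ind with
  | h β ih =>
    intro hβ v w h
    obtain ⟨k, hk0, hk⟩ := desc β
    have hkX : k ∈ X := hβ (Finsupp.mem_support_iff.2 hk0.ne')
    by_cases hs : β = sp M k
    · have h1 : w - pr M w β.1 • β.1 = rf M k w := by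
        rw [hs, sp_val, pr_symm, pr_single, one_mul, Finsupp.smul_single, smul_eq_mul, mul_one]
        rfl
      rw [h1]
      exact h.step hkX
    · have h1 : ht (rp M k β).1 < ht β.1 := by
        rw [ht_rp hM hs]
        omega
      have h2 := ih (rp M k β) h1 (supp_rp hkX hβ) (h.step hkX)
      have h3 := h2.step hkX
      have h4 : rf M k (rf M k w - pr M (rf M k w) (rp M k β).1 • (rp M k β).1) = w - pr M w β.1 • β.1 := by
        rw [rf_sub, rf_smul, rp_val hM hs, rf_rf, rf_rf, pr_rf]
      rw [h4] at h3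
      exact h3

theorem pair_ge (hM : SLa M) {X : Set B} (hf : Finite (resM M X).Group) {β : Ps M}
    (hβ : (β.1.support : Set B) ⊆ X) {k : B} (hk : k ∈ X) (hne : β ≠ sp M k) : -1 ≤ pa M k β.1 := by
  by_contra hcon
  push Not at hcon
  obtain ⟨n, hn⟩ : ∃ n : ℤ, n = - pa M k β.1 := ⟨_, rfl⟩
  have hn2 : 2 ≤ n := by omega
  have hpa : pa M k β.1 = - n := by omega
  have key : ∀ m : ℕ, ∃ a b : ℤ, Ob' M X (Finsupp.single k 1) (Finsupp.single k a + b • β.1) ∧ 0 ≤ b ∧ b < a ∧
      (m : ℤ) ≤ a := by
    intro m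
    induction m with
    | zero =>
      refine ⟨1, 0, ?_, le_rfl, zero_lt_one, by norm_num⟩
      rw [zero_smul, add_zero]
      exact Ob'.refl _
    | succ m ih =>
      obtain ⟨a, b, hab, hb, hba, hm⟩ := ih
      have h1 := Ob'.tr hM β hβ hab
      have h2 : Finsupp.single k a + b • β.1 - pr M (Finsupp.single k a + b • β.1) β.1 • β.1 =
          Finsupp.single k a + (n * a - b) • β.1 := by
        rw [pr_add, pr_smul, pr_single, hpa, norm_rt β.2.1, add_sub_assoc, ← sub_smul]
        congr 2
        ring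
      rw [h2] at h1
      have h3 := h1.step hk
      have h4 : rf M k (Finsupp.single k a + (n * a - b) • β.1) =
          Finsupp.single k (n * (n * a - b) - a) + (n * a - b) • β.1 := by
        unfold rf
        rw [pa_add, pa_single, pa_smul, hpa, cm_self, add_sub_right_comm, ← Finsupp.single_sub]
        congr 2
        ring
      rw [h4] at h3
      have e1 : a < n * a - b := by nlinarith
      have e2 : n * a - b < n * (n * a - b) - a := by nlinarith
      refine ⟨_, _, h3, by omega, e2, ?_⟩
      push_cast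
      omega
  have hfin := fin_orbit hM hf (Finsupp.single k 1)
  have himg := (hfin.image fun w : B →₀ ℤ => w k).bddAbove
  obtain ⟨C, hC⟩ := himg
  obtain ⟨a, b, hab, hb, -, hm⟩ := key (C.toNat + 1)
  have h1 : (Finsupp.single k a + b • β.1) k ≤ C := hC ⟨_, hab, rfl⟩
  rw [Finsupp.add_apply, Finsupp.single_eq_same, Finsupp.smul_apply, smul_eq_mul] at h1
  have h2 : 0 ≤ b * β.1 k := mul_nonneg hb (β.2.2 k)
  push_cast at hm
  omega

theorem lev_le (hM : SLa M) {b c : B} {T : Set B} (hb : b ∈ T) (hc : c ∉ T) (hbc : M b c = 3)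
    (hcom : ∀ k ∈ T, k ≠ b → M k c = 2) (hf : Finite (resM M (insert c T)).Group) {β : Ps M}
    (hβ : (β.1.support : Set B) ⊆ T) : β.1 b ≤ 1 := by
  have hne : β ≠ sp M c := by
    intro h
    apply hc
    apply hβ
    rw [h, sp_val, Finset.mem_coe, Finsupp.mem_support_iff, Finsupp.single_eq_same]
    exact one_ne_zero
  have h1 := pair_ge hM hf (hβ.trans (Set.subset_insert c T)) (Set.mem_insert c T) hne
  have h2 : pa M c β.1 = - β.1 b := by
    by_cases hbs : β.1 b = 0
    · rw [hbs, neg_zero]
      unfold pa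
      refine Finset.sum_eq_zero fun j hj => ?_
      have hjT : j ∈ T := hβ hj
      have hjb : j ≠ b := by
        rintro rfl
        exact (Finsupp.mem_support_iff.1 hj) hbs
      show β.1 j * cm M c j = 0
      rw [cm_symm, cm_two (hcom j hjT hjb), mul_zero]
    · unfold pa
      rw [Finsupp.sum, Finset.sum_eq_single b]
      · rw [cm_symm, cm_three hbc]
        ring
      · intro j hj hjb
        rw [cm_symm, cm_two (hcom j (hβ hj) hjb), mul_zero]
      · intro h
        exact absurd (Finsupp.mem_support_iff.2 hbs) h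
  omega

end Pool.Agent.H19.LK
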