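import Pool.Agent.H19.LK.SlV
import Pool.Agent.H19.LK.TwB
import Pool.Agent.H19.LK.Mn

/-!
# [H19 LK NU] The stabiliser of `e_b` in a parabolic subgroup `A_X`, `b` joined to `X` by the edge `b c` only

`e β = single β 1`. `D` as in `exists_D` for `X` (central in `ap M X`). `P p = rhoP ℚ 0 p`, `Q p = rhoP ℚ[X] X p`. `S = {β : Ps M | β b = 1, supp β ⊆ insert b X}`.
(1) `S` is finite: `fin_orbit` (H19/LK/Mn) for `v = single b 1`: every `β ∈ S` is `l.foldr (rf M) (single b 1)` for a list `l` of elements of `X` (`level` and induction on the height: a descent `k ≠ b`, `k ∈ supp β`).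
(2) For `k ∈ X` the operator `tau M ℚ k` maps the span `E` of the `e β`, `β ∈ S`, to itself and is injective on it (`tau_sq`, the coefficient at `sp k` vanishes: `v = 2 tau (tau v) - tau v`), so `P D` maps `E` to `E` and is injective on `E`. `E` is finite dimensional, so the vectors
`P (D ^ j) (e (sp b)) ∈ E`, `j = 0, 1, ...` are linearly dependent; dividing by a power of the injective operator `P D` there are `a_0 ≠ 0, a_1, .., a_n` in `ℚ` with `∑ a_j P (D ^ j) (e (sp b)) = 0`.
(3) `ν = ∑ C a_j • Q (D ^ j) (e (sp b))`. All `Q p (e (sp b))`, `InX X p`, are in the span of the `e β`, `β ∈ S`, and of `VT X`, and their coefficients at `β ∈ S` are the constants `C ((P p (e (sp b))) β)` (induction on `p`, `am_ind`: `op k` on `e β`, `β ∈ S`: `tv k β` plus a multiple of `e (sp k)`; on `VT X`: in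
`VT X`). So `ν ∈ VT X`.
(4) `op k ν = ν` for `k ∈ X`, `k ≠ c`: `Q (D ^ j)` and `op k = Q (ag k)` commute, and `op k (e (sp b)) = e (sp b)` (`op_fix`).
(5) `ν ≠ 0`: let `h = hf`, `f = op c`. `f (e (sp b)) = h e (sp b) + h e β`, `β = rp c (sp b)` (`fl c (sp b) = 0`), `f (e β) = e (sp b) + X * (g c β - 1) e (sp c) = e (sp b) - X e (sp c)` (`pa c β = 1`, `GOk.pos`), so `f (f w) - h f w - h w = - h X e (sp c)` for `w = e (sp b)`. Apply the operator `f f - h f - h` to `ν`: it
commutes with `Q (D ^ j)`: `- h X ∑ C a_j Q (D ^ j) (e (sp c))`. The value at `X = 0` of `∑ C a_j Q (D ^ j) (e (sp c))` is `∑ a_j P (D ^ j) (e (sp c)) = a_0 e (sp c) ≠ 0` (`P_D`). So `ν ≠ 0`.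
(6) `toK ν` is fixed by `rh x`: `rh x` commutes with `rh (inc D)` (`D_comm`) and fixes `e (sp b)`; `toK ν = ∑ a_j rh (inc D ^ j) (e (sp b))`.
(7) `ν = X ^ m • ν'` with `at0 ν' ≠ 0` (`ν ≠ 0`; induction on the sum of the degrees, or `m` = the minimum of the orders of the coefficients). `ν'` has all properties: `ν' ∈ VT X`, fixed by `op k` (`X ^ m` is not a zero divisor), `rh x (toK ν') = toK ν'`. `sl_vec`.
-/

set_option autoImplicit false

namespace Pool.Agent.H19.LK

open Pool.H8.CDW Pool.Agent.H52.PAG Pool.Agent.H75.INF Pool.Agent.H2.SPH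

variable {B : Type} {M : CoxeterMatrix B} {g : B → Ps M → ℤ}


/-- the roots with coefficient one at `b` -/
private def Sb (M : CoxeterMatrix B) (b : B) (X : Set B) : Set (Ps M) :=
  {β | β.1 b = 1 ∧ (β.1.support : Set B) ⊆ insert b X}

private theorem nu_nb {b c : B} {Tb X : Set B} (h : Cfg M b c Tb X) : b ∉ X := fun hb =>
  Set.disjoint_left.1 h.dis h.hb hb

private theorem nu_kb {b c : B} {Tb X : Set B} (h : Cfg M b c Tb X) {k : B} (hk : k ∈ X) : k ≠ b := fun e =>
  nu_nb h (e ▸ hk)

private theorem sb_sp {b : B} {X : Set B} : sp M b ∈ Sb M b X := by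
  classical
  refine ⟨?_, ?_⟩
  · rw [sp_val, Finsupp.single_eq_same]
  · intro i hi
    rw [sp_val] at hi
    have h1 := Finsupp.support_single_subset hi
    rw [Finset.mem_singleton] at h1
    exact Or.inl h1

private theorem sb_ne {b : B} {X : Set B} {k : B} (hk : k ≠ b) {β : Ps M} (hβ : β ∈ Sb M b X) : β ≠ sp M k := by
  rintro rfl
  have h1 := hβ.1
  rw [sp_val, Finsupp.single_eq_of_ne (Ne.symm hk)] at h1
  exact absurd h1 zero_ne_one

private theorem sb_rp (hM : SLa M) {b : B} {X : Set B} {k : B} (hk : k ≠ b) (hkX : k ∈ X) {β : Ps M}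
    (hβ : β ∈ Sb M b X) : rp M k β ∈ Sb M b X := by
  refine ⟨?_, supp_rp (Set.mem_insert_of_mem b hkX) hβ.2⟩
  rw [rp_apply_ne hM (sb_ne hk hβ) (Ne.symm hk)]
  exact hβ.1

private theorem sb_list (hM : SLa M) {b : B} {X : Set B} (β : Ps M) (hβ : β ∈ Sb M b X) :
    ∃ l : List B, (∀ k ∈ l, k ∈ X) ∧ β.1 = l.foldr (rf M) (Finsupp.single b 1) := by
  revert hβ
  refine ps_ind (P := fun β => β ∈ Sb M b X → ∃ l : List B, (∀ k ∈ l, k ∈ X) ∧
    β.1 = l.foldr (rf M) (Finsupp.single b 1)) ?_ β
  intro β ih hβ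
  by_cases hs : β = sp M b
  · refine ⟨[], fun k hk => absurd hk (List.not_mem_nil), ?_⟩
    rw [hs]
    rfl
  · obtain ⟨k, hkb, hk0, hkp⟩ := level hM hβ.1 hs
    have hkX : k ∈ X := by
      have h1 : k ∈ (β.1.support : Set B) := by
        rw [Finset.mem_coe, Finsupp.mem_support_iff]
        exact ne_of_gt hk0
      exact (hβ.2 h1).resolve_left hkb
    have hne := sb_ne hkb hβ
    obtain ⟨l, hl, he⟩ := ih (rp M k β) (by
      rw [ht_rp hM hne]
      omega) (sb_rp hM hkb hkX hβ)
    refine ⟨k :: l, ?_, ?_⟩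
    · intro j hj
      rcases List.mem_cons.1 hj with rfl | hj
      · exact hkX
      · exact hl j hj
    · rw [List.foldr_cons, ← he, ← rp_val hM (rp_ne hM hne), rp_rp hM]

private theorem sb_fin (hM : SLa M) {b : B} {X : Set B} (hf : Finite (resM M X).Group) :
    (Sb M b X).Finite := by
  refine Set.Finite.of_finite_image ((fin_orbit hM hf (Finsupp.single b 1)).subset ?_) (f := fun β => β.1)
    (fun β _ γ _ h => Ps.ext h)
  rintro _ ⟨β, hβ, rfl⟩
  exact sb_list hM β hβ

private theorem tau_E (hM : SLa M) (R : Type) [CommRing R] [Algebra ℚ R] {b : B} {X : Set B} {k : B} (hk : k ≠ b)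
    (hkX : k ∈ X) {v : Ps M →₀ R} (hv : v ∈ Finsupp.supported R R (Sb M b X)) :
    tau M R k v ∈ Finsupp.supported R R (Sb M b X) := by
  classical
  rw [tau, Finsupp.linearCombination_apply]
  refine Submodule.sum_mem _ fun β hβ => Submodule.smul_mem _ _ ?_
  have hβS : β ∈ Sb M b X := (Finsupp.mem_supported R v).1 hv hβ
  unfold tv
  rw [if_neg (sb_ne hk hβS)]
  have h1 := sb_rp hM hk hkX hβS
  split_ifs
  · exact Finsupp.single_mem_supported R _ h1
  · exact Finsupp.single_mem_supported R _ hβS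
  · exact Submodule.add_mem _ (Finsupp.single_mem_supported R _ hβS) (Finsupp.single_mem_supported R _ h1)

private theorem op_zero (g : B → Ps M → ℤ) (k : B) (v : Ps M →₀ ℚ) : op M ℚ g 0 k v = tau M ℚ k v := by
  rw [op_apply, zero_mul, zero_smul, add_zero]

private theorem P_E (hM : SLa M) (hg : GOk M g) {b : B} {X : Set B} (hb : b ∉ X) (p : AM M) (hp : InX X p)
    {v : Ps M →₀ ℚ} (hv : v ∈ Finsupp.supported ℚ ℚ (Sb M b X)) :
    rhoP hM hg ℚ 0 p v ∈ Finsupp.supported ℚ ℚ (Sb M b X) := by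
  revert hp
  refine am_ind (P := fun p => InX X p → rhoP hM hg ℚ 0 p v ∈ Finsupp.supported ℚ ℚ (Sb M b X)) ?_ ?_ p
  · intro _
    rw [map_one]
    exact hv
  · intro i x ih hx
    obtain ⟨h1, h2⟩ := inX_mul.1 hx
    rw [inX_ag] at h1
    rw [map_mul, Module.End.mul_apply, rhoP_ag, op_zero]
    exact tau_E hM ℚ (fun e : i = b => hb (e ▸ h1)) h1 (ih h2)

private theorem P_inj (hM : SLa M) (hg : GOk M g) {b : B} {X : Set B} (hb : b ∉ X) (p : AM M) (hp : InX X p)
    {v : Ps M →₀ ℚ} (hv : v ∈ Finsupp.supported ℚ ℚ (Sb M b X)) (h0 : rhoP hM hg ℚ 0 p v = 0) : v = 0 := by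
  revert hp h0
  refine am_ind (P := fun p => InX X p → rhoP hM hg ℚ 0 p v = 0 → v = 0) ?_ ?_ p
  · intro _ h0
    rw [map_one] at h0
    exact h0
  · intro i x ih hx h0
    obtain ⟨h1, h2⟩ := inX_mul.1 hx
    rw [inX_ag] at h1
    refine ih h2 ?_
    rw [map_mul, Module.End.mul_apply, rhoP_ag, op_zero] at h0
    have hE := P_E hM hg hb x h2 hv
    have hib : i ≠ b := fun e => hb (e ▸ h1)
    have hz : rhoP hM hg ℚ 0 x v (sp M i) = 0 := by
      by_contra hc
      exact sb_ne hib ((Finsupp.mem_supported ℚ _).1 hE (Finsupp.mem_support_iff.2 hc)) rfl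
    have h3 := tau_sq ℚ hM i (rhoP hM hg ℚ 0 x v)
    rw [h0, map_zero, smul_zero, zero_add, hz, Finsupp.single_zero, sub_zero] at h3
    have h4 : hf ℚ ≠ 0 := by
      unfold hf
      norm_num
    exact (smul_eq_zero.1 h3.symm).resolve_left h4

/-- the polynomial in `D` which annihilates `e_b` at `X = 0` -/
theorem exists_pol (hM : SLa M) (hg : GOk M g) {b c : B} {Tb X : Set B} (h : Cfg M b c Tb X)
    (hf : Finite (resM M X).Group) {D : AM M} (hD : InX X D) :
    ∃ a : ℕ →₀ ℚ, a 0 ≠ 0 ∧ (a.sum fun j r => r • rhoP hM hg ℚ 0 (D ^ j) (Finsupp.single (sp M b) 1)) = 0 := by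
  have hb := nu_nb h
  have hfin := sb_fin (b := b) hM hf
  haveI : Finite (Sb M b X) := hfin
  let E := Finsupp.supported ℚ ℚ (Sb M b X)
  haveI : Module.Finite ℚ E := by
    haveI : Module.Finite ℚ (Sb M b X →₀ ℚ) := inferInstance
    exact Module.Finite.equiv (Finsupp.supportedEquivFinsupp (M := ℚ) (R := ℚ) (Sb M b X)).symm
  let f : Module.End ℚ E := (rhoP hM hg ℚ 0 D).restrict fun v hv => P_E hM hg hb D hD hv
  have hf0 : ¬ (minpoly ℚ f).IsRoot 0 := by
    intro hr
    obtain ⟨v, hv⟩ := (Module.End.hasEigenvalue_of_isRoot hr).exists_hasEigenvector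
    refine hv.2 (Subtype.ext ?_)
    have h1 := hv.apply_eq_smul
    rw [zero_smul] at h1
    exact P_inj hM hg hb D hD v.2 (congrArg Subtype.val h1)
  have hpow : ∀ (j : ℕ) (v : E), ((f ^ j) v : Ps M →₀ ℚ) = rhoP hM hg ℚ 0 (D ^ j) v.1 := by
    intro j
    induction j with
    | zero =>
      intro v
      rw [pow_zero, pow_zero, map_one]
      rfl
    | succ j ih =>
      intro v
      rw [pow_succ, pow_succ, map_mul, Module.End.mul_apply, Module.End.mul_apply, ih]
      rfl
  let v0 : E := ⟨Finsupp.single (sp M b) 1, Finsupp.single_mem_supported ℚ _ sb_sp⟩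
  refine ⟨Finsupp.onFinset (minpoly ℚ f).support (minpoly ℚ f).coeff fun i hi =>
    Polynomial.mem_support_iff.2 hi, ?_, ?_⟩
  · rw [Finsupp.onFinset_apply, Polynomial.coeff_zero_eq_eval_zero]
    exact hf0
  · refine (Finsupp.onFinset_sum (hf := fun i hi => Polynomial.mem_support_iff.2 hi)
      (g := fun j r => r • rhoP hM hg ℚ 0 (D ^ j) (Finsupp.single (sp M b) 1)) (fun j => zero_smul _ _)).trans ?_
    have h1 : (((Polynomial.aeval f (minpoly ℚ f)) v0 : E) : Ps M →₀ ℚ) = 0 :=
      congrArg (fun F : Module.End ℚ E => ((F v0 : E) : Ps M →₀ ℚ)) (minpoly.aeval ℚ f)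
    rw [Polynomial.aeval_def, Polynomial.eval₂_eq_sum, Polynomial.sum_def, LinearMap.sum_apply,
      Submodule.coe_sum] at h1
    refine Eq.trans (Finset.sum_congr rfl fun j _ => ?_) h1
    rw [Module.End.mul_apply, Module.algebraMap_end_apply, Submodule.coe_smul, hpow]

/-- constant coefficients -/
private noncomputable def cC (v : Ps M →₀ ℚ) : Ps M →₀ Polynomial ℚ := v.mapRange Polynomial.C (map_zero _)

private theorem cC_add (v w : Ps M →₀ ℚ) : cC (v + w) = cC v + cC w :=
  Finsupp.mapRange_add (fun a b => Polynomial.C_add) v w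

private theorem cC_zero : cC (0 : Ps M →₀ ℚ) = 0 := Finsupp.mapRange_zero

private theorem cC_single (β : Ps M) (a : ℚ) : cC (Finsupp.single β a) = Finsupp.single β (Polynomial.C a) :=
  Finsupp.mapRange_single

private theorem cC_smul (r : ℚ) (v : Ps M →₀ ℚ) : cC (r • v) = Polynomial.C r • cC v := by
  ext β : 1
  rw [Finsupp.smul_apply]
  change Polynomial.C (r • v β) = Polynomial.C r • Polynomial.C (v β)
  rw [smul_eq_mul, smul_eq_mul, Polynomial.C_mul]

private theorem hf_C : hf (Polynomial ℚ) = Polynomial.C (hf ℚ) := by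
  unfold hf
  rfl

private theorem tau_cC (k : B) (v : Ps M →₀ ℚ) : tau M (Polynomial ℚ) k (cC v) = cC (tau M ℚ k v) := by
  classical
  induction v using Finsupp.induction_linear with
  | zero => rw [cC_zero, map_zero, map_zero, cC_zero]
  | add u v hu hv => rw [cC_add, map_add, map_add, hu, hv, cC_add]
  | single β a =>
    rw [cC_single, tau_single, tau_single, cC_smul]
    congr 1
    unfold tv
    split_ifs
    · rw [cC_zero]
    · rw [cC_single, Polynomial.C_1]
    · rw [cC_single, Polynomial.C_1]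
    · rw [cC_add, cC_single, cC_single, hf_C]

private theorem Q_const (hM : SLa M) (hg : GOk M g) {X : Set B} (p : AM M) (hp : InX X p) (v : Ps M →₀ ℚ) :
    rhoP hM hg (Polynomial ℚ) Polynomial.X p (cC v) - cC (rhoP hM hg ℚ 0 p v) ∈ VT M (Polynomial ℚ) X := by
  classical
  revert hp
  refine am_ind (P := fun p => InX X p → rhoP hM hg (Polynomial ℚ) Polynomial.X p (cC v) -
    cC (rhoP hM hg ℚ 0 p v) ∈ VT M (Polynomial ℚ) X) ?_ ?_ p
  · intro _
    rw [map_one, map_one]
    change cC v - cC v ∈ _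
    rw [sub_self]
    exact Submodule.zero_mem _
  · intro i x ih hx
    obtain ⟨h1, h2⟩ := inX_mul.1 hx
    rw [inX_ag] at h1
    have h3 := op_VT (g := g) (Polynomial ℚ) Polynomial.X h1 (ih h2)
    rw [map_sub] at h3
    rw [map_mul, map_mul, Module.End.mul_apply, Module.End.mul_apply, rhoP_ag, rhoP_ag, op_zero]
    have h4 : op M (Polynomial ℚ) g Polynomial.X i (cC (rhoP hM hg ℚ 0 x v)) - cC (tau M ℚ i (rhoP hM hg ℚ 0 x v)) ∈
        VT M (Polynomial ℚ) X := by
      rw [op_apply, tau_cC, add_sub_cancel_left]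
      refine Submodule.smul_mem _ _ (Finsupp.single_mem_supported _ _ ?_)
      intro j hj
      rw [sp_val] at hj
      have h5 := Finsupp.support_single_subset hj
      rw [Finset.mem_singleton] at h5
      rw [h5]
      exact h1
    have h5 := Submodule.add_mem _ h3 h4
    rw [sub_add_sub_cancel] at h5
    exact h5

private theorem toK_add (v w : Ps M →₀ Polynomial ℚ) : toK (v + w) = toK v + toK w :=
  Finsupp.mapRange_add (fun a b => map_add _ a b) v w

private theorem toK_smul (r : Polynomial ℚ) (v : Ps M →₀ Polynomial ℚ) :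
    toK (r • v) = algebraMap (Polynomial ℚ) KK r • toK v := by
  ext β
  rw [Finsupp.smul_apply]
  change algebraMap (Polynomial ℚ) KK (r • v β) = algebraMap (Polynomial ℚ) KK r • algebraMap (Polynomial ℚ) KK (v β)
  rw [smul_eq_mul, smul_eq_mul, map_mul]

private theorem toK_sum {I : Type} (s : Finset I) (f : I → Ps M →₀ Polynomial ℚ) :
    toK (∑ i ∈ s, f i) = ∑ i ∈ s, toK (f i) := by
  classical
  induction s using Finset.induction_on with
  | empty =>
    rw [Finset.sum_empty, Finset.sum_empty]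
    exact Finsupp.mapRange_zero
  | insert a s ha ih => rw [Finset.sum_insert ha, Finset.sum_insert ha, toK_add, ih]

private theorem at0_add (v w : Ps M →₀ Polynomial ℚ) : at0 (v + w) = at0 v + at0 w :=
  Finsupp.mapRange_add (fun a b => Polynomial.coeff_add a b 0) v w

private theorem at0_smul (r : ℚ) (v : Ps M →₀ Polynomial ℚ) : at0 (Polynomial.C r • v) = r • at0 v := by
  ext β
  rw [Finsupp.smul_apply]
  change (Polynomial.C r • v β).coeff 0 = r • (v β).coeff 0
  rw [smul_eq_mul, smul_eq_mul, Polynomial.coeff_C_mul]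

private theorem at0_sum {I : Type} (s : Finset I) (f : I → Ps M →₀ Polynomial ℚ) :
    at0 (∑ i ∈ s, f i) = ∑ i ∈ s, at0 (f i) := by
  classical
  induction s using Finset.induction_on with
  | empty =>
    rw [Finset.sum_empty, Finset.sum_empty]
    exact Finsupp.mapRange_zero
  | insert a s ha ih => rw [Finset.sum_insert ha, Finset.sum_insert ha, at0_add, ih]

private theorem inX_pow {X : Set B} {D : AM M} (hD : InX X D) (j : ℕ) : InX X (D ^ j) := by
  induction j with
  | zero =>
    rw [pow_zero]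
    exact inX_one X
  | succ j ih =>
    rw [pow_succ]
    exact inX_mul.2 ⟨ih, hD⟩

/-- the vector `ν` -/
theorem exists_nu (hM : SLa M) (hg : GOk M g) {b c : B} {Tb X : Set B} (h : Cfg M b c Tb X)
    (hf : Finite (resM M X).Group) :
    ∃ ν : Ps M →₀ Polynomial ℚ, ν ∈ VT M (Polynomial ℚ) X ∧ ν ≠ 0 ∧
      (∀ k ∈ X, k ≠ c → rhoP hM hg (Polynomial ℚ) Polynomial.X (ag M k) ν = ν) ∧
      ∀ x ∈ ap M X, rh hM hg x (Finsupp.single (sp M b) 1) = Finsupp.single (sp M b) 1 → rh hM hg x (toK ν) = toK ν := by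
  classical
  obtain ⟨D, hD, hDc, hDd⟩ := exists_D (M := M) hf
  obtain ⟨a, ha0, ha⟩ := exists_pol hM hg h hf hD
  have hDp : ∀ (j : ℕ), ∀ k ∈ X, D ^ j * ag M k = ag M k * D ^ j := fun j k hk =>
    ((show Commute D (ag M k) from hDc k hk).pow_left j).eq
  let Q : ℕ → (Ps M →₀ Polynomial ℚ) →ₗ[Polynomial ℚ] (Ps M →₀ Polynomial ℚ) := fun j =>
    rhoP hM hg (Polynomial ℚ) Polynomial.X (D ^ j)
  let N : (Ps M →₀ Polynomial ℚ) →ₗ[Polynomial ℚ] (Ps M →₀ Polynomial ℚ) :=
    ∑ j ∈ a.support, Polynomial.C (a j) • Q j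
  have hN : ∀ v, N v = ∑ j ∈ a.support, Polynomial.C (a j) • Q j v := by
    intro v
    simp only [N, LinearMap.sum_apply, LinearMap.smul_apply]
  have hNk : ∀ k ∈ X, ∀ v, op M (Polynomial ℚ) g Polynomial.X k (N v) = N (op M (Polynomial ℚ) g Polynomial.X k v) := by
    intro k hk v
    rw [hN, hN, map_sum]
    refine Finset.sum_congr rfl fun j _ => ?_
    rw [map_smul]
    congr 1
    have h1 := congrArg (fun p => rhoP hM hg (Polynomial ℚ) Polynomial.X p v) (hDp j k hk)
    simp only [map_mul, Module.End.mul_apply, rhoP_ag] at h1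
    exact h1.symm
  have hcb : M c b = 3 := by rw [M.symmetric, h.bc]
  have hne : c ≠ b := nu_kb h h.hc
  refine ⟨N (Finsupp.single (sp M b) 1), ?_, ?_, ?_, ?_⟩
  · have h1 : ∀ j, Q j (Finsupp.single (sp M b) 1) -
        cC (rhoP hM hg ℚ 0 (D ^ j) (Finsupp.single (sp M b) 1)) ∈ VT M (Polynomial ℚ) X := by
      intro j
      have h2 := Q_const hM hg (D ^ j) (inX_pow hD j) (Finsupp.single (sp M b) 1)
      rw [cC_single, Polynomial.C_1] at h2
      exact h2
    have h3 : N (Finsupp.single (sp M b) 1) = ∑ j ∈ a.support, Polynomial.C (a j) • (Q j (Finsupp.single (sp M b) 1) -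
        cC (rhoP hM hg ℚ 0 (D ^ j) (Finsupp.single (sp M b) 1))) := by
      rw [hN]
      simp only [smul_sub, Finset.sum_sub_distrib]
      rw [eq_comm, sub_eq_self]
      have h4 : ∀ (s : Finset ℕ) (f : ℕ → Ps M →₀ ℚ), cC (∑ j ∈ s, f j) = ∑ j ∈ s, cC (f j) := by
        intro s f
        induction s using Finset.induction_on with
        | empty => rw [Finset.sum_empty, Finset.sum_empty, cC_zero]
        | insert x s hx ih => rw [Finset.sum_insert hx, Finset.sum_insert hx, cC_add, ih]
      have h5 := congrArg cC ha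
      rw [Finsupp.sum, h4, cC_zero] at h5
      rw [← h5]
      exact Finset.sum_congr rfl fun j _ => (cC_smul _ _).symm
    rw [h3]
    exact Submodule.sum_mem _ fun j _ => Submodule.smul_mem _ _ (h1 j)
  · intro h0
    have e1 : ∀ (k : B) (β : Ps M), fl M (Polynomial ℚ) g k (Finsupp.single β 1) = ((g k β - 1 : ℤ) : Polynomial ℚ) :=
      fun k β => by rw [fl_single, one_mul]
    have hbc : sp M b ≠ sp M c := by
      intro e
      have := congrArg (fun β : Ps M => β.1 b) e
      simp only [sp_val] at this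
      rw [Finsupp.single_eq_same, Finsupp.single_eq_of_ne (Ne.symm hne)] at this
      exact one_ne_zero this
    have pcb : pa M c (sp M b).1 = -1 := by rw [simple_pa, cm_three hcb]
    have f1 : op M (Polynomial ℚ) g Polynomial.X c (Finsupp.single (sp M b) 1) =
        Finsupp.single (sp M b) (LK.hf (Polynomial ℚ)) + Finsupp.single (rp M c (sp M b)) (LK.hf (Polynomial ℚ)) := by
      rw [op_apply, tau_single, one_smul, e1, hg.oth c b hne, sub_self, Int.cast_zero, mul_zero, zero_smul, add_zero]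
      unfold tv
      rw [if_neg hbc, if_neg (by rw [pcb]; norm_num), if_neg (by rw [pcb]; norm_num)]
    have pcβ : pa M c (rp M c (sp M b)).1 = 1 := by
      rw [pa_rp_self hM hbc, pcb, neg_neg]
    have hβc : rp M c (sp M b) ≠ sp M c := rp_ne hM hbc
    have f2 : op M (Polynomial ℚ) g Polynomial.X c (Finsupp.single (rp M c (sp M b)) 1) =
        Finsupp.single (sp M b) 1 - Finsupp.single (sp M c) Polynomial.X := by
      rw [op_apply, tau_single, one_smul, e1, hg.pos c _ (by rw [pcβ]; norm_num) hβc]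
      unfold tv
      have g3 : (Polynomial.X * ((0 - 1 : ℤ) : Polynomial ℚ)) = -Polynomial.X := by simp
      rw [if_neg hβc, if_pos (by rw [pcβ]; norm_num), rp_rp hM, g3, neg_smul, Finsupp.smul_single, smul_eq_mul,
        mul_one, ← sub_eq_add_neg]
    have f3 : op M (Polynomial ℚ) g Polynomial.X c (op M (Polynomial ℚ) g Polynomial.X c (Finsupp.single (sp M b) 1)) -
        LK.hf (Polynomial ℚ) • op M (Polynomial ℚ) g Polynomial.X c (Finsupp.single (sp M b) 1) -
        LK.hf (Polynomial ℚ) • Finsupp.single (sp M b) 1 = -((LK.hf (Polynomial ℚ) * Polynomial.X) • Finsupp.single (sp M c) 1) := by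
      have g1 : ∀ (β : Ps M) , Finsupp.single β (LK.hf (Polynomial ℚ)) = LK.hf (Polynomial ℚ) • Finsupp.single β (1 : Polynomial ℚ) :=
        fun β => by rw [Finsupp.smul_single, smul_eq_mul, mul_one]
      have g2 : Finsupp.single (sp M c) (Polynomial.X : Polynomial ℚ) = (Polynomial.X : Polynomial ℚ) • Finsupp.single (sp M c) (1 : Polynomial ℚ) := by
        rw [Finsupp.smul_single, smul_eq_mul, mul_one]
      rw [f1, map_add, g1, g1, map_smul, map_smul, f2, f1, g1, g1, g2]
      module
    have f4 := congrArg N f3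
    rw [map_sub, map_sub, ← hNk c h.hc, ← hNk c h.hc, map_smul, map_smul, ← hNk c h.hc, h0, map_zero, map_zero,
      smul_zero, sub_zero, sub_zero, map_neg, map_smul, zero_eq_neg] at f4
    have hhX : LK.hf (Polynomial ℚ) * Polynomial.X ≠ 0 := by
      refine mul_ne_zero ?_ Polynomial.X_ne_zero
      rw [hf_C, Ne, Polynomial.C_eq_zero]
      unfold LK.hf
      norm_num
    have f5 : N (Finsupp.single (sp M c) 1) = 0 := (smul_eq_zero.1 f4).resolve_left hhX
    have f6 := congrArg at0 f5
    rw [hN, at0_sum] at f6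
    have f7 : ∀ j, at0 (Polynomial.C (a j) • Q j (Finsupp.single (sp M c) 1)) =
        a j • (if j = 0 then Finsupp.single (sp M c) 1 else 0) := by
      intro j
      rw [at0_smul]
      congr 1
      change at0 (rhoP hM hg (Polynomial ℚ) Polynomial.X (D ^ j) (Finsupp.single (sp M c) 1)) = _
      rw [← rhoP_at0, at0_single, Polynomial.coeff_one_zero]
      by_cases hj : j = 0
      · rw [if_pos hj, hj, pow_zero, map_one]
        rfl
      · rw [if_neg hj]
        obtain ⟨i, rfl⟩ := Nat.exists_eq_succ_of_ne_zero hj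
        rw [Nat.succ_eq_add_one, pow_succ, map_mul, Module.End.mul_apply, P_D hM hg hDc hDd, map_zero]
        refine Finsupp.single_mem_supported _ _ ?_
        intro j hj
        rw [sp_val] at hj
        have h5 := Finsupp.support_single_subset hj
        rw [Finset.mem_singleton] at h5
        rw [h5]
        exact h.hc
    have f8 : (∑ j ∈ a.support, at0 (Polynomial.C (a j) • Q j (Finsupp.single (sp M c) 1))) (sp M c) = a 0 := by
      rw [Finset.sum_congr rfl fun j _ => f7 j, Finset.sum_eq_single 0]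
      · rw [if_pos rfl, Finsupp.smul_apply, Finsupp.single_eq_same, smul_eq_mul, mul_one]
      · intro j _ hj
        rw [if_neg hj, smul_zero]
      · intro h9
        exact absurd (Finsupp.mem_support_iff.2 ha0) h9
    rw [f6] at f8
    refine ha0 (f8.symm.trans ?_)
    exact Finsupp.mapRange_apply .. |>.trans rfl
  · intro k hk hkc
    rw [rhoP_ag, hNk k hk]
    congr 1
    have hkb := nu_kb h hk
    refine op_fix hg _ _ ?_ ?_ _
    · rw [sp_val, Finsupp.single_eq_of_ne hkb]
    · rw [simple_pa]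
      have h2 : M b k = 2 := h.com b h.hb k hk fun e => hkc e.2
      rw [M.symmetric] at h2
      exact cm_two h2
  · intro x hx hfix
    rw [hN, toK_sum, map_sum]
    refine Finset.sum_congr rfl fun j _ => ?_
    rw [toK_smul, map_smul]
    congr 1
    change rh hM hg x (toK (rhoP hM hg (Polynomial ℚ) Polynomial.X (D ^ j) (Finsupp.single (sp M b) 1))) =
      toK (rhoP hM hg (Polynomial ℚ) Polynomial.X (D ^ j) (Finsupp.single (sp M b) 1))
    rw [← rhoP_toK, toK_single, map_one, ← rh_inc, ← rh_mul_apply]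
    have h1 : x * inc M (D ^ j) = inc M (D ^ j) * x := by
      rw [map_pow]
      exact ((show Commute x (inc M D) from (D_comm hDc hx).symm).pow_right j).eq
    rw [h1, rh_mul_apply, hfix]

private theorem exists_div (β : Ps M) (n : ℕ) : ∀ ν : Ps M →₀ Polynomial ℚ, ν β ≠ 0 → (ν β).natDegree = n →
    ∃ (m : ℕ) (ν' : Ps M →₀ Polynomial ℚ), ν = (Polynomial.X ^ m : Polynomial ℚ) • ν' ∧ at0 ν' ≠ 0 := by
  induction n using Nat.strong_induction_on with
  | _ n ih =>
    intro ν hν hn
    by_cases h0 : at0 ν = 0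
    · let ν1 : Ps M →₀ Polynomial ℚ := ν.mapRange Polynomial.divX Polynomial.divX_zero
      have h1 : ∀ γ, ν γ = Polynomial.X * ν1 γ := by
        intro γ
        have h2 : (ν γ).coeff 0 = 0 := by
          have := congrArg (fun w : Ps M →₀ ℚ => w γ) h0
          exact this
        have h3 := Polynomial.X_mul_divX_add (ν γ)
        rw [h2, map_zero, add_zero] at h3
        exact h3.symm
      have h4 : ν = (Polynomial.X : Polynomial ℚ) • ν1 := by
        ext γ : 1
        rw [Finsupp.smul_apply, smul_eq_mul]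
        exact h1 γ
      have h5 : ν1 β ≠ 0 := fun h6 => hν (by rw [h1, h6, mul_zero])
      have h6 : (ν1 β).natDegree < n := by
        rw [← hn, h1 β, Polynomial.natDegree_X_mul h5]
        exact Nat.lt_succ_self _
      obtain ⟨m, ν', h7, h8⟩ := ih _ h6 ν1 h5 rfl
      refine ⟨m + 1, ν', ?_, h8⟩
      rw [h4, h7, smul_smul, pow_succ']
    · exact ⟨0, ν, by rw [pow_zero, one_smul], h0⟩

theorem vec_stab (hM : SLa M) (hg : GOk M g) {b c : B} {Tb X : Set B} (h : Cfg M b c Tb X)
    (hf : Finite (resM M X).Group) (lev : ∀ β : Ps M, (β.1.support : Set B) ⊆ X → β.1 c ≤ 1) {x : Art M}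
    (hx : x ∈ ap M X) (hfix : rh hM hg x (Finsupp.single (sp M b) 1) = Finsupp.single (sp M b) 1) :
    x ∈ ap M (X \ {c}) := by
  obtain ⟨ν, hV, hne, hk, hr⟩ := exists_nu hM hg h hf
  obtain ⟨β, hβ⟩ : ∃ β, ν β ≠ 0 := by
    by_contra hc
    push Not at hc
    exact hne (Finsupp.ext hc)
  obtain ⟨m, ν', e, h0⟩ := exists_div β _ ν hβ rfl
  have hXm : (Polynomial.X ^ m : Polynomial ℚ) ≠ 0 := pow_ne_zero _ Polynomial.X_ne_zero
  refine sl_vec hM hg hf h.hc lev (ν := ν') ?_ h0 ?_ hx ?_
  · rw [VT, Finsupp.mem_supported]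
    intro γ hγ
    refine (Finsupp.mem_supported _ _).1 hV ?_
    rw [Finset.mem_coe, Finsupp.mem_support_iff] at hγ ⊢
    rw [e, Finsupp.smul_apply, smul_eq_mul]
    exact mul_ne_zero hXm hγ
  · intro k hkX hkc
    have h1 := hk k hkX hkc
    rw [e, map_smul] at h1
    exact smul_right_injective _ hXm h1
  · have h1 := hr x hx hfix
    rw [e, toK_smul, map_smul] at h1
    have h2 : algebraMap (Polynomial ℚ) KK (Polynomial.X ^ m) ≠ 0 := by
      intro h3
      exact hXm ((IsFractionRing.injective (Polynomial ℚ) KK) (h3.trans (map_zero _).symm))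
    exact smul_right_injective _ h2 h1

end Pool.Agent.H19.LK
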