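import Pool.Agent.H19.LK.InB
import Pool.Agent.H19.LK.Nu
import Pool.Agent.H19.LK.Mn
import Pool.Agent.H19.LK.Lf
import Pool.Agent.H19.LK.GxE
import Pool.Agent.H54.LK.Defs

/-!
# [H19 LK MAIN] Commuting elements of two parabolic subgroups joined by an edge

`com_inner`: `exists_gok` gives `g`. Levels: `lev_le` for `Tb` (`insert c Tb`) and for `Tc` (`insert b Tc`, `Cfg.symm`). If `sb Tc u (x e (sp b)) ≠ 0` for some `u ≠ 0`: `in_case`, `y ∈ ap M (Tb \ {b})`. If `sb Tb u (y e (sp c)) ≠ 0` for some `u ≠ 0`: `in_case` for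
`Cfg.symm`, `x ∈ ap M (Tc \ {c})`. Otherwise `step0`: in the first case `fixed` gives `rh x (e (sp b)) = e (sp b)` and `vec_stab` (`X = Tc`) `x ∈ ap M (Tc \ {c})`; in the second case `fixed` for `Cfg.symm` and `vec_stab` (`X = Tb`, with `b`, `c` exchanged) `y ∈ ap M (Tb \ {b})`.

`com_leaf`: `x ∈ ap M {c}` is `gen c ^ m`, `m : ℤ` (`ap_induction`). `m = 0`: `x = 1`. `m ≠ 0`: `y` commutes with `gen c ^ |m|`: `leaf`.

`comInner`, `comLeaf`: the interface H54/LK/Defs.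
-/

set_option autoImplicit false

namespace Pool.Agent.H19.LK

open Pool.H8.CDW Pool.Agent.H52.PAG Pool.Agent.H75.INF Pool.Agent.H2.SPH

variable {B : Type} {M : CoxeterMatrix B}

private theorem notMem_of_dis {Tb Tc : Set B} (h : Disjoint Tb Tc) {k : B} (hk : k ∈ Tc) : k ∉ Tb :=
  fun hb => Set.disjoint_left.1 h hb hk

private theorem lev_b (hM : SLa M) {b c : B} {Tb Tc : Set B} (h : Cfg M b c Tb Tc)
    (hb : Finite (resM M (insert c Tb)).Group) (β : Ps M) (hβ : (β.1.support : Set B) ⊆ Tb) : β.1 b ≤ 1 :=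
  lev_le hM h.hb (notMem_of_dis h.dis h.hc) h.bc (fun k hk hkb => h.com k hk c h.hc fun e => hkb e.1) hb hβ

theorem com_inner (hM : SLa M) (hT : NoT M) {b c : B} {Tb Tc : Set B} (h : Cfg M b c Tb Tc)
    (hb : Finite (resM M (insert c Tb)).Group) (hc : Finite (resM M (insert b Tc)).Group) {x y : Art M}
    (hx : x ∈ ap M Tc) (hy : y ∈ ap M Tb) (hxy : x * y = y * x) : x ∈ ap M (Tc \ {c}) ∨ y ∈ ap M (Tb \ {b}) := by
  obtain ⟨g, hg⟩ := exists_gok hM hT
  have hfb : Finite (resM M Tb).Group := fin_mono hM (Set.subset_insert c Tb) hb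
  have hfc : Finite (resM M Tc).Group := fin_mono hM (Set.subset_insert b Tc) hc
  have levb := lev_b hM h hb
  have levc := lev_b hM h.symm hc
  by_cases h1 : ∃ u, u ≠ 0 ∧ sb M Tc u (rh hM hg x (Finsupp.single (sp M b) 1)) ≠ 0
  · obtain ⟨u, hu, hZ⟩ := h1
    exact Or.inr (in_case hM hg h hfb levb hx hy hxy hu hZ)
  by_cases h2 : ∃ u, u ≠ 0 ∧ sb M Tb u (rh hM hg y (Finsupp.single (sp M c) 1)) ≠ 0
  · obtain ⟨u, hu, hZ⟩ := h2
    exact Or.inl (in_case hM hg h.symm hfc levc hy hx hxy.symm hu hZ)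
  have h1' : ∀ u, u ≠ 0 → sb M Tc u (rh hM hg x (Finsupp.single (sp M b) 1)) = 0 := by
    intro u hu
    by_contra hne
    exact h1 ⟨u, hu, hne⟩
  have h2' : ∀ u, u ≠ 0 → sb M Tb u (rh hM hg y (Finsupp.single (sp M c) 1)) = 0 := by
    intro u hu
    by_contra hne
    exact h2 ⟨u, hu, hne⟩
  rcases step0 hM h hx hy hxy with h0 | h0
  · exact Or.inl (vec_stab hM hg h hfc levc hx (fixed hM hg h hx h1' h0))
  · exact Or.inr (vec_stab hM hg h.symm hfb levb hy (fixed hM hg h.symm hy h2' h0))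

theorem com_leaf (hM : SLa M) (hT : NoT M) {b c : B} {Tb : Set B} (h : Cfg M b c Tb {c})
    (hb : Finite (resM M Tb).Group) {x y : Art M}
    (hx : x ∈ ap M ({c} : Set B)) (hy : y ∈ ap M Tb) (hxy : x * y = y * x) :
    x = 1 ∨ y ∈ ap M (Tb \ {b}) := by
  obtain ⟨g, hg⟩ := exists_gok hM hT
  obtain ⟨m, rfl⟩ : ∃ m : ℤ, x = gen M c ^ m := by
    refine ap_induction (K := ({c} : Set B)) (P := fun x => ∃ m : ℤ, x = gen M c ^ m) ⟨0, (zpow_zero _).symm⟩ ?_ ?_ hx
    · rintro _ - k hk ⟨m, rfl⟩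
      rw [Set.mem_singleton_iff.1 hk]
      exact ⟨m + 1, (zpow_add_one _ _).symm⟩
    · rintro _ - k hk ⟨m, rfl⟩
      rw [Set.mem_singleton_iff.1 hk]
      exact ⟨m - 1, (zpow_sub_one _ _).symm⟩
  by_cases hm : m = 0
  · left
    rw [hm, zpow_zero]
  right
  have hc : c ∉ Tb := notMem_of_dis h.dis h.hc
  have hcom : ∀ k ∈ Tb, k ≠ b → M k c = 2 := fun k hk hkb => h.com k hk c h.hc fun e => hkb e.1
  rcases lt_or_gt_of_ne hm with h1 | h1
  · obtain ⟨n, hn⟩ : ∃ n : ℕ, m = -(n : ℤ) := ⟨m.natAbs, by omega⟩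
    have hn0 : 0 < n := by omega
    refine leaf hM hg h.hb hc h.bc hcom hb hy hn0 ?_
    rw [hn, zpow_neg, zpow_natCast] at hxy
    have h2 : Commute ((gen M c ^ n)⁻¹) y := hxy
    exact (Commute.inv_left_iff.1 h2)
  · obtain ⟨n, hn⟩ : ∃ n : ℕ, m = (n : ℤ) := ⟨m.natAbs, by omega⟩
    have hn0 : 0 < n := by omega
    refine leaf hM hg h.hb hc h.bc hcom hb hy hn0 ?_
    rw [hn, zpow_natCast] at hxy
    exact hxy

open Pool.Agent.H54.LK in
private theorem cfg_of_brg {b c : B} {T : Set B} (hM : SL M) (h : Brg M b c T) : Cfg M b c T Tᶜ where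
  hb := h.left
  hc := h.right
  dis := disjoint_compl_right
  bc := by
    have h1 := h.edge
    have hne : b ≠ c := by
      rintro rfl
      exact h.right h.left
    rcases hM.1 b c hne with h2 | h2
    · omega
    · exact h2
  com := fun i hi j hj hij => h.two i hi j hj hij

open Pool.Agent.H54.LK in
private theorem nt {hM : SL M} : NoT M := fun i j k h1 h2 h3 => hM.2 i j k ⟨h1, h2, h3⟩

/-- (COM) for inner edges -/
theorem comInner : Pool.Agent.H54.LK.ComInner := by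
  intro B _ M hM b c T h hb hc x hx y hy hxy
  exact com_inner hM.1 (nt (hM := hM)) (cfg_of_brg hM h) hb hc hx hy hxy

/-- (COM) for leaves -/
theorem comLeaf : Pool.Agent.H54.LK.ComLeaf := by
  intro B _ M hM b c h hb x hx y hy hxy
  have h1 : Cfg M b c ({c}ᶜ : Set B) {c} := by
    have h2 := cfg_of_brg hM h
    rw [compl_compl] at h2
    exact h2
  rw [compl_compl] at hx ⊢
  rcases com_leaf hM.1 (nt (hM := hM)) h1 hb hx hy hxy with h2 | h2
  · left
    rw [h2]
    exact one_mem _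
  · exact Or.inr h2

end Pool.Agent.H19.LK
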