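import Pool.Agent.H19.LK.RtB

/-!
# [H19 LK RPA] The Hecke part

Check everything on `single β 1` (`LinearMap.ext`, `Finsupp.lhom_ext'` or `Finsupp.induction_linear`; `tau_single`, `tv`, `if_pos`, `if_neg`, `smul_add`, `smul_single`). Write `h = hf R`,
`h + h = 1` (`hf_add`), `e β` for `single β 1`, `s_i = rp i`, `a = pa i β`, `b = pa j β`.

`tau_sq`: `β = sp k`: both sides `0`. `β ≠ sp k`: `a > 0`: `tau e_β = e (s β)`, `pa k (s β) = -a < 0`, `s β ≠ sp k`, `s (s β) = β`: `tau (tau e_β) = h e (s β) + h e β`. `a = 0`: `e β`.
`a < 0`: `tau e_β = h e β + h e (s β)`, `tau (e (s β)) = e β`.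

`tau_comm` (`M i j = 2`): `β = sp i`: `tau i e_β = 0`, `tau j e_β = e β` (`pa j (sp i) = 0`), so both sides are `0`; `β = sp j` the same. Otherwise `s_i β ≠ sp j` (pairing `pa i`: `pa i (s_i β) = - a`,
`pa i (sp j) = 0`, so `a = 0`, `s_i β = β`), the pairings with `j` of `β` and `s_i β` agree, and the nine cases of signs are immediate with `rp_comm`.

`tau_braid` (`M i j = 3`). `pa j (s_i β) = a + b`, `pa i (s_j β) = a + b`, `pa i (s_j s_i β) = b`, `pa j (s_i s_j β) = a`. `β = sp i`: left `0`; right: `tau j e_β = h e β + h e (s_j β)`, `s_j β = α_i + α_j`, `tau i` of it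
is `h e (sp j)`, `tau j` of it is `0`. `β = sp j` symmetric. `β = α_i + α_j` (`s_i β = sp j`, `s_j β = sp i`): both sides `0`. Otherwise `s_i β ≠ sp j`, `s_j β ≠ sp i`, `w = s_i s_j s_i β = s_j s_i s_j β` (`rp_braid`). By
symmetry (`i`, `j` exchanged) the cases: `a = b = 0`: `e β`. `a > 0, b > 0`: `e w`. `a > 0, b = 0`: both `e (s_j s_i β)`. `a > 0 > b`, `a + b > 0`: both `h e (s_j s_i β) + h e w`.
`a > 0 > b`, `a + b = 0`: both `h e (s_i β) + h e β`. `a > 0 > b`, `a + b < 0`: both `h^2 (e (s_i β) + e β + e (s_j s_i β) + e w)`. `a = 0 > b`: both `h e β + h^2 e (s_j β) + h^2 e (s_i s_j β)` (use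
`h = h^2 + h^2`). `a, b < 0`: both `(h^3 + h^2) e β + h^3 (e (s_i β) + e (s_j β) + e (s_i s_j β) + e (s_j s_i β) + e w)`.
-/

set_option autoImplicit false

namespace Pool.Agent.H19.LK

open Pool.H8.CDW Pool.Agent.H52.PAG Pool.Agent.H75.INF Pool.Agent.H2.SPH

variable {B : Type} {M : CoxeterMatrix B} (R : Type) [CommRing R] [Algebra ℚ R]

private theorem tau_one (k : B) (β : Ps M) : tau M R k (Finsupp.single β 1) = tv M R k β := by
  rw [tau_single, one_smul]

private theorem tv_sp (k : B) : tv M R k (sp M k) = 0 := by
  unfold tv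
  rw [if_pos rfl]

private theorem tau_p {k : B} {β : Ps M} (h : β ≠ sp M k) (hp : 0 < pa M k β.1) :
    tau M R k (Finsupp.single β 1) = Finsupp.single (rp M k β) 1 := by
  rw [tau_one]
  unfold tv
  rw [if_neg h, if_pos hp]

private theorem tau_z {k : B} {β : Ps M} (hp : pa M k β.1 = 0) :
    tau M R k (Finsupp.single β 1) = Finsupp.single β 1 := by
  have h : β ≠ sp M k := by
    rintro rfl
    rw [simple_self] at hp
    omega
  rw [tau_one]
  unfold tv
  rw [if_neg h, if_neg (by omega), if_pos hp]

private theorem tau_n {k : B} {β : Ps M} (hp : pa M k β.1 < 0) :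
    tau M R k (Finsupp.single β 1) =
      hf R • (Finsupp.single β 1 : Ps M →₀ R) + hf R • (Finsupp.single (rp M k β) 1 : Ps M →₀ R) := by
  have h : β ≠ sp M k := by
    rintro rfl
    rw [simple_self] at hp
    omega
  rw [tau_one]
  unfold tv
  rw [if_neg h, if_neg (by omega), if_neg (by omega), Finsupp.smul_single, Finsupp.smul_single, smul_eq_mul, mul_one]

theorem tau_sp (k : B) (a : R) : tau M R k (Finsupp.single (sp M k) a) = 0 := by
  rw [tau_single, tv_sp, smul_zero]

private theorem ext_one {f g : Module.End R (Ps M →₀ R)}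
    (h : ∀ β, f (Finsupp.single β 1) = g (Finsupp.single β 1)) : f = g := by
  refine Finsupp.lhom_ext' fun β => LinearMap.ext_ring ?_
  exact h β

private theorem hf_sq : hf R = hf R * hf R + hf R * hf R := by
  rw [← mul_add, hf_add, mul_one]

theorem tau_sq (hM : SLa M) (k : B) (v : Ps M →₀ R) :
    tau M R k (tau M R k v) = hf R • tau M R k v + hf R • (v - Finsupp.single (sp M k) (v (sp M k))) := by
  classical
  induction v using Finsupp.induction_linear with
  | zero => simp
  | add u w hu hw =>
    rw [map_add, map_add, hu, hw, Finsupp.add_apply, Finsupp.single_add]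
    module
  | single β a =>
    have ea : (Finsupp.single β a : Ps M →₀ R) = a • Finsupp.single β 1 := by
      rw [Finsupp.smul_single, smul_eq_mul, mul_one]
    by_cases hβ : β = sp M k
    · subst hβ
      rw [tau_sp, map_zero, Finsupp.single_eq_same, sub_self]
      simp
    · have e0 : (Finsupp.single β a : Ps M →₀ R) (sp M k) = 0 := Finsupp.single_eq_of_ne (Ne.symm hβ)
      rw [e0, Finsupp.single_zero, sub_zero, ea, map_smul, map_smul]
      rcases lt_trichotomy (pa M k β.1) 0 with h | h | h
      · have h1 : 0 < pa M k (rp M k β).1 := by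
          rw [pa_rp_self hM hβ]
          omega
        rw [tau_n R h, map_add, map_smul, map_smul, tau_n R h, tau_p R (rp_ne hM hβ) h1, rp_rp hM]
        module
      · rw [tau_z R h, tau_z R h]
        have e : (Finsupp.single β 1 : Ps M →₀ R) = (hf R + hf R) • Finsupp.single β 1 := by
          rw [hf_add, one_smul]
        nth_rewrite 1 [e]
        module
      · have h1 : pa M k (rp M k β).1 < 0 := by
          rw [pa_rp_self hM hβ]
          omega
        rw [tau_p R hβ h, tau_n R h1, rp_rp hM]
        module

theorem tau_comm (hM : SLa M) {i j : B} (hij : M i j = 2) : tau M R i * tau M R j = tau M R j * tau M R i := by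
  classical
  have hji : M j i = 2 := by rw [M.symmetric, hij]
  refine ext_one R fun β => ?_
  rw [Module.End.mul_apply, Module.End.mul_apply]
  by_cases hi : β = sp M i
  · subst hi
    have h0 : pa M j (sp M i).1 = 0 := by rw [simple_pa, cm_two hji]
    rw [tau_z R h0, tau_sp, map_zero]
  by_cases hj : β = sp M j
  · subst hj
    have h0 : pa M i (sp M j).1 = 0 := by rw [simple_pa, cm_two hij]
    rw [tau_z R h0, tau_sp, map_zero]
  have pj : pa M j (rp M i β).1 = pa M j β.1 := pa_rp_two hM hi hji
  have pi : pa M i (rp M j β).1 = pa M i β.1 := pa_rp_two hM hj hij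
  have nj : rp M i β ≠ sp M j := by
    intro e
    have h1 := pa_rp_self hM hi
    rw [e, simple_pa, cm_two hij] at h1
    rw [rp_zero (by omega)] at e
    exact hj e
  have ni : rp M j β ≠ sp M i := by
    intro e
    have h1 := pa_rp_self hM hj
    rw [e, simple_pa, cm_two hji] at h1
    rw [rp_zero (by omega)] at e
    exact hi e
  have e := rp_comm hM hij hi hj
  rcases lt_trichotomy (pa M i β.1) 0 with h | h | h <;> rcases lt_trichotomy (pa M j β.1) 0 with h' | h' | h'
  · rw [tau_n R h', tau_n R h, map_add, map_add, map_smul, map_smul, map_smul, map_smul, tau_n R h, tau_n R h',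
      tau_n R (by omega), tau_n R (by omega), e]
    module
  · rw [tau_z R h', tau_n R h, map_add, map_smul, map_smul, tau_z R h', tau_z R (by omega)]
  · rw [tau_p R hj h', tau_n R h, map_add, map_smul, map_smul, tau_p R hj h', tau_n R (by omega),
      tau_p R nj (by omega), e]
  · rw [tau_n R h', tau_z R h, map_add, map_smul, map_smul, tau_z R h, tau_z R (by omega), tau_n R h']
  · rw [tau_z R h', tau_z R h, tau_z R h']
  · rw [tau_p R hj h', tau_z R h, tau_z R (by omega), tau_p R hj h']
  · rw [tau_n R h', tau_p R hi h, map_add, map_smul, map_smul, tau_p R hi h,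
      tau_n R (k := j) (β := rp M i β) (by omega), tau_p R ni (by omega), e]
  · rw [tau_z R h', tau_p R hi h, tau_z R (by omega)]
  · rw [tau_p R hj h', tau_p R hi h, tau_p R ni (by omega), tau_p R nj (by omega), e]

private theorem sp_ne {i j : B} (hij : M i j = 3) : sp M i ≠ sp M j := by
  have hji : M j i = 3 := by rw [M.symmetric, hij]
  intro e
  have h := simple_pa (M := M) j i
  rw [cm_three hji, e, simple_self] at h
  omega

private theorem twist (hM : SLa M) {i j : B} (hij : M i j = 3) : rp M i (rp M j (sp M i)) = sp M j := by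
  classical
  have hji : M j i = 3 := by rw [M.symmetric, hij]
  have hne : sp M i ≠ sp M j := sp_ne hij
  have h2 : pa M i (rp M j (sp M i)).1 = 1 := by
    rw [pa_rp_three hM hne hij, simple_self, simple_pa, cm_three hji]
    omega
  have h3 : rp M j (sp M i) ≠ sp M i := by
    intro e
    rw [e, simple_self] at h2
    omega
  apply Ps.ext
  rw [rp_val hM h3, rp_val hM hne, sp_val, sp_val]
  unfold rf
  rw [pa_single, cm_three hji, pa_sub, pa_single, pa_single, cm_self, cm_three hij]
  ext k
  simp only [Finsupp.sub_apply, Finsupp.single_apply]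
  split_ifs <;> norm_num

/-- the braid relation for the ordered cases -/
private theorem braid_aux (hM : SLa M) {i j : B} (hij : M i j = 3) {β : Ps M} (hi : β ≠ sp M i) (hj : β ≠ sp M j)
    (nj : rp M i β ≠ sp M j) (ni : rp M j β ≠ sp M i) (hab : pa M j β.1 ≤ pa M i β.1) :
    tau M R i (tau M R j (tau M R i (Finsupp.single β 1))) =
      tau M R j (tau M R i (tau M R j (Finsupp.single β 1))) := by
  have hji : M j i = 3 := by rw [M.symmetric, hij]
  have p1 : pa M j (rp M i β).1 = pa M j β.1 + pa M i β.1 := pa_rp_three hM hi hji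
  have p2 : pa M i (rp M j β).1 = pa M i β.1 + pa M j β.1 := pa_rp_three hM hj hij
  have p3 : pa M i (rp M i β).1 = - pa M i β.1 := pa_rp_self hM hi
  have p4 : pa M j (rp M j β).1 = - pa M j β.1 := pa_rp_self hM hj
  have p5 : pa M i (rp M j (rp M i β)).1 = pa M j β.1 := by
    rw [pa_rp_three hM nj hij]
    omega
  have p6 : pa M j (rp M i (rp M j β)).1 = pa M i β.1 := by
    rw [pa_rp_three hM ni hji]
    omega
  have q3 : rp M i β ≠ sp M i := rp_ne hM hi
  have q4 : rp M j β ≠ sp M j := rp_ne hM hj
  have w := rp_braid hM hij hi hj nj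
  have n5 : rp M j (rp M i β) ≠ sp M i := by
    intro e
    apply hj
    rw [← twist hM hij, ← e, rp_rp hM, rp_rp hM]
  have n6 : rp M i (rp M j β) ≠ sp M j := by
    intro e
    apply hi
    rw [← twist hM hji, ← e, rp_rp hM, rp_rp hM]
  have hs : (hf R) • (Finsupp.single β 1 : Ps M →₀ R) =
      (hf R * hf R) • (Finsupp.single β 1 : Ps M →₀ R) + (hf R * hf R) • (Finsupp.single β 1 : Ps M →₀ R) := by
    rw [← add_smul, ← hf_sq]
  rcases lt_trichotomy (pa M i β.1) 0 with h | h | h
  · -- both negative
    have h' : pa M j β.1 < 0 := by omega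
    rw [tau_n R h, tau_n R h']
    simp only [map_add, map_smul]
    rw [tau_n R h', tau_n R (k := j) (β := rp M i β) (by omega), tau_n R h, tau_n R (k := i) (β := rp M j β) (by omega)]
    simp only [map_add, map_smul]
    rw [tau_n R h, tau_n R (k := i) (β := rp M j β) (by omega), tau_p R q3 (by omega), rp_rp hM,
      tau_n R (k := i) (β := rp M j (rp M i β)) (by omega), tau_n R h', tau_n R (k := j) (β := rp M i β) (by omega),
      tau_p R q4 (by omega), rp_rp hM, tau_n R (k := j) (β := rp M i (rp M j β)) (by omega), w]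
    module
  · rcases lt_or_eq_of_le hab with h' | h'
    · have h'' : pa M j β.1 < 0 := by omega
      rw [tau_z R h, tau_n R h'']
      simp only [map_add, map_smul]
      rw [tau_z R h, tau_n R (k := i) (β := rp M j β) (by omega)]
      simp only [map_add, map_smul]
      rw [tau_n R h'', tau_p R q4 (by omega), rp_rp hM, tau_z R (k := j) (β := rp M i (rp M j β)) (by omega)]
      conv_lhs => rw [hs]
      module
    · have h'' : pa M j β.1 = 0 := by omega
      rw [tau_z R h, tau_z R h'', tau_z R h, tau_z R h'']
  · rcases lt_trichotomy (pa M j β.1) 0 with h' | h' | h'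
    · rw [tau_p R hi h, tau_n R h']
      rcases lt_trichotomy (pa M i β.1 + pa M j β.1) 0 with hs' | hs' | hs'
      · rw [tau_n R (k := j) (β := rp M i β) (by omega)]
        simp only [map_add, map_smul]
        rw [tau_n R (k := i) (β := rp M i β) (by omega), rp_rp hM, tau_n R (k := i) (β := rp M j (rp M i β)) (by omega),
          tau_p R hi h, tau_n R (k := i) (β := rp M j β) (by omega)]
        simp only [map_add, map_smul]
        rw [tau_n R (k := j) (β := rp M i β) (by omega), tau_p R q4 (by omega), rp_rp hM,
          tau_p R n6 (by omega), w]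
        module
      · rw [tau_z R (k := j) (β := rp M i β) (by omega), tau_n R (k := i) (β := rp M i β) (by omega), rp_rp hM]
        simp only [map_add, map_smul]
        rw [tau_p R hi h, tau_z R (k := i) (β := rp M j β) (by omega), tau_z R (k := j) (β := rp M i β) (by omega),
          tau_p R q4 (by omega), rp_rp hM]
      · rw [tau_p R nj (by omega), tau_n R (k := i) (β := rp M j (rp M i β)) (by omega)]
        simp only [map_add, map_smul]
        rw [tau_p R hi h, tau_p R ni (by omega), tau_p R nj (by omega), tau_p R n6 (by omega), w]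
    · rw [tau_p R hi h, tau_p R nj (by omega), tau_z R (k := i) (β := rp M j (rp M i β)) (by omega), tau_z R h',
        tau_p R hi h, tau_p R nj (by omega)]
    · rw [tau_p R hi h, tau_p R nj (by omega), tau_p R n5 (by omega), tau_p R hj h', tau_p R ni (by omega),
        tau_p R n6 (by omega), w]

theorem tau_braid (hM : SLa M) {i j : B} (hij : M i j = 3) :
    tau M R i * tau M R j * tau M R i = tau M R j * tau M R i * tau M R j := by
  classical
  have hji : M j i = 3 := by rw [M.symmetric, hij]
  refine ext_one R fun β => ?_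
  simp only [Module.End.mul_apply]
  -- the exceptional roots
  have key : ∀ {i j : B}, M i j = 3 → tau M R j (tau M R i (tau M R j (Finsupp.single (sp M i) 1))) = 0 := by
    intro i j hij
    have hji : M j i = 3 := by rw [M.symmetric, hij]
    have hne : sp M i ≠ sp M j := sp_ne hij
    have h1 : pa M j (sp M i).1 < 0 := by
      rw [simple_pa, cm_three hji]
      omega
    have h2 : pa M i (rp M j (sp M i)).1 = 1 := by
      rw [pa_rp_three hM hne hij, simple_self, simple_pa, cm_three hji]
      omega
    have h3 : rp M j (sp M i) ≠ sp M i := by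
      intro e
      rw [e, simple_self] at h2
      omega
    have h4 : rp M i (rp M j (sp M i)) = sp M j := twist hM hij
    rw [tau_n R h1, map_add, map_smul, map_smul, tau_sp, tau_p R h3 (by omega), h4, smul_zero, zero_add, map_smul,
      tau_sp, smul_zero]
  by_cases hi : β = sp M i
  · subst hi
    rw [key hij, tau_sp, map_zero, map_zero]
  by_cases hj : β = sp M j
  · subst hj
    rw [key hji, tau_sp, map_zero, map_zero]
  by_cases nj : rp M i β = sp M j
  · have h0 : pa M i β.1 = 1 := by
      have h1 := pa_rp_self hM hi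
      rw [nj, simple_pa, cm_three hij] at h1
      omega
    have h1 : pa M j β.1 = 1 := by
      have h2 := pa_rp_three hM hi hji
      rw [nj, simple_self] at h2
      omega
    have h4 : rp M j β = sp M i := by
      have e : β = rp M i (sp M j) := by rw [← nj, rp_rp hM]
      rw [e, twist hM hji]
    rw [tau_p R hi (by omega), nj, tau_sp, map_zero, tau_p R hj (by omega), h4, tau_sp, map_zero]
  have ni : rp M j β ≠ sp M i := by
    intro h4
    apply nj
    have e : β = rp M j (sp M i) := by rw [← h4, rp_rp hM]
    rw [e, twist hM hij]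
  rcases le_total (pa M j β.1) (pa M i β.1) with h | h
  · exact braid_aux R hM hij hi hj nj ni h
  · exact (braid_aux R hM hji hj hi ni nj h).symm

end Pool.Agent.H19.LK
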