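import Pool.Agent.H19.LK.RpA

/-!
# [H19 LK RPB] The braid relations of the Lawrence-Krammer operators

`fl_sp`: `GOk.self`, `GOk.oth`. `fl_tau_two`, `fl_tau_three`: on `single β 1`; `2 * fl i (tau j (single β 1)) = gt M g i j β - 2` for `β ≠ sp j` (three cases of `tv`, `hf + hf = 1`). `M i j = 2`: by
`GOk.c1` it is `2 (g i β - 1)`; for `β = sp j` both sides are `0` (`GOk.oth`). `M i j = 3`: `GOk.c3`; for `β = sp i`: `fl j (tau i (single β 1)) = 0` and `gt M g i j (sp i) = g i (sp i) + g i (rp j (sp i)) = 2 + 0`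
(`GOk.pos`: `pa i (rp j (sp i)) = 1`, `rp j (sp i) ≠ sp i`), so `fl i (tau j (single β 1)) = 0`; `β = sp j` symmetric. (Multiplication by `2` is injective: multiply by `hf`.)

`op_comm` (`M i j = 2`), with `e_i = single (sp i) 1`, `op_apply`: `op i (op j v) = tau i (tau j v) + (θ fl j v) • tau i e_j + θ (fl i (tau j v) + θ (fl j v) (fl i e_j)) • e_i`, `tau i e_j = e_j` (`pa i (sp j) = 0`),
`fl i e_j = 0`, `fl i (tau j v) = fl i v`: symmetric in `i`, `j`.

`op_braid` (`M i j = 3`): `tau i e_j = h e_j + h e'` with `e' = single (rp i (sp j)) 1 = single (rp j (sp i)) 1`, `tau j e_i = h e_i + h e'`, `tau i (tau j e_i) = h e_j` (`tau i e_i = 0`, `tau i e' = e_j`),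
`fl i (tau j e_i) = fl j (tau i e_i) = 0`. Expanding `(tau i + θ E_i) (tau j + θ E_j) (tau i + θ E_i)`, `E_i v = (fl i v) • e_i`: the terms with `θ^2`, `θ^3` vanish (`E_i E_j = 0`, `E_i tau_j E_i = 0`), the terms with `θ`
are `fl i (tau j (tau i v)) • e_i + fl j (tau i v) • (h e_j + h e') + (h fl i v) • e_j`, and for the other side `fl j (tau i (tau j v)) • e_j + fl i (tau j v) • (h e_i + h e') + (h fl j v) • e_i`. By `fl_tau_three` and
`tau_sq`: `fl i (tau j (tau i v)) = fl j (tau i (tau i v)) = h fl j (tau i v) + h (fl j v - 0)`, so both agree.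

`op_cubic`: `(op - θ)((op - 1)(op + h) v) = 0`: `op (op v) - h op v - h v` is a multiple of `e_k` (by `tau_sq`, `op_apply`), and `op e_k = θ e_k`. `op_unit`: `op * (op^2 - (h + θ) op + (h θ - h)) = - h θ` and
`h θ` is a unit; a two-sided inverse because the operators commute.
-/

set_option autoImplicit false

namespace Pool.Agent.H19.LK

open Pool.H8.CDW Pool.Agent.H52.PAG Pool.Agent.H75.INF Pool.Agent.H2.SPH

variable {B : Type} {M : CoxeterMatrix B} (R : Type) [CommRing R] [Algebra ℚ R] {g : B → Ps M → ℤ}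

theorem fl_self (hg : GOk M g) (i : B) (a : R) : fl M R g i (Finsupp.single (sp M i) a) = a := by
  rw [fl_single, hg.self]
  norm_num

theorem fl_oth (hg : GOk M g) {i j : B} (hij : i ≠ j) (a : R) : fl M R g i (Finsupp.single (sp M j) a) = 0 := by
  rw [fl_single, hg.oth i j hij]
  norm_num

/-- coefficient of `e_β` -/
private noncomputable def rpaA (x : ℤ) : R := if 0 < x then 0 else if x = 0 then 1 else hf R

/-- coefficient of `e_(s β)` -/
private noncomputable def rpaB (x : ℤ) : R := if 0 < x then 1 else if x = 0 then 0 else hf R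

private theorem rpa_tau {k : B} {β : Ps M} (h : β ≠ sp M k) :
    tau M R k (Finsupp.single β 1) = rpaA R (pa M k β.1) • Finsupp.single β 1 +
      rpaB R (pa M k β.1) • Finsupp.single (rp M k β) 1 := by
  classical
  rw [tau_single, one_smul]
  unfold tv rpaA rpaB
  rw [if_neg h]
  by_cases h1 : 0 < pa M k β.1
  · rw [if_pos h1, if_pos h1, if_pos h1, zero_smul, zero_add, one_smul]
  · rw [if_neg h1, if_neg h1, if_neg h1]
    by_cases h2 : pa M k β.1 = 0
    · rw [if_pos h2, if_pos h2, if_pos h2, one_smul, zero_smul, add_zero]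
    · rw [if_neg h2, if_neg h2, if_neg h2, Finsupp.smul_single, Finsupp.smul_single, smul_eq_mul, mul_one]

private theorem rpa_ne {i j : B} (h : i ≠ j) : sp M i ≠ sp M j := by
  intro e
  have h1 := congrArg Subtype.val e
  rw [sp_val, sp_val] at h1
  exact h (Finsupp.single_left_injective one_ne_zero h1)

private theorem rpa_ne3 {i j : B} (h : M i j = 3) : i ≠ j := by
  rintro rfl
  rw [M.diagonal] at h
  omega

private theorem rpa_ne2 {i j : B} (h : M i j = 2) : i ≠ j := by
  rintro rfl
  rw [M.diagonal] at h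
  omega

/-- `s_i α_j = s_j α_i` -/
private theorem rpa_sum (hM : SLa M) {i j : B} (h : M i j = 3) : rp M i (sp M j) = rp M j (sp M i) := by
  have hij := rpa_ne3 h
  have h' : M j i = 3 := by rw [M.symmetric, h]
  apply Ps.ext
  rw [rp_val hM (rpa_ne hij.symm), rp_val hM (rpa_ne hij), sp_val, sp_val]
  unfold rf
  rw [pa_single, pa_single, cm_three h, cm_three h', one_mul, Finsupp.single_neg, Finsupp.single_neg, sub_neg_eq_add,
    sub_neg_eq_add, add_comm]

omit [Algebra ℚ R] in
private theorem rpb_ext {f g : (Ps M →₀ R) →ₗ[R] R}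
    (h : ∀ β : Ps M, f (Finsupp.single β 1) = g (Finsupp.single β 1)) (v : Ps M →₀ R) : f v = g v :=
  LinearMap.congr_fun (Finsupp.lhom_ext' fun β => LinearMap.ext_ring (h β)) v

private theorem rpb_pos {x : ℤ} (h : 0 < x) : rpaA R x = 0 ∧ rpaB R x = 1 := by
  unfold rpaA rpaB
  exact ⟨if_pos h, if_pos h⟩

private theorem rpb_zero : rpaA R 0 = 1 ∧ rpaB R 0 = 0 := by
  unfold rpaA rpaB
  exact ⟨by rw [if_neg (by omega), if_pos rfl], by rw [if_neg (by omega), if_pos rfl]⟩

private theorem rpb_neg {x : ℤ} (h : x < 0) : rpaA R x = hf R ∧ rpaB R x = hf R := by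
  unfold rpaA rpaB
  exact ⟨by rw [if_neg (by omega), if_neg (by omega)], by rw [if_neg (by omega), if_neg (by omega)]⟩

/-- `tau j e_i`, label `3` -/
private theorem rpb_tau3 (hM : SLa M) {i j : B} (h : M i j = 3) :
    tau M R j (Finsupp.single (sp M i) 1) =
      hf R • Finsupp.single (sp M i) 1 + hf R • Finsupp.single (rp M j (sp M i)) 1 := by
  have h' : M j i = 3 := by rw [M.symmetric, h]
  rw [rpa_tau R (rpa_ne (rpa_ne3 h)), simple_pa, cm_three h', (rpb_neg R (show (-1 : ℤ) < 0 by omega)).1,
    (rpb_neg R (show (-1 : ℤ) < 0 by omega)).2]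

private theorem rpb_tau2 (hM : SLa M) {i j : B} (h : M i j = 2) :
    tau M R j (Finsupp.single (sp M i) 1) = Finsupp.single (sp M i) 1 := by
  have h' : M j i = 2 := by rw [M.symmetric, h]
  rw [rpa_tau R (rpa_ne (rpa_ne2 h)), simple_pa, cm_two h', (rpb_zero R).1, (rpb_zero R).2, one_smul, zero_smul,
    add_zero]

/-- the pairing of `α_i + α_j` -/
private theorem rpb_pa (hM : SLa M) {i j : B} (h : M i j = 3) :
    rp M i (sp M j) ≠ sp M i ∧ pa M i (rp M i (sp M j)).1 = 1 := by
  have hne := rpa_ne3 h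
  refine ⟨rp_ne hM (rpa_ne hne.symm), ?_⟩
  rw [pa_rp_self hM (rpa_ne hne.symm), simple_pa, cm_three h]
  norm_num

private theorem rpb_fl (hM : SLa M) (hg : GOk M g) {i j : B} (h : M i j = 3) :
    fl M R g i (Finsupp.single (rp M i (sp M j)) 1) = -1 := by
  obtain ⟨h1, h2⟩ := rpb_pa hM h
  rw [fl_single, hg.pos i _ (by rw [h2]; norm_num) h1]
  norm_num

private theorem rpb_tauE (hM : SLa M) {i j : B} (h : M i j = 3) :
    tau M R i (Finsupp.single (rp M i (sp M j)) 1) = Finsupp.single (sp M j) 1 := by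
  obtain ⟨h1, h2⟩ := rpb_pa hM h
  rw [rpa_tau R h1, h2, rp_rp hM, (rpb_pos R (show (0 : ℤ) < 1 by omega)).1, (rpb_pos R (show (0 : ℤ) < 1 by omega)).2,
    zero_smul, zero_add, one_smul]

theorem fl_tau_two (hM : SLa M) (hg : GOk M g) {i j : B} (hij : M i j = 2) (v : Ps M →₀ R) :
    fl M R g i (tau M R j v) = fl M R g i v := by
  have hji : M j i = 2 := by rw [M.symmetric, hij]
  have hh := hf_add R
  refine rpb_ext R (f := (fl M R g i).comp (tau M R j)) (g := fl M R g i) (fun β => ?_) v
  rw [LinearMap.comp_apply]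
  by_cases hβ : β = sp M j
  · subst hβ
    rw [tau_sp, map_zero, fl_oth R hg (rpa_ne2 hij)]
  · rw [rpa_tau R hβ, map_add, map_smul, map_smul, fl_single, fl_single, hg.c1 i j β hij hβ, smul_eq_mul, smul_eq_mul]
    rcases lt_trichotomy (pa M j β.1) 0 with h | h | h
    · rw [(rpb_neg R h).1, (rpb_neg R h).2]
      linear_combination (((g i β - 1 : ℤ) : R)) * hh
    · rw [h, (rpb_zero R).1, (rpb_zero R).2]
      ring
    · rw [(rpb_pos R h).1, (rpb_pos R h).2]
      ring

theorem fl_tau_three (hM : SLa M) (hg : GOk M g) {i j : B} (hij : M i j = 3) (v : Ps M →₀ R) :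
    fl M R g i (tau M R j v) = fl M R g j (tau M R i v) := by
  have hji : M j i = 3 := by rw [M.symmetric, hij]
  have hh := hf_add R
  -- the double of the value
  have dbl : ∀ i j : B, ∀ β, β ≠ sp M j → fl M R g i (tau M R j (Finsupp.single β 1)) =
      hf R * ((gt M g i j β - 2 : ℤ) : R) := by
    intro i j β hβ
    rw [rpa_tau R hβ, map_add, map_smul, map_smul, fl_single, fl_single, smul_eq_mul, smul_eq_mul]
    unfold gt
    rcases lt_trichotomy (pa M j β.1) 0 with h | h | h
    · rw [(rpb_neg R h).1, (rpb_neg R h).2, if_neg (by omega), if_neg (by omega)]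
      push_cast
      ring
    · rw [h, (rpb_zero R).1, (rpb_zero R).2, if_neg (by omega), if_pos rfl]
      push_cast
      linear_combination (-(((g i β : ℤ) : R) - 1)) * hh
    · rw [(rpb_pos R h).1, (rpb_pos R h).2, if_pos h]
      push_cast
      linear_combination (-(((g i (rp M j β) : ℤ) : R) - 1)) * hh
  have ex : ∀ i j : B, M i j = 3 → fl M R g i (tau M R j (Finsupp.single (sp M i) 1)) = 0 := by
    intro i j h
    rw [rpb_tau3 R hM h, map_add, map_smul, map_smul, ← rpa_sum hM h, rpb_fl R hM hg h, fl_self R hg]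
    simp
  refine rpb_ext R (f := (fl M R g i).comp (tau M R j)) (g := (fl M R g j).comp (tau M R i)) (fun β => ?_) v
  rw [LinearMap.comp_apply, LinearMap.comp_apply]
  by_cases hi : β = sp M i
  · subst hi
    rw [tau_sp, map_zero, ex i j hij]
  by_cases hj : β = sp M j
  · subst hj
    rw [tau_sp, map_zero, ex j i hji]
  rw [dbl i j β hj, dbl j i β hi, hg.c3 i j β hij hi hj]

theorem op_self (hg : GOk M g) (θ : R) (k : B) (a : R) :
    op M R g θ k (Finsupp.single (sp M k) a) = Finsupp.single (sp M k) (θ * a) := by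
  rw [op_apply, tau_sp, zero_add, fl_self R hg, Finsupp.smul_single, smul_eq_mul, mul_one]

theorem op_comm (hM : SLa M) (hg : GOk M g) (θ : R) {i j : B} (hij : M i j = 2) :
    op M R g θ i * op M R g θ j = op M R g θ j * op M R g θ i := by
  have hji : M j i = 2 := by rw [M.symmetric, hij]
  have hne := rpa_ne2 hij
  have hc := fun v => LinearMap.congr_fun (tau_comm R hM hij) v
  refine LinearMap.ext fun v => ?_
  have h := hc v
  rw [Module.End.mul_apply, Module.End.mul_apply] at h
  rw [Module.End.mul_apply, Module.End.mul_apply, op_apply, op_apply, op_apply, op_apply, map_add, map_add, map_smul,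
    map_smul, map_add, map_add, map_smul, map_smul, rpb_tau2 R hM hji, rpb_tau2 R hM hij, fl_oth R hg hne,
    fl_oth R hg hne.symm, fl_tau_two R hM hg hij, fl_tau_two R hM hg hji, h]
  module

theorem op_braid (hM : SLa M) (hg : GOk M g) (θ : R) {i j : B} (hij : M i j = 3) :
    op M R g θ i * op M R g θ j * op M R g θ i = op M R g θ j * op M R g θ i * op M R g θ j := by
  have hji : M j i = 3 := by rw [M.symmetric, hij]
  have hne := rpa_ne3 hij
  refine LinearMap.ext fun v => ?_
  have h := LinearMap.congr_fun (tau_braid R hM hij) v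
  simp only [Module.End.mul_apply] at h
  -- the values needed
  have aux : ∀ i j : B, M i j = 3 → op M R g θ i (op M R g θ j (op M R g θ i v)) = tau M R i (tau M R j (tau M R i v)) +
      (θ * hf R * (fl M R g i v + fl M R g j (tau M R i v))) • Finsupp.single (sp M j) 1 +
      (θ * hf R * fl M R g j (tau M R i v)) • Finsupp.single (rp M i (sp M j)) 1 +
      (θ * hf R * (fl M R g j (tau M R i v) + fl M R g j v)) • Finsupp.single (sp M i) 1 := by
    intro i j hij
    have hji : M j i = 3 := by rw [M.symmetric, hij]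
    have hne := rpa_ne3 hij
    have f1 : fl M R g i (tau M R j (tau M R i v)) = hf R * (fl M R g j (tau M R i v) + fl M R g j v) := by
      rw [fl_tau_three R hM hg hij, tau_sq R hM, map_add, map_smul, map_smul, map_sub, fl_oth R hg hne.symm, smul_eq_mul,
        smul_eq_mul]
      ring
    have e1 : op M R g θ i v = tau M R i v + (θ * fl M R g i v) • Finsupp.single (sp M i) 1 := op_apply R g θ i v
    have e2 : op M R g θ j (op M R g θ i v) = tau M R j (tau M R i v) +
        (θ * fl M R g i v) • (hf R • Finsupp.single (sp M i) 1 + hf R • Finsupp.single (rp M i (sp M j)) 1) +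
        (θ * fl M R g j (tau M R i v)) • Finsupp.single (sp M j) 1 := by
      rw [op_apply, e1, map_add, map_add, map_smul, map_smul, rpb_tau3 R hM hij, fl_oth R hg hne.symm, ← rpa_sum hM hij,
        smul_zero, add_zero]
    rw [op_apply, e2]
    simp only [map_add, map_smul]
    rw [f1, tau_sp, rpb_tauE R hM hij, rpb_tau3 R hM hji, fl_self R hg, rpb_fl R hM hg hij, fl_oth R hg hne]
    simp only [smul_eq_mul]
    module
  simp only [Module.End.mul_apply]
  rw [aux i j hij, aux j i hji, h, rpa_sum hM hij, fl_tau_three R hM hg hij]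
  module

theorem op_alt (hM : SLa M) (hg : GOk M g) (θ : R) (i j : B) :
    alt (op M R g θ i) (op M R g θ j) (M i j) = alt (op M R g θ j) (op M R g θ i) (M i j) := by
  by_cases hij : i = j
  · subst hij
    rfl
  · rcases hM i j hij with h | h
    · rw [h]
      simp only [alt, mul_one]
      exact op_comm R hM hg θ h
    · rw [h]
      simp only [alt, mul_one]
      rw [← mul_assoc, ← mul_assoc]
      exact op_braid R hM hg θ h

/-- the quadratic relation modulo `e_k` -/
theorem op_quad (hM : SLa M) (hg : GOk M g) (θ : R) (k : B) (v : Ps M →₀ R) :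
    ∃ a : R, op M R g θ k (op M R g θ k v) = hf R • op M R g θ k v + hf R • v + Finsupp.single (sp M k) a := by
  have e1 : op M R g θ k v = tau M R k v + (θ * fl M R g k v) • Finsupp.single (sp M k) 1 := op_apply R g θ k v
  refine ⟨θ * fl M R g k (op M R g θ k v) - hf R * (θ * fl M R g k v) - hf R * v (sp M k), ?_⟩
  rw [op_apply, e1]
  simp only [map_add, map_smul]
  rw [tau_sq R hM, tau_sp]
  have s1 : ∀ a : R, (Finsupp.single (sp M k) a : Ps M →₀ R) = a • Finsupp.single (sp M k) 1 := fun a => by
    rw [Finsupp.smul_single, smul_eq_mul, mul_one]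
  rw [s1 (v (sp M k)), s1 (_ - _)]
  module

theorem op_unit (hM : SLa M) (hg : GOk M g) {θ : R} (hθ : IsUnit θ) (k : B) : IsUnit (op M R g θ k) := by
  have hh := hf_add R
  have hu : IsUnit (hf R) := by
    unfold hf
    exact (IsUnit.mk0 (1 / 2 : ℚ) (by norm_num)).map (algebraMap ℚ R)
  obtain ⟨d, hd⟩ := (hu.mul hθ).exists_right_inv
  have cubic : ∀ v, op M R g θ k (op M R g θ k (op M R g θ k v)) =
      (hf R + θ) • op M R g θ k (op M R g θ k v) + (hf R - hf R * θ) • op M R g θ k v - (hf R * θ) • v := by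
    intro v
    obtain ⟨a, ha⟩ := op_quad R hM hg θ k v
    have h1 := congrArg (op M R g θ k) ha
    rw [map_add, map_add, map_smul, map_smul, op_self R hg] at h1
    have h2 : (Finsupp.single (sp M k) (θ * a) : Ps M →₀ R) = θ • Finsupp.single (sp M k) a := by
      rw [Finsupp.smul_single, smul_eq_mul]
    have h3 : (Finsupp.single (sp M k) a : Ps M →₀ R) =
        op M R g θ k (op M R g θ k v) - hf R • op M R g θ k v - hf R • v := by
      rw [ha]
      module
    rw [h1, h2, h3]
    module
  obtain ⟨O, hO⟩ : ∃ O, O = op M R g θ k := ⟨_, rfl⟩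
  rw [← hO] at cubic ⊢
  refine isUnit_iff_exists.2 ⟨(-d) • (O * O - (hf R + θ) • O - (hf R - hf R * θ) • 1), ?_, ?_⟩
  · refine LinearMap.ext fun v => ?_
    simp only [Module.End.mul_apply, LinearMap.smul_apply, LinearMap.sub_apply, Module.End.one_apply, map_smul, map_sub]
    rw [cubic v]
    linear_combination (norm := module) hd • v
  · refine LinearMap.ext fun v => ?_
    simp only [Module.End.mul_apply, LinearMap.smul_apply, LinearMap.sub_apply, Module.End.one_apply]
    rw [cubic v]
    linear_combination (norm := module) hd • v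

end Pool.Agent.H19.LK
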