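import Pool.Agent.H19.LK.RpB

/-!
# [H19 LK RPC] The representations

`rhoP hM hg R θ : AM M →* End (V_R)`, `rho hM hg : Art M →* (End V_KK)ˣ` with `θ = tt`, `rh x` the operator of `x : Art M`. `toK`, `at0`: change of the coefficients
`ℚ[X] → KK` and `ℚ[X] → ℚ`, `X ↦ 0`.

`tt_unit`: `tt ≠ 0` (`IsFractionRing.injective`). `rho_inc`: `am_hom_ext` or `am_ind`. `rhoP_toK`, `rhoP_at0`: `am_ind`; for one generator on `single β a`: the coefficients of `tv` are `0`, `1`, `hf`, and
`algebraMap ℚ`-values are preserved (`algebraMap ℚ KK = (algebraMap ℚ[X] KK).comp C`, `coeff (C a * p) 0 = a * coeff p 0`, `coeff (X * p) 0 = 0`); `toK`, `at0` are additive. `toK_inj`: `Finsupp.mapRange_injective`.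

`op_fix`: if `β k = 0` and `pa k β = 0` then `β ≠ sp k`, `tv = single β 1`, `g k β = 1` (`GOk.van`), so `op k` fixes `single β 1`. `rh_fix`: `ap_induction` on `x` (for the inverse: apply the operator to the equation).
`op_VT`: `Finsupp.supported` is spanned by the `single β 1`; `supp_rp`, and `sp k` has support `{k}`. `rh_VT`: `ap_induction`; for `(gen k)⁻¹`: the inverse of `op k` is a polynomial in `op k` (see `op_unit`), or: by `op_quad`,
`op (op v) = h op v + h v + a e_k` gives `v = 2 (op (op v) - h op v - a e_k)`, apply it to `v = (op k)⁻¹ w`, `e_k = op k (θ⁻¹ e_k)`: `(op k)⁻¹ w = 2 (op k w - h w - a e_k)`.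
-/

set_option autoImplicit false

namespace Pool.Agent.H19.LK

open Pool.H8.CDW Pool.Agent.H52.PAG Pool.Agent.H75.INF Pool.Agent.H2.SPH

variable {B : Type} {M : CoxeterMatrix B} {g : B → Ps M → ℤ}

/-- the representation of the monoid -/
noncomputable def rhoP (hM : SLa M) (hg : GOk M g) (R : Type) [CommRing R] [Algebra ℚ R] (θ : R) :
    AM M →* Module.End R (Ps M →₀ R) :=
  alift (op M R g θ) fun i j _ => op_alt R hM hg θ i j

theorem rhoP_ag (hM : SLa M) (hg : GOk M g) (R : Type) [CommRing R] [Algebra ℚ R] (θ : R) (i : B) :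
    rhoP hM hg R θ (ag M i) = op M R g θ i := rfl

theorem tt_ne : tt ≠ 0 := by
  unfold tt
  exact (map_ne_zero_iff _ (IsFractionRing.injective (Polynomial ℚ) KK)).2 Polynomial.X_ne_zero

theorem tt_unit : IsUnit tt := isUnit_iff_ne_zero.2 tt_ne

theorem unit_alt (hM : SLa M) (hg : GOk M g) (i j : B) :
    alt (op_unit KK hM hg tt_unit i).unit (op_unit KK hM hg tt_unit j).unit (M i j) =
      alt (op_unit KK hM hg tt_unit j).unit (op_unit KK hM hg tt_unit i).unit (M i j) := by
  apply Units.ext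
  have h : ∀ (x y : (Module.End KK (Ps M →₀ KK))ˣ) (n : ℕ),
      ((alt x y n : (Module.End KK (Ps M →₀ KK))ˣ) : Module.End KK (Ps M →₀ KK)) =
        alt (x : Module.End KK (Ps M →₀ KK)) y n := fun x y n =>
    Pool.Agent.H52.PAG.map_alt (Units.coeHom (Module.End KK (Ps M →₀ KK))) x y n
  rw [h, h]
  simp only [IsUnit.unit_spec]
  exact op_alt KK hM hg tt i j

/-- the representation of the group -/
noncomputable def rho (hM : SLa M) (hg : GOk M g) : Art M →* (Module.End KK (Ps M →₀ KK))ˣ :=
  lift (fun i => (op_unit KK hM hg tt_unit i).unit) fun i j _ => unit_alt hM hg i j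

/-- the operator of `x` -/
noncomputable def rh (hM : SLa M) (hg : GOk M g) (x : Art M) : Module.End KK (Ps M →₀ KK) :=
  (rho hM hg x : (Module.End KK (Ps M →₀ KK))ˣ)

/-- coefficients in `KK` -/
noncomputable def toK (v : Ps M →₀ Polynomial ℚ) : Ps M →₀ KK :=
  v.mapRange (algebraMap (Polynomial ℚ) KK) (map_zero _)

/-- the values at `X = 0` -/
noncomputable def at0 (v : Ps M →₀ Polynomial ℚ) : Ps M →₀ ℚ :=
  v.mapRange (fun p => p.coeff 0) (Polynomial.coeff_zero 0)

theorem rh_one (hM : SLa M) (hg : GOk M g) : rh hM hg 1 = 1 := by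
  unfold rh
  rw [map_one, Units.val_one]

theorem rh_mul (hM : SLa M) (hg : GOk M g) (x y : Art M) : rh hM hg (x * y) = rh hM hg x * rh hM hg y := by
  unfold rh
  rw [map_mul, Units.val_mul]

theorem rh_mul_apply (hM : SLa M) (hg : GOk M g) (x y : Art M) (v : Ps M →₀ KK) :
    rh hM hg (x * y) v = rh hM hg x (rh hM hg y v) := by
  rw [rh_mul, Module.End.mul_apply]

theorem rh_inv (hM : SLa M) (hg : GOk M g) (x : Art M) (v : Ps M →₀ KK) : rh hM hg x⁻¹ (rh hM hg x v) = v := by
  rw [← rh_mul_apply, inv_mul_cancel, rh_one, Module.End.one_apply]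

theorem rh_inv' (hM : SLa M) (hg : GOk M g) (x : Art M) (v : Ps M →₀ KK) : rh hM hg x (rh hM hg x⁻¹ v) = v := by
  rw [← rh_mul_apply, mul_inv_cancel, rh_one, Module.End.one_apply]

theorem rh_gen (hM : SLa M) (hg : GOk M g) (i : B) : rh hM hg (gen M i) = op M KK g tt i := by
  unfold rh rho
  rw [lift_gen, IsUnit.unit_spec]

theorem rh_inc (hM : SLa M) (hg : GOk M g) (p : AM M) : rh hM hg (inc M p) = rhoP hM hg KK tt p := by
  induction p using am_ind with
  | h1 => rw [map_one, map_one, rh_one]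
  | h i x ih => rw [map_mul, map_mul, rh_mul, ih, inc_ag, rh_gen, rhoP_ag]

theorem toK_single (β : Ps M) (a : Polynomial ℚ) :
    toK (Finsupp.single β a) = Finsupp.single β (algebraMap (Polynomial ℚ) KK a) := by
  unfold toK
  rw [Finsupp.mapRange_single]

theorem at0_single (β : Ps M) (a : Polynomial ℚ) : at0 (Finsupp.single β a) = Finsupp.single β (a.coeff 0) := by
  unfold at0
  rw [Finsupp.mapRange_single]

theorem toK_inj {v w : Ps M →₀ Polynomial ℚ} (h : toK v = toK w) : v = w := by
  exact Finsupp.mapRange_injective _ (map_zero _) (IsFractionRing.injective (Polynomial ℚ) KK) h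

/-- change of the coefficients -/
private noncomputable def mpr {R S : Type} [CommRing R] [CommRing S] (φ : R →+* S) (v : Ps M →₀ R) : Ps M →₀ S :=
  v.mapRange φ (map_zero φ)

private theorem mpr_add {R S : Type} [CommRing R] [CommRing S] (φ : R →+* S) (v w : Ps M →₀ R) :
    mpr φ (v + w) = mpr φ v + mpr φ w := by
  ext β
  simp [mpr]

private theorem mpr_smul {R S : Type} [CommRing R] [CommRing S] (φ : R →+* S) (a : R) (v : Ps M →₀ R) :
    mpr φ (a • v) = φ a • mpr φ v := by
  ext β
  simp [mpr]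

private theorem mpr_single {R S : Type} [CommRing R] [CommRing S] (φ : R →+* S) (β : Ps M) (a : R) :
    mpr φ (Finsupp.single β a) = Finsupp.single β (φ a) := by
  unfold mpr
  rw [Finsupp.mapRange_single]

private theorem mpr_zero {R S : Type} [CommRing R] [CommRing S] (φ : R →+* S) :
    mpr φ (0 : Ps M →₀ R) = 0 := by
  unfold mpr
  rw [Finsupp.mapRange_zero]

private theorem mpr_hf {R S : Type} [CommRing R] [Algebra ℚ R] [CommRing S] [Algebra ℚ S] (φ : R →+* S) :
    φ (hf R) = hf S := by
  have h : φ.comp (algebraMap ℚ R) = algebraMap ℚ S := RingHom.ext_rat _ _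
  exact RingHom.congr_fun h (1 / 2)

private theorem mpr_tv {R S : Type} [CommRing R] [Algebra ℚ R] [CommRing S] [Algebra ℚ S] (φ : R →+* S) (k : B) (β : Ps M) :
    mpr φ (tv M R k β) = tv M S k β := by
  classical
  unfold tv
  split_ifs
  · exact mpr_zero φ
  · rw [mpr_single, map_one]
  · rw [mpr_single, map_one]
  · rw [mpr_add, mpr_single, mpr_single, mpr_hf]

private theorem mpr_op {R S : Type} [CommRing R] [Algebra ℚ R] [CommRing S] [Algebra ℚ S] (φ : R →+* S)
    (θ : R) (k : B) (v : Ps M →₀ R) : op M S g (φ θ) k (mpr φ v) = mpr φ (op M R g θ k v) := by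
  induction v using Finsupp.induction_linear with
  | zero => rw [mpr_zero, map_zero, map_zero, mpr_zero]
  | add u v hu hv => rw [mpr_add, map_add, hu, hv, map_add, mpr_add]
  | single β a =>
    rw [mpr_single, op_apply, op_apply, tau_single, tau_single, fl_single, fl_single, mpr_add, mpr_smul, mpr_smul, mpr_tv,
      mpr_single, map_one, map_mul, map_mul, map_intCast]

private theorem mpr_rhoP {R S : Type} [CommRing R] [Algebra ℚ R] [CommRing S] [Algebra ℚ S] (hM : SLa M) (hg : GOk M g)
    (φ : R →+* S) (θ : R) (p : AM M) (v : Ps M →₀ R) :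
    rhoP hM hg S (φ θ) p (mpr φ v) = mpr φ (rhoP hM hg R θ p v) := by
  induction p using am_ind with
  | h1 => rw [map_one, map_one, Module.End.one_apply, Module.End.one_apply]
  | h i x ih =>
    rw [map_mul, map_mul, Module.End.mul_apply, Module.End.mul_apply, ih, rhoP_ag, rhoP_ag, mpr_op]

theorem rhoP_toK (hM : SLa M) (hg : GOk M g) (p : AM M) (v : Ps M →₀ Polynomial ℚ) :
    rhoP hM hg KK tt p (toK v) = toK (rhoP hM hg (Polynomial ℚ) Polynomial.X p v) := by
  exact mpr_rhoP hM hg (algebraMap (Polynomial ℚ) KK) Polynomial.X p v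

theorem rhoP_at0 (hM : SLa M) (hg : GOk M g) (p : AM M) (v : Ps M →₀ Polynomial ℚ) :
    rhoP hM hg ℚ 0 p (at0 v) = at0 (rhoP hM hg (Polynomial ℚ) Polynomial.X p v) := by
  have h := mpr_rhoP hM hg (Polynomial.constantCoeff : Polynomial ℚ →+* ℚ) Polynomial.X p v
  have h0 : (Polynomial.constantCoeff : Polynomial ℚ →+* ℚ) Polynomial.X = 0 := by simp
  rw [h0] at h
  exact h

theorem op_fix (hg : GOk M g) (R : Type) [CommRing R] [Algebra ℚ R] (θ : R) {k : B} {β : Ps M} (h : β.1 k = 0)
    (h' : pa M k β.1 = 0) (a : R) : op M R g θ k (Finsupp.single β a) = Finsupp.single β a := by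
  classical
  have hne : β ≠ sp M k := by
    rintro rfl
    rw [sp_val, Finsupp.single_eq_same] at h
    exact one_ne_zero h
  rw [op_apply, tau_single, fl_single, hg.van k β h (by omega)]
  unfold tv
  rw [if_neg hne, if_neg (by omega), if_pos h', Finsupp.smul_single, smul_eq_mul, mul_one]
  simp

theorem rh_fix (hM : SLa M) (hg : GOk M g) {T : Set B} {β : Ps M} (h : ∀ k ∈ T, β.1 k = 0 ∧ pa M k β.1 = 0)
    {x : Art M} (hx : x ∈ ap M T) (a : KK) : rh hM hg x (Finsupp.single β a) = Finsupp.single β a := by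
  refine ap_induction (P := fun x => rh hM hg x (Finsupp.single β a) = Finsupp.single β a) ?_ ?_ ?_ hx
  · rw [rh_one, Module.End.one_apply]
  · intro x _ k hk ih
    rw [rh_mul_apply, rh_gen, op_fix hg KK tt (h k hk).1 (h k hk).2, ih]
  · intro x _ k hk ih
    have h1 : rh hM hg (gen M k) (Finsupp.single β a) = Finsupp.single β a := by
      rw [rh_gen, op_fix hg KK tt (h k hk).1 (h k hk).2]
    have h2 := rh_inv hM hg (gen M k) (Finsupp.single β a)
    rw [h1] at h2
    rw [rh_mul_apply, h2, ih]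

private theorem VT_single (R : Type) [CommRing R] [Algebra ℚ R] {T : Set B} {β : Ps M}
    (h : (β.1.support : Set B) ⊆ T) (a : R) : Finsupp.single β a ∈ VT M R T :=
  Finsupp.single_mem_supported R a h

private theorem VT_sp (R : Type) [CommRing R] [Algebra ℚ R] {T : Set B} {k : B} (hk : k ∈ T) (a : R) :
    Finsupp.single (sp M k) a ∈ VT M R T := by
  refine VT_single R ?_ a
  rw [sp_val]
  intro j hj
  rw [Finset.mem_coe, Finsupp.mem_support_iff] at hj
  by_cases hjk : j = k
  · rw [hjk]
    exact hk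
  · rw [Finsupp.single_eq_of_ne hjk] at hj
    exact absurd rfl hj

theorem op_VT (R : Type) [CommRing R] [Algebra ℚ R] (θ : R) {T : Set B} {k : B} (hk : k ∈ T) {v : Ps M →₀ R}
    (hv : v ∈ VT M R T) : op M R g θ k v ∈ VT M R T := by
  classical
  have h1 : ∀ β : Ps M, (β.1.support : Set B) ⊆ T → tv M R k β ∈ VT M R T := by
    intro β hβ
    unfold tv
    split_ifs
    · exact Submodule.zero_mem _
    · exact VT_single R (supp_rp hk hβ) 1
    · exact VT_single R hβ 1
    · exact Submodule.add_mem _ (VT_single R hβ _) (VT_single R (supp_rp hk hβ) _)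
  rw [← Finsupp.sum_single v, Finsupp.sum, map_sum]
  refine Submodule.sum_mem _ fun β hβ => ?_
  have h2 : (β.1.support : Set B) ⊆ T := hv hβ
  rw [op_apply, tau_single]
  refine Submodule.add_mem _ (Submodule.smul_mem _ _ (h1 β h2)) (Submodule.smul_mem _ _ (VT_sp R hk 1))

theorem rhoP_VT (hM : SLa M) (hg : GOk M g) (R : Type) [CommRing R] [Algebra ℚ R] (θ : R) {T : Set B} {p : AM M}
    (hp : InX T p) {v : Ps M →₀ R} (hv : v ∈ VT M R T) : rhoP hM hg R θ p v ∈ VT M R T := by
  induction p using am_ind with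
  | h1 =>
    rw [map_one, Module.End.one_apply]
    exact hv
  | h i x ih =>
    rw [inX_mul] at hp
    rw [map_mul, Module.End.mul_apply, rhoP_ag]
    exact op_VT R θ (inX_ag.1 hp.1) (ih hp.2)

theorem rh_VT (hM : SLa M) (hg : GOk M g) {T : Set B} {x : Art M} (hx : x ∈ ap M T) {v : Ps M →₀ KK}
    (hv : v ∈ VT M KK T) : rh hM hg x v ∈ VT M KK T := by
  have key : ∀ v ∈ VT M KK T, rh hM hg x v ∈ VT M KK T := by
    refine ap_induction (P := fun x => ∀ v ∈ VT M KK T, rh hM hg x v ∈ VT M KK T) ?_ ?_ ?_ hx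
    · intro v hv
      rw [rh_one, Module.End.one_apply]
      exact hv
    · intro x _ k hk ih v hv
      rw [rh_mul_apply, rh_gen]
      exact ih _ (op_VT KK tt hk hv)
    · intro x _ k hk ih w hw
      rw [rh_mul_apply]
      refine ih _ ?_
      obtain ⟨v, hv⟩ : ∃ v, v = rh hM hg (gen M k)⁻¹ w := ⟨_, rfl⟩
      have h1 : op M KK g tt k v = w := by
        rw [hv, ← rh_gen hM hg, rh_inv']
      obtain ⟨a, ha⟩ := op_quad KK hM hg tt k v
      rw [h1] at ha
      have hh := hf_add KK
      have h2 : hf KK • v = op M KK g tt k w - hf KK • w - Finsupp.single (sp M k) a := by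
        rw [ha]
        abel
      have h3 : hf KK • v ∈ VT M KK T := by
        rw [h2]
        exact Submodule.sub_mem _ (Submodule.sub_mem _ (op_VT KK tt hk hw)
          (Submodule.smul_mem _ _ hw)) (VT_sp KK hk a)
      have h4 : v = hf KK • v + hf KK • v := by
        rw [← add_smul, hh, one_smul]
      rw [← hv, h4]
      exact Submodule.add_mem _ h3 h3
  exact key v hv

/-- a linear functional or map which is invariant under the generators in `T` is invariant under `ap M T` -/
theorem rh_inv_map (hM : SLa M) (hg : GOk M g) {T : Set B} {E : Type} [AddCommGroup E] [Module KK E]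
    (φ : (Ps M →₀ KK) →ₗ[KK] E) (h : ∀ k ∈ T, ∀ v, φ (op M KK g tt k v) = φ v) {x : Art M} (hx : x ∈ ap M T)
    (v : Ps M →₀ KK) : φ (rh hM hg x v) = φ v := by
  have key : ∀ v, φ (rh hM hg x v) = φ v := by
    refine ap_induction (P := fun x => ∀ v, φ (rh hM hg x v) = φ v) ?_ ?_ ?_ hx
    · intro v
      rw [rh_one, Module.End.one_apply]
    · intro x _ k hk ih v
      rw [rh_mul_apply, rh_gen, ih, h k hk]
    · intro x _ k hk ih v
      rw [rh_mul_apply, ih, ← h k hk, ← rh_gen hM hg, rh_inv']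
  exact key v

end Pool.Agent.H19.LK
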