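import Pool.Agent.H19.LK.Def

/-!
# [H19 LK RTA] Roots are positive or negative

`posneg`. `φ : (B →₀ ℤ) → (B →₀ ℝ)` the cast (`Finsupp.mapRange`). For a simply laced `M`: `2 * gform M i (φ v) = pa M i v` (on `single j n`:
`c1_gform_single`; `M i i = 1`: `- cos π = 1`; label `3`: `- cos (π/3) = - 1/2`; label `2`: `0`), so `grefl M i (φ v) = φ (rf M i v)` (`c1_grefl_apply`).
With `cs = M.toCoxeterSystem`, `rho cs (cs.wordProd l) (single i 1) = φ (l.foldr (rf M) (single i 1))` (`rho_simple`). Let `w = cs.wordProd l`. If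
`ℓ w < ℓ (w s_i)`: `pos_root` gives `0 ≤ φ v`. Otherwise (lengths differ by one) `ℓ (w s_i) < ℓ (w s_i s_i)`, `pos_root` for `w s_i`, and
`rho w e_i = - rho (w s_i) e_i`.

`pr_symm`, `pr_rf`: `pr` is bilinear (`pa_add`), `pr (single i m) v = m * pa i v`, `pr u (single j n) = ∑ u_i n cm i j = n * pa j u` (`cm_symm`), so
symmetric; `pr (rf k u) (rf k v) = pr u v - pa k v * pa k u - pa k u * pa k v + 2 * pa k u * pa k v`. `norm_rt`: `pr (single i 1) (single i 1) = 2`, induction on
the list.

`rf_pos`: `rf M k v` is a root. If it is `≥ 0` done; if it is `≤ 0`: for `j ≠ k`, `v j = rf M k v j ≤ 0` (`rf_apply_ne`), so `v j = 0` and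
`v = single k (v k)`; the norm is `2 (v k)^2 = 2`, `v k ≥ 0`, so `v k = 1`.

`exists_desc`: `2 = ∑ v_k pa k v` and `v_k ≥ 0`.
-/

set_option autoImplicit false

namespace Pool.Agent.H19.LK

open CoxeterSystem Pool.H8.CDW Pool.Agent.H52.PAG Pool.Agent.H75.INF Pool.Agent.H2.SPH

variable {B : Type} {M : CoxeterMatrix B}

/-- the cast -/
private noncomputable def ph : (B →₀ ℤ) →+ (B →₀ ℝ) := Finsupp.mapRange.addMonoidHom (Int.castAddHom ℝ)

private theorem ph_single (j : B) (n : ℤ) : ph (Finsupp.single j n) = Finsupp.single j (n : ℝ) := by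
  unfold ph
  rw [Finsupp.mapRange.addMonoidHom_apply, Finsupp.mapRange_single]
  rfl

private theorem ph_apply (v : B →₀ ℤ) (k : B) : ph v k = ((v k : ℤ) : ℝ) := rfl

private theorem gform_ph (hM : SLa M) (i : B) (v : B →₀ ℤ) : 2 * gform M i (ph v) = ((pa M i v : ℤ) : ℝ) := by
  induction v using Finsupp.induction_linear with
  | zero => rw [map_zero, map_zero, pa_zero, mul_zero, Int.cast_zero]
  | add u v hu hv => rw [map_add, map_add, pa_add, Int.cast_add, ← hu, ← hv, mul_add]
  | single j n =>
    have h1 : ph (Finsupp.single j n) = (n : ℝ) • Finsupp.single j (1 : ℝ) := by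
      rw [ph_single, Finsupp.smul_single, smul_eq_mul, mul_one]
    rw [h1, map_smul, c1_gform_single, pa_single, smul_eq_mul]
    by_cases hij : i = j
    · subst hij
      rw [M.diagonal, cm_self, if_neg one_ne_zero]
      push_cast
      rw [div_one, Real.cos_pi]
      ring
    · rcases hM i j hij with h | h
      · rw [cm_two h, h, if_neg (by norm_num)]
        push_cast
        rw [Real.cos_pi_div_two]
        ring
      · rw [cm_three h, h, if_neg (by norm_num)]
        push_cast
        rw [Real.cos_pi_div_three]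
        ring

private theorem grefl_ph (hM : SLa M) (i : B) (v : B →₀ ℤ) : grefl M i (ph v) = ph (rf M i v) := by
  rw [c1_grefl_apply, gform_ph hM]
  have h1 : rf M i v = v - Finsupp.single i (pa M i v) := rfl
  rw [h1, map_sub, ph_single, Finsupp.smul_single, smul_eq_mul, mul_one]

private theorem rho_ph (hM : SLa M) (l : List B) (i : B) :
    Pool.Agent.H75.INF.rho M.toCoxeterSystem (M.toCoxeterSystem.wordProd l) (Finsupp.single i 1) =
      ph (l.foldr (rf M) (Finsupp.single i 1)) := by
  induction l with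
  | nil =>
    rw [wordProd_nil, map_one, Module.End.one_apply]
    have h1 : (([] : List B).foldr (rf M) (Finsupp.single i 1)) = Finsupp.single i 1 := rfl
    rw [h1, ph_single, Int.cast_one]
  | cons k l ih =>
    rw [wordProd_cons, map_mul, Module.End.mul_apply, ih, Pool.Agent.H75.INF.rho_simple, grefl_ph hM]
    rfl

private theorem pr_zero_left (v : B →₀ ℤ) : pr M 0 v = 0 := Finsupp.sum_zero_index

private theorem pr_zero_right (v : B →₀ ℤ) : pr M v 0 = 0 := by
  unfold pr
  simp only [pa_zero, mul_zero]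
  exact Finset.sum_const_zero

private theorem pr_add_left (u u' v : B →₀ ℤ) : pr M (u + u') v = pr M u v + pr M u' v := by
  classical
  unfold pr
  rw [Finsupp.sum_add_index' (fun _ => zero_mul _) (fun _ _ _ => add_mul _ _ _)]

private theorem pr_add_right (u v v' : B →₀ ℤ) : pr M u (v + v') = pr M u v + pr M u v' := by
  unfold pr
  simp only [pa_add, mul_add]
  exact Finsupp.sum_add

private theorem pr_single_left (i : B) (m : ℤ) (v : B →₀ ℤ) : pr M (Finsupp.single i m) v = m * pa M i v := by
  unfold pr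
  rw [Finsupp.sum_single_index (zero_mul _)]

private theorem pr_single_right (i : B) (m : ℤ) (v : B →₀ ℤ) : pr M v (Finsupp.single i m) = m * pa M i v := by
  induction v using Finsupp.induction_linear with
  | zero => rw [pr_zero_left, pa_zero, mul_zero]
  | add u v hu hv => rw [pr_add_left, hu, hv, pa_add, mul_add]
  | single j n =>
    rw [pr_single_left, pa_single, pa_single, cm_symm]
    ring

private theorem pr_sub_left (u u' v : B →₀ ℤ) : pr M (u - u') v = pr M u v - pr M u' v := by
  have h := pr_add_left (M := M) (u - u') u' v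
  rw [sub_add_cancel] at h
  omega

private theorem pr_sub_right (u v v' : B →₀ ℤ) : pr M u (v - v') = pr M u v - pr M u v' := by
  have h := pr_add_right (M := M) u (v - v') v'
  rw [sub_add_cancel] at h
  omega

theorem posneg (hM : SLa M) {v : B →₀ ℤ} (h : Rt M v) : 0 ≤ v ∨ v ≤ 0 := by
  obtain ⟨l, i, rfl⟩ := h
  have key := rho_ph hM l i
  obtain ⟨w, hw⟩ : ∃ w, w = M.toCoxeterSystem.wordProd l := ⟨_, rfl⟩
  rw [← hw] at key
  have hk : ∀ k, Pool.Agent.H75.INF.rho M.toCoxeterSystem w (Finsupp.single i 1) k =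
      (((l.foldr (rf M) (Finsupp.single i 1)) k : ℤ) : ℝ) := by
    intro k
    rw [key, ph_apply]
  rcases lt_or_ge (M.toCoxeterSystem.length w) (M.toCoxeterSystem.length (w * M.toCoxeterSystem.simple i)) with
    h | h
  · left
    intro k
    have h1 := pos_root M.toCoxeterSystem w i h k
    rw [hk] at h1
    exact_mod_cast h1
  · right
    intro k
    have h0 : M.toCoxeterSystem.length (w * M.toCoxeterSystem.simple i) <
        M.toCoxeterSystem.length (w * M.toCoxeterSystem.simple i * M.toCoxeterSystem.simple i) := by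
      rw [simple_mul_simple_cancel_right]
      exact lt_of_le_of_ne h (M.toCoxeterSystem.length_mul_simple_ne w i)
    have h1 := pos_root M.toCoxeterSystem (w * M.toCoxeterSystem.simple i) i h0 k
    rw [map_mul, Module.End.mul_apply, Pool.Agent.H75.INF.rho_simple, c1_grefl_apply, c1_self] at h1
    have h2 : Finsupp.single i (1 : ℝ) - ((2 : ℝ) * 1) • Finsupp.single i (1 : ℝ) =
        -Finsupp.single i (1 : ℝ) := by module
    rw [h2, map_neg, Finsupp.neg_apply, hk] at h1
    have h3 : (((l.foldr (rf M) (Finsupp.single i 1)) k : ℤ) : ℝ) ≤ 0 := by linarith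
    exact_mod_cast h3

theorem pr_symm (u v : B →₀ ℤ) : pr M u v = pr M v u := by
  induction u using Finsupp.induction_linear with
  | zero => rw [pr_zero_left, pr_zero_right]
  | add u u' hu hu' => rw [pr_add_left, hu, hu', pr_add_right]
  | single j n => rw [pr_single_left, pr_single_right]

theorem pr_rf (k : B) (u v : B →₀ ℤ) : pr M (rf M k u) (rf M k v) = pr M u v := by
  have e : ∀ w : B →₀ ℤ, rf M k w = w - Finsupp.single k (pa M k w) := fun _ => rfl
  rw [e, e, pr_sub_left, pr_sub_right, pr_sub_right, pr_single_right, pr_single_left, pr_single_left, pa_single,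
    cm_self]
  ring

theorem norm_rt {v : B →₀ ℤ} (h : Rt M v) : pr M v v = 2 := by
  obtain ⟨l, i, rfl⟩ := h
  induction l with
  | nil =>
    have h1 : (([] : List B).foldr (rf M) (Finsupp.single i 1)) = Finsupp.single i 1 := rfl
    rw [h1, pr_single_left, pa_single, cm_self]
    norm_num
  | cons k l ih =>
    have h1 : ((k :: l).foldr (rf M) (Finsupp.single i 1)) = rf M k (l.foldr (rf M) (Finsupp.single i 1)) := rfl
    rw [h1, pr_rf, ih]

theorem rf_pos (hM : SLa M) {v : B →₀ ℤ} (h : Rt M v) (h0 : 0 ≤ v) {k : B} (hk : v ≠ Finsupp.single k 1) :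
    0 ≤ rf M k v := by
  rcases posneg hM (h.rf k) with h1 | h1
  · exact h1
  · exfalso
    apply hk
    have h2 : v = Finsupp.single k (v k) := by
      ext j
      by_cases hj : j = k
      · subst hj
        rw [Finsupp.single_eq_same]
      · rw [Finsupp.single_eq_of_ne hj]
        have h3 := h1 j
        rw [rf_apply_ne hj] at h3
        exact le_antisymm h3 (h0 j)
    have h3 := norm_rt h
    rw [h2, pr_single_left, pa_single, cm_self] at h3
    have h4 : v k * v k = 1 := by linarith
    have h5 : 0 ≤ v k := h0 k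
    have h6 : v k = 1 := by nlinarith
    rw [h2, h6]

theorem exists_desc {v : B →₀ ℤ} (h : Rt M v) (h0 : 0 ≤ v) : ∃ k, 0 < v k ∧ 0 < pa M k v := by
  by_contra hcon
  push Not at hcon
  have h1 := norm_rt h
  have h2 : pr M v v ≤ 0 := by
    unfold pr
    refine Finset.sum_nonpos fun k hk => ?_
    have h3 : 0 ≤ v k := h0 k
    have h4 : v k ≠ 0 := Finsupp.mem_support_iff.1 hk
    have h5 : 0 < v k := lt_of_le_of_ne h3 (Ne.symm h4)
    exact mul_nonpos_of_nonneg_of_nonpos h3 (hcon k h5)
  omega

theorem ne_zero_rt {v : B →₀ ℤ} (h : Rt M v) : v ≠ 0 := by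
  rintro rfl
  have h1 := norm_rt h
  rw [pr_zero_left] at h1
  omega

end Pool.Agent.H19.LK
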