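import Pool.Agent.H19.LK.KCol
import Pool.Agent.H19.LK.Fr

/-!
# [H19 LK SLF] The functional lemma

`sf R c v`: the sum of the coefficients of `v` at the `β` with `β c > 0`. `sf_op`: for `k ≠ c`: `sf (op k v) = sf v` (on `single β 1`: `(rp k β) c = β c` (`rp_apply_ne`), the sum of the coefficients of `tv` is `1` for `β ≠ sp k`, `(sp k) c = 0`; `β = sp k`: both `0`).

Let `X' = X \ {c}`, `D` from `exists_D` for `X'` (`fin_mono`). `F p : Ps M → ℚ[X]`, `F p β = sf (rhoP ℚ[X] X p (single β 1))`. For `p`, `r` with `InX X`: write `p ~ r` if `F p β = F r β` for all `β` with `supp β ⊆ X`.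
(1) `p ~ r` iff `sf KK c (rh (inc p) v) = sf KK c (rh (inc r) v)` for all `v ∈ VT M KK X` (`rhoP_toK`, `rh_inc`, `toK_single`; `sf` commutes with `toK`; injectivity of `ℚ[X] → KK`).
(2) if `p ~ r`, `p = p' * ag i`, `r = r' * ag i`, `i ∈ X` then `p' ~ r'` (by (1): every `v ∈ VT X` is `rh (gen i) v'` with `v' = rh (gen i)⁻¹ v ∈ VT X`, `rh_VT`).
(3) `D ^ n * p ~ p` (`sf_op` and `InX X' D`: `sf (rhoP D v) = sf v`; `rhoP` of the product).
(4) for `i ∈ X`, `n ≥ 1`: `∃ p', D ^ n * p = p' * ag i` iff `sf ℚ c (P p (e (sp i))) = 0`, which is the value at `X = 0` of `F p (sp i)` (`rhoP_at0`). By `kcol`, `kcol'` the left side is `P (D ^ n * p) (e (sp i)) = 0`. Let `u = P p (e (sp i)) ≥ 0` (`P_nonneg`), `u ∈ VT X`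
(`rhoP_VT`). If `sf u = 0` then `u ∈ VT X'` (all `u β` with `β c > 0` vanish, the others have `β c = 0`), so `P D u = 0` (`P_D`), `P (D ^ n) u = 0`. If `P (D ^ n) u = 0` then `sf u = sf (P (D ^ n) u) = 0`. So (4) depends only on the class of `p` under `~`.
(5) Claim: for all `h` (induction on `ln h`, all `p ~ r`): if `D ^ n * p = a * h` for some `n`, `a` then `D ^ m * r = b * h` for some `m`, `b`. `h = 1`: clear. `h = h' * ag i`: multiply by `D` so that `n ≥ 1`; `D ^ n * p = (a * h') * ag i`; by (4) `D ^ n * r = r' * ag i`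
with `InX X r'` and by (2), (3) `a * h' ~ r'`; by induction (`D ^ 0 * (a * h') = a * h'`) `D ^ m * r' = b * h'`, so `D ^ (m + n) * r = b * h`. (All letters of `h` are in `X`.)
(6) `p ~ r`: apply (5) to `r ~ p`, `h = r`: `D ^ n * p = a * r`. Then `a ~ 1` (by (1): `sf (rh (inc a) (rh (inc r) v)) = sf (rh (inc p) v) = sf (rh (inc r) v)` and `rh (inc r)` maps `VT X` onto `VT X`). Apply (5) to `a ~ 1`, `h = a`: `D ^ m * 1 = b * a`, so `InX X' a`
(`inX_mul`). So `inc r * (inc p)⁻¹ = (inc a)⁻¹ * inc D ^ n ∈ ap M X'` (`inc_mem`).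
`sl_func`: `frac_r`: `x = inc u * (inc v)⁻¹`; the hypothesis for `rh (inc v) w` gives `u ~ v` (1); (6) with `p = v`, `r = u`.
-/

set_option autoImplicit false

namespace Pool.Agent.H19.LK

open Pool.H8.CDW Pool.Agent.H52.PAG Pool.Agent.H75.INF Pool.Agent.H2.SPH

variable {B : Type} {M : CoxeterMatrix B} {g : B → Ps M → ℤ}

open Classical in
/-- the sum of the coefficients at the roots with `β c > 0` -/
noncomputable def sf (M : CoxeterMatrix B) (R : Type) [CommRing R] [Algebra ℚ R] (c : B) : (Ps M →₀ R) →ₗ[R] R :=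
  Finsupp.linearCombination R fun β : Ps M => if 0 < β.1 c then (1 : R) else 0

theorem sf_single (R : Type) [CommRing R] [Algebra ℚ R] (c : B) (β : Ps M) (a : R) :
    sf M R c (Finsupp.single β a) = if 0 < β.1 c then a else 0 := by
  unfold sf
  rw [Finsupp.linearCombination_single]
  split_ifs with h
  · rw [smul_eq_mul, mul_one]
  · rw [smul_zero]

private theorem sf_tv (hM : SLa M) (R : Type) [CommRing R] [Algebra ℚ R] {c k : B} (hk : k ≠ c) (β : Ps M) :
    sf M R c (tv M R k β) = if 0 < β.1 c then 1 else 0 := by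
  classical
  unfold tv
  by_cases h : β = sp M k
  · rw [if_pos h, map_zero, h, sp_val, Finsupp.single_eq_of_ne (Ne.symm hk), if_neg (lt_irrefl _)]
  · rw [if_neg h]
    have h1 : (rp M k β).1 c = β.1 c := rp_apply_ne hM h (Ne.symm hk)
    by_cases hb : 0 < β.1 c
    · rw [if_pos hb]
      split_ifs
      · rw [sf_single, h1, if_pos hb]
      · rw [sf_single, if_pos hb]
      · rw [map_add, sf_single, sf_single, h1, if_pos hb, hf_add]
    · rw [if_neg hb]
      split_ifs
      · rw [sf_single, h1, if_neg hb]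
      · rw [sf_single, if_neg hb]
      · rw [map_add, sf_single, sf_single, h1, if_neg hb, add_zero]

theorem sf_op (hM : SLa M) (R : Type) [CommRing R] [Algebra ℚ R] (θ : R) {c k : B} (hk : k ≠ c)
    (v : Ps M →₀ R) : sf M R c (op M R g θ k v) = sf M R c v := by
  have h0 : sf M R c (Finsupp.single (sp M k) 1) = 0 := by
    rw [sf_single, sp_val, Finsupp.single_eq_of_ne (Ne.symm hk), if_neg (lt_irrefl _)]
  rw [op_apply, map_add, map_smul, h0, smul_zero, add_zero]
  induction v using Finsupp.induction_linear with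
  | zero => rw [map_zero]
  | add u v hu hv => rw [map_add, map_add, map_add, hu, hv]
  | single β a =>
    rw [tau_single, map_smul, sf_tv hM R hk, sf_single]
    split_ifs
    · rw [smul_eq_mul, mul_one]
    · rw [smul_zero]

private theorem sf_rhoP (hM : SLa M) (hg : GOk M g) (R : Type) [CommRing R] [Algebra ℚ R] (θ : R) {X : Set B} {c : B}
    {p : AM M} (hp : InX (X \ {c}) p) (v : Ps M →₀ R) : sf M R c (rhoP hM hg R θ p v) = sf M R c v := by
  induction p using am_ind with
  | h1 => rw [map_one, Module.End.one_apply]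
  | h i p ih =>
    rw [inX_mul, inX_ag] at hp
    rw [map_mul, Module.End.mul_apply, rhoP_ag, sf_op hM R θ (fun h => hp.1.2 h), ih hp.2]

private theorem sf_toK (c : B) (w : Ps M →₀ Polynomial ℚ) :
    sf M KK c (toK w) = algebraMap (Polynomial ℚ) KK (sf M (Polynomial ℚ) c w) := by
  have hadd : ∀ u v : Ps M →₀ Polynomial ℚ, toK (u + v) = toK u + toK v := fun u v => by
    unfold toK
    exact Finsupp.mapRange_add (fun x y => map_add _ x y) u v
  induction w using Finsupp.induction_linear with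
  | zero =>
    have h0 : toK (0 : Ps M →₀ Polynomial ℚ) = 0 := Finsupp.mapRange_zero
    rw [h0, map_zero, map_zero, map_zero]
  | add u v hu hv => rw [hadd, map_add, hu, hv, map_add, map_add]
  | single β a =>
    rw [toK_single, sf_single, sf_single]
    split_ifs
    · rfl
    · rw [map_zero]

private theorem sf_at0 (c : B) (w : Ps M →₀ Polynomial ℚ) :
    sf M ℚ c (at0 w) = (sf M (Polynomial ℚ) c w).coeff 0 := by
  have hadd : ∀ u v : Ps M →₀ Polynomial ℚ, at0 (u + v) = at0 u + at0 v := fun u v => by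
    unfold at0
    exact Finsupp.mapRange_add (fun x y => Polynomial.coeff_add x y 0) u v
  induction w using Finsupp.induction_linear with
  | zero =>
    have h0 : at0 (0 : Ps M →₀ Polynomial ℚ) = 0 := Finsupp.mapRange_zero
    rw [h0, map_zero, map_zero, Polynomial.coeff_zero]
  | add u v hu hv => rw [hadd, map_add, hu, hv, map_add, Polynomial.coeff_add]
  | single β a =>
    rw [at0_single, sf_single, sf_single]
    split_ifs
    · rfl
    · rw [Polynomial.coeff_zero]

/-- the equivalence relation -/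
private def Eq1 (hM : SLa M) (hg : GOk M g) (X : Set B) (c : B) (p r : AM M) : Prop :=
  ∀ v ∈ VT M KK X, sf M KK c (rhoP hM hg KK tt p v) = sf M KK c (rhoP hM hg KK tt r v)

private theorem eq1_symm {hM : SLa M} {hg : GOk M g} {X : Set B} {c : B} {p r : AM M} (h : Eq1 hM hg X c p r) :
    Eq1 hM hg X c r p := fun v hv => (h v hv).symm

private theorem eq1_coeff {hM : SLa M} {hg : GOk M g} {X : Set B} {c : B} {p r : AM M} (h : Eq1 hM hg X c p r)
    {i : B} (hi : i ∈ X) : sf M ℚ c (rhoP hM hg ℚ 0 p (Finsupp.single (sp M i) 1)) =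
      sf M ℚ c (rhoP hM hg ℚ 0 r (Finsupp.single (sp M i) 1)) := by
  have h1 : toK (Finsupp.single (sp M i) (1 : Polynomial ℚ)) = Finsupp.single (sp M i) (1 : KK) := by
    rw [toK_single, map_one]
  have h2 : at0 (Finsupp.single (sp M i) (1 : Polynomial ℚ)) = Finsupp.single (sp M i) (1 : ℚ) := by
    rw [at0_single, Polynomial.coeff_one_zero]
  have h3 : Finsupp.single (sp M i) (1 : KK) ∈ VT M KK X := by
    unfold VT
    refine Finsupp.single_mem_supported KK 1 ?_
    intro j hj
    have h4 : (sp M i).1 j ≠ 0 := Finsupp.mem_support_iff.1 hj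
    rw [sp_val] at h4
    have h5 : j = i := by
      by_contra hne
      exact h4 (Finsupp.single_eq_of_ne hne)
    rw [h5]
    exact hi
  have h4 := h _ h3
  rw [← h1, rhoP_toK, rhoP_toK, sf_toK, sf_toK] at h4
  have h5 := IsFractionRing.injective (Polynomial ℚ) KK h4
  rw [← h2, rhoP_at0, rhoP_at0, sf_at0, sf_at0, h5]

private theorem eq1_cancel {hM : SLa M} {hg : GOk M g} {X : Set B} {c : B} {p r : AM M} {i : B} (hi : i ∈ X)
    (h : Eq1 hM hg X c (p * ag M i) (r * ag M i)) : Eq1 hM hg X c p r := by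
  intro v hv
  have h1 : rh hM hg (gen M i)⁻¹ v ∈ VT M KK X := rh_VT hM hg (inv_mem (gen_mem_ap hi)) hv
  have h2 := h _ h1
  have h3 : op M KK g tt i (rh hM hg (gen M i)⁻¹ v) = v := by
    rw [← rh_gen hM hg, rh_inv']
  rwa [map_mul, map_mul, Module.End.mul_apply, Module.End.mul_apply, rhoP_ag, h3] at h2

private theorem eq1_D {hM : SLa M} {hg : GOk M g} {X : Set B} {c : B} {D : AM M} (hD : InX (X \ {c}) D) (n : ℕ)
    (p : AM M) (v : Ps M →₀ KK) :
    sf M KK c (rhoP hM hg KK tt (D ^ n * p) v) = sf M KK c (rhoP hM hg KK tt p v) := by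
  induction n with
  | zero => rw [pow_zero, one_mul]
  | succ n ih =>
    rw [pow_succ', mul_assoc, map_mul, Module.End.mul_apply, sf_rhoP hM hg KK tt hD, ih]

private theorem inX_pow {X : Set B} {D : AM M} (h : InX X D) (n : ℕ) : InX X (D ^ n) := by
  induction n with
  | zero =>
    rw [pow_zero]
    exact inX_one X
  | succ n ih =>
    rw [pow_succ]
    exact inX_mul.2 ⟨ih, h⟩

/-- divisibility is read off from the value at `X = 0` -/
private theorem dvd_iff (hM : SLa M) (hg : GOk M g) {X : Set B} {c : B} {D : AM M} (hDX : InX (X \ {c}) D)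
    (hD : ∀ k ∈ X \ {c}, D * ag M k = ag M k * D) (hD' : ∀ k ∈ X \ {c}, ∃ z, D = z * ag M k) {p : AM M}
    (hp : InX X p) {i : B} (hi : i ∈ X) (n : ℕ) :
    (∃ p', D ^ (n + 1) * p = p' * ag M i) ↔ sf M ℚ c (rhoP hM hg ℚ 0 p (Finsupp.single (sp M i) 1)) = 0 := by
  obtain ⟨u, hu⟩ : ∃ u, u = rhoP hM hg ℚ 0 p (Finsupp.single (sp M i) 1) := ⟨_, rfl⟩
  have hPu : rhoP hM hg ℚ 0 (D ^ (n + 1) * p) (Finsupp.single (sp M i) 1) = rhoP hM hg ℚ 0 (D ^ (n + 1)) u := by
    rw [map_mul, Module.End.mul_apply, hu]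
  rw [← hu]
  constructor
  · rintro ⟨p', hp'⟩
    rw [hp', kcol'] at hPu
    rw [← sf_rhoP hM hg ℚ 0 (inX_pow hDX (n + 1)) u, ← hPu, map_zero]
  · intro h
    by_contra hne
    have h1 := kcol hM hg hne
    rw [hPu] at h1
    apply h1
    have hu0 : 0 ≤ u := by
      rw [hu]
      exact P_nonneg hM hg p (Finsupp.single_nonneg.2 zero_le_one)
    have huX : u ∈ VT M ℚ X := by
      rw [hu]
      refine rhoP_VT hM hg ℚ 0 hp ?_
      unfold VT
      refine Finsupp.single_mem_supported ℚ 1 ?_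
      intro j hj
      have h4 : (sp M i).1 j ≠ 0 := Finsupp.mem_support_iff.1 hj
      rw [sp_val] at h4
      have h5 : j = i := by
        by_contra hne
        exact h4 (Finsupp.single_eq_of_ne hne)
      rw [h5]
      exact hi
    have huX' : u ∈ VT M ℚ (X \ {c}) := by
      unfold VT at huX ⊢
      rw [Finsupp.mem_supported] at huX ⊢
      intro β hβ j hj
      refine ⟨huX hβ hj, fun hjc => ?_⟩
      rw [Set.mem_singleton_iff] at hjc
      have h2 : 0 < β.1 c := by
        have h3 : β.1 j ≠ 0 := Finsupp.mem_support_iff.1 hj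
        have h4 := β.2.2 c
        rw [hjc] at h3
        rw [Finsupp.coe_zero, Pi.zero_apply] at h4
        omega
      have h5 : sf M ℚ c u = ∑ β ∈ u.support, u β * (if 0 < β.1 c then (1 : ℚ) else 0) := by
        unfold sf
        rw [Finsupp.linearCombination_apply, Finsupp.sum]
        rfl
      rw [h5] at h
      have h6 := (Finset.sum_eq_zero_iff_of_nonneg (fun γ _ => mul_nonneg (hu0 γ) (by
        split_ifs
        · exact zero_le_one
        · exact le_refl _))).1 h β hβ
      rw [if_pos h2, mul_one] at h6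
      exact (Finsupp.mem_support_iff.1 hβ) h6
    rw [pow_succ, map_mul, Module.End.mul_apply, P_D hM hg hD hD' huX', map_zero]

private theorem step5 (hM : SLa M) (hg : GOk M g) {X : Set B} {c : B} {D : AM M} (hDX : InX (X \ {c}) D)
    (hD : ∀ k ∈ X \ {c}, D * ag M k = ag M k * D) (hD' : ∀ k ∈ X \ {c}, ∃ z, D = z * ag M k) (h : AM M) :
    ∀ (p r : AM M), InX X p → InX X r → Eq1 hM hg X c p r → ∀ (n : ℕ) (a : AM M), D ^ n * p = a * h →
      ∃ (m : ℕ) (b : AM M), D ^ m * r = b * h := by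
  have hDX' : InX X D := inX_mono Set.sdiff_subset hDX
  induction h using am_ind' with
  | h1 =>
    intro p r _ _ _ n a _
    exact ⟨0, r, by rw [pow_zero, one_mul, mul_one]⟩
  | h i h ih =>
    intro p r hp hr hE n a hn
    have h1 : D ^ (n + 1) * p = (D * a * h) * ag M i := by
      rw [pow_succ', mul_assoc, hn]
      simp only [mul_assoc]
    have h2 : InX X ((D * a * h) * ag M i) := by
      rw [← h1]
      exact inX_mul.2 ⟨inX_pow hDX' _, hp⟩
    obtain ⟨h3, h4⟩ := inX_mul.1 h2
    have hi : i ∈ X := inX_ag.1 h4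
    have h5 := (dvd_iff hM hg hDX hD hD' hp hi n).1 ⟨_, h1⟩
    rw [eq1_coeff hE hi] at h5
    obtain ⟨r', hr'⟩ := (dvd_iff hM hg hDX hD hD' hr hi n).2 h5
    have h6 : InX X (r' * ag M i) := by
      rw [← hr']
      exact inX_mul.2 ⟨inX_pow hDX' _, hr⟩
    have h7 : Eq1 hM hg X c (D * a * h) r' := by
      refine eq1_cancel hi ?_
      rw [← h1, ← hr']
      intro v hv
      rw [eq1_D hDX, eq1_D hDX]
      exact hE v hv
    obtain ⟨m, b, hb⟩ := ih (D * a * h) r' h3 (inX_mul.1 h6).1 h7 0 (D * a) (by rw [pow_zero, one_mul])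
    refine ⟨m + (n + 1), b, ?_⟩
    rw [pow_add, mul_assoc, hr', ← mul_assoc, hb, mul_assoc]

theorem sl_func (hM : SLa M) (hg : GOk M g) {X : Set B} (hf : Finite (resM M X).Group) {c : B} (hc : c ∈ X)
    {x : Art M} (hx : x ∈ ap M X)
    (h : ∀ v ∈ VT M KK X, sf M KK c (rh hM hg x v) = sf M KK c v) : x ∈ ap M (X \ {c}) := by
  obtain ⟨D, hDX, hD, hD'⟩ := exists_D (fin_mono hM Set.sdiff_subset hf : Finite (resM M (X \ {c})).Group)
  obtain ⟨u, v, hu, hv, rfl⟩ := frac_r hf hx
  have hE : Eq1 hM hg X c u v := by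
    intro w hw
    have h1 : rh hM hg (inc M v) w ∈ VT M KK X := rh_VT hM hg (inc_mem hv) hw
    have h2 := h _ h1
    rw [← rh_mul_apply, inv_mul_cancel_right, rh_inc, rh_inc] at h2
    exact h2
  obtain ⟨n, a, ha⟩ := step5 hM hg hDX hD hD' u u v hu hv hE 0 1 (by rw [pow_zero])
  have haX : InX X a := by
    have h1 : InX X (a * u) := by
      rw [← ha]
      exact inX_mul.2 ⟨inX_pow (inX_mono Set.sdiff_subset hDX) n, hv⟩
    exact (inX_mul.1 h1).1
  have hE1 : Eq1 hM hg X c a 1 := by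
    intro w hw
    have h1 : rh hM hg (inc M u)⁻¹ w ∈ VT M KK X := rh_VT hM hg (inv_mem (inc_mem hu)) hw
    have h2 : rhoP hM hg KK tt u (rh hM hg (inc M u)⁻¹ w) = w := by
      rw [← rh_inc, rh_inv']
    have h3 := hE _ h1
    rw [h2, ← eq1_D hDX n v, ha, map_mul, Module.End.mul_apply, h2] at h3
    rw [map_one, Module.End.one_apply]
    exact h3.symm
  obtain ⟨m, b, hb⟩ := step5 hM hg hDX hD hD' a a 1 haX (inX_one X) hE1 0 1 (by rw [pow_zero])
  have haX' : InX (X \ {c}) a := by
    have h1 : InX (X \ {c}) (b * a) := by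
      rw [← hb, mul_one]
      exact inX_pow hDX m
    exact (inX_mul.1 h1).2
  have h1 := congrArg (inc M) ha
  rw [map_mul, map_mul] at h1
  have h2 : inc M u * (inc M v)⁻¹ = (inc M a)⁻¹ * inc M (D ^ n) := by
    rw [mul_inv_eq_iff_eq_mul, mul_assoc, h1, inv_mul_cancel_left]
  rw [h2]
  exact mul_mem (inv_mem (inc_mem haX')) (inc_mem (inX_pow hDX n))

end Pool.Agent.H19.LK
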