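import Pool.Agent.H19.LK.KCol
import Pool.Agent.H19.LK.Fr

/-!
# [H19 LK SLV] The vector lemma

Let `X' = X \ {c}`, `D` from `exists_D` for `X'`, `P p = rhoP ℚ 0 p`, `ν0 = at0 ν ≠ 0`, `ν0 ∈ VT M ℚ X`.

(0) `P (ag k) ν0 = ν0` for `k ∈ X'` (`rhoP_at0`), so `P D ν0 = ν0`. `ν0 = u0 + u1`, `u0` the part with `β c = 0` (in `VT X'`), `u1` the part with `β c = 1` (`lev`: no other levels; `0 ≤ β c`). `tau k`, `k ∈ X'`, preserves both parts (`rp_apply_ne`), so
`P D u0 = u0`, and `P D u0 = 0` (`P_D`): `u0 = 0`. For `β` with `supp β ⊆ X`, `β c = 1`, `k ∈ X'`, `pa k β < 0`: the coefficient of `ν0 = tau k ν0` at `rp k β` is `ν0 β / 2` (contributions to `rp k β`: from `γ = β`: `1/2`; from `γ` with `rp k γ = rp k β` and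
`pa k γ > 0`: `γ = β`, no; from `γ = rp k β`: `pa k γ > 0`, so `tv k γ = single β 1`, no). By `level` (induction on the height) `ν0 β` is a positive multiple of `κ = ν0 (sp c)` for all `β` in `X` with `β c = 1` (for `β ≠ sp c` there is `k ≠ c`, `k ∈ supp β ⊆ X`,
with `pa k β > 0`; `γ = rp k β` has `pa k γ < 0`, `rp k γ = β`). So `κ ≠ 0` and `ν0 = κ u` with `u β > 0` for all `β` in `X` with `β c = 1`, `u β = 0` otherwise.
(1) For `InX X p`, `InX X r` write `p ~ r` if `rhoP ℚ[X] X p ν = rhoP ℚ[X] X r ν`; by `rhoP_toK`, `toK_inj`, `rh_inc` this is `rh (inc p) (toK ν) = rh (inc r) (toK ν)`. (2) `p ~ r`, `p = ag i * p'`, `r = ag i * r'` gives `p' ~ r'` (apply the inverse of `rh (gen i)`).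
(3) `p * D ^ n ~ p` (`hfix`, `InX X' D`).
(4) for `i ∈ X`, `n ≥ 1`: `ag i ∣ p * D ^ n` iff `(P p ν0) (sp i) = 0`, the value at `X = 0` of a coefficient of `rhoP ℚ[X] X p ν` (`rhoP_at0`). By `krow`, `krow'` the left side says: `(P p (P (D ^ n) (e β))) (sp i) = 0` for all `β` in `X`. Let `r γ = (P p (e γ)) (sp i) ≥ 0`. If it
holds then `(P p ν0) (sp i) = (P p (P (D ^ n) ν0)) (sp i) = 0` (`P D ν0 = ν0`). Conversely let `(P p ν0) (sp i) = κ ∑ u γ r γ = 0`: `r γ = 0` for all `γ` in `X` with `γ c = 1`; for `β` with `β c = 0`: `P D (e β) = 0` (`P_D`); for `β c = 1`: `P (D ^ n) (e β)` is in the span of the `e γ`,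
`γ` in `X`, `γ c = 1`. So `(P p (P (D ^ n) (e β))) (sp i) = 0` in both cases.
(5) Claim: for all `h` (induction on `ln h`, all `p ~ r`): if `p * D ^ n = h * a` then `r * D ^ m = h * b` for some `m`, `b`. `h = ag i * h'`: `n ≥ 1` without loss; by (4) `r * D ^ n = ag i * r'`; by (2), (3) `h' * a ~ r'`; by induction `r' * D ^ m = h' * b`.
(6) `p ~ r`: `p * D ^ n = r * a` ((5) for `r ~ p`, `h = r`), `a ~ 1` (apply the inverse of `rh (inc r)`), `1 * D ^ m = a * b` ((5) for `a ~ 1`, `h = a`), so `InX X' a`, and `(inc r)⁻¹ * inc p = inc a * (inc D ^ n)⁻¹ ∈ ap M X'`.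
`sl_vec`: `frac_l`: `x = (inc u)⁻¹ * inc v`, `rh (inc v) (toK ν) = rh (inc u) (toK ν)`: `v ~ u`, (6) with `p = v`, `r = u`.
-/

set_option autoImplicit false

namespace Pool.Agent.H19.LK

open Pool.H8.CDW Pool.Agent.H52.PAG Pool.Agent.H75.INF Pool.Agent.H2.SPH

variable {B : Type} {M : CoxeterMatrix B} {g : B → Ps M → ℤ}

/-- the part of level `m` -/
private noncomputable def pj (M : CoxeterMatrix B) (c : B) (m : ℤ) : (Ps M →₀ ℚ) →ₗ[ℚ] (Ps M →₀ ℚ) :=
  Finsupp.linearCombination ℚ fun β : Ps M => if β.1 c = m then Finsupp.single β (1 : ℚ) else 0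

private theorem pj_single (c : B) (m : ℤ) (β : Ps M) (a : ℚ) :
    pj M c m (Finsupp.single β a) = if β.1 c = m then Finsupp.single β a else 0 := by
  unfold pj
  rw [Finsupp.linearCombination_single]
  split_ifs
  · rw [Finsupp.smul_single, smul_eq_mul, mul_one]
  · rw [smul_zero]

private theorem pj_apply (c : B) (m : ℤ) (v : Ps M →₀ ℚ) (β : Ps M) :
    pj M c m v β = if β.1 c = m then v β else 0 := by
  classical
  induction v using Finsupp.induction_linear with
  | zero =>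
    rw [map_zero, Finsupp.zero_apply]
    split_ifs <;> rfl
  | add u v hu hv =>
    rw [map_add, Finsupp.add_apply, hu, hv, Finsupp.add_apply]
    split_ifs
    · rfl
    · rw [add_zero]
  | single γ a =>
    rw [pj_single]
    by_cases h : γ = β
    · rw [h]
      split_ifs
      · rfl
      · rfl
    · split_ifs
      · rfl
      · rw [Finsupp.single_eq_of_ne (Ne.symm h)]
      · rw [Finsupp.single_eq_of_ne (Ne.symm h), Finsupp.zero_apply]
      · rfl

private theorem pj_tv (hM : SLa M) {c k : B} (hk : k ≠ c) (m : ℤ) (β : Ps M) :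
    pj M c m (tv M ℚ k β) = if β.1 c = m then tv M ℚ k β else 0 := by
  classical
  unfold tv
  by_cases h : β = sp M k
  · rw [if_pos h, map_zero]
    split_ifs <;> rfl
  · rw [if_neg h]
    have h1 : (rp M k β).1 c = β.1 c := rp_apply_ne hM h (Ne.symm hk)
    by_cases hb : β.1 c = m
    · rw [if_pos hb]
      split_ifs
      · rw [pj_single, h1, if_pos hb]
      · rw [pj_single, if_pos hb]
      · rw [map_add, pj_single, pj_single, h1, if_pos hb, if_pos hb]
    · rw [if_neg hb]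
      split_ifs
      · rw [pj_single, h1, if_neg hb]
      · rw [pj_single, if_neg hb]
      · rw [map_add, pj_single, pj_single, h1, if_neg hb, if_neg hb, add_zero]

private theorem rhoP_ag0 (hM : SLa M) (hg : GOk M g) (k : B) (v : Ps M →₀ ℚ) :
    rhoP hM hg ℚ 0 (ag M k) v = tau M ℚ k v := by
  rw [rhoP_ag, op_apply, zero_mul, zero_smul, add_zero]

private theorem pj_tau (hM : SLa M) {c k : B} (hk : k ≠ c) (m : ℤ) (v : Ps M →₀ ℚ) :
    pj M c m (tau M ℚ k v) = tau M ℚ k (pj M c m v) := by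
  induction v using Finsupp.induction_linear with
  | zero => rw [map_zero, map_zero, map_zero]
  | add u v hu hv => rw [map_add, map_add, hu, hv, map_add, map_add]
  | single β a =>
    rw [tau_single, map_smul, pj_tv hM hk, pj_single]
    split_ifs
    · rw [tau_single]
    · rw [smul_zero, map_zero]

private theorem pj_rhoP (hM : SLa M) (hg : GOk M g) {X : Set B} {c : B} {p : AM M} (hp : InX (X \ {c}) p) (m : ℤ)
    (v : Ps M →₀ ℚ) : pj M c m (rhoP hM hg ℚ 0 p v) = rhoP hM hg ℚ 0 p (pj M c m v) := by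
  induction p using am_ind with
  | h1 => rw [map_one, Module.End.one_apply, Module.End.one_apply]
  | h i p ih =>
    rw [inX_mul, inX_ag] at hp
    rw [map_mul, Module.End.mul_apply, Module.End.mul_apply, rhoP_ag0, rhoP_ag0, pj_tau hM (fun h => hp.1.2 h),
      ih hp.2]

private theorem tau_coeff (hM : SLa M) {k : B} {β : Ps M} (hβ : pa M k β.1 < 0) (v : Ps M →₀ ℚ) :
    tau M ℚ k v (rp M k β) = v β / 2 := by
  classical
  have hne : β ≠ sp M k := by
    rintro rfl
    rw [simple_self] at hβ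
    omega
  have hr : pa M k (rp M k β).1 = - pa M k β.1 := pa_rp_self hM hne
  induction v using Finsupp.induction_linear with
  | zero => rw [map_zero, Finsupp.zero_apply, Finsupp.zero_apply, zero_div]
  | add u v hu hv => rw [map_add, Finsupp.add_apply, hu, hv, Finsupp.add_apply, add_div]
  | single γ a =>
    rw [tau_single, Finsupp.smul_apply, smul_eq_mul]
    have h1 : γ ≠ rp M k β ∨ 0 < pa M k γ.1 := by
      by_cases h : γ = rp M k β
      · right
        rw [h, hr]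
        omega
      · exact Or.inl h
    have h2 : rp M k γ = rp M k β ↔ γ = β :=
      ⟨fun h => by rw [← rp_rp hM k γ, h, rp_rp hM], fun h => by rw [h]⟩
    have h3 : hf ℚ = 1 / 2 := rfl
    unfold tv
    by_cases h : γ = sp M k
    · rw [if_pos h, Finsupp.zero_apply, mul_zero, Finsupp.single_eq_of_ne, zero_div]
      rintro rfl
      exact hne h
    rw [if_neg h]
    by_cases h4 : 0 < pa M k γ.1
    · rw [if_pos h4, Finsupp.single_eq_of_ne, mul_zero, Finsupp.single_eq_of_ne, zero_div]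
      · rintro rfl
        omega
      · intro h5
        have h6 := h2.1 h5.symm
        rw [h6] at h4
        omega
    · rw [if_neg h4]
      have h5 : γ ≠ rp M k β := h1.resolve_right h4
      by_cases h6 : pa M k γ.1 = 0
      · rw [if_pos h6, Finsupp.single_eq_of_ne (Ne.symm h5), mul_zero, Finsupp.single_eq_of_ne, zero_div]
        rintro rfl
        omega
      · rw [if_neg h6, Finsupp.add_apply, Finsupp.single_eq_of_ne (Ne.symm h5), zero_add]
        by_cases h7 : γ = β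
        · rw [h7, Finsupp.single_eq_same, Finsupp.single_eq_same, h3]
          ring
        · rw [Finsupp.single_eq_of_ne, mul_zero, Finsupp.single_eq_of_ne (Ne.symm h7), zero_div]
          intro h8
          exact h7 (h2.1 h8.symm)

private theorem level0 (hM : SLa M) {X : Set B} {c : B} {ν : Ps M →₀ ℚ}
    (hν : ∀ k ∈ X, k ≠ c → tau M ℚ k ν = ν) (β : Ps M) :
    (β.1.support : Set B) ⊆ X → β.1 c = 1 → ∃ q : ℚ, 0 < q ∧ ν β = q * ν (sp M c) := by
  induction β using ps_ind with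
  | h β ih =>
    intro hβ h1
    by_cases h2 : β = sp M c
    · exact ⟨1, one_pos, by rw [h2, one_mul]⟩
    obtain ⟨k, hkc, hk1, hk2⟩ := level hM h1 h2
    have hkX : k ∈ X := hβ (Finsupp.mem_support_iff.2 hk1.ne')
    have hne : β ≠ sp M k := by
      intro h3
      rw [h3, sp_val, Finsupp.single_eq_of_ne (Ne.symm hkc)] at h1
      exact absurd h1 (by norm_num)
    have h3 : pa M k (rp M k β).1 < 0 := by
      rw [pa_rp_self hM hne]
      omega
    have h4 : ht (rp M k β).1 < ht β.1 := by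
      rw [ht_rp hM hne]
      omega
    obtain ⟨q, hq, hq'⟩ := ih (rp M k β) h4 (supp_rp hkX hβ) (by rw [rp_apply_ne hM hne (Ne.symm hkc), h1])
    have h5 := tau_coeff hM h3 ν
    rw [rp_rp hM, hν k hkX hkc, hq'] at h5
    exact ⟨q / 2, by positivity, by rw [h5]; ring⟩

private theorem lin_sum (φ : (Ps M →₀ ℚ) →ₗ[ℚ] ℚ) (w : Ps M →₀ ℚ) :
    φ w = ∑ γ ∈ w.support, w γ * φ (Finsupp.single γ 1) := by
  conv_lhs => rw [← Finsupp.sum_single w]
  rw [map_finsuppSum, Finsupp.sum]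
  refine Finset.sum_congr rfl fun γ _ => ?_
  rw [← smul_eq_mul, ← map_smul, Finsupp.smul_single, smul_eq_mul, mul_one]

private theorem inX_pow {X : Set B} {D : AM M} (h : InX X D) (n : ℕ) : InX X (D ^ n) := by
  induction n with
  | zero =>
    rw [pow_zero]
    exact inX_one X
  | succ n ih =>
    rw [pow_succ]
    exact inX_mul.2 ⟨ih, h⟩

private theorem single_VT {X : Set B} {β : Ps M} (h : (β.1.support : Set B) ⊆ X) (a : ℚ) :
    Finsupp.single β a ∈ VT M ℚ X := by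
  unfold VT
  exact Finsupp.single_mem_supported ℚ a h

private theorem mem_VT {X : Set B} {v : Ps M →₀ ℚ} (h : v ∈ VT M ℚ X) {β : Ps M} (hβ : v β ≠ 0) :
    (β.1.support : Set B) ⊆ X := by
  unfold VT at h
  rw [Finsupp.mem_supported] at h
  exact h (Finsupp.mem_support_iff.2 hβ)

/-- the vector at `X = 0`: positive multiples of one number at the roots of level `1`, and `0` elsewhere -/
private theorem shape (hM : SLa M) (hg : GOk M g) {X : Set B} {c : B} {D : AM M} (hDX : InX (X \ {c}) D)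
    (hD : ∀ k ∈ X \ {c}, D * ag M k = ag M k * D) (hD' : ∀ k ∈ X \ {c}, ∃ z, D = z * ag M k)
    (lev : ∀ β : Ps M, (β.1.support : Set B) ⊆ X → β.1 c ≤ 1) {ν : Ps M →₀ ℚ} (hν : ν ∈ VT M ℚ X) (h0 : ν ≠ 0)
    (hfix : ∀ k ∈ X, k ≠ c → rhoP hM hg ℚ 0 (ag M k) ν = ν) :
    rhoP hM hg ℚ 0 D ν = ν ∧ (∀ β, ν β ≠ 0 → (β.1.support : Set B) ⊆ X ∧ β.1 c = 1) ∧
      ∀ β : Ps M, (β.1.support : Set B) ⊆ X → β.1 c = 1 → 0 < ν (sp M c) * ν β := by
  have hall : ∀ p : AM M, InX (X \ {c}) p → rhoP hM hg ℚ 0 p ν = ν := by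
    intro p
    induction p using am_ind with
    | h1 =>
      intro _
      rw [map_one, Module.End.one_apply]
    | h i p ih =>
      intro hp
      rw [inX_mul, inX_ag] at hp
      rw [map_mul, Module.End.mul_apply, ih hp.2, hfix i hp.1.1 (fun h => hp.1.2 h)]
  have h1 : pj M c 0 ν = 0 := by
    have h2 : pj M c 0 ν ∈ VT M ℚ (X \ {c}) := by
      unfold VT
      rw [Finsupp.mem_supported]
      intro β hβ j hj
      have h3 : pj M c 0 ν β ≠ 0 := Finsupp.mem_support_iff.1 hβ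
      rw [pj_apply] at h3
      by_cases h4 : β.1 c = 0
      · rw [if_pos h4] at h3
        refine ⟨mem_VT hν h3 hj, fun h5 => ?_⟩
        rw [Set.mem_singleton_iff] at h5
        rw [h5] at hj
        exact (Finsupp.mem_support_iff.1 hj) h4
      · rw [if_neg h4] at h3
        exact absurd rfl h3
    have h3 := P_D hM hg hD hD' h2
    rwa [← pj_rhoP hM hg hDX, hall D hDX] at h3
  have h2 : ∀ β, ν β ≠ 0 → (β.1.support : Set B) ⊆ X ∧ β.1 c = 1 := by
    intro β hβ
    have h3 := mem_VT hν hβ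
    refine ⟨h3, ?_⟩
    have h4 := lev β h3
    have h5 := β.2.2 c
    rw [Finsupp.coe_zero, Pi.zero_apply] at h5
    have h6 : β.1 c ≠ 0 := by
      intro h7
      have h8 := DFunLike.congr_fun h1 β
      rw [pj_apply, if_pos h7, Finsupp.zero_apply] at h8
      exact hβ h8
    omega
  have h3 : ∀ β : Ps M, (β.1.support : Set B) ⊆ X → β.1 c = 1 → ∃ q : ℚ, 0 < q ∧ ν β = q * ν (sp M c) := by
    refine fun β hβ => level0 hM ?_ β hβ
    intro k hk hkc
    rw [← rhoP_ag0 hM hg]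
    exact hfix k hk hkc
  have h4 : ν (sp M c) ≠ 0 := by
    intro h5
    apply h0
    ext β
    rw [Finsupp.zero_apply]
    by_contra h6
    obtain ⟨h7, h8⟩ := h2 β h6
    obtain ⟨q, -, hq⟩ := h3 β h7 h8
    rw [h5, mul_zero] at hq
    exact h6 hq
  refine ⟨hall D hDX, h2, fun β hβ h5 => ?_⟩
  obtain ⟨q, hq, hq'⟩ := h3 β hβ h5
  rw [hq']
  have h6 : 0 < ν (sp M c) * ν (sp M c) := mul_self_pos.2 h4
  have h7 : ν (sp M c) * (q * ν (sp M c)) = q * (ν (sp M c) * ν (sp M c)) := by ring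
  rw [h7]
  exact mul_pos hq h6

private theorem dvd_iff (hM : SLa M) (hg : GOk M g) {X : Set B} {c : B} {D : AM M} (hDX : InX (X \ {c}) D)
    (hD : ∀ k ∈ X \ {c}, D * ag M k = ag M k * D) (hD' : ∀ k ∈ X \ {c}, ∃ z, D = z * ag M k)
    (lev : ∀ β : Ps M, (β.1.support : Set B) ⊆ X → β.1 c ≤ 1) {ν : Ps M →₀ ℚ}
    (hDν : rhoP hM hg ℚ 0 D ν = ν) (hsup : ∀ β, ν β ≠ 0 → (β.1.support : Set B) ⊆ X ∧ β.1 c = 1)
    (hpos : ∀ β : Ps M, (β.1.support : Set B) ⊆ X → β.1 c = 1 → 0 < ν (sp M c) * ν β) {p : AM M} (hp : InX X p)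
    {i : B} (hi : i ∈ X) (n : ℕ) :
    ag M i ∣ p * D ^ (n + 1) ↔ rhoP hM hg ℚ 0 p ν (sp M i) = 0 := by
  have hDn : ∀ m : ℕ, rhoP hM hg ℚ 0 (D ^ m) ν = ν := by
    intro m
    induction m with
    | zero => rw [pow_zero, map_one, Module.End.one_apply]
    | succ m ih => rw [pow_succ, map_mul, Module.End.mul_apply, hDν, ih]
  have hDX' : InX X D := inX_mono Set.sdiff_subset hDX
  obtain ⟨φ, hφ⟩ : ∃ φ : (Ps M →₀ ℚ) →ₗ[ℚ] ℚ, ∀ v, φ v = rhoP hM hg ℚ 0 p v (sp M i) :=
    ⟨(Finsupp.lapply (sp M i)).comp (rhoP hM hg ℚ 0 p), fun _ => rfl⟩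
  have hφ0 : ∀ γ, 0 ≤ φ (Finsupp.single γ 1) := by
    intro γ
    rw [hφ]
    exact P_nonneg hM hg p (Finsupp.single_nonneg.2 zero_le_one) (sp M i)
  constructor
  · rintro ⟨p', hp'⟩
    have h1 := krow' hM hg p' i ν
    rw [← hp', map_mul, Module.End.mul_apply, hDn] at h1
    exact h1
  · intro h
    by_contra hne
    obtain ⟨β, hβX, hβ⟩ := krow hM hg (inX_mul.2 ⟨hp, inX_pow hDX' (n + 1)⟩) hi hne
    rw [map_mul, Module.End.mul_apply, ← hφ] at hβ
    have h0 : ∀ γ : Ps M, (γ.1.support : Set B) ⊆ X → γ.1 c = 1 → φ (Finsupp.single γ 1) = 0 := by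
      intro γ hγ hγ1
      rw [← hφ, lin_sum] at h
      have h1 : ∑ γ ∈ ν.support, ν (sp M c) * ν γ * φ (Finsupp.single γ 1) = 0 := by
        have h2 : ∑ γ ∈ ν.support, ν (sp M c) * ν γ * φ (Finsupp.single γ 1) =
            ν (sp M c) * ∑ γ ∈ ν.support, ν γ * φ (Finsupp.single γ 1) := by
          rw [Finset.mul_sum]
          exact Finset.sum_congr rfl fun γ _ => by ring
        rw [h2, h, mul_zero]
      have h3 := hpos γ hγ hγ1
      have h4 : γ ∈ ν.support := by
        rw [Finsupp.mem_support_iff]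
        intro h5
        rw [h5, mul_zero] at h3
        exact lt_irrefl _ h3
      have h8 : ∀ δ ∈ ν.support, 0 ≤ ν (sp M c) * ν δ * φ (Finsupp.single δ 1) := by
        intro δ hδ
        obtain ⟨h6, h7⟩ := hsup δ (Finsupp.mem_support_iff.1 hδ)
        exact mul_nonneg (hpos δ h6 h7).le (hφ0 δ)
      have h5 := (Finset.sum_eq_zero_iff_of_nonneg h8).1 h1 γ h4
      rcases mul_eq_zero.1 h5 with h6 | h6
      · rw [h6] at h3
        exact absurd h3 (lt_irrefl _)
      · exact h6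
    have hlev := lev β hβX
    have hnn := β.2.2 c
    rw [Finsupp.coe_zero, Pi.zero_apply] at hnn
    apply hβ
    rcases (by omega : β.1 c = 0 ∨ β.1 c = 1) with h1 | h1
    · have h2' : (β.1.support : Set B) ⊆ X \ {c} := by
        intro j hj
        refine ⟨hβX hj, fun h3 => ?_⟩
        rw [Set.mem_singleton_iff] at h3
        rw [h3] at hj
        exact (Finsupp.mem_support_iff.1 hj) h1
      have h2 : Finsupp.single β (1 : ℚ) ∈ VT M ℚ (X \ {c}) := single_VT h2' 1
      rw [pow_succ, map_mul, Module.End.mul_apply, P_D hM hg hD hD' h2, map_zero, map_zero]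
    · obtain ⟨w, hw⟩ : ∃ w, w = rhoP hM hg ℚ 0 (D ^ (n + 1)) (Finsupp.single β 1) := ⟨_, rfl⟩
      have hwX : w ∈ VT M ℚ X := by
        rw [hw]
        exact rhoP_VT hM hg ℚ 0 (inX_pow hDX' (n + 1)) (single_VT hβX 1)
      have hw1 : pj M c 1 w = w := by
        rw [hw, pj_rhoP hM hg (inX_pow hDX (n + 1)), pj_single, if_pos h1]
      rw [← hw, lin_sum]
      refine Finset.sum_eq_zero fun γ hγ => ?_
      have h2 : w γ ≠ 0 := Finsupp.mem_support_iff.1 hγ
      rw [h0 γ (mem_VT hwX h2), mul_zero]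
      by_contra h3
      rw [← hw1, pj_apply, if_neg h3] at h2
      exact h2 rfl

private theorem step5 (hM : SLa M) (hg : GOk M g) {X : Set B} {c : B} {D : AM M} (hDX : InX (X \ {c}) D)
    (hD : ∀ k ∈ X \ {c}, D * ag M k = ag M k * D) (hD' : ∀ k ∈ X \ {c}, ∃ z, D = z * ag M k)
    (lev : ∀ β : Ps M, (β.1.support : Set B) ⊆ X → β.1 c ≤ 1) {ν : Ps M →₀ Polynomial ℚ}
    (hDν' : ∀ n : ℕ, rhoP hM hg KK tt (D ^ n) (toK ν) = toK ν)
    (hDν : rhoP hM hg ℚ 0 D (at0 ν) = at0 ν) (hsup : ∀ β, at0 ν β ≠ 0 → (β.1.support : Set B) ⊆ X ∧ β.1 c = 1)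
    (hpos : ∀ β : Ps M, (β.1.support : Set B) ⊆ X → β.1 c = 1 → 0 < at0 ν (sp M c) * at0 ν β) (h : AM M) :
    ∀ (p r : AM M), InX X p → InX X r → rhoP hM hg KK tt p (toK ν) = rhoP hM hg KK tt r (toK ν) →
      ∀ (n : ℕ) (a : AM M), p * D ^ n = h * a → ∃ (m : ℕ) (b : AM M), r * D ^ m = h * b := by
  have hDX' : InX X D := inX_mono Set.sdiff_subset hDX
  induction h using am_ind with
  | h1 =>
    intro p r _ _ _ n a _
    exact ⟨0, r, by rw [pow_zero, one_mul, mul_one]⟩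
  | h i h ih =>
    intro p r hp hr hE n a hn
    have h1 : p * D ^ (n + 1) = ag M i * (h * a * D) := by
      rw [pow_succ, ← mul_assoc, hn]
      simp only [mul_assoc]
    have h2 : InX X (ag M i * (h * a * D)) := by
      rw [← h1]
      exact inX_mul.2 ⟨hp, inX_pow hDX' _⟩
    obtain ⟨h3, h4⟩ := inX_mul.1 h2
    have hi : i ∈ X := inX_ag.1 h3
    have h5 := (dvd_iff hM hg hDX hD hD' lev hDν hsup hpos hp hi n).1 ⟨_, h1⟩
    have hE0 : rhoP hM hg ℚ 0 p (at0 ν) = rhoP hM hg ℚ 0 r (at0 ν) := by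
      rw [rhoP_toK, rhoP_toK] at hE
      rw [rhoP_at0, rhoP_at0, toK_inj hE]
    rw [hE0] at h5
    obtain ⟨r', hr'⟩ := (dvd_iff hM hg hDX hD hD' lev hDν hsup hpos hr hi n).2 h5
    have h6 : InX X (ag M i * r') := by
      rw [← hr']
      exact inX_mul.2 ⟨hr, inX_pow hDX' _⟩
    have h7 : rhoP hM hg KK tt (h * a * D) (toK ν) = rhoP hM hg KK tt r' (toK ν) := by
      have h8 : rhoP hM hg KK tt (p * D ^ (n + 1)) (toK ν) = rhoP hM hg KK tt (r * D ^ (n + 1)) (toK ν) := by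
        rw [map_mul, map_mul, Module.End.mul_apply, Module.End.mul_apply, hDν', hE]
      rw [h1, hr', map_mul _ (ag M i), map_mul _ (ag M i), Module.End.mul_apply, Module.End.mul_apply, rhoP_ag,
        ← rh_gen hM hg] at h8
      have h9 := congrArg (rh hM hg (gen M i)⁻¹) h8
      rwa [rh_inv, rh_inv] at h9
    obtain ⟨m, b, hb⟩ := ih (h * a * D) r' h4 (inX_mul.1 h6).2 h7 0 (a * D) (by rw [pow_zero, mul_one, mul_assoc])
    refine ⟨n + 1 + m, b, ?_⟩
    rw [pow_add, ← mul_assoc, hr', mul_assoc, hb, mul_assoc]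

theorem sl_vec (hM : SLa M) (hg : GOk M g) {X : Set B} (hf : Finite (resM M X).Group) {c : B} (hc : c ∈ X)
    (lev : ∀ β : Ps M, (β.1.support : Set B) ⊆ X → β.1 c ≤ 1) {ν : Ps M →₀ Polynomial ℚ}
    (hν : ν ∈ VT M (Polynomial ℚ) X) (h0 : at0 ν ≠ 0)
    (hfix : ∀ k ∈ X, k ≠ c → rhoP hM hg (Polynomial ℚ) Polynomial.X (ag M k) ν = ν) {x : Art M} (hx : x ∈ ap M X)
    (h : rh hM hg x (toK ν) = toK ν) : x ∈ ap M (X \ {c}) := by
  obtain ⟨D, hDX, hD, hD'⟩ := exists_D (fin_mono hM Set.sdiff_subset hf : Finite (resM M (X \ {c})).Group)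
  have hν0 : at0 ν ∈ VT M ℚ X := by
    unfold VT at hν ⊢
    rw [Finsupp.mem_supported] at hν ⊢
    intro β hβ
    refine hν (Finsupp.mem_support_iff.2 fun h1 => ?_)
    apply Finsupp.mem_support_iff.1 hβ
    unfold at0
    rw [Finsupp.mapRange_apply, h1, Polynomial.coeff_zero]
  have hfix0 : ∀ k ∈ X, k ≠ c → rhoP hM hg ℚ 0 (ag M k) (at0 ν) = at0 ν := by
    intro k hk hkc
    rw [rhoP_at0, hfix k hk hkc]
  have hfixK : ∀ p : AM M, InX (X \ {c}) p → rhoP hM hg KK tt p (toK ν) = toK ν := by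
    intro p
    induction p using am_ind with
    | h1 =>
      intro _
      rw [map_one, Module.End.one_apply]
    | h i p ih =>
      intro hp
      rw [inX_mul, inX_ag] at hp
      rw [map_mul, Module.End.mul_apply, ih hp.2, rhoP_toK, hfix i hp.1.1 (fun h => hp.1.2 h)]
  obtain ⟨hDν, hsup, hpos⟩ := shape hM hg hDX hD hD' lev hν0 h0 hfix0
  have hDν' : ∀ n : ℕ, rhoP hM hg KK tt (D ^ n) (toK ν) = toK ν := fun n => hfixK _ (inX_pow hDX n)
  obtain ⟨u, v, hu, hv, rfl⟩ := frac_l hf hx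
  have hE : rhoP hM hg KK tt u (toK ν) = rhoP hM hg KK tt v (toK ν) := by
    have h1 := congrArg (rh hM hg (inc M u)) h
    rw [← rh_mul_apply, mul_inv_cancel_left, rh_inc, rh_inc] at h1
    exact h1.symm
  obtain ⟨n, a, ha⟩ := step5 hM hg hDX hD hD' lev hDν' hDν hsup hpos u u v hu hv hE 0 1 (by rw [pow_zero])
  have haX : InX X a := by
    have h1 : InX X (u * a) := by
      rw [← ha]
      exact inX_mul.2 ⟨hv, inX_pow (inX_mono Set.sdiff_subset hDX) n⟩
    exact (inX_mul.1 h1).2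
  have hE1 : rhoP hM hg KK tt a (toK ν) = rhoP hM hg KK tt 1 (toK ν) := by
    have h1 : rhoP hM hg KK tt (u * a) (toK ν) = rhoP hM hg KK tt u (toK ν) := by
      rw [← ha, map_mul, Module.End.mul_apply, hDν', hE]
    rw [map_mul, Module.End.mul_apply, ← rh_inc] at h1
    have h2 := congrArg (rh hM hg (inc M u)⁻¹) h1
    rw [rh_inv, rh_inv] at h2
    rw [h2, map_one, Module.End.one_apply]
  obtain ⟨m, b, hb⟩ := step5 hM hg hDX hD hD' lev hDν' hDν hsup hpos a a 1 haX (inX_one X) hE1 0 1 (by rw [pow_zero])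
  have haX' : InX (X \ {c}) a := by
    have h1 : InX (X \ {c}) (a * b) := by
      rw [← hb, one_mul]
      exact inX_pow hDX m
    exact (inX_mul.1 h1).1
  have h1 := congrArg (inc M) ha
  rw [map_mul, map_mul] at h1
  have h2 : (inc M u)⁻¹ * inc M v = inc M a * (inc M (D ^ n))⁻¹ := by
    rw [eq_mul_inv_iff_mul_eq, mul_assoc, h1, inv_mul_cancel_left]
  rw [h2]
  exact mul_mem (inc_mem haX') (inv_mem (inc_mem (inX_pow hDX n)))

end Pool.Agent.H19.LK
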