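import Pool.Agent.H19.LK.Def

/-!
# [H19 LK TWA] The lattice modules of the Hecke algebra

`ε : B → ℤ`, `b i u = ε i + pa M i u`, `s_i u = u - single i (b i u)`: `b j (s_i u) = b j u - b i u * cm j i`, `s_i s_i u = u`, `s_i s_j u = s_j s_i u` (`M i j = 2`), `s_i s_j s_i u = s_j s_i s_j u` (`M i j = 3`), `s_i u = u` iff
`b i u = 0`. `tw M ε k` on `single u 1` (`h = hf KK`, `h + h = 1`): `single (s_k u) 1` (`b > 0`), `single u 1` (`b = 0`), `h (single u 1 + single (s_k u) 1)` (`b < 0`).

`tw_sq`: as `tau_sq` (H19/LK/RpA, without the special roots). `tw_comm`, `tw_braid`: the same case distinctions as in the header of H19/LK/RpA: `M i j = 3`, `a = b i u`, `b = b j u`: `a = b = 0`; `a > 0, b > 0`: both `single w 1`, `w = s_i s_j s_i u`; `a > 0, b = 0`: both `single (s_j s_i u) 1`;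
`a > 0 > b`: `a + b > 0`: both `h (s_j s_i u) + h w`; `a + b = 0`: both `h (s_i u) + h u`; `a + b < 0`: both `h^2 (s_i u + u + s_j s_i u + w)`; `a = 0 > b`: both `h u + h^2 (s_j u) + h^2 (s_i s_j u)`; `a, b < 0`: both
`(h^3 + h^2) u + h^3 (s_i u + s_j u + s_i s_j u + s_j s_i u + w)`; and `i`, `j` exchanged.
`tw_unit`: `tw * (tw - h) = h`. `sig_gen` etc.: as in H19/LK/RpC.

`sg_psi`: for `k ∈ T`: `b^ε k (u0 + n u) = n b^ε' k u` has the same sign and `s^ε_k (u0 + n u) = u0 + n (s^ε'_k u)`, so `psi n u0 ∘ tw ε' k = tw ε k ∘ psi n u0`; `ap_induction`. `sg_supp`: `S` is stable under the `s_k`, so `tw k` preserves `supported S`, and so does the inverse `2 (tw k) - 1`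
(`tw_sq`). `sg_sum`: `total (tw k v) = total v`.
-/

set_option autoImplicit false

namespace Pool.Agent.H19.LK

open Pool.H8.CDW Pool.Agent.H52.PAG Pool.Agent.H75.INF Pool.Agent.H2.SPH

private theorem core3 {K V : Type} [Field K] [CharZero K] [AddCommGroup V] [Module K V] (S T : Module.End K V) (a b : ℤ)
    (x0 x1 x2 x3 x4 x5 : V)
    (i0 : S x0 = if 0 < a then x1 else if a = 0 then x0 else (1 / 2 : K) • x0 + (1 / 2 : K) • x1)
    (i1 : S x1 = if 0 < -a then x0 else if -a = 0 then x1 else (1 / 2 : K) • x1 + (1 / 2 : K) • x0)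
    (i2 : S x2 = if 0 < a + b then x4 else if a + b = 0 then x2 else (1 / 2 : K) • x2 + (1 / 2 : K) • x4)
    (i4 : S x4 = if 0 < -(a + b) then x2 else if -(a + b) = 0 then x4 else (1 / 2 : K) • x4 + (1 / 2 : K) • x2)
    (i3 : S x3 = if 0 < b then x5 else if b = 0 then x3 else (1 / 2 : K) • x3 + (1 / 2 : K) • x5)
    (i5 : S x5 = if 0 < -b then x3 else if -b = 0 then x5 else (1 / 2 : K) • x5 + (1 / 2 : K) • x3)
    (j0 : T x0 = if 0 < b then x2 else if b = 0 then x0 else (1 / 2 : K) • x0 + (1 / 2 : K) • x2)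
    (j2 : T x2 = if 0 < -b then x0 else if -b = 0 then x2 else (1 / 2 : K) • x2 + (1 / 2 : K) • x0)
    (j1 : T x1 = if 0 < a + b then x3 else if a + b = 0 then x1 else (1 / 2 : K) • x1 + (1 / 2 : K) • x3)
    (j3 : T x3 = if 0 < -(a + b) then x1 else if -(a + b) = 0 then x3 else (1 / 2 : K) • x3 + (1 / 2 : K) • x1)
    (j4 : T x4 = if 0 < a then x5 else if a = 0 then x4 else (1 / 2 : K) • x4 + (1 / 2 : K) • x5)
    (j5 : T x5 = if 0 < -a then x4 else if -a = 0 then x5 else (1 / 2 : K) • x5 + (1 / 2 : K) • x4)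
    (ha : a = 0 → x1 = x0 ∧ x3 = x2 ∧ x5 = x4) (hb : b = 0 → x2 = x0 ∧ x4 = x1 ∧ x5 = x3)
    (hab : a + b = 0 → x3 = x1 ∧ x4 = x2 ∧ x5 = x0) :
    S (T (S x0)) = T (S (T x0)) := by
  rcases lt_trichotomy a 0 with h1 | h1 | h1
  · rcases lt_trichotomy b 0 with h2 | h2 | h2
    · have e1 : ¬ 0 < a := by omega
      have e2 : ¬ a = 0 := by omega
      have e3 : 0 < -a := by omega
      have e4 : ¬ 0 < b := by omega
      have e5 : ¬ b = 0 := by omega
      have e6 : 0 < -b := by omega
      have e7 : ¬ 0 < (a + b) := by omega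
      have e8 : ¬ (a + b) = 0 := by omega
      have e9 : 0 < -(a + b) := by omega
      simp only [e1, e2, e3, e4, e5, e6, e7, e8, e9, if_true, if_false] at i0 i1 i2 i3 i4 i5 j0 j1 j2 j3 j4 j5
      simp only [i0, i1, i2, i3, i4, i5, j0, j1, j2, j3, j4, j5, map_add, LinearMap.map_smul]
      try module
    · have e1 : ¬ 0 < a := by omega
      have e2 : ¬ a = 0 := by omega
      have e3 : 0 < -a := by omega
      have e4 : ¬ 0 < b := by omega
      have e5 : (b = 0) = True := eq_true (by omega)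
      have e6 : ¬ 0 < -b := by omega
      have e7 : (-b = 0) = True := eq_true (by omega)
      have e8 : ¬ 0 < (a + b) := by omega
      have e9 : ¬ (a + b) = 0 := by omega
      have e10 : 0 < -(a + b) := by omega
      simp only [e1, e2, e3, e4, e5, e6, e7, e8, e9, e10, if_true, if_false] at i0 i1 i2 i3 i4 i5 j0 j1 j2 j3 j4 j5
      obtain ⟨k1, k2, k3⟩ := hb (by omega)
      clear ha hb hab
      subst k1 k2 k3
      simp only [i0, i1, i2, i3, i4, i5, j0, j1, j2, j3, j4, j5, map_add, LinearMap.map_smul]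
      try module
    · rcases lt_trichotomy (a + b) 0 with h3 | h3 | h3
      · have e1 : ¬ 0 < a := by omega
        have e2 : ¬ a = 0 := by omega
        have e3 : 0 < -a := by omega
        have e4 : 0 < b := by omega
        have e5 : ¬ 0 < -b := by omega
        have e6 : ¬ -b = 0 := by omega
        have e7 : ¬ b = 0 := by omega
        have e8 : ¬ 0 < (a + b) := by omega
        have e9 : ¬ (a + b) = 0 := by omega
        have e10 : 0 < -(a + b) := by omega
        simp only [e1, e2, e3, e4, e5, e6, e7, e8, e9, e10, if_true, if_false] at i0 i1 i2 i3 i4 i5 j0 j1 j2 j3 j4 j5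
        simp only [i0, i1, i2, i3, i4, i5, j0, j1, j2, j3, j4, j5, map_add, LinearMap.map_smul]
        try module
      · have e1 : ¬ 0 < a := by omega
        have e2 : ¬ a = 0 := by omega
        have e3 : 0 < -a := by omega
        have e4 : 0 < b := by omega
        have e5 : ¬ 0 < -b := by omega
        have e6 : ¬ -b = 0 := by omega
        have e7 : ¬ b = 0 := by omega
        have e8 : ¬ 0 < (a + b) := by omega
        have e9 : ((a + b) = 0) = True := eq_true (by omega)
        have e10 : ¬ 0 < -(a + b) := by omega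
        have e11 : (-(a + b) = 0) = True := eq_true (by omega)
        simp only [e1, e2, e3, e4, e5, e6, e7, e8, e9, e10, e11, if_true, if_false] at i0 i1 i2 i3 i4 i5 j0 j1 j2 j3 j4 j5
        obtain ⟨k1, k2, k3⟩ := hab (by omega)
        clear ha hb hab
        subst k1 k2 k3
        simp only [i0, i1, i2, i3, i4, i5, j0, j1, j2, j3, j4, j5, map_add, LinearMap.map_smul]
        try module
      · have e1 : ¬ 0 < a := by omega
        have e2 : ¬ a = 0 := by omega
        have e3 : 0 < -a := by omega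
        have e4 : 0 < b := by omega
        have e5 : ¬ 0 < -b := by omega
        have e6 : ¬ -b = 0 := by omega
        have e7 : ¬ b = 0 := by omega
        have e8 : 0 < (a + b) := by omega
        have e9 : ¬ 0 < -(a + b) := by omega
        have e10 : ¬ -(a + b) = 0 := by omega
        have e11 : ¬ (a + b) = 0 := by omega
        simp only [e1, e2, e3, e4, e5, e6, e7, e8, e9, e10, e11, if_true, if_false] at i0 i1 i2 i3 i4 i5 j0 j1 j2 j3 j4 j5
        simp only [i0, i1, i2, i3, i4, i5, j0, j1, j2, j3, j4, j5, map_add, LinearMap.map_smul]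
        try module
  · rcases lt_trichotomy b 0 with h2 | h2 | h2
    · have e1 : ¬ 0 < a := by omega
      have e2 : (a = 0) = True := eq_true (by omega)
      have e3 : ¬ 0 < -a := by omega
      have e4 : (-a = 0) = True := eq_true (by omega)
      have e5 : ¬ 0 < b := by omega
      have e6 : ¬ b = 0 := by omega
      have e7 : 0 < -b := by omega
      have e8 : ¬ 0 < (a + b) := by omega
      have e9 : ¬ (a + b) = 0 := by omega
      have e10 : 0 < -(a + b) := by omega
      simp only [e1, e2, e3, e4, e5, e6, e7, e8, e9, e10, if_true, if_false] at i0 i1 i2 i3 i4 i5 j0 j1 j2 j3 j4 j5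
      obtain ⟨k1, k2, k3⟩ := ha (by omega)
      clear ha hb hab
      subst k1 k2 k3
      simp only [i0, i1, i2, i3, i4, i5, j0, j1, j2, j3, j4, j5, map_add, LinearMap.map_smul]
      try module
    · have e1 : ¬ 0 < a := by omega
      have e2 : (a = 0) = True := eq_true (by omega)
      have e3 : ¬ 0 < -a := by omega
      have e4 : (-a = 0) = True := eq_true (by omega)
      have e5 : ¬ 0 < b := by omega
      have e6 : (b = 0) = True := eq_true (by omega)
      have e7 : ¬ 0 < -b := by omega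
      have e8 : (-b = 0) = True := eq_true (by omega)
      have e9 : ¬ 0 < (a + b) := by omega
      have e10 : ((a + b) = 0) = True := eq_true (by omega)
      have e11 : ¬ 0 < -(a + b) := by omega
      have e12 : (-(a + b) = 0) = True := eq_true (by omega)
      simp only [e1, e2, e3, e4, e5, e6, e7, e8, e9, e10, e11, e12, if_true, if_false] at i0 i1 i2 i3 i4 i5 j0 j1 j2 j3 j4 j5
      rw [i0, j0, i0, j0]
    · have e1 : ¬ 0 < a := by omega
      have e2 : (a = 0) = True := eq_true (by omega)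
      have e3 : ¬ 0 < -a := by omega
      have e4 : (-a = 0) = True := eq_true (by omega)
      have e5 : 0 < b := by omega
      have e6 : ¬ 0 < -b := by omega
      have e7 : ¬ -b = 0 := by omega
      have e8 : ¬ b = 0 := by omega
      have e9 : 0 < (a + b) := by omega
      have e10 : ¬ 0 < -(a + b) := by omega
      have e11 : ¬ -(a + b) = 0 := by omega
      have e12 : ¬ (a + b) = 0 := by omega
      simp only [e1, e2, e3, e4, e5, e6, e7, e8, e9, e10, e11, e12, if_true, if_false] at i0 i1 i2 i3 i4 i5 j0 j1 j2 j3 j4 j5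
      obtain ⟨k1, k2, k3⟩ := ha (by omega)
      clear ha hb hab
      subst k1 k2 k3
      simp only [i0, i1, i2, i3, i4, i5, j0, j1, j2, j3, j4, j5, map_add, LinearMap.map_smul]
      try module
  · rcases lt_trichotomy b 0 with h2 | h2 | h2
    · rcases lt_trichotomy (a + b) 0 with h3 | h3 | h3
      · have e1 : 0 < a := by omega
        have e2 : ¬ 0 < -a := by omega
        have e3 : ¬ -a = 0 := by omega
        have e4 : ¬ a = 0 := by omega
        have e5 : ¬ 0 < b := by omega
        have e6 : ¬ b = 0 := by omega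
        have e7 : 0 < -b := by omega
        have e8 : ¬ 0 < (a + b) := by omega
        have e9 : ¬ (a + b) = 0 := by omega
        have e10 : 0 < -(a + b) := by omega
        simp only [e1, e2, e3, e4, e5, e6, e7, e8, e9, e10, if_true, if_false] at i0 i1 i2 i3 i4 i5 j0 j1 j2 j3 j4 j5
        simp only [i0, i1, i2, i3, i4, i5, j0, j1, j2, j3, j4, j5, map_add, LinearMap.map_smul]
        try module
      · have e1 : 0 < a := by omega
        have e2 : ¬ 0 < -a := by omega
        have e3 : ¬ -a = 0 := by omega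
        have e4 : ¬ a = 0 := by omega
        have e5 : ¬ 0 < b := by omega
        have e6 : ¬ b = 0 := by omega
        have e7 : 0 < -b := by omega
        have e8 : ¬ 0 < (a + b) := by omega
        have e9 : ((a + b) = 0) = True := eq_true (by omega)
        have e10 : ¬ 0 < -(a + b) := by omega
        have e11 : (-(a + b) = 0) = True := eq_true (by omega)
        simp only [e1, e2, e3, e4, e5, e6, e7, e8, e9, e10, e11, if_true, if_false] at i0 i1 i2 i3 i4 i5 j0 j1 j2 j3 j4 j5
        obtain ⟨k1, k2, k3⟩ := hab (by omega)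
        clear ha hb hab
        subst k1 k2 k3
        simp only [i0, i1, i2, i3, i4, i5, j0, j1, j2, j3, j4, j5, map_add, LinearMap.map_smul]
        try module
      · have e1 : 0 < a := by omega
        have e2 : ¬ 0 < -a := by omega
        have e3 : ¬ -a = 0 := by omega
        have e4 : ¬ a = 0 := by omega
        have e5 : ¬ 0 < b := by omega
        have e6 : ¬ b = 0 := by omega
        have e7 : 0 < -b := by omega
        have e8 : 0 < (a + b) := by omega
        have e9 : ¬ 0 < -(a + b) := by omega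
        have e10 : ¬ -(a + b) = 0 := by omega
        have e11 : ¬ (a + b) = 0 := by omega
        simp only [e1, e2, e3, e4, e5, e6, e7, e8, e9, e10, e11, if_true, if_false] at i0 i1 i2 i3 i4 i5 j0 j1 j2 j3 j4 j5
        simp only [i0, i1, i2, i3, i4, i5, j0, j1, j2, j3, j4, j5, map_add, LinearMap.map_smul]
        try module
    · have e1 : 0 < a := by omega
      have e2 : ¬ 0 < -a := by omega
      have e3 : ¬ -a = 0 := by omega
      have e4 : ¬ a = 0 := by omega
      have e5 : ¬ 0 < b := by omega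
      have e6 : (b = 0) = True := eq_true (by omega)
      have e7 : ¬ 0 < -b := by omega
      have e8 : (-b = 0) = True := eq_true (by omega)
      have e9 : 0 < (a + b) := by omega
      have e10 : ¬ 0 < -(a + b) := by omega
      have e11 : ¬ -(a + b) = 0 := by omega
      have e12 : ¬ (a + b) = 0 := by omega
      simp only [e1, e2, e3, e4, e5, e6, e7, e8, e9, e10, e11, e12, if_true, if_false] at i0 i1 i2 i3 i4 i5 j0 j1 j2 j3 j4 j5
      obtain ⟨k1, k2, k3⟩ := hb (by omega)
      clear ha hb hab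
      subst k1 k2 k3
      simp only [i0, i1, i2, i3, i4, i5, j0, j1, j2, j3, j4, j5, map_add, LinearMap.map_smul]
      try module
    · have e1 : 0 < a := by omega
      have e2 : ¬ 0 < -a := by omega
      have e3 : ¬ -a = 0 := by omega
      have e4 : ¬ a = 0 := by omega
      have e5 : 0 < b := by omega
      have e6 : ¬ 0 < -b := by omega
      have e7 : ¬ -b = 0 := by omega
      have e8 : ¬ b = 0 := by omega
      have e9 : 0 < (a + b) := by omega
      have e10 : ¬ 0 < -(a + b) := by omega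
      have e11 : ¬ -(a + b) = 0 := by omega
      have e12 : ¬ (a + b) = 0 := by omega
      simp only [e1, e2, e3, e4, e5, e6, e7, e8, e9, e10, e11, e12, if_true, if_false] at i0 i1 i2 i3 i4 i5 j0 j1 j2 j3 j4 j5
      simp only [i0, i1, i2, i3, i4, i5, j0, j1, j2, j3, j4, j5, map_add, LinearMap.map_smul]
      try module


private theorem core2 {K V : Type} [Field K] [AddCommGroup V] [Module K V] (S T : Module.End K V) (a b : ℤ)
    (x0 x1 x2 x3 : V)
    (i0 : S x0 = if 0 < a then x1 else if a = 0 then x0 else (1 / 2 : K) • x0 + (1 / 2 : K) • x1)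
    (i2 : S x2 = if 0 < a then x3 else if a = 0 then x2 else (1 / 2 : K) • x2 + (1 / 2 : K) • x3)
    (j0 : T x0 = if 0 < b then x2 else if b = 0 then x0 else (1 / 2 : K) • x0 + (1 / 2 : K) • x2)
    (j1 : T x1 = if 0 < b then x3 else if b = 0 then x1 else (1 / 2 : K) • x1 + (1 / 2 : K) • x3) :
    S (T x0) = T (S x0) := by
  rw [i0, j0]
  by_cases h1 : 0 < a
  · rw [if_pos h1] at i0 i2
    rw [if_pos h1, j1]
    by_cases h2 : 0 < b
    · rw [if_pos h2, if_pos h2, i2]
    · rw [if_neg h2, if_neg h2]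
      by_cases h3 : b = 0
      · rw [if_pos h3, if_pos h3, i0]
      · rw [if_neg h3, if_neg h3, map_add, LinearMap.map_smul, LinearMap.map_smul, i0, i2]
  · rw [if_neg h1] at i0 i2
    rw [if_neg h1]
    by_cases h3 : a = 0
    · rw [if_pos h3] at i0 i2
      rw [if_pos h3, j0]
      by_cases h2 : 0 < b
      · rw [if_pos h2, i2]
      · rw [if_neg h2]
        by_cases h4 : b = 0
        · rw [if_pos h4, i0]
        · rw [if_neg h4, map_add, LinearMap.map_smul, LinearMap.map_smul, i0, i2]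
    · rw [if_neg h3] at i0 i2
      rw [if_neg h3, map_add, LinearMap.map_smul, LinearMap.map_smul, j0, j1]
      by_cases h2 : 0 < b
      · rw [if_pos h2, if_pos h2, i2]
      · rw [if_neg h2, if_neg h2]
        by_cases h4 : b = 0
        · rw [if_pos h4, if_pos h4, i0]
        · rw [if_neg h4, if_neg h4, map_add, LinearMap.map_smul, LinearMap.map_smul, i0, i2]
          module

private theorem core1 {K V : Type} [Field K] [CharZero K] [AddCommGroup V] [Module K V] (S : Module.End K V) (a : ℤ)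
    (x0 x1 : V)
    (i0 : S x0 = if 0 < a then x1 else if a = 0 then x0 else (1 / 2 : K) • x0 + (1 / 2 : K) • x1)
    (i1 : S x1 = if 0 < -a then x0 else if -a = 0 then x1 else (1 / 2 : K) • x1 + (1 / 2 : K) • x0) :
    S (S x0) = (1 / 2 : K) • S x0 + (1 / 2 : K) • x0 := by
  rcases lt_trichotomy a 0 with h | h | h
  · rw [if_neg (by omega), if_neg (by omega)] at i0
    rw [if_pos (by omega)] at i1
    rw [i0, map_add, LinearMap.map_smul, LinearMap.map_smul, i0, i1]
  · rw [if_neg (by omega), if_pos h] at i0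
    rw [i0, i0]
    module
  · rw [if_pos h] at i0
    rw [if_neg (by omega), if_neg (by omega)] at i1
    rw [i0, i1]

private theorem unit_core {K V : Type} [Field K] [CharZero K] [AddCommGroup V] [Module K V] (T : Module.End K V)
    (h : ∀ v, T (T v) = (1 / 2 : K) • T v + (1 / 2 : K) • v) : IsUnit T := by
  refine ⟨⟨T, (2 : K) • T - 1, ?_, ?_⟩, rfl⟩
  · ext v
    show T ((2 : K) • T v - v) = v
    rw [map_sub, LinearMap.map_smul, h]
    module
  · ext v
    show (2 : K) • T (T v) - T v = v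
    rw [h]
    module

variable {B : Type} (M : CoxeterMatrix B)

/-- the shifted pairing -/
noncomputable def bb (ε : B → ℤ) (i : B) (u : B →₀ ℤ) : ℤ := ε i + pa M i u

/-- the shifted reflection -/
noncomputable def sr (ε : B → ℤ) (i : B) (u : B →₀ ℤ) : B →₀ ℤ := u - Finsupp.single i (bb M ε i u)

open Classical in
/-- the values of `tw` -/
noncomputable def twv (ε : B → ℤ) (k : B) (u : B →₀ ℤ) : (B →₀ ℤ) →₀ KK :=
  if 0 < bb M ε k u then Finsupp.single (sr M ε k u) 1 else if bb M ε k u = 0 then Finsupp.single u 1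
    else Finsupp.single u (hf KK) + Finsupp.single (sr M ε k u) (hf KK)

/-- the operators of the lattice module -/
noncomputable def tw (ε : B → ℤ) (k : B) : Module.End KK ((B →₀ ℤ) →₀ KK) := Finsupp.linearCombination KK (twv M ε k)

variable {M}

theorem tw_single (ε : B → ℤ) (k : B) (u : B →₀ ℤ) (a : KK) :
    tw M ε k (Finsupp.single u a) = a • twv M ε k u := Finsupp.linearCombination_single _ _ _

private theorem hfe : hf KK = 1 / 2 := by
  unfold hf
  rw [map_div₀, map_one, map_ofNat]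

private theorem twe (ε : B → ℤ) (k : B) (u u' : B →₀ ℤ) (n : ℤ) (hn : bb M ε k u = n) (hu : sr M ε k u = u') :
    tw M ε k (Finsupp.single u 1) = if 0 < n then Finsupp.single u' (1 : KK) else if n = 0 then Finsupp.single u 1
      else (1 / 2 : KK) • Finsupp.single u 1 + (1 / 2 : KK) • Finsupp.single u' 1 := by
  rw [tw_single, one_smul, twv, hn, hu, hfe, Finsupp.smul_single, Finsupp.smul_single, smul_eq_mul, mul_one]

private theorem bb_sr (ε : B → ℤ) (i j : B) (u : B →₀ ℤ) :
    bb M ε j (sr M ε i u) = bb M ε j u - bb M ε i u * cm M j i := by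
  have h : bb M ε j (sr M ε i u) = ε j + pa M j (u - Finsupp.single i (bb M ε i u)) := rfl
  rw [h, pa_sub, pa_single]
  have h2 : bb M ε j u = ε j + pa M j u := rfl
  rw [h2]
  ring

private theorem sr_def (ε : B → ℤ) (i : B) (u : B →₀ ℤ) : sr M ε i u = u - Finsupp.single i (bb M ε i u) := rfl

private theorem bb_sr_self (ε : B → ℤ) (i : B) (u : B →₀ ℤ) : bb M ε i (sr M ε i u) = -bb M ε i u := by
  rw [bb_sr, cm_self]
  ring

private theorem bb_sr_two (ε : B → ℤ) {i j : B} (h : M i j = 2) (u : B →₀ ℤ) :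
    bb M ε i (sr M ε j u) = bb M ε i u ∧ bb M ε j (sr M ε i u) = bb M ε j u := by
  rw [bb_sr, bb_sr, cm_two h, cm_symm, cm_two h]
  constructor <;> ring

private theorem bb_sr_three (ε : B → ℤ) {i j : B} (h : M i j = 3) (u : B →₀ ℤ) :
    bb M ε i (sr M ε j u) = bb M ε i u + bb M ε j u ∧ bb M ε j (sr M ε i u) = bb M ε i u + bb M ε j u := by
  rw [bb_sr, bb_sr, cm_three h, cm_symm, cm_three h]
  constructor <;> ring

private theorem sr_sr (ε : B → ℤ) (i : B) (u : B →₀ ℤ) : sr M ε i (sr M ε i u) = u := by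
  rw [sr_def ε i (sr M ε i u), bb_sr_self, Finsupp.single_neg, sub_neg_eq_add, sr_def, sub_add_cancel]

private theorem sr_zero {ε : B → ℤ} {i : B} {u : B →₀ ℤ} (h : bb M ε i u = 0) : sr M ε i u = u := by
  rw [sr_def, h, Finsupp.single_zero, sub_zero]

private theorem sr_comm (ε : B → ℤ) {i j : B} (h : M i j = 2) (u : B →₀ ℤ) :
    sr M ε i (sr M ε j u) = sr M ε j (sr M ε i u) := by
  rw [sr_def ε i (sr M ε j u), sr_def ε j (sr M ε i u), (bb_sr_two ε h u).1, (bb_sr_two ε h u).2, sr_def, sr_def]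
  abel

private theorem sr_braid (ε : B → ℤ) {i j : B} (h : M i j = 3) (u : B →₀ ℤ) :
    sr M ε i (sr M ε j (sr M ε i u)) = sr M ε j (sr M ε i (sr M ε j u)) := by
  have h1 := (bb_sr_three ε h u).2
  have h2 : bb M ε i (sr M ε j (sr M ε i u)) = bb M ε j u := by
    rw [(bb_sr_three ε h _).1, bb_sr_self, h1]
    ring
  have h3 := (bb_sr_three ε h u).1
  have h4 : bb M ε j (sr M ε i (sr M ε j u)) = bb M ε i u := by
    rw [(bb_sr_three ε h _).2, bb_sr_self, h3]
    ring
  rw [sr_def ε i (sr M ε j (sr M ε i u)), h2, sr_def ε j (sr M ε i u), h1, sr_def ε i u,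
    sr_def ε j (sr M ε i (sr M ε j u)), h4, sr_def ε i (sr M ε j u), h3, sr_def ε j u,
    Finsupp.single_add, Finsupp.single_add]
  abel

theorem tw_sq (ε : B → ℤ) (k : B) (v : (B →₀ ℤ) →₀ KK) :
    tw M ε k (tw M ε k v) = hf KK • tw M ε k v + hf KK • v := by
  have h : tw M ε k * tw M ε k = (1 / 2 : KK) • tw M ε k + (1 / 2 : KK) • (1 : Module.End KK ((B →₀ ℤ) →₀ KK)) := by
    refine Finsupp.lhom_ext' fun u => LinearMap.ext_ring ?_
    show tw M ε k (tw M ε k (Finsupp.single u 1)) =
      (1 / 2 : KK) • tw M ε k (Finsupp.single u 1) + (1 / 2 : KK) • Finsupp.single u 1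
    exact core1 _ (bb M ε k u) _ (Finsupp.single (sr M ε k u) 1) (twe ε k u _ _ rfl rfl)
      (twe ε k _ _ _ (bb_sr_self ε k u) (sr_sr ε k u))
  rw [hfe]
  exact LinearMap.congr_fun h v

theorem tw_comm (ε : B → ℤ) {i j : B} (hij : M i j = 2) : tw M ε i * tw M ε j = tw M ε j * tw M ε i := by
  refine Finsupp.lhom_ext' fun u => LinearMap.ext_ring ?_
  show tw M ε i (tw M ε j (Finsupp.single u 1)) = tw M ε j (tw M ε i (Finsupp.single u 1))
  exact core2 _ _ (bb M ε i u) (bb M ε j u) _ (Finsupp.single (sr M ε i u) 1) (Finsupp.single (sr M ε j u) 1)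
    (Finsupp.single (sr M ε i (sr M ε j u)) 1) (twe ε i u _ _ rfl rfl) (twe ε i _ _ _ (bb_sr_two ε hij u).1 rfl)
    (twe ε j u _ _ rfl rfl) (twe ε j _ _ _ (bb_sr_two ε hij u).2 (sr_comm ε hij u).symm)

theorem tw_braid (ε : B → ℤ) {i j : B} (hij : M i j = 3) :
    tw M ε i * tw M ε j * tw M ε i = tw M ε j * tw M ε i * tw M ε j := by
  refine Finsupp.lhom_ext' fun u => LinearMap.ext_ring ?_
  show tw M ε i (tw M ε j (tw M ε i (Finsupp.single u 1))) = tw M ε j (tw M ε i (tw M ε j (Finsupp.single u 1)))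
  have h1 := (bb_sr_three ε hij u).2
  have h2 : bb M ε i (sr M ε j (sr M ε i u)) = bb M ε j u := by
    rw [(bb_sr_three ε hij _).1, bb_sr_self, h1]
    ring
  have h3 := (bb_sr_three ε hij u).1
  have h4 : bb M ε j (sr M ε i (sr M ε j u)) = bb M ε i u := by
    rw [(bb_sr_three ε hij _).2, bb_sr_self, h3]
    ring
  have hw := sr_braid ε hij u
  refine core3 _ _ (bb M ε i u) (bb M ε j u) _ (Finsupp.single (sr M ε i u) 1) (Finsupp.single (sr M ε j u) 1)
    (Finsupp.single (sr M ε j (sr M ε i u)) 1) (Finsupp.single (sr M ε i (sr M ε j u)) 1)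
    (Finsupp.single (sr M ε i (sr M ε j (sr M ε i u))) 1) (twe ε i _ _ _ rfl rfl)
    (twe ε i _ _ _ (bb_sr_self ε i u) (sr_sr ε i u)) (twe ε i _ _ _ h3 rfl)
    (twe ε i _ _ _ (by rw [bb_sr_self, h3]) (sr_sr ε i _)) (twe ε i _ _ _ h2 rfl)
    (twe ε i _ _ _ (by rw [bb_sr_self, h2]) (sr_sr ε i _)) (twe ε j _ _ _ rfl rfl)
    (twe ε j _ _ _ (bb_sr_self ε j u) (sr_sr ε j u)) (twe ε j _ _ _ h1 rfl)
    (twe ε j _ _ _ (by rw [bb_sr_self, h1]) (sr_sr ε j _)) (twe ε j _ _ _ h4 hw.symm)
    (twe ε j _ _ _ (by rw [hw, bb_sr_self, h4]) (by rw [hw, sr_sr])) ?_ ?_ ?_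
  · intro h0
    refine ⟨by rw [sr_zero h0], by rw [sr_zero h0], ?_⟩
    rw [sr_zero (i := i) (u := u) h0]
  · intro h0
    refine ⟨by rw [sr_zero h0], by rw [sr_zero (i := j) (u := u) h0], ?_⟩
    rw [hw, sr_zero (i := j) (u := u) h0]
  · intro h0
    have e1 : sr M ε j (sr M ε i u) = sr M ε i u := sr_zero (by rw [h1, h0])
    have e2 : sr M ε i (sr M ε j u) = sr M ε j u := sr_zero (by rw [h3, h0])
    exact ⟨by rw [e1], by rw [e2], by rw [e1, sr_sr]⟩

theorem tw_unit (ε : B → ℤ) (k : B) : IsUnit (tw M ε k) := by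
  apply unit_core
  intro v
  rw [tw_sq, hfe]

theorem twu_alt (hM : SLa M) (ε : B → ℤ) (i j : B) :
    alt (tw_unit (M := M) ε i).unit (tw_unit (M := M) ε j).unit (M i j) =
      alt (tw_unit (M := M) ε j).unit (tw_unit (M := M) ε i).unit (M i j) := by
  by_cases hij : i = j
  · rw [hij]
  · rcases hM i j hij with h | h
    · rw [h]
      simp only [alt, mul_one]
      apply Units.ext
      exact tw_comm ε h
    · rw [h]
      simp only [alt, mul_one]
      apply Units.ext
      have e := tw_braid ε h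
      rw [mul_assoc, mul_assoc] at e
      exact e

/-- the representation of the Artin group on the lattice module -/
noncomputable def sgu (hM : SLa M) (ε : B → ℤ) : Art M →* (Module.End KK ((B →₀ ℤ) →₀ KK))ˣ :=
  lift (fun i => (tw_unit (M := M) ε i).unit) fun i j _ => twu_alt hM ε i j

/-- the operator of `x` -/
noncomputable def sg (hM : SLa M) (ε : B → ℤ) (x : Art M) : Module.End KK ((B →₀ ℤ) →₀ KK) :=
  (sgu hM ε x : (Module.End KK ((B →₀ ℤ) →₀ KK))ˣ)

theorem sg_one (hM : SLa M) (ε : B → ℤ) : sg hM ε 1 = 1 := by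
  unfold sg
  rw [map_one]
  rfl

theorem sg_mul (hM : SLa M) (ε : B → ℤ) (x y : Art M) (v : (B →₀ ℤ) →₀ KK) :
    sg hM ε (x * y) v = sg hM ε x (sg hM ε y v) := by
  unfold sg
  rw [map_mul]
  rfl

theorem sg_gen (hM : SLa M) (ε : B → ℤ) (i : B) : sg hM ε (gen M i) = tw M ε i := by
  unfold sg sgu
  rw [lift_gen]
  rfl

private theorem sg_inv (hM : SLa M) (ε : B → ℤ) (x : Art M) (v : (B →₀ ℤ) →₀ KK) :
    sg hM ε x (sg hM ε x⁻¹ v) = v := by
  rw [← sg_mul, mul_inv_cancel, sg_one]
  rfl

private theorem sg_inv' (hM : SLa M) (ε : B → ℤ) (x : Art M) (v : (B →₀ ℤ) →₀ KK) :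
    sg hM ε x⁻¹ (sg hM ε x v) = v := by
  rw [← sg_mul, inv_mul_cancel, sg_one]
  rfl

/-- scaling and translation -/
noncomputable def psi (n : ℤ) (u₀ : B →₀ ℤ) : ((B →₀ ℤ) →₀ KK) →ₗ[KK] ((B →₀ ℤ) →₀ KK) :=
  Finsupp.lmapDomain KK KK fun u => u₀ + n • u

private theorem psi_single (n : ℤ) (u₀ u : B →₀ ℤ) (a : KK) :
    psi n u₀ (Finsupp.single u a) = Finsupp.single (u₀ + n • u) a := Finsupp.mapDomain_single

private theorem psi_tw {ε ε' : B → ℤ} {n : ℤ} (hn : 0 < n) {u₀ : B →₀ ℤ} {k : B}
    (h : ε k + pa M k u₀ = n * ε' k) (v : (B →₀ ℤ) →₀ KK) :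
    psi n u₀ (tw M ε' k v) = tw M ε k (psi n u₀ v) := by
  have key : (psi n u₀ : ((B →₀ ℤ) →₀ KK) →ₗ[KK] ((B →₀ ℤ) →₀ KK)) ∘ₗ tw M ε' k = tw M ε k ∘ₗ psi n u₀ := by
    refine Finsupp.lhom_ext' fun u => LinearMap.ext_ring ?_
    show psi n u₀ (tw M ε' k (Finsupp.single u 1)) = tw M ε k (psi n u₀ (Finsupp.single u 1))
    have hb : bb M ε k (u₀ + n • u) = n * bb M ε' k u := by
      unfold bb
      rw [pa_add, pa_smul]
      linear_combination h
    have hs : sr M ε k (u₀ + n • u) = u₀ + n • sr M ε' k u := by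
      rw [sr_def, hb, sr_def, smul_sub, Finsupp.smul_single, smul_eq_mul]
      abel
    rw [psi_single, twe ε' k u _ _ rfl rfl, twe ε k _ _ _ hb hs]
    rcases lt_trichotomy (bb M ε' k u) 0 with h1 | h1 | h1
    · have h2 : n * bb M ε' k u < 0 := mul_neg_of_pos_of_neg hn h1
      rw [if_neg (by omega), if_neg (by omega), if_neg (by omega), if_neg (by omega), map_add, LinearMap.map_smul,
        LinearMap.map_smul, psi_single, psi_single]
    · rw [h1, mul_zero, if_neg (lt_irrefl _), if_pos rfl, if_neg (lt_irrefl _), if_pos rfl, psi_single]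
    · have h2 : 0 < n * bb M ε' k u := mul_pos hn h1
      rw [if_pos h1, if_pos h2, psi_single]
  exact LinearMap.congr_fun key v

theorem sg_psi (hM : SLa M) {T : Set B} {ε ε' : B → ℤ} {n : ℤ} (hn : 0 < n) {u₀ : B →₀ ℤ}
    (h : ∀ k ∈ T, ε k + pa M k u₀ = n * ε' k) {x : Art M} (hx : x ∈ ap M T) (v : (B →₀ ℤ) →₀ KK) :
    psi n u₀ (sg hM ε' x v) = sg hM ε x (psi n u₀ v) := by
  refine ap_induction (K := T) (P := fun x => ∀ v, psi n u₀ (sg hM ε' x v) = sg hM ε x (psi n u₀ v)) ?_ ?_ ?_ hx v
  · intro v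
    rw [sg_one, sg_one]
    rfl
  · intro x _ k hk ih v
    rw [sg_mul, sg_mul, ih, sg_gen, sg_gen, psi_tw hn (h k hk)]
  · intro x _ k hk ih v
    rw [sg_mul, sg_mul, ih]
    congr 1
    have e : psi n u₀ v = sg hM ε (gen M k) (psi n u₀ (sg hM ε' (gen M k)⁻¹ v)) := by
      rw [sg_gen, ← psi_tw hn (h k hk), ← sg_gen hM, sg_inv]
    rw [e, sg_inv']

private theorem tw_inv (hM : SLa M) (ε : B → ℤ) (k : B) (v : (B →₀ ℤ) →₀ KK) :
    sg hM ε (gen M k)⁻¹ v = (2 : KK) • tw M ε k v - v := by
  have e : v = tw M ε k (sg hM ε (gen M k)⁻¹ v) := by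
    rw [← sg_gen hM, sg_inv]
  obtain ⟨w, hw⟩ : ∃ w, w = sg hM ε (gen M k)⁻¹ v := ⟨_, rfl⟩
  rw [← hw] at e ⊢
  rw [e, tw_sq, hfe, ← e]
  rw [smul_add, smul_smul, smul_smul]
  norm_num

theorem sg_supp (hM : SLa M) {T : Set B} {ε : B → ℤ} {S : Set (B →₀ ℤ)} (hS : ∀ k ∈ T, ∀ u ∈ S, sr M ε k u ∈ S)
    {x : Art M} (hx : x ∈ ap M T) {v : (B →₀ ℤ) →₀ KK} (hv : v ∈ Finsupp.supported KK KK S) :
    sg hM ε x v ∈ Finsupp.supported KK KK S := by
  have base : ∀ k ∈ T, ∀ v ∈ Finsupp.supported KK KK S, tw M ε k v ∈ Finsupp.supported KK KK S := by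
    intro k hk v hv
    rw [Finsupp.supported_eq_span_single] at hv
    induction hv using Submodule.span_induction with
    | mem v hv =>
      obtain ⟨u, hu, rfl⟩ := hv
      show tw M ε k (Finsupp.single u 1) ∈ _
      rw [twe ε k u _ _ rfl rfl]
      have e1 := Finsupp.single_mem_supported KK (1 : KK) hu
      have e2 := Finsupp.single_mem_supported KK (1 : KK) (hS k hk u hu)
      split_ifs
      · exact e2
      · exact e1
      · exact add_mem (Submodule.smul_mem _ _ e1) (Submodule.smul_mem _ _ e2)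
    | zero => rw [map_zero]; exact zero_mem _
    | add v w _ _ h1 h2 => rw [map_add]; exact add_mem h1 h2
    | smul a v _ h1 => rw [LinearMap.map_smul]; exact Submodule.smul_mem _ _ h1
  refine ap_induction (K := T) (P := fun x => ∀ v ∈ Finsupp.supported KK KK S, sg hM ε x v ∈ Finsupp.supported KK KK S)
    ?_ ?_ ?_ hx v hv
  · intro v hv
    rw [sg_one]
    exact hv
  · intro x _ k hk ih v hv
    rw [sg_mul, sg_gen]
    exact ih _ (base k hk v hv)
  · intro x _ k hk ih v hv
    rw [sg_mul, tw_inv]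
    exact ih _ (sub_mem (Submodule.smul_mem _ _ (base k hk v hv)) hv)

theorem sg_sum (hM : SLa M) (ε : B → ℤ) (x : Art M) (v : (B →₀ ℤ) →₀ KK) :
    Finsupp.linearCombination KK (fun _ : B →₀ ℤ => (1 : KK)) (sg hM ε x v) =
      Finsupp.linearCombination KK (fun _ : B →₀ ℤ => (1 : KK)) v := by
  have base : ∀ (k : B) (v : (B →₀ ℤ) →₀ KK), Finsupp.linearCombination KK (fun _ : B →₀ ℤ => (1 : KK)) (tw M ε k v) =
      Finsupp.linearCombination KK (fun _ : B →₀ ℤ => (1 : KK)) v := by
    intro k v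
    have key : (Finsupp.linearCombination KK (fun _ : B →₀ ℤ => (1 : KK))) ∘ₗ tw M ε k =
        Finsupp.linearCombination KK (fun _ : B →₀ ℤ => (1 : KK)) := by
      refine Finsupp.lhom_ext' fun u => LinearMap.ext_ring ?_
      show Finsupp.linearCombination KK (fun _ : B →₀ ℤ => (1 : KK)) (tw M ε k (Finsupp.single u 1)) =
        Finsupp.linearCombination KK (fun _ : B →₀ ℤ => (1 : KK)) (Finsupp.single u 1)
      rw [twe ε k u _ _ rfl rfl]
      split_ifs
      · rw [Finsupp.linearCombination_single, Finsupp.linearCombination_single]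
      · rfl
      · rw [map_add, LinearMap.map_smul, LinearMap.map_smul, Finsupp.linearCombination_single,
          Finsupp.linearCombination_single]
        norm_num
    exact LinearMap.congr_fun key v
  have hx : x ∈ ap M Set.univ := by rw [ap_univ]; trivial
  refine ap_induction (K := Set.univ) (P := fun x => ∀ v, Finsupp.linearCombination KK (fun _ : B →₀ ℤ => (1 : KK))
    (sg hM ε x v) = Finsupp.linearCombination KK (fun _ : B →₀ ℤ => (1 : KK)) v) ?_ ?_ ?_ hx v
  · intro v
    rw [sg_one]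
    rfl
  · intro x _ k hk ih v
    rw [sg_mul, ih, sg_gen, base]
  · intro x _ k hk ih v
    rw [sg_mul, ih, ← base k (sg hM ε (gen M k)⁻¹ v), ← sg_gen hM, sg_inv]

end Pool.Agent.H19.LK
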